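import Pool.Agent.Helper59.EI.LFin

/-!
# EI-3. Abelian p-groups with finitely many elements of order p
-/

set_option autoImplicit false

namespace Pool.Agent.Helper59.EI

universe u

namespace Ab

/-- a finitely generated subgroup of an abelian torsion group is finite -/
theorem finite_closure {G : Type u} [Group G] {B : Subgroup G} {p : ℕ} (hp0 : p ≠ 0)
    (hc : ∀ x ∈ B, ∀ y ∈ B, x * y = y * x) (hp : ∀ x ∈ B, PEl p x) {s : Set G} (hs : s.Finite)
    (hsB : s ⊆ B) : ((Subgroup.closure s : Subgroup G) : Set G).Finite := by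
  have hle : Subgroup.closure s ≤ B := (Subgroup.closure_le B).2 hsB
  let _ : CommGroup (Subgroup.closure s) :=
    { (inferInstance : Group (Subgroup.closure s)) with
      mul_comm := fun x y => Subtype.ext (hc x (hle x.2) y (hle y.2)) }
  have hfg : Group.FG (Subgroup.closure s) := by
    rw [Group.fg_iff_subgroup_fg]
    exact ⟨hs.toFinset, by rw [hs.coe_toFinset]⟩
  have htor : IsMulTorsion (Subgroup.closure s) := by
    intro x
    obtain ⟨k, hk⟩ := hp x (hle x.2)
    rw [isOfFinOrder_iff_pow_eq_one]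
    exact ⟨p ^ k, Nat.pos_of_ne_zero (pow_ne_zero k hp0), Subtype.ext hk⟩
  have := CommGroup.finite_of_fg_isMulTorsion (Subgroup.closure s) htor
  exact Set.toFinite _

/-- `|F / F^p| ≤ |Ω|` for finite `F` -/
theorem card_quot_le {A : Type u} [CommGroup A] {p : ℕ} (hfin : {x : A | x ^ p = 1}.Finite)
    (hF : ∀ s : Finset A, ((Subgroup.closure (s : Set A) : Subgroup A) : Set A).Finite) :
    Finite (A ⧸ (powMonoidHom p : A →* A).range) := by
  classical
  by_contra hinf
  rw [not_finite_iff_infinite] at hinf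
  set R := (powMonoidHom p : A →* A).range with hR
  obtain ⟨t, ht⟩ := Infinite.exists_subset_card_eq (A ⧸ R) (hfin.toFinset.card + 1)
  set s : Finset A := t.image Quotient.out with hs
  set F := Subgroup.closure (s : Set A) with hFdef
  have hFfin : Finite F := (hF s).to_subtype
  -- the power map of `F`
  set f : F →* F := powMonoidHom p with hf
  have h1 : Nat.card f.ker * Nat.card f.range = Nat.card F := by
    rw [← Subgroup.index_ker f, mul_comm]
    exact Subgroup.index_mul_card f.ker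
  have h2 : f.range.index * Nat.card f.range = Nat.card F := Subgroup.index_mul_card f.range
  have h3 : f.range.index = Nat.card f.ker := by
    have h0 : 0 < Nat.card f.range := Nat.card_pos
    exact Nat.eq_of_mul_eq_mul_right h0 (h2.trans h1.symm)
  have h4 : Nat.card f.ker ≤ hfin.toFinset.card := by
    have : Nat.card f.ker ≤ Nat.card hfin.toFinset := by
      refine Nat.card_le_card_of_injective
        (fun x : f.ker => (⟨((x : F) : A), ?_⟩ : hfin.toFinset)) ?_
      · rw [Set.Finite.mem_toFinset]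
        have hx := x.2
        rw [MonoidHom.mem_ker] at hx
        exact congrArg (fun z : F => (z : A)) hx
      · intro x y hxy
        exact Subtype.ext (Subtype.ext (congrArg (fun z : hfin.toFinset => (z : A)) hxy))
    rwa [Nat.card_eq_fintype_card (α := hfin.toFinset), Fintype.card_coe] at this
  have h5 : t.card ≤ f.range.index := by
    have hout : ∀ z ∈ t, Quotient.out z ∈ F := by
      intro z hz
      exact Subgroup.subset_closure (Finset.mem_coe.2 (Finset.mem_image_of_mem _ hz))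
    have : Nat.card t ≤ Nat.card (F ⧸ f.range) := by
      refine Nat.card_le_card_of_injective
        (fun z : t => (QuotientGroup.mk (⟨Quotient.out (z : A ⧸ R), hout z z.2⟩ : F) :
          F ⧸ f.range)) ?_
      intro z w hzw
      have h6 := QuotientGroup.eq.1 hzw
      obtain ⟨v, hv⟩ := h6
      have h7 : (Quotient.out (z : A ⧸ R))⁻¹ * Quotient.out (w : A ⧸ R) ∈ R :=
        ⟨v, congrArg (fun z : F => (z : A)) hv⟩
      have h8 : (QuotientGroup.mk (Quotient.out (z : A ⧸ R)) : A ⧸ R) =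
          QuotientGroup.mk (Quotient.out (w : A ⧸ R)) := QuotientGroup.eq.2 h7
      rw [QuotientGroup.out_eq', QuotientGroup.out_eq'] at h8
      exact Subtype.ext h8
    rwa [Nat.card_eq_fintype_card (α := t), Fintype.card_coe] at this
  omega

/-- elements of a subgroup that commute -/
theorem mul_pow_mem {G : Type u} [Group G] {B : Subgroup G}
    (hc : ∀ x ∈ B, ∀ y ∈ B, x * y = y * x) {x y : G} (hx : x ∈ B) (hy : y ∈ B) (n : ℕ) :
    (x * y) ^ n = x ^ n * y ^ n := (show Commute x y from hc x hx y hy).mul_pow n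

/-- the subgroup of the `n`-th powers of an abelian subgroup -/
def powS {G : Type u} [Group G] (B : Subgroup G) (hc : ∀ x ∈ B, ∀ y ∈ B, x * y = y * x)
    (n : ℕ) : Subgroup G where
  carrier := {x | ∃ y ∈ B, y ^ n = x}
  mul_mem' := by
    rintro _ _ ⟨a, ha, rfl⟩ ⟨b, hb, rfl⟩
    exact ⟨a * b, B.mul_mem ha hb, mul_pow_mem hc ha hb n⟩
  one_mem' := ⟨1, B.one_mem, one_pow n⟩
  inv_mem' := by
    rintro _ ⟨a, ha, rfl⟩
    exact ⟨a⁻¹, B.inv_mem ha, inv_pow a n⟩

/-- the subgroup of the elements of `B` with `n`-th power in `D` -/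
def rootS {G : Type u} [Group G] (B D : Subgroup G) (hc : ∀ x ∈ B, ∀ y ∈ B, x * y = y * x)
    (n : ℕ) : Subgroup G where
  carrier := {x | x ∈ B ∧ x ^ n ∈ D}
  mul_mem' := by
    rintro a b ⟨ha, ha'⟩ ⟨hb, hb'⟩
    refine ⟨B.mul_mem ha hb, ?_⟩
    rw [mul_pow_mem hc ha hb n]
    exact D.mul_mem ha' hb'
  one_mem' := ⟨B.one_mem, by rw [one_pow]; exact D.one_mem⟩
  inv_mem' := by
    rintro a ⟨ha, ha'⟩
    refine ⟨B.inv_mem ha, ?_⟩
    rw [inv_pow]
    exact D.inv_mem ha'

end Ab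

open Ab

variable {G : Type u} [Group G] {p : ℕ} [Fact p.Prime]

/-- `B` is an abelian `p`-group with finitely many elements of order dividing `p`. -/
structure AbF (p : ℕ) (B : Subgroup G) : Prop where
  comm : ∀ x ∈ B, ∀ y ∈ B, x * y = y * x
  pel : ∀ x ∈ B, PEl p x
  fin : {x : G | x ∈ B ∧ x ^ p = 1}.Finite

theorem AbF.of_thin {B : Subgroup G} (ht : Thin p G) (hc : ∀ x ∈ B, ∀ y ∈ B, x * y = y * x)
    (hp : ∀ x ∈ B, PEl p x) : AbF p B where
  comm := hc
  pel := hp
  fin := by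
    have h := ht (rootS B ⊥ hc p) (fun x hx => Subgroup.mem_bot.1 hx.2)
      (fun x hx y hy => hc x hx.1 y hy.1)
    refine h.subset ?_
    rintro x ⟨hx, hx'⟩
    exact ⟨hx, Subgroup.mem_bot.2 hx'⟩

theorem AbF.mono {B C : Subgroup G} (h : AbF p B) (hC : C ≤ B) : AbF p C where
  comm := fun x hx y hy => h.comm x (hC hx) y (hC hy)
  pel := fun x hx => h.pel x (hC hx)
  fin := h.fin.subset fun _ hx => ⟨hC hx.1, hx.2⟩

/-- an abelian `p`-group is locally finite -/
theorem LP_of_comm {B : Subgroup G} (hc : ∀ x ∈ B, ∀ y ∈ B, x * y = y * x)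
    (hp : ∀ x ∈ B, PEl p x) : LP p B :=
  ⟨fun _ hs hsB => finite_closure (Fact.out : p.Prime).ne_zero hc hp hs hsB, hp⟩

/-- `B / B^p` is finite -/
theorem AbF.cosets {B : Subgroup G} (h : AbF p B) :
    ∃ c : Set G, c.Finite ∧ c ⊆ B ∧ ∀ x ∈ B, ∃ y ∈ c, ∃ z ∈ B, x = y * z ^ p := by
  let _ : CommGroup B :=
    { (inferInstance : Group B) with
      mul_comm := fun x y => Subtype.ext (h.comm x x.2 y y.2) }
  have hfin : {x : B | x ^ p = 1}.Finite := by
    refine Set.Finite.of_finite_image (f := fun x : B => (x : G)) (h.fin.subset ?_)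
      Subtype.val_injective.injOn
    rintro _ ⟨x, hx, rfl⟩
    exact ⟨x.2, congrArg (fun z : B => (z : G)) hx⟩
  have hF : ∀ s : Finset B, ((Subgroup.closure (s : Set B) : Subgroup B) : Set B).Finite := by
    intro s
    refine finite_closure (B := (⊤ : Subgroup B)) (Fact.out : p.Prime).ne_zero
      (fun x _ y _ => mul_comm x y) (fun x _ => ?_) s.finite_toSet (fun x _ => Subgroup.mem_top x)
    obtain ⟨k, hk⟩ := h.pel x x.2
    exact ⟨k, Subtype.ext hk⟩
  have hq := card_quot_le (A := B) hfin hF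
  refine ⟨Set.range (fun z : B ⧸ (powMonoidHom p : B →* B).range => ((Quotient.out z : B) : G)),
    Set.finite_range _, ?_, ?_⟩
  · rintro _ ⟨z, rfl⟩
    exact (Quotient.out z : B).2
  · intro x hx
    refine ⟨_, ⟨QuotientGroup.mk (⟨x, hx⟩ : B), rfl⟩, ?_⟩
    have h1 : (QuotientGroup.mk (Quotient.out (QuotientGroup.mk (⟨x, hx⟩ : B) :
        B ⧸ (powMonoidHom p : B →* B).range)) : B ⧸ (powMonoidHom p : B →* B).range) =
        QuotientGroup.mk (⟨x, hx⟩ : B) := QuotientGroup.out_eq' _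
    obtain ⟨z, hz⟩ := QuotientGroup.eq.1 h1
    refine ⟨z, z.2, ?_⟩
    have h2 := congrArg (fun w : B => (w : G)) hz
    have h3 : ((z : B) : G) ^ p = ((Quotient.out (QuotientGroup.mk (⟨x, hx⟩ : B) :
        B ⧸ (powMonoidHom p : B →* B).range) : B) : G)⁻¹ * x := h2
    rw [h3, mul_inv_cancel_left]

/-- quotients: there are finitely many cosets `x D` with `x ^ p ∈ D` -/
theorem AbF.quot {B D : Subgroup G} (h : AbF p B) (_hD : D ≤ B) :
    ∃ c : Set G, c.Finite ∧ c ⊆ B ∧ ∀ x ∈ B, x ^ p ∈ D → ∃ y ∈ c, y⁻¹ * x ∈ D := by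
  have hE : AbF p (rootS B D h.comm p) := h.mono fun x hx => hx.1
  obtain ⟨c, hc1, hc2, hc3⟩ := hE.cosets
  refine ⟨c, hc1, fun x hx => (hc2 hx).1, fun x hx hxD => ?_⟩
  obtain ⟨y, hy, z, hz, hxyz⟩ := hc3 x ⟨hx, hxD⟩
  refine ⟨y, hy, ?_⟩
  rw [hxyz, inv_mul_cancel_left]
  exact hz.2

/-- descending chain condition -/
theorem AbF.dcc {B : Subgroup G} (h : AbF p B) (Z : ℕ → Subgroup G) (hZ : Antitone Z)
    (h0 : Z 0 ≤ B) : ∃ k, ∀ n, k ≤ n → Z n = Z k := by
  classical
  set D := ⨅ n, Z n with hD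
  have hDZ : ∀ n, D ≤ Z n := fun n => iInf_le _ n
  have hDB : D ≤ B := (hDZ 0).trans h0
  obtain ⟨c, hc1, hc2, hc3⟩ := h.quot hDB
  have hch : ∀ y : G, ∃ n, y ∉ D → y ∉ Z n := by
    intro y
    by_cases hy : y ∈ D
    · exact ⟨0, fun h => absurd hy h⟩
    · have : ∃ n, y ∉ Z n := by
        by_contra hcon
        push Not at hcon
        exact hy (Subgroup.mem_iInf.2 hcon)
      obtain ⟨n, hn⟩ := this
      exact ⟨n, fun _ => hn⟩
  choose N hN using hch
  set K := hc1.toFinset.sup N with hK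
  have key : ∀ n, K ≤ n → Z n = D := by
    intro n hn
    refine le_antisymm ?_ (hDZ n)
    have hlem : ∀ k : ℕ, ∀ x ∈ Z n, x ^ p ^ k ∈ D → x ∈ D := by
      intro k
      induction k with
      | zero =>
        intro x _ hx
        rwa [pow_zero, pow_one] at hx
      | succ k ih =>
        intro x hx hxk
        have h1 : x ^ p ∈ D := by
          refine ih (x ^ p) ((Z n).pow_mem hx p) ?_
          rwa [← pow_mul, ← pow_succ']
        obtain ⟨y, hy, hyx⟩ := hc3 x (h0 (hZ (Nat.zero_le n) hx)) h1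
        by_cases hyD : y ∈ D
        · have h2 := D.mul_mem hyD hyx
          rwa [mul_inv_cancel_left] at h2
        · exfalso
          have h3 := hN y hyD
          have h4 : N y ≤ n := (Finset.le_sup (f := N) (hc1.mem_toFinset.2 hy)).trans hn
          have h5 : y ∈ Z n := by
            have h6 : y = x * (y⁻¹ * x)⁻¹ := by group
            rw [h6]
            exact (Z n).mul_mem hx ((Z n).inv_mem (hDZ n hyx))
          exact h3 (hZ h4 h5)
    intro x hx
    obtain ⟨k, hk⟩ := h.pel x (h0 (hZ (Nat.zero_le n) hx))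
    exact hlem k x hx (by rw [hk]; exact D.one_mem)
  exact ⟨K, fun n hn => (key n hn).trans (key K le_rfl).symm⟩

theorem AbF.cosets_pow {B : Subgroup G} (h : AbF p B) (k : ℕ) :
    ∃ c : Set G, c.Finite ∧ c ⊆ B ∧ ∀ x ∈ B, ∃ y ∈ c, ∃ z ∈ B, x = y * z ^ p ^ k := by
  induction k with
  | zero =>
    refine ⟨{1}, Set.finite_singleton 1, by
      rintro _ rfl
      exact B.one_mem, fun x hx => ⟨1, rfl, x, hx, ?_⟩⟩
    rw [pow_zero, pow_one, one_mul]
  | succ k ih =>
    obtain ⟨c, hc1, hc2, hc3⟩ := h.cosets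
    obtain ⟨d, hd1, hd2, hd3⟩ := ih
    refine ⟨Set.image2 (fun y y' => y * y' ^ p) c d, hc1.image2 _ hd1, ?_, ?_⟩
    · rintro _ ⟨y, hy, y', hy', rfl⟩
      exact B.mul_mem (hc2 hy) (B.pow_mem (hd2 hy') p)
    · intro x hx
      obtain ⟨y, hy, z, hz, hxyz⟩ := hc3 x hx
      obtain ⟨y', hy', w, hw, hz'⟩ := hd3 z hz
      refine ⟨_, Set.mem_image2_of_mem hy hy', w, hw, ?_⟩
      rw [hxyz, hz', mul_pow_mem h.comm (hd2 hy') (B.pow_mem hw _), ← pow_mul, ← pow_succ,
        mul_assoc]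

theorem AbF.cher {B : Subgroup G} (h : AbF p B) : Cher p B := by
  obtain ⟨k, hk⟩ := h.dcc (fun n => powS B h.comm (p ^ n)) (by
    intro m n hmn
    rintro _ ⟨y, hy, rfl⟩
    refine ⟨y ^ p ^ (n - m), B.pow_mem hy _, ?_⟩
    rw [← pow_mul, ← pow_add, Nat.sub_add_cancel hmn]) (by
    rintro _ ⟨y, hy, rfl⟩
    exact B.pow_mem hy _)
  have hk' : powS B h.comm (p ^ (k + 1)) = powS B h.comm (p ^ k) := hk (k + 1) (Nat.le_succ k)
  have hle : powS B h.comm (p ^ k) ≤ B := by
    rintro _ ⟨y, hy, rfl⟩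
    exact B.pow_mem hy _
  refine ⟨powS B h.comm (p ^ k), ?_, hle, ?_, ?_⟩
  · refine ⟨fun x hx y hy => h.comm x (hle hx) y (hle hy), fun x hx => h.pel x (hle hx), ?_⟩
    intro x hx
    rw [← hk'] at hx
    obtain ⟨y, hy, rfl⟩ := hx
    refine ⟨y ^ p ^ k, ⟨y, hy, rfl⟩, ?_⟩
    rw [← pow_mul, ← pow_succ]
  · intro b hb
    rw [mem_Nr]
    intro x
    have hcomm : ∀ x ∈ B, b * x * b⁻¹ = x := by
      intro x hx
      rw [h.comm b hb x hx, mul_inv_cancel_right]
    constructor
    · intro hx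
      rwa [hcomm x (hle hx)]
    · intro hx
      have h1 : x ∈ B := by
        have h2 := B.mul_mem (B.mul_mem (B.inv_mem hb) (hle hx)) hb
        have h3 : b⁻¹ * (b * x * b⁻¹) * b = x := by group
        rwa [h3] at h2
      rwa [hcomm x h1] at hx
  · obtain ⟨c, hc1, hc2, hc3⟩ := h.cosets_pow k
    have hcf : Finite c := hc1.to_subtype
    have hfin : Finite (B ⧸ (powS B h.comm (p ^ k)).subgroupOf B) := by
      refine Finite.of_surjective (fun y : c => (QuotientGroup.mk (⟨y, hc2 y.2⟩ : B) :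
        B ⧸ (powS B h.comm (p ^ k)).subgroupOf B)) ?_
      intro q
      induction q using QuotientGroup.induction_on with
      | H x =>
        obtain ⟨y, hy, z, hz, hxyz⟩ := hc3 x x.2
        refine ⟨⟨y, hy⟩, ?_⟩
        rw [QuotientGroup.eq, Subgroup.mem_subgroupOf]
        refine ⟨z, hz, ?_⟩
        show z ^ p ^ k = y⁻¹ * (x : G)
        rw [hxyz, inv_mul_cancel_left]
    exact Subgroup.index_ne_zero_of_finite

/-- Two divisible groups, one contained in the other, with the same elements of order `p`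
are equal. -/
theorem Dv.eq_of_omega {P Q : Subgroup G} (hP : Dv p P) (hQ : Dv p Q) (hPQ : P ≤ Q)
    (h : ∀ x ∈ Q, x ^ p = 1 → x ∈ P) : P = Q := by
  refine le_antisymm hPQ ?_
  have key : ∀ k : ℕ, ∀ x ∈ Q, x ^ p ^ k = 1 → x ∈ P := by
    intro k
    induction k with
    | zero =>
      intro x _ hx
      rw [pow_zero, pow_one] at hx
      rw [hx]
      exact P.one_mem
    | succ k ih =>
      intro x hx hxk
      have h1 : x ^ p ∈ P := by
        refine ih (x ^ p) (Q.pow_mem hx p) ?_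
        rwa [← pow_mul, ← pow_succ']
      obtain ⟨y, hy, hyx⟩ := hP.div _ h1
      have h2 : (x * y⁻¹) ^ p = 1 := by
        rw [mul_pow_mem hQ.comm hx (Q.inv_mem (hPQ hy)), inv_pow, hyx, mul_inv_cancel]
      have h3 := P.mul_mem (h _ (Q.mul_mem hx (Q.inv_mem (hPQ hy))) h2) hy
      rwa [inv_mul_cancel_right] at h3
  intro x hx
  obtain ⟨k, hk⟩ := hQ.pel x hx
  exact key k x hx hk

omit [Fact p.Prime] in
theorem om_eq_ncard (P : Subgroup G) : om p P = {x : G | x ∈ P ∧ x ^ p = 1}.ncard :=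
  Nat.card_coe_set_eq {x : G | x ∈ P ∧ x ^ p = 1}

/-- the same, with the number `om` -/
theorem Dv.eq_of_om {P Q : Subgroup G} (ht : Thin p G) (hP : Dv p P) (hQ : Dv p Q) (hPQ : P ≤ Q)
    (h : om p Q ≤ om p P) : P = Q := by
  refine hP.eq_of_omega hQ hPQ ?_
  have hfin := (AbF.of_thin ht hQ.comm hQ.pel).fin
  rw [om_eq_ncard, om_eq_ncard] at h
  have heq := Set.eq_of_subset_of_ncard_le (s := {x : G | x ∈ P ∧ x ^ p = 1})
    (fun x hx => (⟨hPQ hx.1, hx.2⟩ : x ∈ {x : G | x ∈ Q ∧ x ^ p = 1})) h hfin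
  intro x hx hxp
  have h1 : x ∈ {x : G | x ∈ Q ∧ x ^ p = 1} := ⟨hx, hxp⟩
  rw [← heq] at h1
  exact h1.1

theorem om_mono {P Q : Subgroup G} (h : AbF p Q) (hPQ : P ≤ Q) : om p P ≤ om p Q := by
  rw [om_eq_ncard, om_eq_ncard]
  exact Set.ncard_le_ncard (fun x hx => ⟨hPQ hx.1, hx.2⟩) h.fin

end Pool.Agent.Helper59.EI
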