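import Pool.Agent.Helper59.EI.DvApi
import Pool.Agent.Helper98.Engel.Defs

/-!
# EI-31. Groups generated by bounded left Engel elements of bounded order: p-groups
-/

set_option autoImplicit false

namespace Pool.Agent.Helper59.EI

universe u

open Pool.Agent.Helper98.Engel

private theorem B1_pow_surj {p : ℕ} [Fact p.Prime] {X : Type u} [Group X] {P : Subgroup X}
    (hP : Dv p P) {m : ℕ} (hm : 0 < m) {x : X} (hx : x ∈ P) : ∃ y ∈ P, y ^ m = x := by
  obtain ⟨a, m', hm', rfl⟩ := Nat.exists_eq_pow_mul_and_not_dvd hm.ne' p (Fact.out : p.Prime).ne_one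
  obtain ⟨z, hz, hzx⟩ := hP.exists_pow hx a
  obtain ⟨k, hk⟩ := hP.pel z hz
  have hcop : m'.Coprime (orderOf z) := by
    apply Nat.Coprime.coprime_dvd_right (orderOf_dvd_of_pow_eq_one hk)
    exact Nat.Coprime.pow_right _ (((Nat.Prime.coprime_iff_not_dvd (Fact.out : p.Prime)).2 hm').symm)
  obtain ⟨c, hc⟩ := exists_pow_eq_self_of_coprime hcop
  refine ⟨z ^ c, P.pow_mem hz c, ?_⟩
  rw [mul_comm, pow_mul, ← pow_mul z c m', mul_comm c m', pow_mul z m' c, hc, hzx]

theorem bounded_p {p : ℕ} [Fact p.Prime] {X : Type u} [Group X] [Countable X]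
    (hX : LP p (⊤ : Subgroup X)) (ht : Thin p X) {S : Set X} (hS : Subgroup.closure S = ⊤)
    {n q : ℕ} (hq : 0 < q) (h1 : ∀ s ∈ S, s ^ q = 1) (h2 : ∀ s ∈ S, ∀ y : X, eng s n y = 1) :
    Finite X := by
  obtain ⟨P, hP, -, hn, hidx⟩ := cher hX ht
  rw [Subgroup.relIndex_top_right] at hidx
  -- conjugation keeps `P`
  have hcj : ∀ g : X, ∀ y ∈ P, g⁻¹ * y * g ∈ P := fun g y hy =>
    (mem_Nr'.1 (hn (Subgroup.mem_top g)) y).1 hy
  have heP : ∀ (s : X) (k : ℕ), ∀ y ∈ P, eng s k y ∈ P := by
    intro s k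
    induction k with
    | zero => intro y hy; exact hy
    | succ k ih =>
      intro y hy
      rw [eng_succ]
      have := P.mul_mem (P.inv_mem (ih y hy)) (hcj s _ (ih y hy))
      simpa [mul_assoc] using this
  have hmul : ∀ (s : X) (k : ℕ), ∀ y ∈ P, ∀ z ∈ P, eng s k (y * z) = eng s k y * eng s k z := by
    intro s k
    induction k with
    | zero => intro y _ z _; rfl
    | succ k ih =>
      intro y hy z hz
      rw [eng_succ, ih y hy z hz, eng_succ, eng_succ]
      have e1 := heP s k y hy
      have e2 := heP s k z hz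
      set a := eng s k y
      set b := eng s k z
      have e3 := hP.comm b⁻¹ (P.inv_mem e2) (a⁻¹ * (s⁻¹ * a * s))
        (P.mul_mem (P.inv_mem e1) (hcj s a e1))
      calc (a * b)⁻¹ * s⁻¹ * (a * b) * s
          = (b⁻¹ * (a⁻¹ * (s⁻¹ * a * s))) * (s⁻¹ * b * s) := by group
        _ = ((a⁻¹ * (s⁻¹ * a * s)) * b⁻¹) * (s⁻¹ * b * s) := by rw [e3]
        _ = (a⁻¹ * s⁻¹ * a * s) * (b⁻¹ * s⁻¹ * b * s) := by group
  have hpow : ∀ (s : X) (k : ℕ), ∀ y ∈ P, ∀ m : ℕ, eng s k (y ^ m) = (eng s k y) ^ m := by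
    intro s k y hy m
    induction m with
    | zero => rw [pow_zero, pow_zero, eng_one]
    | succ m ih => rw [pow_succ, pow_succ, hmul s k _ (P.pow_mem hy m) y hy, ih]
  -- descending induction
  have hdesc : ∀ s ∈ S, ∀ k : ℕ, (∀ y ∈ P, eng s (k + 2) y = 1) → ∀ y ∈ P, eng s (k + 1) y = 1 := by
    intro s hs k hk
    have key : ∀ y ∈ P, (eng s (k + 1) y) ^ q = 1 := by
      intro y hy
      set w := eng s k y with hw
      have hwP : w ∈ P := heP s k y hy
      set v := eng s (k + 1) y with hv
      have hvP : v ∈ P := heP s (k + 1) y hy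
      have hv1 : v = w⁻¹ * s⁻¹ * w * s := by rw [hv, eng_succ]
      have hv2 : v⁻¹ * s⁻¹ * v * s = 1 := by
        have := hk y hy
        rwa [show k + 2 = (k + 1) + 1 from rfl, eng_succ] at this
      have hc : s⁻¹ * v * s = v := by
        calc s⁻¹ * v * s = v * (v⁻¹ * s⁻¹ * v * s) := by group
          _ = v := by rw [hv2, mul_one]
      have hws : s⁻¹ * w * s = w * v := by rw [hv1]; group
      have hind : ∀ m : ℕ, (s ^ m)⁻¹ * w * s ^ m = w * v ^ m := by
        intro m
        induction m with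
        | zero => simp
        | succ m ih =>
          have hvm : ∀ j : ℕ, s⁻¹ * v ^ j * s = v ^ j := by
            intro j
            have := conj_pow (i := j) (a := s⁻¹) (b := v)
            rw [inv_inv] at this
            rw [← this, hc]
          calc (s ^ (m + 1))⁻¹ * w * s ^ (m + 1)
              = s⁻¹ * ((s ^ m)⁻¹ * w * s ^ m) * s := by rw [pow_succ]; group
            _ = (s⁻¹ * w * s) * (s⁻¹ * v ^ m * s) := by rw [ih]; group
            _ = w * v * v ^ m := by rw [hws, hvm]
            _ = w * v ^ (m + 1) := by rw [pow_succ', mul_assoc]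
      have h3 := hind q
      rw [h1 s hs] at h3
      have h4 : w * 1 = w * v ^ q := by
        calc w * 1 = (1 : X)⁻¹ * w * 1 := by group
          _ = w * v ^ q := h3
      exact (mul_left_cancel h4).symm
    intro y hy
    obtain ⟨z, hz, rfl⟩ := B1_pow_surj hP hq hy
    rw [hpow s (k + 1) z hz q, key z hz]
  have hone : ∀ s ∈ S, ∀ y ∈ P, eng s 1 y = 1 := by
    intro s hs
    have hall : ∀ k : ℕ, (∀ y ∈ P, eng s (k + 1) y = 1) → ∀ y ∈ P, eng s 1 y = 1 := by
      intro k
      induction k with
      | zero => intro h; exact h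
      | succ k ih => intro h; exact ih (hdesc s hs k h)
    exact hall n (fun y _ => eng_eq_one_of_le (Nat.le_succ n) (h2 s hs y))
  have hPc : P ≤ Subgroup.center X := by
    intro y hy
    have h3 : Subgroup.closure S ≤ Subgroup.centralizer {y} := by
      rw [Subgroup.closure_le]
      intro s hs
      rw [SetLike.mem_coe, Subgroup.mem_centralizer_singleton_iff]
      have h4 := hone s hs y hy
      rw [show (1 : ℕ) = 0 + 1 from rfl, eng_succ, eng_zero] at h4
      calc s * y = y * s * (y⁻¹ * s⁻¹ * y * s)⁻¹ := by group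
        _ = y * s := by rw [h4]; simp
    rw [Subgroup.mem_center_iff]
    intro g
    have h4 : g ∈ Subgroup.closure S := by rw [hS]; exact Subgroup.mem_top g
    exact Subgroup.mem_centralizer_singleton_iff.1 (h3 h4)
  have hPf : P.FiniteIndex := ⟨hidx⟩
  have hcf : (Subgroup.center X).FiniteIndex := Subgroup.finiteIndex_of_le hPc
  set m := (Subgroup.center X).index with hm
  have hm0 : 0 < m := Nat.pos_of_ne_zero hcf.index_ne_zero
  have hexp : ∀ g : X, g ^ (m * q) = 1 := by
    intro g
    have h6 : g ∈ Subgroup.closure S := by rw [hS]; exact Subgroup.mem_top g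
    have h7 : ((MonoidHom.transferCenterPow X g : Subgroup.center X) : X) ^ q = 1 := by
      induction h6 using Subgroup.closure_induction with
      | mem s hs =>
        rw [MonoidHom.transferCenterPow_apply, ← pow_mul, mul_comm, pow_mul, h1 s hs, one_pow]
      | one => rw [map_one, Subgroup.coe_one, one_pow]
      | mul a b _ _ iha ihb =>
        have hc : Commute ((MonoidHom.transferCenterPow X a : Subgroup.center X) : X)
            ((MonoidHom.transferCenterPow X b : Subgroup.center X) : X) :=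
          (Subgroup.mem_center_iff.1 (MonoidHom.transferCenterPow X b).2 _)
        rw [map_mul, Subgroup.coe_mul, hc.mul_pow, iha, ihb, one_mul]
      | inv a _ iha => rw [map_inv, Subgroup.coe_inv, inv_pow, iha, inv_one]
    rw [MonoidHom.transferCenterPow_apply, ← pow_mul] at h7
    exact h7
  have hPbot : P = ⊥ := by
    rw [eq_bot_iff]
    intro x hx
    obtain ⟨y, _, rfl⟩ := B1_pow_surj hP (Nat.mul_pos hm0 hq) hx
    rw [Subgroup.mem_bot, hexp]
  rw [hPbot, Subgroup.index_bot] at hidx
  exact Nat.finite_of_card_ne_zero hidx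

end Pool.Agent.Helper59.EI
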