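import Pool.Agent.Helper59.EI.B1

/-!
# EI-32. Locally nilpotent groups generated by bounded left Engel elements of bounded order
-/

set_option autoImplicit false

namespace Pool.Agent.Helper59.EI

universe u

open Pool.Agent.Helper98.Engel

/-- a nilpotent group generated by finitely many elements of bounded order is finite -/
private theorem b2_fin (G : Type u) [Group G] [Group.IsNilpotent G] :
    ∀ S : Set G, S.Finite → Subgroup.closure S = ⊤ → ∀ m : ℕ, 0 < m → (∀ s ∈ S, s ^ m = 1) →
      Finite G := by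
  apply @Group.nilpotent_center_quotient_ind
    (fun (G : Type u) (_ : Group G) (_ : Group.IsNilpotent G) => ∀ S : Set G, S.Finite →
      Subgroup.closure S = ⊤ → ∀ m : ℕ, 0 < m → (∀ s ∈ S, s ^ m = 1) → Finite G) G _ _
  · intro G _ _ _ _ _ _ _ _
    infer_instance
  · intro G _ _ ih S hS hcl m hm h1
    have hfq : Finite (G ⧸ Subgroup.center G) := by
      refine ih (QuotientGroup.mk' (Subgroup.center G) '' S) (hS.image _) ?_ m hm ?_
      · rw [← MonoidHom.map_closure, hcl, ← MonoidHom.range_eq_map]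
        exact MonoidHom.range_eq_top.2 (QuotientGroup.mk'_surjective _)
      · rintro _ ⟨s, hs, rfl⟩
        rw [← map_pow, h1 s hs, map_one]
    have hfi : (Subgroup.center G).FiniteIndex := Subgroup.finiteIndex_of_finite_quotient
    set n := (Subgroup.center G).index with hn
    have hn0 : n ≠ 0 := hfi.index_ne_zero
    have h2 : ∀ g : G, g ^ (n * m) = 1 := by
      have h3 : ∀ g : G, (MonoidHom.transferCenterPow G g) ^ m = 1 := by
        intro g
        have hg : g ∈ Subgroup.closure S := by rw [hcl]; exact Subgroup.mem_top g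
        induction hg using Subgroup.closure_induction with
        | mem s hs =>
          apply Subtype.ext
          rw [Subgroup.coe_pow, MonoidHom.transferCenterPow_apply, ← pow_mul, mul_comm, pow_mul,
            h1 s hs, one_pow, Subgroup.coe_one]
        | one => rw [map_one, one_pow]
        | mul x y _ _ hx hy =>
          have hc : Commute (MonoidHom.transferCenterPow G x) (MonoidHom.transferCenterPow G y) :=
            mul_comm' _ _
          rw [map_mul, hc.mul_pow, hx, hy, mul_one]
        | inv x _ hx => rw [map_inv, inv_pow, hx, inv_one]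
      intro g
      have := congrArg Subtype.val (h3 g)
      rwa [Subgroup.coe_pow, MonoidHom.transferCenterPow_apply, ← pow_mul,
        Subgroup.coe_one] at this
    have hFG : Group.FG G := by
      rw [Group.fg_iff]
      exact ⟨S, hcl, hS⟩
    have hZfg : Group.FG (Subgroup.center G) := Subgroup.fg_of_index_ne_zero _
    have hZ : Finite (Subgroup.center G) := by
      letI : CommGroup (Subgroup.center G) :=
        { (inferInstance : Group (Subgroup.center G)) with mul_comm := mul_comm' }
      refine CommGroup.finite_of_fg_isMulTorsion _ ?_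
      intro z
      rw [isOfFinOrder_iff_pow_eq_one]
      refine ⟨n * m, Nat.mul_pos (Nat.pos_of_ne_zero hn0) hm, ?_⟩
      apply Subtype.ext
      rw [Subgroup.coe_pow, h2, Subgroup.coe_one]
    exact Finite.of_subgroup_quotient (Subgroup.center G)

/-- elements of coprime orders of a nilpotent group commute -/
private theorem b2_comm (G : Type u) [Group G] [Group.IsNilpotent G] :
    ∀ (x y : G) (a b : ℕ), a.Coprime b → x ^ a = 1 → y ^ b = 1 → x * y = y * x := by
  apply @Group.nilpotent_center_quotient_ind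
    (fun (G : Type u) (_ : Group G) (_ : Group.IsNilpotent G) => ∀ (x y : G) (a b : ℕ),
      a.Coprime b → x ^ a = 1 → y ^ b = 1 → x * y = y * x) G _ _
  · intro G _ _ x y _ _ _ _ _
    exact Subsingleton.elim _ _
  · intro G _ _ ih x y a b hab hx hy
    have h1 := ih (x : G ⧸ Subgroup.center G) (y : G ⧸ Subgroup.center G) a b hab
      (by rw [← QuotientGroup.mk_pow, hx, QuotientGroup.mk_one])
      (by rw [← QuotientGroup.mk_pow, hy, QuotientGroup.mk_one])
    rw [← QuotientGroup.mk_mul, ← QuotientGroup.mk_mul, QuotientGroup.eq] at h1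
    obtain ⟨c, hc, hc2⟩ : ∃ c ∈ Subgroup.center G, y * x = (x * y) * c :=
      ⟨(x * y)⁻¹ * (y * x), h1, by group⟩
    have hcc : ∀ g : G, c * g = g * c := fun g => ((Subgroup.mem_center_iff.1 hc) g).symm
    -- `x⁻¹ * y * x = y * c`, `y * x * y⁻¹ = x * c`
    have e1 : x⁻¹ * y * x = y * c := by
      calc x⁻¹ * y * x = x⁻¹ * (y * x) := by group
        _ = y * c := by rw [hc2]; group
    have e2 : y * x * y⁻¹ = x * c := by
      calc y * x * y⁻¹ = (x * y) * c * y⁻¹ := by rw [hc2]
        _ = x * y * (c * y⁻¹) := by group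
        _ = x * y * (y⁻¹ * c) := by rw [hcc]
        _ = x * c := by group
    have f1 : c ^ b = 1 := by
      have h2 : (x⁻¹ * y * x) ^ b = 1 := by
        have := conj_pow (i := b) (a := x⁻¹) (b := y)
        rw [inv_inv] at this
        rw [this, hy]; group
      rw [e1, (show Commute y c from (hcc y).symm).mul_pow, hy, one_mul] at h2
      exact h2
    have f2 : c ^ a = 1 := by
      have h2 : (y * x * y⁻¹) ^ a = 1 := by
        rw [conj_pow, hx]; group
      rw [e2, (show Commute x c from (hcc x).symm).mul_pow, hx, one_mul] at h2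
      exact h2
    have f3 : c = 1 := by
      have h3 : orderOf c ∣ Nat.gcd a b :=
        Nat.dvd_gcd (orderOf_dvd_of_pow_eq_one f2) (orderOf_dvd_of_pow_eq_one f1)
      rw [hab, Nat.dvd_one, orderOf_eq_one_iff] at h3
      exact h3
    rw [hc2, f3, mul_one]

private theorem b2_nil {X : Type u} [Group X] (hX : LocallyNilpotent (⊤ : Subgroup X))
    {s : Set X} (hs : s.Finite) : Group.IsNilpotent (Subgroup.closure s) :=
  hX _ le_top ((Subgroup.fg_iff _).2 ⟨s, rfl, hs⟩)

private theorem b2_finite {X : Type u} [Group X] (hX : LocallyNilpotent (⊤ : Subgroup X))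
    {s : Set X} (hs : s.Finite) {m : ℕ} (hm : 0 < m) (h1 : ∀ x ∈ s, x ^ m = 1) :
    ((Subgroup.closure s : Subgroup X) : Set X).Finite := by
  have := b2_nil hX hs
  have h2 : Finite (Subgroup.closure s) := by
    refine b2_fin _ (((↑) : Subgroup.closure s → X) ⁻¹' s) ?_
      Subgroup.closure_closure_coe_preimage m hm ?_
    · exact hs.preimage Subtype.val_injective.injOn
    · intro x hx
      apply Subtype.ext
      rw [Subgroup.coe_pow, h1 _ hx, Subgroup.coe_one]
  exact h2

private theorem b2_commX {X : Type u} [Group X] (hX : LocallyNilpotent (⊤ : Subgroup X))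
    {x y : X} {a b : ℕ} (hab : a.Coprime b) (hx : x ^ a = 1) (hy : y ^ b = 1) :
    x * y = y * x := by
  have := b2_nil hX (Set.toFinite {x, y})
  have h1 := b2_comm _ (⟨x, Subgroup.subset_closure (by simp)⟩ : Subgroup.closure {x, y})
    (⟨y, Subgroup.subset_closure (by simp)⟩ : Subgroup.closure {x, y}) a b hab
    (Subtype.ext (by simpa using hx)) (Subtype.ext (by simpa using hy))
  simpa using congrArg Subtype.val h1

private theorem b2_mulX {X : Type u} [Group X] (hX : LocallyNilpotent (⊤ : Subgroup X))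
    {p : ℕ} [Fact p.Prime] {x y : X} (hx : PEl p x) (hy : PEl p y) : PEl p (x * y) := by
  have hnil := b2_nil hX (Set.toFinite {x, y})
  obtain ⟨k, hk⟩ := hx
  obtain ⟨l, hl⟩ := hy
  have hp : p.Prime := Fact.out
  have hfin := b2_finite hX (Set.toFinite {x, y}) (m := p ^ (k + l)) (pow_pos hp.pos _) (by
    intro z hz
    rcases hz with rfl | rfl
    · rw [pow_add, pow_mul, hk, one_pow]
    · rw [pow_add, mul_comm, pow_mul, hl, one_pow])
  have hF : Finite (Subgroup.closure {x, y}) := hfin
  set N := Subgroup.closure {x, y} with hN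
  obtain ⟨P⟩ : Nonempty (Sylow p N) := inferInstance
  have hmem : ∀ (z : N) (j : ℕ), z ^ p ^ j = 1 → z ∈ P := by
    intro z j hz
    have h1 : IsPGroup p (Subgroup.zpowers z) := by
      intro w
      obtain ⟨i, hi⟩ := w.2
      refine ⟨j, Subtype.ext ?_⟩
      rw [Subgroup.coe_pow, Subgroup.coe_one, ← hi]
      change (z ^ i) ^ p ^ j = 1
      rw [← zpow_natCast, ← zpow_mul, mul_comm, zpow_mul, zpow_natCast, hz, one_zpow]
    obtain ⟨Q, hQ⟩ := h1.exists_le_sylow
    have h2 : Q = P := by
      have := Sylow.unique_of_normal P inferInstance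
      exact Subsingleton.elim _ _
    rw [← h2]
    exact hQ (Subgroup.mem_zpowers z)
  have hx' := hmem ⟨x, Subgroup.subset_closure (by simp)⟩ k (Subtype.ext (by simpa using hk))
  have hy' := hmem ⟨y, Subgroup.subset_closure (by simp)⟩ l (Subtype.ext (by simpa using hl))
  have hxy := mul_mem hx' hy'
  obtain ⟨j, hj⟩ := P.isPGroup' ⟨_, hxy⟩
  refine ⟨j, ?_⟩
  have := congrArg (fun z : P => ((z : N) : X)) hj
  simpa using this

private theorem b2_pel {X : Type u} [Group X] (hX : LocallyNilpotent (⊤ : Subgroup X))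
    {p : ℕ} [Fact p.Prime] {S : Set X} (h : ∀ s ∈ S, PEl p s) :
    ∀ x ∈ Subgroup.closure S, PEl p x := by
  intro x hx
  induction hx using Subgroup.closure_induction with
  | mem s hs => exact h s hs
  | one => exact PEl_one p
  | mul x y _ _ hx hy => exact b2_mulX hX hx hy
  | inv x _ hx => exact hx.inv

private theorem b2_LP {X : Type u} [Group X] (hX : LocallyNilpotent (⊤ : Subgroup X))
    {p : ℕ} [Fact p.Prime] {S : Set X} (h : ∀ s ∈ S, PEl p s) :
    LP p (Subgroup.closure S) := by
  refine ⟨?_, b2_pel hX h⟩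
  intro s hs hsS
  have hp : p.Prime := Fact.out
  have h2 : ∀ s : Set X, s.Finite → (∀ x ∈ s, PEl p x) → ∃ K : ℕ, ∀ x ∈ s, x ^ p ^ K = 1 := by
    intro s hs
    induction s, hs using Set.Finite.induction_on with
    | empty => intro _; exact ⟨0, by simp⟩
    | @insert a s ha hs ih =>
      intro h3
      obtain ⟨K, hK⟩ := ih (fun x hx => h3 x (Set.mem_insert_of_mem _ hx))
      obtain ⟨k, hk⟩ := h3 a (Set.mem_insert _ _)
      refine ⟨k + K, ?_⟩
      intro x hx
      rcases hx with rfl | hx
      · rw [pow_add, pow_mul, hk, one_pow]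
      · rw [pow_add, mul_comm, pow_mul, hK x hx, one_pow]
  obtain ⟨K, hK⟩ := h2 s hs (fun x hx => b2_pel hX h x (hsS hx))
  exact b2_finite hX hs (pow_pos hp.pos K) hK

/-- the `p`-part of an element of order dividing `m` -/
private theorem b2_part {m p : ℕ} (hm : 0 < m) (hp : p.Prime) :
    ∃ u v a b : ℕ, u + v ≡ 1 [MOD m] ∧ m ∣ u * p ^ a ∧ m ∣ v * b ∧ (p ^ a).Coprime b ∧
      (p ∣ m → ¬ p ∣ u) := by
  obtain ⟨a, b, hb, hmab⟩ := Nat.exists_eq_pow_mul_and_not_dvd hm.ne' p hp.ne_one
  have hcop : (p ^ a).Coprime b :=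
    Nat.Coprime.pow_left _ ((Nat.Prime.coprime_iff_not_dvd hp).2 hb)
  obtain ⟨u, hu1, hu2⟩ := Nat.chineseRemainder hcop 1 0
  obtain ⟨v, hv1, hv2⟩ := Nat.chineseRemainder hcop 0 1
  refine ⟨u, v, a, b, ?_, ?_, ?_, hcop, ?_⟩
  · rw [hmab]
    refine (Nat.modEq_and_modEq_iff_modEq_mul hcop).1 ⟨?_, ?_⟩
    · simpa using hu1.add hv1
    · simpa using hu2.add hv2
  · rw [hmab, mul_comm u]
    exact Nat.mul_dvd_mul_left _ ((Nat.modEq_zero_iff_dvd).1 hu2)
  · rw [hmab]
    exact Nat.mul_dvd_mul_right ((Nat.modEq_zero_iff_dvd).1 hv1) _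
  · intro hpm hpu
    have ha : a ≠ 0 := by
      rintro rfl
      rw [pow_zero, one_mul] at hmab
      exact hb (hmab ▸ hpm)
    have h1 : u ≡ 1 [MOD p] := hu1.of_dvd (dvd_pow_self p ha)
    have h2 : (0 : ℕ) ≡ 1 [MOD p] := ((Nat.modEq_zero_iff_dvd).2 hpu).symm.trans h1
    exact hp.one_lt.ne' (Nat.dvd_one.1 ((Nat.modEq_zero_iff_dvd).1 h2.symm))

private theorem b2_countable {X : Type u} [Group X] {S : Set X} (hc : S.Countable) :
    Countable (Subgroup.closure S) := by
  have hc2 : (S ∪ S⁻¹).Countable := hc.union (by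
    have : S⁻¹ = (fun x : X => x⁻¹) '' S := by
      ext x
      simp
    rw [this]
    exact hc.image _)
  have hcT : Countable (S ∪ S⁻¹ : Set X) := hc2
  have h1 : ((Subgroup.closure S : Subgroup X) : Set X) ⊆
      Set.range (fun l : List (S ∪ S⁻¹ : Set X) => (l.map Subtype.val).prod) := by
    intro x hx
    have h2 : x ∈ Submonoid.closure (S ∪ S⁻¹) := by
      rw [← Subgroup.closure_toSubmonoid]
      exact hx
    obtain ⟨l, hl, hl2⟩ := Submonoid.exists_list_of_mem_closure h2
    lift l to List (S ∪ S⁻¹ : Set X) using hl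
    exact ⟨l, hl2⟩
  exact (Set.countable_range _).mono h1

/-- the countable case -/
private theorem b2_main {X : Type u} [Group X] [Countable X]
    (hX : LocallyNilpotent (⊤ : Subgroup X))
    {m n : ℕ} (hm : 0 < m) (ht : ∀ p : ℕ, p.Prime → p ∣ m → Thin p X) {S : Set X}
    (hS : Subgroup.closure S = ⊤) (h1 : ∀ s ∈ S, s ^ m = 1)
    (h2 : ∀ s ∈ S, ∀ y : X, eng s n y = 1) : Finite X := by
  classical
  have hpart : ∀ p : ℕ, ∃ u v a b : ℕ, p.Prime → (u + v ≡ 1 [MOD m] ∧ m ∣ u * p ^ a ∧
      m ∣ v * b ∧ (p ^ a).Coprime b ∧ (p ∣ m → ¬ p ∣ u)) := by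
    intro p
    by_cases hp : p.Prime
    · obtain ⟨u, v, a, b, h⟩ := b2_part hm hp
      exact ⟨u, v, a, b, fun _ => h⟩
    · exact ⟨0, 0, 0, 0, fun h => absurd h hp⟩
  choose u v a b hpart using hpart
  -- the subgroups generated by the `p`-parts
  set Y : ℕ → Subgroup X := fun p => Subgroup.closure ((fun s => s ^ u p) '' S) with hYdef
  have hpel : ∀ p : ℕ, p.Prime → ∀ s ∈ ((fun s => s ^ u p) '' S), s ^ p ^ a p = 1 := by
    rintro p hp _ ⟨s, hs, rfl⟩
    obtain ⟨c, hc⟩ := (hpart p hp).2.1
    change (s ^ u p) ^ p ^ a p = 1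
    rw [← pow_mul, hc, pow_mul, h1 s hs, one_pow]
  have hLP : ∀ p : ℕ, p.Prime → LP p (Y p) := by
    intro p hp
    have := Fact.mk hp
    exact b2_LP hX fun s hs => ⟨a p, hpel p hp s hs⟩
  have hcomm : ∀ p q : ℕ, p.Prime → q.Prime → p ≠ q → ∀ x ∈ Y p, ∀ y ∈ Y q, x * y = y * x := by
    intro p q hp hq hpq x hx y hy
    obtain ⟨k, hk⟩ := (hLP p hp).2 x hx
    obtain ⟨l, hl⟩ := (hLP q hq).2 y hy
    exact b2_commX hX (Nat.Coprime.pow _ _ ((Nat.coprime_primes hp hq).2 hpq)) hk hl
  -- the complementary part commutes with `Y p`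
  have hcompl : ∀ p : ℕ, p.Prime → ∀ s ∈ S, ∀ y ∈ Y p, s ^ v p * y = y * s ^ v p := by
    intro p hp s hs y hy
    obtain ⟨k, hk⟩ := (hLP p hp).2 y hy
    obtain ⟨-, -, ⟨c, hc⟩, hcop, -⟩ := hpart p hp
    have e1 : (s ^ v p) ^ b p = 1 := by
      rw [← pow_mul, hc, pow_mul, h1 s hs, one_pow]
    by_cases ha : a p = 0
    · -- then `s ^ u p = 1` for all `s`, `Y p` is trivial
      have hY : Y p = ⊥ := by
        rw [hYdef, Subgroup.closure_eq_bot_iff]
        intro z hz
        have := hpel p hp z hz
        rw [ha, pow_zero, pow_one] at this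
        exact this
      rw [hY, Subgroup.mem_bot] at hy
      rw [hy, mul_one, one_mul]
    · have hcop2 : p.Coprime (b p) := by
        rwa [Nat.coprime_pow_left_iff (Nat.pos_of_ne_zero ha)] at hcop
      exact (b2_commX hX (Nat.Coprime.pow_left k hcop2) hk e1).symm
  have hsplit : ∀ p : ℕ, p.Prime → ∀ s ∈ S, s = s ^ u p * s ^ v p := by
    intro p hp s hs
    rw [← pow_add]
    have := pow_eq_pow_of_modEq (hpart p hp).1 (h1 s hs)
    rw [this, pow_one]
  -- the Engel condition for the `p`-parts
  have heng : ∀ p : ℕ, p.Prime → ∀ s ∈ S, ∀ y ∈ Y p, ∀ k : ℕ,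
      eng (s ^ u p) k y = eng s k y ∧ eng (s ^ u p) k y ∈ Y p := by
    intro p hp s hs y hy k
    have hsY : s ^ u p ∈ Y p := Subgroup.subset_closure ⟨s, hs, rfl⟩
    induction k with
    | zero => exact ⟨rfl, hy⟩
    | succ k ih =>
      obtain ⟨e1, e2⟩ := ih
      refine ⟨?_, ?_⟩
      · rw [eng_succ, eng_succ, ← e1]
        set w := eng (s ^ u p) k y with hw
        have e3 := hcompl p hp s hs w e2
        have e4 := hsplit p hp s hs
        set A := s ^ u p with hA
        set B := s ^ v p with hB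
        have e5 := hcompl p hp s hs A hsY
        rw [← hB] at e5
        calc w⁻¹ * A⁻¹ * w * A = w⁻¹ * A⁻¹ * (B⁻¹ * B) * w * A := by group
          _ = w⁻¹ * (A⁻¹ * B⁻¹) * (B * w) * A := by group
          _ = w⁻¹ * (B * A)⁻¹ * (w * B) * A := by rw [e3, mul_inv_rev]
          _ = w⁻¹ * (B * A)⁻¹ * w * (B * A) := by group
          _ = w⁻¹ * (A * B)⁻¹ * w * (A * B) := by rw [e5]
          _ = w⁻¹ * s⁻¹ * w * s := by rw [← e4]
      · rw [eng_succ]
        exact (Y p).mul_mem ((Y p).mul_mem ((Y p).mul_mem ((Y p).inv_mem e2)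
          ((Y p).inv_mem hsY)) e2) hsY
  -- finiteness of `Y p`
  have hYfin : ∀ p : ℕ, p.Prime → p ∣ m → ((Y p : Subgroup X) : Set X).Finite := by
    intro p hp hpm
    have := Fact.mk hp
    have hcl : Subgroup.closure (((↑) : Y p → X) ⁻¹' ((fun s => s ^ u p) '' S)) = ⊤ :=
      Subgroup.closure_closure_coe_preimage
    have hfin : Finite (Y p) := by
      refine bounded_p (p := p) (LP_top_iff.2 (hLP p hp)) ((ht p hp hpm).sub _) hcl (n := n)
        (pow_pos hp.pos (a p)) ?_ ?_
      · intro z hz
        apply Subtype.ext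
        rw [Subgroup.coe_pow, hpel p hp _ hz, Subgroup.coe_one]
      · rintro ⟨z, hz1⟩ ⟨s, hs, hsz⟩ y
        have e1 := map_eng (Y p).subtype ⟨z, hz1⟩ y n
        apply (Y p).subtype_injective
        rw [map_one, e1]
        change eng z n (y : X) = 1
        change s ^ u p = z at hsz
        rw [← hsz, (heng p hp s hs y y.2 n).1, h2 s hs]
    exact hfin
  -- `X` is generated by the `Y p`
  have hgen : ∀ s ∈ S, s ∈ ⨆ p ∈ m.primeFactors, Y p := by
    intro s hs
    set Z : Subgroup X := ⨆ p ∈ m.primeFactors, Y p with hZ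
    let J : AddSubgroup ℤ :=
      { carrier := {k | s ^ k ∈ Z}
        zero_mem' := by
          change s ^ (0 : ℤ) ∈ Z
          rw [zpow_zero]
          exact Z.one_mem
        add_mem' := by
          intro k l hk hl
          change s ^ (k + l) ∈ Z
          rw [zpow_add]
          exact Z.mul_mem hk hl
        neg_mem' := by
          intro k hk
          change s ^ (-k) ∈ Z
          rw [zpow_neg]
          exact Z.inv_mem hk }
    obtain ⟨d, hd⟩ := Int.subgroup_cyclic J
    have hdvd : ∀ k : ℤ, k ∈ J → d ∣ k := by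
      intro k hk
      rw [hd, AddSubgroup.mem_closure_singleton] at hk
      obtain ⟨l, hl⟩ := hk
      exact ⟨l, by rw [← hl, zsmul_eq_mul, Int.cast_id, mul_comm]⟩
    have hm' : (m : ℤ) ∈ J := by
      change s ^ (m : ℤ) ∈ Z
      rw [zpow_natCast, h1 s hs]
      exact Z.one_mem
    have hu' : ∀ p ∈ m.primeFactors, (u p : ℤ) ∈ J := by
      intro p hp
      change s ^ (u p : ℤ) ∈ Z
      rw [zpow_natCast]
      exact (le_iSup₂_of_le p hp le_rfl : Y p ≤ Z) (Subgroup.subset_closure ⟨s, hs, rfl⟩)
    have hd1 : d.natAbs = 1 := by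
      by_contra hne
      obtain ⟨p, hp, hpd⟩ := Nat.exists_prime_and_dvd hne
      have e1 : p ∣ m := hpd.trans (Int.natAbs_dvd_natAbs.2 (hdvd _ hm'))
      have e2 : p ∣ u p := hpd.trans (by
        have := Int.natAbs_dvd_natAbs.2 (hdvd _ (hu' p (Nat.mem_primeFactors.2
          ⟨hp, e1, hm.ne'⟩)))
        rwa [Int.natAbs_natCast] at this)
      exact (hpart p hp).2.2.2.2 e1 e2
    have h1J : (1 : ℤ) ∈ J := by
      rw [hd, AddSubgroup.mem_closure_singleton]
      rcases Int.natAbs_eq d with h | h
      · exact ⟨1, by rw [h, hd1]; simp⟩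
      · exact ⟨-1, by rw [h, hd1]; simp⟩
    have : s ^ (1 : ℤ) ∈ Z := h1J
    rwa [zpow_one] at this
  have htop : (⨆ p ∈ m.primeFactors, Y p) = ⊤ := by
    rw [eq_top_iff, ← hS, Subgroup.closure_le]
    exact hgen
  have hnorm : ∀ p ∈ m.primeFactors, (Y p).Normal := by
    intro p hp
    have hpp := (Nat.mem_primeFactors.1 hp).1
    rw [← Subgroup.normalizer_eq_top_iff, eq_top_iff, ← htop]
    refine iSup₂_le fun q hq => ?_
    have hqq := (Nat.mem_primeFactors.1 hq).1
    by_cases hpq : p = q
    · rw [hpq]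
      exact Subgroup.le_normalizer
    · intro y hy
      rw [Subgroup.mem_normalizer_iff]
      intro x
      constructor
      · intro hx
        rw [← hcomm p q hpp hqq hpq x hx y hy]
        simpa using hx
      · intro hx
        have := hcomm p q hpp hqq hpq _ hx y hy
        have h3 : x = y * x * y⁻¹ := by
          calc x = y⁻¹ * ((y * x * y⁻¹) * y) := by group
            _ = y⁻¹ * (y * (y * x * y⁻¹)) := by rw [this]
            _ = y * x * y⁻¹ := by group
        rw [h3]
        exact hx
  have hfinal : ∀ F : Finset ℕ, F ⊆ m.primeFactors →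
      ((⨆ p ∈ F, Y p : Subgroup X) : Set X).Finite := by
    intro F
    induction F using Finset.induction_on with
    | empty =>
      intro _
      simp
    | insert p F hpF ih =>
      intro hF
      have hp := hF (Finset.mem_insert_self p F)
      have ih' := ih (fun q hq => hF (Finset.mem_insert_of_mem hq))
      have := hnorm p hp
      rw [Finset.iSup_insert, sup_comm, Subgroup.mul_normal]
      exact ih'.mul (hYfin p (Nat.mem_primeFactors.1 hp).1 (Nat.mem_primeFactors.1 hp).2.1)
  have h5 := hfinal _ subset_rfl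
  rw [htop, Subgroup.coe_top] at h5
  exact Set.finite_univ_iff.1 h5

private theorem b2_sub {X : Type u} [Group X] (hX : LocallyNilpotent (⊤ : Subgroup X))
    (K : Subgroup X) : LocallyNilpotent (⊤ : Subgroup K) := by
  intro H _ hfg
  obtain ⟨T, hT, hTf⟩ := (Subgroup.fg_iff _).1 hfg
  have h1 := hX (H.map K.subtype) le_top ((Subgroup.fg_iff _).2
    ⟨K.subtype '' T, by rw [← MonoidHom.map_closure, hT], hTf.image _⟩)
  exact Group.nilpotent_of_mulEquiv (H.equivMapOfInjective K.subtype K.subtype_injective).symm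

theorem bounded_locNil {X : Type u} [Group X] (hX : LocallyNilpotent (⊤ : Subgroup X))
    {m n : ℕ} (hm : 0 < m) (ht : ∀ p : ℕ, p.Prime → p ∣ m → Thin p X) {S : Set X}
    (hS : Subgroup.closure S = ⊤) (h1 : ∀ s ∈ S, s ^ m = 1)
    (h2 : ∀ s ∈ S, ∀ y : X, eng s n y = 1) : Finite X := by
  by_cases hSf : S.Finite
  · have h3 := b2_countable hSf.countable
    rw [hS] at h3
    have : Countable X := Subgroup.topEquiv.symm.injective.countable
    exact b2_main hX hm ht hS h1 h2
  · exfalso
    have hinf : S.Infinite := hSf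
    let f := hinf.natEmbedding
    set S' : Set X := Set.range (fun i => ((f i : S) : X)) with hS'
    have hc : S'.Countable := Set.countable_range _
    have h3 := b2_countable hc
    have hsub : ∀ z ∈ S', z ∈ S := by
      rintro _ ⟨i, rfl⟩
      exact (f i).2
    have hfin : Finite (Subgroup.closure S') := by
      refine b2_main (b2_sub hX _) hm (fun p hp hpm => (ht p hp hpm).sub _)
        (S := ((↑) : Subgroup.closure S' → X) ⁻¹' S') Subgroup.closure_closure_coe_preimage
        (n := n) ?_ ?_
      · intro z hz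
        apply Subtype.ext
        rw [Subgroup.coe_pow, h1 _ (hsub _ hz), Subgroup.coe_one]
      · intro z hz y
        have e1 := map_eng (Subgroup.closure S').subtype z y n
        apply (Subgroup.closure S').subtype_injective
        rw [map_one, e1]
        exact h2 _ (hsub _ hz) _
    have hfin2 : ((Subgroup.closure S' : Subgroup X) : Set X).Finite := hfin
    have h4 : S'.Finite := hfin2.subset Subgroup.subset_closure
    exact Set.infinite_range_of_injective
      (Subtype.val_injective.comp f.injective) h4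

end Pool.Agent.Helper59.EI
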