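import Pool.Agent.Helper98.Engel.Defs

/-!
# EI-33. Adding a left Engel element to a finite nilpotent group
-/

set_option autoImplicit false

namespace Pool.Agent.Helper59.EI

universe u

open Pool.Agent.Helper98.Engel

open Subgroup in
private theorem nilp_aux : ∀ (c : ℕ) (H : Type u) [Group H] (M : Subgroup H) (u : H),
    M.Normal → Finite M → Group.IsNilpotent M → Nat.card M ≤ c → M ⊔ zpowers u = ⊤ →
    (∀ x ∈ M, ∃ k, eng u k x = 1) → Group.IsNilpotent H := by
  intro c
  induction c with
  | zero =>
    intro H _ M u _ hfin _ hc _ _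
    exact absurd (Nat.card_pos (α := M)) (by omega)
  | succ c ih =>
    intro H _ M u hMn hfin hM hh htop heng
    by_cases hM1 : M = ⊥
    · rw [hM1, bot_sup_eq] at htop
      have h2 : IsCyclic H := ⟨u, fun x => by
        have h3 : x ∈ zpowers u := by rw [htop]; exact mem_top x
        exact h3⟩
      let _ := h2.commGroup
      have h3 : Group.IsNilpotent H := inferInstance
      exact h3
    -- a non-trivial central element of `M`
    have hMnt : Nontrivial M := (nontrivial_iff_ne_bot M).2 hM1
    have h1 := Group.IsNilpotent.center_ne_bot M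
    obtain ⟨a, ha, ha1⟩ : ∃ a : M, a ∈ center M ∧ a ≠ 1 := by
      obtain ⟨a, ha⟩ := (ne_bot_iff_exists_ne_one).1 h1
      exact ⟨a, a.2, fun h => ha (Subtype.ext h)⟩
    -- iterated commutators with `u` stay in the centre of `M`
    have hcen : ∀ c ∈ M, (∀ m ∈ M, m * c = c * m) →
        (c⁻¹ * u⁻¹ * c * u ∈ M ∧ ∀ m ∈ M, m * (c⁻¹ * u⁻¹ * c * u) = (c⁻¹ * u⁻¹ * c * u) * m) := by
      intro c hc hcc
      have h2 : u⁻¹ * c * u ∈ M := by
        have := hMn.conj_mem c hc u⁻¹
        simpa using this
      constructor
      · have := M.mul_mem (M.inv_mem hc) h2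
        simpa [mul_assoc] using this
      · intro m hm
        have h3 : u * m * u⁻¹ ∈ M := hMn.conj_mem m hm u
        have h4 := hcc _ h3
        have h5 : Commute m c := hcc m hm
        have h6 : m * (u⁻¹ * c * u) = (u⁻¹ * c * u) * m := by
          calc m * (u⁻¹ * c * u) = u⁻¹ * ((u * m * u⁻¹) * c) * u := by group
            _ = u⁻¹ * (c * (u * m * u⁻¹)) * u := by rw [h4]
            _ = (u⁻¹ * c * u) * m := by group
        have h7 : Commute m (u⁻¹ * c * u) := h6
        have h8 := (h5.inv_right.mul_right h7).eq
        simpa [mul_assoc] using h8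
    have hexists : ∀ (k : ℕ) (c : H), c ∈ M → (∀ m ∈ M, m * c = c * m) → c ≠ 1 →
        eng u k c = 1 → ∃ b ∈ M, (∀ m ∈ M, m * b = b * m) ∧ b ≠ 1 ∧ u * b = b * u := by
      intro k
      induction k with
      | zero =>
        intro c _ _ hc1 hk
        exact absurd hk hc1
      | succ k ihk =>
        intro c hcM hcc hc1 hk
        by_cases hu : u * c = c * u
        · exact ⟨c, hcM, hcc, hc1, hu⟩
        · obtain ⟨h2, h3⟩ := hcen c hcM hcc
          apply ihk _ h2 h3 _ (by rw [eng_succ'] at hk; exact hk)
          intro h4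
          apply hu
          calc u * c = c * u * (c⁻¹ * u⁻¹ * c * u)⁻¹ := by group
            _ = c * u := by rw [h4]; simp
    obtain ⟨k, hk⟩ := heng a a.2
    obtain ⟨b, hbM, hbc, hb1, hub⟩ := hexists k (a : H) a.2 (by
      intro m hm
      have := mem_center_iff.1 ha ⟨m, hm⟩
      exact congrArg Subtype.val this) (by
      intro h2
      exact ha1 (Subtype.ext h2)) hk
    have hbcen : b ∈ center H := by
      have h2 : M ⊔ zpowers u ≤ centralizer {b} := by
        refine sup_le ?_ ?_
        · intro m hm
          rw [mem_centralizer_singleton_iff]; exact hbc m hm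
        · rw [zpowers_le, mem_centralizer_singleton_iff]; exact hub
      rw [mem_center_iff]
      intro g
      have h3 : g ∈ M ⊔ zpowers u := by rw [htop]; exact mem_top g
      exact mem_centralizer_singleton_iff.1 (h2 h3)
    -- pass to the quotient
    apply Group.of_quotient_center_nilpotent
    let q := QuotientGroup.mk' (center H)
    have hq : ∀ x, q x = 1 ↔ x ∈ center H := fun x => QuotientGroup.eq_one_iff x
    have hqs : Function.Surjective q := QuotientGroup.mk'_surjective _
    have hsur := q.subgroupMap_surjective M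
    have hcard : Nat.card (M.map q) < Nat.card M := by
      refine lt_of_le_of_ne (Nat.card_le_card_of_surjective _ hsur) ?_
      intro hce
      have hinj : Function.Injective (q.subgroupMap M) :=
        (Nat.bijective_iff_surjective_and_card _).2 ⟨hsur, hce.symm⟩ |>.1
      apply hb1
      have h5 : (q.subgroupMap M) ⟨b, hbM⟩ = (q.subgroupMap M) 1 := by
        rw [map_one]
        apply Subtype.ext
        exact (hq b).2 hbcen
      exact congrArg Subtype.val (hinj h5)
    apply ih (H ⧸ center H) (M.map q) (q u)
    · exact hMn.map q hqs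
    · exact Finite.of_surjective _ hsur
    · exact Group.nilpotent_of_surjective (q.subgroupMap M) hsur
    · omega
    · rw [← MonoidHom.map_zpowers, ← Subgroup.map_sup, htop, ← MonoidHom.range_eq_map]
      exact MonoidHom.range_eq_top.2 hqs
    · rintro _ ⟨x, hx, rfl⟩
      obtain ⟨k, hk⟩ := heng x hx
      exact ⟨k, by rw [← map_eng, hk, map_one]⟩

theorem nilp_of_finite {F : Type u} [Group F] {M : Subgroup F} [M.Normal] (hfin : Finite M)
    (hM : Group.IsNilpotent M) (f : F) (hgen : M ⊔ Subgroup.zpowers f = ⊤)
    (hf : ∀ y ∈ M, ∃ n, eng f n y = 1) : Group.IsNilpotent F :=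
  nilp_aux (Nat.card M) F M f inferInstance hfin hM le_rfl hgen hf

end Pool.Agent.Helper59.EI
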