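import Pool.Agent.Helper59.EI.Defs
import Pool.Agent.Helper59.EI.B3

/-!
# EI-34. Baer's argument when all locally nilpotent T-subgroups are finite
-/

set_option autoImplicit false

namespace Pool.Agent.Helper59.EI

universe u

open Pool.Agent.Helper98.Engel

variable {G : Type u} [Group G]

/-- an element normalising `N` normalises `closure (T ∩ N)` -/
private theorem b4_nr_closure {T : Set G} (hT : ∀ t ∈ T, ∀ g : G, g⁻¹ * t * g ∈ T)
    {N : Subgroup G} {g : G} (hg : g ∈ Nr N) :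
    g ∈ Nr (Subgroup.closure (T ∩ (N : Set G))) := by
  have key : ∀ g ∈ Nr N, ∀ x ∈ Subgroup.closure (T ∩ (N : Set G)),
      g⁻¹ * x * g ∈ Subgroup.closure (T ∩ (N : Set G)) := by
    intro g hg x hx
    induction hx using Subgroup.closure_induction with
    | mem x hx => exact Subgroup.subset_closure ⟨hT x hx.1 g, (mem_Nr'.1 hg x).1 hx.2⟩
    | one => simp
    | mul x y _ _ hx hy =>
      have e : g⁻¹ * (x * y) * g = (g⁻¹ * x * g) * (g⁻¹ * y * g) := by group
      rw [e]; exact Subgroup.mul_mem _ hx hy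
    | inv x _ hx =>
      have e : g⁻¹ * x⁻¹ * g = (g⁻¹ * x * g)⁻¹ := by group
      rw [e]; exact Subgroup.inv_mem _ hx
  rw [mem_Nr']
  intro h
  refine ⟨key g hg h, fun hh => ?_⟩
  have h1 := key g⁻¹ ((Nr N).inv_mem hg) _ hh
  rw [inv_inv] at h1
  have e : g * (g⁻¹ * h * g) * g⁻¹ = h := by group
  rwa [e] at h1

private theorem b4_dir {c : Set (Subgroup G)} (hc : IsChain (· ≤ ·) c) (hne : c.Nonempty)
    {s : Set G} (hs : s.Finite) (h : s ⊆ (sSup c : Subgroup G)) :
    ∃ M ∈ c, s ⊆ (M : Set G) := by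
  induction s, hs using Set.Finite.induction_on with
  | empty => obtain ⟨M, hM⟩ := hne; exact ⟨M, hM, by simp⟩
  | @insert a s _ _ ih =>
    obtain ⟨M, hM, h1⟩ := ih (fun x hx => h (Set.mem_insert_of_mem _ hx))
    obtain ⟨M', hM', h2⟩ :=
      (Subgroup.mem_sSup_of_directedOn hne hc.directedOn).1 (h (Set.mem_insert _ _))
    rcases hc.total hM hM' with h3 | h3
    · exact ⟨M', hM', Set.insert_subset h2 (fun x hx => h3 (h1 hx))⟩
    · exact ⟨M, hM, Set.insert_subset (h3 h2) h1⟩

private theorem b4_TG_sSup {T : Set G} {c : Set (Subgroup G)} (h : ∀ M ∈ c, TG T M) :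
    TG T (sSup c) := by
  apply le_antisymm
  · rw [Subgroup.closure_le]
    exact fun x hx => hx.2
  · apply sSup_le
    intro M hM
    have h1 : Subgroup.closure (T ∩ (M : Set G)) = M := h M hM
    rw [← h1]
    apply Subgroup.closure_mono
    exact fun x hx => ⟨hx.1, le_sSup hM hx.2⟩

private theorem b4_LN_sSup {c : Set (Subgroup G)} (hc : IsChain (· ≤ ·) c) (hne : c.Nonempty)
    (h : ∀ M ∈ c, LocallyNilpotent M) : LocallyNilpotent (sSup c) := by
  intro H hH hfg
  obtain ⟨s, hs⟩ := hfg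
  obtain ⟨M, hM, h1⟩ := b4_dir hc hne s.finite_toSet
    (fun x hx => hH (by rw [← hs]; exact Subgroup.subset_closure hx))
  refine h M hM H ?_ ⟨s, hs⟩
  rw [← hs, Subgroup.closure_le]
  exact h1

private theorem b4_sSup_mem {T : Set G}
    (hfin : ∀ M : Subgroup G, TG T M → LocallyNilpotent M → (M : Set G).Finite)
    {c : Set (Subgroup G)} (hc : IsChain (· ≤ ·) c) (hne : c.Nonempty)
    (h : ∀ M ∈ c, TG T M ∧ LocallyNilpotent M) : sSup c ∈ c := by
  have h1 := hfin (sSup c) (b4_TG_sSup (fun M hM => (h M hM).1))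
    (b4_LN_sSup hc hne (fun M hM => (h M hM).2))
  obtain ⟨M, hM, h2⟩ := b4_dir hc hne h1 (le_refl _)
  have h3 : sSup c = M := le_antisymm h2 (le_sSup hM)
  rw [h3]; exact hM

private theorem b4_LN_mono {H K : Subgroup G} (h : H ≤ K) (hK : LocallyNilpotent K) :
    LocallyNilpotent H := fun L hL hfg => hK L (hL.trans h) hfg

private theorem b4_nilp_of_LN {M : Subgroup G} (h : LocallyNilpotent M)
    (hfin : (M : Set G).Finite) : Group.IsNilpotent M := by
  refine h M le_rfl ⟨hfin.toFinset, ?_⟩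
  rw [Set.Finite.coe_toFinset]
  exact Subgroup.closure_eq M

private theorem b4_LN_of_nilp {M : Subgroup G} (h : Group.IsNilpotent M) :
    LocallyNilpotent M := by
  intro H hH _
  exact Group.nilpotent_of_surjective (G := H.subgroupOf M) (Subgroup.subgroupOfEquivOfLe hH).toMonoidHom
    (Subgroup.subgroupOfEquivOfLe hH).surjective

/-- `T`-normaliser condition in nilpotent groups -/
theorem tnc_nilp {T : Set G} (hT : ∀ t ∈ T, ∀ g : G, g⁻¹ * t * g ∈ T) {M R : Subgroup G}
    (hM : TG T M) (hn : Group.IsNilpotent M) (hR : TG T R) (hRM : R ≤ M) (hne : R ≠ M) :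
    ∃ t ∈ T, t ∈ M ∧ t ∈ Nr R ∧ t ∉ R := by
  obtain ⟨N, hRN, hN⟩ := zorn_le_nonempty₀
    {N : Subgroup G | R ≤ N ∧ N ≤ M ∧ T ∩ (N : Set G) ⊆ R} (by
      intro c hc hch y hy
      refine ⟨sSup c, ⟨?_, ?_, ?_⟩, fun z hz => le_sSup hz⟩
      · exact (hc hy).1.trans (le_sSup hy)
      · exact sSup_le (fun z hz => (hc hz).2.1)
      · rintro x ⟨hx1, hx2⟩
        obtain ⟨z, hz, h2⟩ := (Subgroup.mem_sSup_of_directedOn ⟨y, hy⟩ hch.directedOn).1 hx2
        exact (hc hz).2.2 ⟨hx1, h2⟩) R ⟨le_rfl, hRM, fun x hx => hx.2⟩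
  obtain ⟨⟨hN1, hN2, hN3⟩, hmax⟩ := hN
  have hNM : N ≠ M := by
    rintro rfl
    apply hne
    apply le_antisymm hRM
    have h1 : Subgroup.closure (T ∩ (N : Set G)) = N := hM
    rw [← h1, Subgroup.closure_le]
    exact hN3
  have hnc : NormalizerCondition M := Group.normalizerCondition_of_isNilpotent
  have h1 : N.subgroupOf M < ⊤ := by
    rw [lt_top_iff_ne_top]
    intro h
    rw [Subgroup.subgroupOf_eq_top] at h
    exact hNM (le_antisymm hN2 h)
  obtain ⟨g, hg1, hg2⟩ := SetLike.exists_of_lt (hnc _ h1)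
  have hg3 : (g : G) ∈ Nr N := by
    rw [mem_Nr']
    intro h
    rw [Subgroup.mem_normalizer_iff''] at hg1
    constructor
    · intro hh
      have := (hg1 ⟨h, hN2 hh⟩).1 hh
      simpa [Subgroup.mem_subgroupOf] using this
    · intro hh
      have h2 : h ∈ M := by
        have h3 := M.mul_mem (M.mul_mem g.2 (hN2 hh)) (M.inv_mem g.2)
        have e : (g : G) * ((g : G)⁻¹ * h * g) * (g : G)⁻¹ = h := by group
        rwa [e] at h3
      have := (hg1 ⟨h, h2⟩).2 (by simpa [Subgroup.mem_subgroupOf] using hh)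
      simpa [Subgroup.mem_subgroupOf] using this
  have hg4 : (g : G) ∉ N := by
    simpa [Subgroup.mem_subgroupOf] using hg2
  by_contra hcon
  have hN' : R ≤ N ⊔ Subgroup.zpowers (g : G) ∧ N ⊔ Subgroup.zpowers (g : G) ≤ M ∧
      T ∩ ((N ⊔ Subgroup.zpowers (g : G) : Subgroup G) : Set G) ⊆ R := by
    refine ⟨hN1.trans le_sup_left, sup_le hN2 ?_, ?_⟩
    · rw [Subgroup.zpowers_le]
      exact g.2
    · rintro t ⟨ht1, ht2⟩
      by_contra htR
      apply hcon
      have hle : N ⊔ Subgroup.zpowers (g : G) ≤ Nr N :=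
        sup_le (le_Nr N) (by rw [Subgroup.zpowers_le]; exact hg3)
      have hle2 : N ⊔ Subgroup.zpowers (g : G) ≤ M :=
        sup_le hN2 (by rw [Subgroup.zpowers_le]; exact g.2)
      refine ⟨t, ht1, hle2 ht2, ?_, htR⟩
      have h5 := b4_nr_closure hT (hle ht2)
      have h6 : T ∩ (N : Set G) = T ∩ (R : Set G) := by
        ext x
        exact ⟨fun hx => ⟨hx.1, hN3 hx⟩, fun hx => ⟨hx.1, hN1 hx.2⟩⟩
      have h7 : Subgroup.closure (T ∩ (R : Set G)) = R := hR
      rw [h6, h7] at h5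
      exact h5
  have h8 : N ⊔ Subgroup.zpowers (g : G) ≤ N := hmax hN' le_sup_left
  exact hg4 (h8 (Subgroup.mem_sup_right (Subgroup.mem_zpowers _)))

/-- a left Engel element of `T` normalising a maximal `M` lies in `M` -/
private theorem b4_mem {T : Set G} (hE : ∀ t ∈ T, IsLeftEngel t) {M : Subgroup G}
    (hfin : (M : Set G).Finite)
    (hM : Maximal (fun N : Subgroup G => TG T N ∧ LocallyNilpotent N) M) {t : G} (ht : t ∈ T)
    (hn : t ∈ Nr M) : t ∈ M := by
  set F : Subgroup G := M ⊔ Subgroup.zpowers t with hF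
  have hMF : M ≤ F := le_sup_left
  have htF : t ∈ F := Subgroup.mem_sup_right (Subgroup.mem_zpowers _)
  have hFN : F ≤ Nr M := sup_le (le_Nr M) (by rw [Subgroup.zpowers_le]; exact hn)
  have hnor : (M.subgroupOf F).Normal := Subgroup.normal_subgroupOf_of_le_normalizer hFN
  have hMnil : Group.IsNilpotent M := b4_nilp_of_LN hM.1.2 hfin
  have hfin' : Finite M := hfin.to_subtype
  have hfin2 : Finite (M.subgroupOf F) := Finite.of_equiv M
    (Subgroup.subgroupOfEquivOfLe hMF).symm.toEquiv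
  have hnil2 : Group.IsNilpotent (M.subgroupOf F) :=
    Group.nilpotent_of_surjective (Subgroup.subgroupOfEquivOfLe hMF).symm.toMonoidHom
      (Subgroup.subgroupOfEquivOfLe hMF).symm.surjective
  have hnil : Group.IsNilpotent F := by
    refine nilp_of_finite (M := M.subgroupOf F) hfin2 hnil2 ⟨t, htF⟩ ?_ ?_
    · apply le_antisymm le_top
      intro x _
      have hx : (x : G) ∈ M ⊔ Subgroup.zpowers t := x.2
      have h1 : (M.subgroupOf F ⊔ Subgroup.zpowers (⟨t, htF⟩ : F)).map F.subtype =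
          M ⊔ Subgroup.zpowers t := by
        rw [Subgroup.map_sup, Subgroup.map_subgroupOf_eq_of_le hMF, MonoidHom.map_zpowers]
        rfl
      rw [← h1] at hx
      obtain ⟨y, hy, hyx⟩ := hx
      have : y = x := Subtype.ext hyx
      rw [← this]
      exact hy
    · intro y _
      obtain ⟨n, hn⟩ := hE t ht (y : G)
      refine ⟨n, ?_⟩
      apply F.subtype_injective
      rw [map_eng, map_one]
      exact hn
  have hTG : TG T F := by
    apply le_antisymm
    · rw [Subgroup.closure_le]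
      exact fun x hx => hx.2
    · apply sup_le
      · have h1 : Subgroup.closure (T ∩ (M : Set G)) = M := hM.1.1
        rw [← h1]
        apply Subgroup.closure_mono
        exact fun x hx => ⟨hx.1, hMF hx.2⟩
      · rw [Subgroup.zpowers_le]
        exact Subgroup.subset_closure ⟨ht, htF⟩
  exact hM.2 ⟨hTG, b4_LN_of_nilp hnil⟩ hMF htF

/-- the conjugate `g M g⁻¹` -/
private def b4_cj (g : G) (M : Subgroup G) : Subgroup G := M.map (MulAut.conj g).toMonoidHom

private theorem b4_mem_cj {g : G} {M : Subgroup G} {x : G} :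
    x ∈ b4_cj g M ↔ g⁻¹ * x * g ∈ M := by
  constructor
  · rintro ⟨y, hy, rfl⟩
    have : g⁻¹ * ((MulAut.conj g).toMonoidHom y) * g = y := by
      simp only [MulEquiv.coe_toMonoidHom, MulAut.conj_apply]
      group
    rw [this]; exact hy
  · intro h
    refine ⟨_, h, ?_⟩
    simp only [MulEquiv.coe_toMonoidHom, MulAut.conj_apply]
    group

private theorem b4_cj_TG {T : Set G} (hT : ∀ t ∈ T, ∀ g : G, g⁻¹ * t * g ∈ T) {M : Subgroup G}
    (hM : TG T M) (g : G) : TG T (b4_cj g M) := by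
  apply le_antisymm
  · rw [Subgroup.closure_le]
    exact fun x hx => hx.2
  · have h1 : Subgroup.closure (T ∩ (M : Set G)) = M := hM
    have h2 : b4_cj g M = Subgroup.closure ((MulAut.conj g).toMonoidHom '' (T ∩ (M : Set G))) := by
      rw [b4_cj, ← MonoidHom.map_closure, h1]
    conv_lhs => rw [h2]
    apply Subgroup.closure_mono
    rintro _ ⟨x, hx, rfl⟩
    constructor
    · have := hT x hx.1 g⁻¹
      simpa using this
    · exact ⟨x, hx.2, rfl⟩

private theorem b4_cj_LN {M : Subgroup G} (hM : LocallyNilpotent M) (g : G) :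
    LocallyNilpotent (b4_cj g M) := by
  intro H hH hfg
  have h1 : b4_cj g⁻¹ H ≤ M := by
    intro x hx
    rw [b4_mem_cj, inv_inv] at hx
    have := hH hx
    rw [b4_mem_cj] at this
    have e : g⁻¹ * (g * x * g⁻¹) * g = x := by group
    rwa [e] at this
  have h2 : (b4_cj g⁻¹ H).FG := by
    classical
    obtain ⟨s, hs⟩ := hfg
    refine ⟨s.image (MulAut.conj g⁻¹).toMonoidHom, ?_⟩
    rw [Finset.coe_image, b4_cj, ← MonoidHom.map_closure, hs]
  have h3 := hM _ h1 h2
  have h4 : H = b4_cj g (b4_cj g⁻¹ H) := by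
    ext x
    rw [b4_mem_cj, b4_mem_cj, inv_inv]
    have e : g * (g⁻¹ * x * g) * g⁻¹ = x := by group
    rw [e]
  rw [h4]
  exact Group.nilpotent_of_surjective
    ((MulAut.conj g).toMonoidHom.subgroupMap (b4_cj g⁻¹ H))
    ((MulAut.conj g).toMonoidHom.subgroupMap_surjective _)

private theorem b4_cj_max {T : Set G} (hT : ∀ t ∈ T, ∀ g : G, g⁻¹ * t * g ∈ T) {M : Subgroup G}
    (hM : Maximal (fun N : Subgroup G => TG T N ∧ LocallyNilpotent N) M) (g : G) :
    Maximal (fun N : Subgroup G => TG T N ∧ LocallyNilpotent N) (b4_cj g M) := by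
  refine ⟨⟨b4_cj_TG hT hM.1.1 g, b4_cj_LN hM.1.2 g⟩, ?_⟩
  intro N hN hle x hx
  have h1 : M ≤ b4_cj g⁻¹ N := by
    intro y hy
    rw [b4_mem_cj, inv_inv]
    apply hle
    rw [b4_mem_cj]
    have e : g⁻¹ * (g * y * g⁻¹) * g = y := by group
    rwa [e]
  have h2 := hM.2 ⟨b4_cj_TG hT hN.1 g⁻¹, b4_cj_LN hN.2 g⁻¹⟩ h1
  rw [b4_mem_cj]
  apply h2
  rw [b4_mem_cj, inv_inv]
  have e : g * (g⁻¹ * x * g) * g⁻¹ = x := by group
  rwa [e]

theorem baer_finite {T : Set G} (hT : ∀ t ∈ T, ∀ g : G, g⁻¹ * t * g ∈ T)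
    (hE : ∀ t ∈ T, IsLeftEngel t)
    (hfin : ∀ M : Subgroup G, TG T M → LocallyNilpotent M → (M : Set G).Finite) :
    (Subgroup.closure T : Set G).Finite ∧ Group.IsNilpotent (Subgroup.closure T) := by
  set P : Subgroup G → Prop := fun N => TG T N ∧ LocallyNilpotent N with hP
  -- every `P`-subgroup lies in a maximal one
  have hex : ∀ A : Subgroup G, P A → ∃ M, A ≤ M ∧ Maximal P M := by
    intro A hA
    obtain ⟨M, h1, h2⟩ := zorn_le_nonempty₀ {N : Subgroup G | P N} (by
      intro c hc hch y hy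
      exact ⟨sSup c, hc (b4_sSup_mem hfin hch ⟨y, hy⟩ (fun M hM => hc hM)),
        fun z hz => le_sSup hz⟩) A hA
    exact ⟨M, h1, h2⟩
  -- two maximal ones are equal
  have huniq : ∀ M M' : Subgroup G, Maximal P M → Maximal P M' → M = M' := by
    by_contra hcon
    push Not at hcon
    obtain ⟨M0, M0', hM0, hM0', hne0⟩ := hcon
    obtain ⟨I, _, hI⟩ := zorn_le_nonempty₀ {I : Subgroup G | ∃ M M' : Subgroup G, Maximal P M ∧
        Maximal P M' ∧ M ≠ M' ∧ I = Subgroup.closure (T ∩ ((M ⊓ M' : Subgroup G) : Set G))} (by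
      intro c hc hch y hy
      refine ⟨sSup c, hc (b4_sSup_mem hfin hch ⟨y, hy⟩ ?_), fun z hz => le_sSup hz⟩
      intro I hI
      obtain ⟨M, M', hM, hM', _, rfl⟩ := hc hI
      refine ⟨TG_closure Set.inter_subset_left, b4_LN_mono ?_ hM.1.2⟩
      rw [Subgroup.closure_le]
      exact fun x hx => hx.2.1) _ ⟨M0, M0', hM0, hM0', hne0, rfl⟩
    obtain ⟨⟨M, M', hM, hM', hne, hIeq⟩, hImax⟩ := hI
    have hITG : TG T I := by rw [hIeq]; exact TG_closure Set.inter_subset_left
    have hIM : I ≤ M := by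
      rw [hIeq, Subgroup.closure_le]; exact fun x hx => hx.2.1
    have hIM' : I ≤ M' := by
      rw [hIeq, Subgroup.closure_le]; exact fun x hx => hx.2.2
    have hIne : I ≠ M := by
      intro h
      apply hne
      have h1 : M ≤ M' := h ▸ hIM'
      exact le_antisymm h1 (hM.2 hM'.1 h1)
    have hIne' : I ≠ M' := by
      intro h
      apply hne
      have h1 : M' ≤ M := h ▸ hIM
      exact le_antisymm (hM'.2 hM.1 h1) h1
    have hMfin := hfin M hM.1.1 hM.1.2
    have hMfin' := hfin M' hM'.1.1 hM'.1.2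
    obtain ⟨d, hdT, hdM, hdN, hdI⟩ := tnc_nilp hT hM.1.1 (b4_nilp_of_LN hM.1.2 hMfin) hITG hIM hIne
    obtain ⟨f, hfT, hfM', hfN, hfI⟩ :=
      tnc_nilp hT hM'.1.1 (b4_nilp_of_LN hM'.1.2 hMfin') hITG hIM' hIne'
    have hfM : f ∉ M := by
      intro h
      apply hfI
      rw [hIeq]
      exact Subgroup.subset_closure ⟨hfT, h, hfM'⟩
    -- no element of `Nr I` outside `Nr M` has `d` in `g M g⁻¹`
    have hkey : ∀ g : G, g ∈ Nr I → g ∉ Nr M → g⁻¹ * d * g ∉ M := by
      intro g hgI hgM hd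
      have h1 : M ≠ b4_cj g M := by
        intro h
        apply hgM
        rw [mem_Nr']
        intro x
        rw [← b4_mem_cj, ← h]
      have h2 : I ≤ Subgroup.closure (T ∩ ((M ⊓ b4_cj g M : Subgroup G) : Set G)) := by
        have h3 : Subgroup.closure (T ∩ (I : Set G)) = I := hITG
        conv_lhs => rw [← h3]
        apply Subgroup.closure_mono
        rintro x ⟨hx1, hx2⟩
        refine ⟨hx1, hIM hx2, ?_⟩
        show x ∈ b4_cj g M
        rw [b4_mem_cj]
        exact hIM ((mem_Nr'.1 hgI x).1 hx2)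
      have h4 := hImax ⟨M, b4_cj g M, hM, b4_cj_max hT hM g, h1, rfl⟩ h2
      apply hdI
      apply h4
      apply Subgroup.subset_closure
      refine ⟨hdT, hdM, ?_⟩
      show d ∈ b4_cj g M
      rw [b4_mem_cj]
      exact hd
    have hTM : ∀ g ∈ T, g ∉ M → g ∉ Nr M := fun g hg hgM h => hgM (b4_mem hE hMfin hM hg h)
    -- the sequence of commutators
    obtain ⟨n, hn⟩ := hE d hdT f
    have hn' : ∃ k, eng d k f ∈ M := ⟨n, by rw [hn]; exact M.one_mem⟩
    classical
    have hk1 := Nat.find_spec hn'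
    have hk2 := fun m (hm : m < Nat.find hn') => Nat.find_min hn' hm
    have hyI : ∀ j, eng d j f ∈ Nr I := fun j => eng_mem hdN hfN j
    rcases hk : Nat.find hn' with _ | k
    · rw [hk] at hk1
      exact hfM hk1
    rw [hk] at hk1 hk2
    -- `y_{k+1} ∈ M`, `y_k ∉ M`
    have hyk : eng d k f ∉ M := hk2 k (Nat.lt_succ_self k)
    have h5 : (eng d k f)⁻¹ * d * eng d k f ∈ M := by
      rw [eng_succ] at hk1
      have h6 := M.mul_mem hk1 (M.inv_mem hdM)
      have e : (eng d k f)⁻¹ * d⁻¹ * eng d k f * d * d⁻¹ =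
          ((eng d k f)⁻¹ * d * eng d k f)⁻¹ := by group
      rw [e] at h6
      exact (Subgroup.inv_mem_iff M).1 h6
    rcases k with _ | k
    · -- `g = f`
      exact hkey f hfN (hTM f hfT hfM) h5
    · set y := eng d k f with hy
      set g := y⁻¹ * d * y with hg
      have hgT : g ∈ T := hT d hdT y
      have hgI : g ∈ Nr I := by
        rw [hg]
        exact (Nr I).mul_mem ((Nr I).mul_mem ((Nr I).inv_mem (hyI k)) hdN) (hyI k)
      have h7 : eng d (k + 1) f = g⁻¹ * d := by
        rw [eng_succ, ← hy, hg]; group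
      have hgM : g ∉ M := by
        intro h
        apply hyk
        rw [h7]
        exact M.mul_mem (M.inv_mem h) hdM
      rw [h7] at h5
      have h8 : g * d * g⁻¹ ∈ M := by
        have h9 := M.mul_mem (M.mul_mem hdM h5) (M.inv_mem hdM)
        have e : d * ((g⁻¹ * d)⁻¹ * d * (g⁻¹ * d)) * d⁻¹ = g * d * g⁻¹ := by group
        rwa [e] at h9
      refine hkey g⁻¹ ((Nr I).inv_mem hgI) ?_ (by rw [inv_inv]; exact h8)
      intro h
      exact hTM g hgT hgM ((Subgroup.inv_mem_iff _).1 h)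
  -- conclusion
  obtain ⟨M, _, hM⟩ := hex ⊥ ⟨by
    have := TG_closure (T := T) (Set.empty_subset T)
    rwa [Subgroup.closure_empty] at this, fun H hH _ => by
      have : H = ⊥ := le_bot_iff.1 hH
      subst this
      infer_instance⟩
  have hTM : T ⊆ (M : Set G) := by
    intro t ht
    obtain ⟨M', h1, hM'⟩ := hex (Subgroup.closure {t}) ⟨TG_closure (Set.singleton_subset_iff.2 ht), by
      apply b4_LN_of_nilp
      rw [← Subgroup.zpowers_eq_closure]
      have : IsCyclic (Subgroup.zpowers t) := Subgroup.isCyclic_zpowers t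
      let _ : CommGroup (Subgroup.zpowers t) := IsCyclic.commGroup
      exact CommGroup.isNilpotent (G := Subgroup.zpowers t)⟩
    rw [huniq M M' hM hM']
    exact h1 (Subgroup.subset_closure rfl)
  have hle : Subgroup.closure T ≤ M := (Subgroup.closure_le _).2 hTM
  have h1 : LocallyNilpotent (Subgroup.closure T) := b4_LN_mono hle hM.1.2
  have h2 : (Subgroup.closure T : Set G).Finite := (hfin M hM.1.1 hM.1.2).subset hle
  exact ⟨h2, b4_nilp_of_LN h1 h2⟩

end Pool.Agent.Helper59.EI
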