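import Pool.Agent.Helper59.EI.Nc

/-!
# EI-10. Baer–Suzuki for involutions
-/

set_option autoImplicit false

namespace Pool.Agent.Helper59.EI

universe u

variable {G : Type u} [Group G]

private theorem LP_zpowers {c : G} (hc : PEl 2 c) : LP 2 (Subgroup.zpowers c) := by
  obtain ⟨k, hk⟩ := hc
  have hfin : IsOfFinOrder c := isOfFinOrder_iff_pow_eq_one.2 ⟨2 ^ k, by positivity, hk⟩
  refine ⟨LF_of_finite ?_, ?_⟩
  · exact hfin.finite_zpowers
  · intro x hx
    obtain ⟨i, rfl⟩ := Subgroup.mem_zpowers_iff.1 hx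
    refine ⟨k, ?_⟩
    rw [← zpow_natCast, ← zpow_mul, mul_comm, zpow_mul, zpow_natCast, hk, one_zpow]

/-- two involutions whose product is a 2-element generate a finite 2-group -/
theorem dihedral_LP {a b : G} (ha : a * a = 1) (hb : b * b = 1) (hab : PEl 2 (a * b)) :
    LP 2 (Subgroup.closure {a, b}) := by
  have hai : a⁻¹ = a := inv_eq_of_mul_eq_one_right ha
  have hbi : b⁻¹ = b := inv_eq_of_mul_eq_one_right hb
  have hA : LP 2 (Subgroup.zpowers (a * b)) := LP_zpowers hab
  have hB : LP 2 (Subgroup.zpowers a) := LP_zpowers ⟨1, by rw [pow_one, pow_two]; exact ha⟩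
  have hconj : ∀ h, h ∈ Subgroup.zpowers (a * b) → a * h * a⁻¹ ∈ Subgroup.zpowers (a * b) := by
    intro h hh
    obtain ⟨i, rfl⟩ := Subgroup.mem_zpowers_iff.1 hh
    rw [← conj_zpow]
    have h1 : a * (a * b) * a⁻¹ = (a * b)⁻¹ := by
      rw [mul_inv_rev, hai, hbi, ← mul_assoc a a b, ha, one_mul]
    rw [h1]
    exact Subgroup.zpow_mem _ (Subgroup.inv_mem _ (Subgroup.mem_zpowers _)) i
  have hnr : a ∈ Nr (Subgroup.zpowers (a * b)) := by
    rw [mem_Nr]
    intro h
    refine ⟨hconj h, fun hh => ?_⟩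
    have h2 := hconj _ hh
    have h3 : a * (a * h * a⁻¹) * a⁻¹ = h := by
      rw [hai]
      calc a * (a * h * a) * a = (a * a) * h * (a * a) := by group
        _ = h := by rw [ha]; group
    rwa [h3] at h2
  have hsup := LP.sup hA hB ((Subgroup.zpowers_le).2 hnr)
  refine hsup.mono ?_
  rw [Subgroup.closure_le]
  rintro x (rfl | rfl)
  · exact Subgroup.mem_sup_right (Subgroup.mem_zpowers _)
  · have h4 : x = a * (a * x) := by rw [← mul_assoc, ha, one_mul]
    rw [SetLike.mem_coe, h4]
    exact Subgroup.mul_mem _ (Subgroup.mem_sup_right (Subgroup.mem_zpowers _))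
      (Subgroup.mem_sup_left (h4 ▸ Subgroup.mem_zpowers _))

private theorem Cher_of_finite {F : Type u} [Group F] [Finite F] (X : Subgroup F) :
    Cher 2 X := by
  refine ⟨⊥, Dv_bot 2, bot_le, ?_, ?_⟩
  · intro x hx
    rw [mem_Nr]
    intro h
    rw [Subgroup.mem_bot, Subgroup.mem_bot]
    constructor
    · rintro rfl; group
    · intro h1
      calc h = x⁻¹ * (x * h * x⁻¹) * x := by group
        _ = 1 := by rw [h1]; group
  · rw [Subgroup.relIndex_bot_left]
    exact Nat.card_pos.ne'

/-- Baer–Suzuki for involutions in finite groups -/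
theorem bs {F : Type u} [Group F] [Finite F] {T : Set F} (h : IT T)
    (hg : Subgroup.closure T = ⊤) : ∀ x : F, PEl 2 x := by
  classical
  haveI : Fact (Nat.Prime 2) := ⟨Nat.prime_two⟩
  set Φ : Set (Subgroup F) := {M | TG T M ∧ LP 2 M} with hΦ
  have hΦfin : Φ.Finite := Set.toFinite _
  have hex : ∀ M ∈ Φ, ∃ M', M ≤ M' ∧ Maximal (· ∈ Φ) M' := fun M hM =>
    hΦfin.exists_le_maximal hM
  -- uniqueness of the maximal members
  have huniq : ∀ M M' : Subgroup F, Maximal (· ∈ Φ) M → Maximal (· ∈ Φ) M' → M = M' := by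
    by_contra hcon
    push Not at hcon
    obtain ⟨M₁, M₂, hM₁, hM₂, hne⟩ := hcon
    let P : Set (Subgroup F × Subgroup F) :=
      {p | Maximal (· ∈ Φ) p.1 ∧ Maximal (· ∈ Φ) p.2 ∧ p.1 ≠ p.2}
    obtain ⟨⟨M, M'⟩, ⟨hM, hM', hMM⟩, hmax⟩ := Set.exists_max_image P
      (fun p => Nat.card (Subgroup.closure (T ∩ (p.1 : Set F) ∩ (p.2 : Set F)))) (Set.toFinite _)
      ⟨(M₁, M₂), hM₁, hM₂, hne⟩
    simp only at hM hM' hMM hmax
    set I : Subgroup F := Subgroup.closure (T ∩ (M : Set F) ∩ (M' : Set F)) with hI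
    have hIT : TG T I := TG_closure (fun x hx => hx.1.1)
    have hIM : I ≤ M := (Subgroup.closure_le _).2 (fun x hx => hx.1.2)
    have hIM' : I ≤ M' := (Subgroup.closure_le _).2 (fun x hx => hx.2)
    have hIneM : I ≠ M := by
      intro h1
      apply hMM
      have h2 : M ≤ M' := h1 ▸ hIM'
      exact le_antisymm h2 (hM.2 hM'.1 h2)
    have hIneM' : I ≠ M' := by
      intro h1
      apply hMM
      have h2 : M' ≤ M := h1 ▸ hIM
      exact le_antisymm (hM'.2 hM.1 h2) h2
    obtain ⟨d, hdT, hdM, hdN, hdI⟩ := Cher.tnc hM.1.2 (Cher_of_finite M)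
      (fun t ht g _ => h.conj t ht g) hM.1.1 hIT hIM hIneM
    obtain ⟨f, hfT, hfM, hfN, hfI⟩ := Cher.tnc hM'.1.2 (Cher_of_finite M')
      (fun t ht g _ => h.conj t ht g) hM'.1.1 hIT hIM' hIneM'
    have hdf : LP 2 (Subgroup.closure {d, f}) :=
      dihedral_LP (h.inv d hdT) (h.inv f hfT) (h.two d hdT f hfT)
    have hIL : LP 2 I := hM.1.2.mono hIM
    have hle : Subgroup.closure {d, f} ≤ Nr I := by
      rw [Subgroup.closure_le]
      rintro x (rfl | rfl)
      · exact hdN
      · exact hfN
    have hJ : LP 2 (I ⊔ Subgroup.closure {d, f}) := LP.sup hIL hdf hle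
    have hJT : TG T (I ⊔ Subgroup.closure {d, f}) := by
      rw [hI, ← Subgroup.closure_union]
      apply TG_closure
      rintro x (hx | rfl | rfl)
      · exact hx.1.1
      · exact hdT
      · exact hfT
    obtain ⟨M'', hJM, hM''⟩ := hex _ ⟨hJT, hJ⟩
    have hdM'' : d ∈ M'' := hJM (Subgroup.mem_sup_right (Subgroup.subset_closure (by simp)))
    have hfM'' : f ∈ M'' := hJM (Subgroup.mem_sup_right (Subgroup.subset_closure (by simp)))
    have hIM'' : I ≤ M'' := le_sup_left.trans hJM
    -- a maximal member containing `I` and an element outside `I` equals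
    have key : ∀ N : Subgroup F, Maximal (· ∈ Φ) N → I ≤ N → ∀ e ∈ T, e ∈ N → e ∈ M'' → e ∉ I →
        N = M'' := by
      intro N hN hIN e heT heN heM heI
      by_contra hNM
      have h1 := hmax (N, M'') ⟨hN, hM'', hNM⟩
      simp only at h1
      have h2 : I < Subgroup.closure (T ∩ (N : Set F) ∩ (M'' : Set F)) := by
        refine lt_of_le_of_ne ?_ ?_
        · rw [hI, Subgroup.closure_le]
          intro x hx
          exact Subgroup.subset_closure ⟨⟨hx.1.1, hIN (Subgroup.subset_closure hx)⟩,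
            hIM'' (Subgroup.subset_closure hx)⟩
        · intro h3
          apply heI
          rw [h3]
          exact Subgroup.subset_closure ⟨⟨heT, heN⟩, heM⟩
      have h3 : Nat.card I < Nat.card (Subgroup.closure (T ∩ (N : Set F) ∩ (M'' : Set F))) := by
        have h4 : (I : Set F).ncard <
            ((Subgroup.closure (T ∩ (N : Set F) ∩ (M'' : Set F)) : Subgroup F) : Set F).ncard :=
          Set.ncard_lt_ncard (SetLike.coe_ssubset_coe.2 h2) (Set.toFinite _)
        exact h4
      omega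
    have e1 := key M hM hIM d hdT hdM hdM'' hdI
    have e2 := key M' hM' hIM' f hfT hfM hfM'' hfI
    exact hMM (e1.trans e2.symm)
  -- the unique maximal member contains everything
  have hbot : (⊥ : Subgroup F) ∈ Φ := by
    refine ⟨?_, LF_of_finite (Set.toFinite _), ?_⟩
    · unfold TG
      rw [Subgroup.closure_eq_bot_iff]
      intro x hx
      exact hx.2
    · intro x hx
      rw [Subgroup.mem_bot.1 hx]
      exact PEl_one 2
  obtain ⟨M, -, hM⟩ := hex ⊥ hbot
  have hTM : T ⊆ (M : Set F) := by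
    intro t ht
    have h1 : Subgroup.closure ({t} : Set F) ∈ Φ := by
      refine ⟨TG_closure (by simpa using ht), ?_⟩
      rw [← Subgroup.zpowers_eq_closure]
      exact LP_zpowers (h.pel ht)
    obtain ⟨M', hle, hM'⟩ := hex _ h1
    rw [huniq M M' hM hM']
    exact hle (Subgroup.subset_closure rfl)
  intro x
  have h2 : (⊤ : Subgroup F) ≤ M := by
    rw [← hg, Subgroup.closure_le]
    exact hTM
  exact hM.1.2.2 x (h2 (Subgroup.mem_top x))

private theorem exists_finite_closure {S : Set G} {x : G} (hx : x ∈ Subgroup.closure S) :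
    ∃ s : Set G, s.Finite ∧ s ⊆ S ∧ x ∈ Subgroup.closure s := by
  induction hx using Subgroup.closure_induction with
  | mem x hx => exact ⟨{x}, Set.finite_singleton x, by simpa using hx,
      Subgroup.subset_closure rfl⟩
  | one => exact ⟨∅, Set.finite_empty, Set.empty_subset _, Subgroup.one_mem _⟩
  | mul x y hx hy ihx ihy =>
    obtain ⟨s, hs, hsS, hxs⟩ := ihx
    obtain ⟨t, ht, htS, hyt⟩ := ihy
    exact ⟨s ∪ t, hs.union ht, Set.union_subset hsS htS, Subgroup.mul_mem _
      (Subgroup.closure_mono Set.subset_union_left hxs)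
      (Subgroup.closure_mono Set.subset_union_right hyt)⟩
  | inv x hx ih =>
    obtain ⟨s, hs, hsS, hxs⟩ := ih
    exact ⟨s, hs, hsS, Subgroup.inv_mem _ hxs⟩

/-- a locally finite group generated by elements of `T` is a 2-group -/
theorem IT.lp {T : Set G} (h : IT T) {S : Set G} (hS : S ⊆ T)
    (hf : LF (Subgroup.closure S)) : LP 2 (Subgroup.closure S) := by
  refine ⟨hf, fun x hx => ?_⟩
  obtain ⟨s, hs, hsS, hxs⟩ := exists_finite_closure hx
  have hK : ((Subgroup.closure s : Subgroup G) : Set G).Finite :=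
    hf s hs (hsS.trans Subgroup.subset_closure)
  haveI : Finite (Subgroup.closure s) := hK
  have hIT : IT {y : Subgroup.closure s | (y : G) ∈ T} := by
    refine ⟨?_, ?_, ?_, ?_⟩
    · intro t ht h1
      exact h.ne t ht (by rw [h1]; rfl)
    · intro t ht
      exact Subtype.ext (h.inv t ht)
    · intro t ht g
      exact h.conj t ht g
    · intro a ha b hb
      obtain ⟨k, hk⟩ := h.two a ha b hb
      exact ⟨k, Subtype.ext (by simpa using hk)⟩
  have hgen : Subgroup.closure {y : Subgroup.closure s | (y : G) ∈ T} = ⊤ := by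
    rw [eq_top_iff, ← Subgroup.closure_closure_coe_preimage (k := s)]
    apply Subgroup.closure_mono
    intro y hy
    exact hS (hsS hy)
  have h2 := bs hIT hgen ⟨x, hxs⟩
  exact h2.map (Subgroup.closure s).subtype

theorem IT.tg_lp {T : Set G} (h : IT T) {M : Subgroup G} (hM : TG T M) (hf : LF M) : LP 2 M := by
  have h1 : LP 2 (Subgroup.closure (T ∩ (M : Set G))) :=
    h.lp Set.inter_subset_left (by rw [hM]; exact hf)
  rwa [hM] at h1

end Pool.Agent.Helper59.EI
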