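import Pool.Agent.Helper59.EI.DvBasic

/-!
# EI-5. The centre of a countable locally finite thin p-group
-/

set_option autoImplicit false

namespace Pool.Agent.Helper59.EI

universe u

variable {p : ℕ} [Fact p.Prime]

/-- the central elements of order dividing `p` of a subgroup -/
private def zp {X : Type u} [Group X] (p : ℕ) (F : Subgroup X) : Subgroup X where
  carrier := {x | x ∈ F ∧ x ^ p = 1 ∧ ∀ y ∈ F, x * y = y * x}
  mul_mem' := by
    rintro a b ⟨ha1, ha2, ha3⟩ ⟨hb1, hb2, hb3⟩
    refine ⟨F.mul_mem ha1 hb1, ?_, ?_⟩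
    · have hc : Commute a b := ha3 b hb1
      rw [hc.mul_pow, ha2, hb2, one_mul]
    · intro y hy
      rw [mul_assoc, hb3 y hy, ← mul_assoc, ha3 y hy, mul_assoc]
  one_mem' := ⟨F.one_mem, one_pow _, fun y _ => by rw [one_mul, mul_one]⟩
  inv_mem' := by
    rintro a ⟨ha1, ha2, ha3⟩
    refine ⟨F.inv_mem ha1, by rw [inv_pow, ha2, inv_one], ?_⟩
    intro y hy
    have hc : Commute a y := ha3 y hy
    exact hc.inv_left

private theorem zp_ne_bot {X : Type u} [Group X] {F : Subgroup X} (hF : (F : Set X).Finite)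
    (hp : ∀ x ∈ F, PEl p x) (hne : F ≠ ⊥) : zp p F ≠ ⊥ := by
  have : Finite F := hF.to_subtype
  have hnt : Nontrivial F := (Subgroup.nontrivial_iff_ne_bot F).2 hne
  have hpg : IsPGroup p F := by
    intro x
    obtain ⟨k, hk⟩ := hp x x.2
    exact ⟨k, Subtype.ext (by simpa using hk)⟩
  have hc := hpg.center_nontrivial
  obtain ⟨z, hz⟩ := exists_ne (1 : Subgroup.center F)
  have hz1 : (z : F) ≠ 1 := fun h => hz (Subtype.ext h)
  obtain ⟨k, hk⟩ := hpg (z : F)
  -- take the smallest exponent
  classical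
  have hex : ∃ k, (z : F) ^ p ^ k = 1 := ⟨k, hk⟩
  have hm := Nat.find_spec hex
  have hm0 : Nat.find hex ≠ 0 := by
    intro h0
    rw [h0, pow_zero, pow_one] at hm
    exact hz1 hm
  obtain ⟨m, hmm⟩ := Nat.exists_eq_succ_of_ne_zero hm0
  have hlt : (z : F) ^ p ^ m ≠ 1 := Nat.find_min hex (by omega)
  rw [hmm, Nat.succ_eq_add_one, pow_succ, pow_mul] at hm
  intro hbot
  have hmem : (((z : F) ^ p ^ m : F) : X) ∈ zp p F := by
    refine ⟨((z : F) ^ p ^ m : F).2, ?_, ?_⟩
    · have := congrArg (Subtype.val) hm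
      simpa using this
    · intro y hy
      have h1 : ((z : F) ^ p ^ m) ∈ Subgroup.center F := Subgroup.pow_mem _ z.2 _
      have h2 := Subgroup.mem_center_iff.1 h1 ⟨y, hy⟩
      have := congrArg (Subtype.val) h2
      simpa using this.symm
  rw [hbot, Subgroup.mem_bot] at hmem
  exact hlt (Subtype.ext hmem)

theorem center_ne_bot {X : Type u} [Group X] [Countable X] [Nontrivial X]
    (hX : LP p (⊤ : Subgroup X)) (ht : Thin p X) : Subgroup.center X ≠ ⊥ := by
  classical
  obtain ⟨e, he⟩ := exists_surjective_nat X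
  set F : ℕ → Subgroup X := fun i => Subgroup.closure (e '' Set.Iio i) with hFdef
  have hFmono : Monotone F := fun i j hij =>
    Subgroup.closure_mono (Set.image_mono (Set.Iio_subset_Iio hij))
  have hFfin : ∀ i, (F i : Set X).Finite := fun i =>
    hX.1 _ ((Set.finite_Iio i).image e) (fun _ _ => Subgroup.mem_top _)
  have hFmem : ∀ x : X, ∃ i, x ∈ F i := by
    intro x
    obtain ⟨i, rfl⟩ := he x
    exact ⟨i + 1, Subgroup.subset_closure ⟨i, Nat.lt_succ_self i, rfl⟩⟩
  obtain ⟨x0, hx0⟩ := exists_ne (1 : X)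
  obtain ⟨i0, hi0⟩ := hFmem x0
  have hFne : ∀ i, i0 ≤ i → F i ≠ ⊥ := by
    intro i hi h
    have h1 := hFmono hi hi0
    rw [h, Subgroup.mem_bot] at h1
    exact hx0 h1
  -- the sets
  set U : ℕ → Set X := fun j => {x | ∃ i, j ≤ i ∧ x ∈ zp p (F i)} with hUdef
  have hUcomm : ∀ j, ∀ x ∈ U j, ∀ y ∈ U j, x * y = y * x := by
    rintro j x ⟨i, _, hx⟩ y ⟨k, _, hy⟩
    rcases le_total i k with h | h
    · exact (hy.2.2 x (hFmono h hx.1)).symm
    · exact hx.2.2 y (hFmono h hy.1)
  set W : ℕ → Subgroup X := fun j => Subgroup.closure (U j) with hWdef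
  have hWc1 : ∀ j, ∀ x ∈ W j, ∀ y ∈ U j, x * y = y * x := by
    intro j x hx y hy
    have h1 : W j ≤ Subgroup.centralizer {y} := by
      rw [hWdef]
      simp only
      rw [Subgroup.closure_le]
      intro z hz
      rw [SetLike.mem_coe, Subgroup.mem_centralizer_singleton_iff]
      exact hUcomm j z hz y hy
    have h2 := h1 hx
    rw [Subgroup.mem_centralizer_singleton_iff] at h2
    exact h2
  have hWcomm : ∀ j, ∀ x ∈ W j, ∀ y ∈ W j, x * y = y * x := by
    intro j x hx y hy
    have h1 : W j ≤ Subgroup.centralizer {x} := by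
      rw [hWdef]
      simp only
      rw [Subgroup.closure_le]
      intro z hz
      rw [SetLike.mem_coe, Subgroup.mem_centralizer_singleton_iff]
      exact (hWc1 j x hx z hz).symm
    have h2 := h1 hy
    rw [Subgroup.mem_centralizer_singleton_iff] at h2
    exact h2.symm
  have hWp : ∀ j, ∀ x ∈ W j, x ^ p = 1 := by
    intro j x hx
    induction hx using Subgroup.closure_induction with
    | mem x hx =>
      obtain ⟨i, _, h⟩ := hx
      exact h.2.1
    | one => exact one_pow p
    | mul x y hx hy ihx ihy =>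
      have hc : Commute x y := hWcomm j x hx y hy
      rw [hc.mul_pow, ihx, ihy, one_mul]
    | inv x hx ih => rw [inv_pow, ih, inv_one]
  have hWfin : ∀ j, (W j : Set X).Finite := fun j => ht (W j) (hWp j) (hWcomm j)
  have hWanti : Antitone W := by
    intro i j hij
    apply Subgroup.closure_mono
    rintro x ⟨k, hk, hx⟩
    exact ⟨k, le_trans hij hk, hx⟩
  have hWne : ∀ j, W j ≠ ⊥ := by
    intro j h
    apply zp_ne_bot (p := p) (hFfin (max i0 j)) (fun x _ => hX.2 x (Subgroup.mem_top x))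
      (hFne _ (le_max_left _ _))
    rw [eq_bot_iff, ← h]
    intro x hx
    exact Subgroup.subset_closure ⟨max i0 j, le_max_right _ _, hx⟩
  -- W j centralises F j
  have hWF : ∀ j, ∀ x ∈ W j, ∀ y ∈ F j, x * y = y * x := by
    intro j x hx y hy
    have h1 : W j ≤ Subgroup.centralizer {y} := by
      rw [hWdef]
      simp only
      rw [Subgroup.closure_le]
      rintro z ⟨i, hi, hz⟩
      rw [SetLike.mem_coe, Subgroup.mem_centralizer_singleton_iff]
      exact hz.2.2 y (hFmono hi hy)
    have h2 := h1 hx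
    rw [Subgroup.mem_centralizer_singleton_iff] at h2
    exact h2
  -- stabilisation
  set j0 : ℕ := Function.argmin (fun j => Nat.card (W j)) with hj0
  have hst : ∀ j, j0 ≤ j → W j = W j0 := by
    intro j hj
    have : Finite (W j0) := (hWfin j0).to_subtype
    apply Subgroup.eq_of_le_of_card_ge (hWanti hj)
    exact Function.argmin_le (fun j => Nat.card (W j)) j
  intro hcb
  apply hWne j0
  rw [eq_bot_iff, ← hcb]
  intro x hx
  rw [Subgroup.mem_center_iff]
  intro g
  obtain ⟨i, hi⟩ := hFmem g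
  have h1 : g ∈ F (max i j0) := hFmono (le_max_left _ _) hi
  have h2 : x ∈ W (max i j0) := by
    rw [hst _ (le_max_right _ _)]
    exact hx
  exact (hWF _ x h2 g h1).symm

end Pool.Agent.Helper59.EI
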