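import Pool.Agent.Helper59.EI.Ab

/-!
# EI-13. No infinite chain of absorbing steps
-/

set_option autoImplicit false

namespace Pool.Agent.Helper59.EI

universe u

variable {G : Type u} [Group G]

theorem chain_absurd (ht : Thin 2 G) (A : ℕ → Subgroup G) (hA : Monotone A)
    (h2 : ∀ n, ∀ x ∈ A n, PEl 2 x) (s : ℕ → G) (hs : ∀ n, s n * s n = 1)
    (hmem : ∀ n, s n ∈ A (n + 1)) (hnot : ∀ n, s n ∉ A n)
    (hc : ∀ n, ∀ x ∈ A (2 * n), s (2 * n) * s (2 * n + 1) * x = x * (s (2 * n) * s (2 * n + 1))) :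
    False := by
  have : Fact (Nat.Prime 2) := ⟨Nat.prime_two⟩
  set z : ℕ → G := fun n => s (2 * n) * s (2 * n + 1) with hz
  have hzmem : ∀ n, z n ∈ A (2 * n + 2) := fun n =>
    mul_mem (hA (by omega) (hmem (2 * n))) (hmem (2 * n + 1))
  have hzc : ∀ n, ∀ x ∈ A (2 * n), z n * x = x * z n := hc
  have hzz : ∀ i j, z i * z j = z j * z i := by
    intro i j
    rcases lt_trichotomy i j with h | h | h
    · exact (hzc j _ (hA (by omega) (hzmem i))).symm
    · rw [h]
    · exact hzc i _ (hA (by omega) (hzmem j))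
  set Z : ℕ → Subgroup G := fun k => Subgroup.closure {x | ∃ i, k ≤ i ∧ x = z i} with hZ
  -- elements of `Z k` commute with `A (2 k)`
  have hZc : ∀ k, ∀ x ∈ Z k, ∀ y ∈ A (2 * k), x * y = y * x := by
    intro k x hx y hy
    have h1 : Z k ≤ Subgroup.centralizer {y} := by
      rw [hZ, Subgroup.closure_le]
      rintro _ ⟨i, hi, rfl⟩
      rw [SetLike.mem_coe, Subgroup.mem_centralizer_singleton_iff]
      exact (hzc i y (hA (by omega) hy))
    have h2 := h1 hx
    rw [Subgroup.mem_centralizer_singleton_iff] at h2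
    exact h2
  have hZanti : Antitone Z := by
    intro k l hkl
    refine Subgroup.closure_mono ?_
    rintro _ ⟨i, hi, rfl⟩
    exact ⟨i, hkl.trans hi, rfl⟩
  have hBc : ∀ x ∈ Z 0, ∀ y ∈ Z 0, x * y = y * x := by
    intro x hx y hy
    have h1 : Z 0 ≤ Subgroup.centralizer (Z 0 : Set G) := by
      have h3 : ∀ j, z j ∈ Subgroup.centralizer (Z 0 : Set G) := by
        intro j
        rw [Subgroup.mem_centralizer_iff]
        intro w hw
        have h4 : Z 0 ≤ Subgroup.centralizer {z j} := by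
          rw [hZ, Subgroup.closure_le]
          rintro _ ⟨i, hi, rfl⟩
          rw [SetLike.mem_coe, Subgroup.mem_centralizer_singleton_iff]
          exact hzz i j
        have h5 := h4 hw
        rw [Subgroup.mem_centralizer_singleton_iff] at h5
        exact h5
      rw [hZ, Subgroup.closure_le]
      rintro _ ⟨i, hi, rfl⟩
      exact h3 i
    exact ((Subgroup.mem_centralizer_iff.1 (h1 hx)) y hy).symm
  have hBA : ∀ x ∈ Z 0, ∃ n, x ∈ A n := by
    intro x hx
    have h1 : Z 0 ≤ ⨆ n, A n := by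
      rw [hZ, Subgroup.closure_le]
      rintro _ ⟨i, hi, rfl⟩
      exact Subgroup.mem_iSup_of_mem (2 * i + 2) (hzmem i)
    exact (Subgroup.mem_iSup_of_directed (hA.directed_le)).1 (h1 hx)
  have hAb : AbF 2 (Z 0) := AbF.of_thin ht hBc (fun x hx => by
    obtain ⟨n, hn⟩ := hBA x hx
    exact h2 n x hn)
  obtain ⟨k, hk⟩ := hAb.dcc Z hZanti le_rfl
  -- `z i` for `i ≥ k` commutes with everything
  have hcen : ∀ i, k ≤ i → ∀ m, ∀ y ∈ A m, z i * y = y * z i := by
    intro i hi m y hy
    have h1 : z i ∈ Z k := Subgroup.subset_closure ⟨i, hi, rfl⟩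
    have h3 : z i ∈ Z (max k m) := by
      rw [hk _ (le_max_left k m)]
      exact h1
    exact hZc _ _ h3 y (hA (by have := le_max_right k m; omega) hy)
  have hsq : ∀ i, k ≤ i → z i ^ 2 = 1 := by
    intro i hi
    have h1 := hcen i hi (2 * i + 1) (s (2 * i)) (hmem (2 * i))
    -- z i * s = s * z i with z i = s * s'
    have h3 : s (2 * i) * s (2 * i + 1) * s (2 * i) = s (2 * i + 1) := by
      have h4 : s (2 * i) * (s (2 * i) * s (2 * i + 1)) = s (2 * i + 1) := by
        rw [← mul_assoc, hs, one_mul]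
      exact h1.trans h4
    change (s (2 * i) * s (2 * i + 1)) ^ 2 = 1
    rw [pow_two, ← mul_assoc, h3, hs]
  -- pigeonhole
  have hfin := hAb.fin
  have hmaps : ∀ i : ℕ, z (k + i) ∈ {x : G | x ∈ Z 0 ∧ x ^ 2 = 1} := fun i =>
    ⟨Subgroup.subset_closure ⟨k + i, Nat.zero_le _, rfl⟩, hsq _ (Nat.le_add_right _ _)⟩
  obtain ⟨i, -, j, -, hij, he⟩ := Set.infinite_univ.exists_ne_map_eq_of_mapsTo
    (s := (Set.univ : Set ℕ)) (f := fun i => z (k + i)) (fun i _ => hmaps i) hfin
  have key : ∀ i j : ℕ, i < j → z (k + i) = z (k + j) → False := by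
    intro i j hij he
    have h1 : z (k + j) ∈ A (2 * (k + j) + 1) := by
      rw [← he]
      exact hA (by omega) (hzmem (k + i))
    have h3 : s (2 * (k + j) + 1) = s (2 * (k + j)) * z (k + j) := by
      change s (2 * (k + j) + 1) = s (2 * (k + j)) * (s (2 * (k + j)) * s (2 * (k + j) + 1))
      rw [← mul_assoc, hs, one_mul]
    apply hnot (2 * (k + j) + 1)
    rw [h3]
    exact mul_mem (hmem _) h1
  rcases lt_or_gt_of_ne hij with h | h
  · exact key i j h he
  · exact key j i h he.symm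

end Pool.Agent.Helper59.EI
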