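import Pool.Agent.Helper59.EI.DvBasic

/-!
# EI-6. Quotients of thin p-groups
-/

set_option autoImplicit false

namespace Pool.Agent.Helper59.EI

universe u

variable {p : ℕ} [Fact p.Prime]

/-- a set is finite if a finite-valued function separates it modulo a subgroup with finite image -/
theorem tq_fibres {X Y W : Type*} [Group X] [Group Y] (q : X →* Y) (E B : Subgroup X)
    (hB : (q '' (B : Set X)).Finite) (φ : X → W) (hφ : (φ '' (E : Set X)).Finite)
    (h : ∀ x ∈ E, ∀ y ∈ E, φ x = φ y → x * y⁻¹ ∈ B) : (q '' (E : Set X)).Finite := by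
  classical
  have h1 : ∀ w : W, ∃ r : X, ∀ x ∈ E, φ x = w → x * r⁻¹ ∈ B := by
    intro w
    by_cases hw : ∃ r ∈ E, φ r = w
    · obtain ⟨r, hr, hrw⟩ := hw
      exact ⟨r, fun x hx hxw => h x hx r hr (hxw.trans hrw.symm)⟩
    · exact ⟨1, fun x hx hxw => absurd ⟨x, hx, hxw⟩ hw⟩
  choose r hr using h1
  have h2 : (⋃ w ∈ φ '' (E : Set X), (fun y => y * q (r w)) '' (q '' (B : Set X))).Finite :=
    hφ.biUnion fun w _ => hB.image _
  refine h2.subset ?_
  rintro _ ⟨x, hx, rfl⟩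
  refine Set.mem_biUnion ⟨x, hx, rfl⟩ ⟨q (x * (r (φ x))⁻¹), ⟨_, hr (φ x) x hx rfl, rfl⟩, ?_⟩
  change q (x * (r (φ x))⁻¹) * q (r (φ x)) = q x
  rw [← map_mul, inv_mul_cancel_right]

theorem tq_max {X : Type u} [Group X] (E : Subgroup X) :
    ∃ B : Subgroup X, B ≤ E ∧ (∀ x ∈ B, ∀ y ∈ B, x * y = y * x) ∧
      ∀ x ∈ E, (∀ y ∈ B, x * y = y * x) → x ∈ B := by
  obtain ⟨B, _, hB⟩ := zorn_le_nonempty₀ {B : Subgroup X | B ≤ E ∧ ∀ x ∈ B, ∀ y ∈ B, x * y = y * x}
    (by
      intro c hc hch y hy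
      refine ⟨sSup c, ⟨sSup_le fun B hB => (hc hB).1, ?_⟩, fun B hB => le_sSup hB⟩
      intro a ha b hb
      rw [Subgroup.mem_sSup_of_directedOn ⟨y, hy⟩ hch.directedOn] at ha hb
      obtain ⟨A1, hA1, ha⟩ := ha
      obtain ⟨A2, hA2, hb⟩ := hb
      rcases hch.total hA1 hA2 with h | h
      · exact (hc hA2).2 a (h ha) b hb
      · exact (hc hA1).2 a ha b (h hb))
    ⊥ ⟨bot_le, by
      intro x hx y hy
      rw [Subgroup.mem_bot] at hx hy
      rw [hx, hy]⟩
  refine ⟨B, hB.prop.1, hB.prop.2, ?_⟩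
  intro x hx hxB
  set T : Set X := insert x (B : Set X) with hT
  have h0 : ∀ a ∈ T, ∀ b ∈ T, a * b = b * a := by
    intro a ha b hb
    rcases ha with rfl | ha <;> rcases hb with rfl | hb
    · rfl
    · exact hxB b hb
    · exact (hxB a ha).symm
    · exact hB.prop.2 a ha b hb
  have h1 : Subgroup.closure T ≤ Subgroup.centralizer T := by
    rw [Subgroup.closure_le]
    intro a ha
    rw [SetLike.mem_coe, Subgroup.mem_centralizer_iff]
    intro b hb
    exact h0 b hb a ha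
  have h2 : Subgroup.closure T ≤ Subgroup.centralizer (Subgroup.closure T : Set X) := by
    rw [Subgroup.closure_le]
    intro a ha
    rw [SetLike.mem_coe, Subgroup.mem_centralizer_iff]
    intro b hb
    exact ((Subgroup.mem_centralizer_iff.1 (h1 hb)) a ha).symm
  have h3 : Subgroup.closure T ≤ E := by
    rw [Subgroup.closure_le]
    intro a ha
    rcases ha with rfl | ha
    · exact hx
    · exact hB.prop.1 ha
  have h4 : B ≤ Subgroup.closure T := fun b hb =>
    Subgroup.subset_closure (Set.mem_insert_of_mem _ hb)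
  have h5 := hB.le_of_ge (y := Subgroup.closure T) ⟨h3, fun a ha b hb =>
    (Subgroup.mem_centralizer_iff.1 (h2 hb)) a ha⟩ h4
  exact h5 (Subgroup.subset_closure (Set.mem_insert _ _))

/-- quotient by a central subgroup -/
theorem thin_quot_central {X : Type u} [Group X] (hX : LP p (⊤ : Subgroup X)) (ht : Thin p X)
    (Z : Subgroup X) [Z.Normal] (hZ : Z ≤ Subgroup.center X) : Thin p (X ⧸ Z) := by
  classical
  intro A hA1 hA2
  set q : X →* X ⧸ Z := QuotientGroup.mk' Z with hq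
  set E : Subgroup X := A.comap q with hE
  have hcen : ∀ z ∈ Z, ∀ x : X, z * x = x * z := fun z hz x =>
    ((Subgroup.mem_center_iff.1 (hZ hz)) x).symm
  have hqZ : ∀ x : X, q x = 1 ↔ x ∈ Z := fun x => QuotientGroup.eq_one_iff x
  have hE1 : ∀ x ∈ E, x ^ p ∈ Z := by
    intro x hx
    rw [← hqZ, map_pow]
    exact hA1 _ hx
  have hE2 : ∀ x ∈ E, ∀ y ∈ E, x⁻¹ * y⁻¹ * x * y ∈ Z := by
    intro x hx y hy
    rw [← hqZ, map_mul, map_mul, map_mul, map_inv, map_inv, mul_assoc, hA2 _ hx _ hy]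
    group
  have hE3 : ∀ x ∈ E, ∀ y ∈ E, (x⁻¹ * y⁻¹ * x * y) ^ p = 1 := by
    intro x hx y hy
    have h1 : y⁻¹ * x * y = x * (x⁻¹ * y⁻¹ * x * y) := by group
    have h2 : (y⁻¹ * x * y) ^ p = y⁻¹ * x ^ p * y := by
      have := conj_pow (i := p) (a := y⁻¹) (b := x)
      rwa [inv_inv] at this
    have h3 : Commute x (x⁻¹ * y⁻¹ * x * y) := (hcen _ (hE2 x hx y hy) x).symm
    have h4 : y⁻¹ * x ^ p * y = x ^ p := by
      rw [mul_assoc, hcen _ (hE1 x hx) y, inv_mul_cancel_left]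
    rw [h1, h3.mul_pow, h4] at h2
    exact mul_eq_left.1 h2
  have hAZ : AbF p Z := AbF.of_thin ht (fun x hx y _ => hcen x hx y)
    (fun x _ => hX.2 x (Subgroup.mem_top x))
  obtain ⟨B, hBE, hB1, hB2⟩ := tq_max E
  have hAB : AbF p B := AbF.of_thin ht hB1 (fun x _ => hX.2 x (Subgroup.mem_top x))
  obtain ⟨c, hc, hcB, hcc⟩ := hAB.cosets
  have hqB : (q '' (B : Set X)).Finite := by
    refine (hc.image q).subset ?_
    rintro _ ⟨b, hb, rfl⟩
    obtain ⟨y, hy, z, hz, rfl⟩ := hcc b hb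
    refine ⟨y, hy, ?_⟩
    rw [map_mul, (hqZ _).2 (hE1 z (hBE hz)), mul_one]
  have hfin : Finite c := hc
  have hqE : (q '' (E : Set X)).Finite := by
    refine tq_fibres q E B hqB (fun x => fun b : c => x⁻¹ * (b : X)⁻¹ * x * (b : X)) ?_ ?_
    · have h1 : (Set.pi Set.univ fun _ : c => {z : X | z ∈ Z ∧ z ^ p = 1}).Finite :=
        Set.Finite.pi fun _ => hAZ.fin
      refine h1.subset ?_
      rintro _ ⟨x, hx, rfl⟩
      rw [Set.mem_univ_pi]
      intro b
      exact ⟨hE2 x hx b (hBE (hcB b.2)), hE3 x hx b (hBE (hcB b.2))⟩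
    · intro x hx y hy hxy
      refine hB2 _ (E.mul_mem hx (E.inv_mem hy)) ?_
      have h1 : ∀ b ∈ c, x * y⁻¹ * b = b * (x * y⁻¹) := by
        intro b hb
        have h2 : x⁻¹ * b⁻¹ * x * b = y⁻¹ * b⁻¹ * y * b := congrFun hxy ⟨b, hb⟩
        have h3 : x⁻¹ * b⁻¹ * x = y⁻¹ * b⁻¹ * y := mul_right_cancel h2
        have h4 : b⁻¹ * (x * y⁻¹) = x * y⁻¹ * b⁻¹ := by
          calc b⁻¹ * (x * y⁻¹) = x * (x⁻¹ * b⁻¹ * x) * y⁻¹ := by group
            _ = x * (y⁻¹ * b⁻¹ * y) * y⁻¹ := by rw [h3]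
            _ = x * y⁻¹ * b⁻¹ := by group
        calc x * y⁻¹ * b = b * (b⁻¹ * (x * y⁻¹)) * b := by group
          _ = b * (x * y⁻¹ * b⁻¹) * b := by rw [h4]
          _ = b * (x * y⁻¹) := by group
      intro b hb
      obtain ⟨y', hy', z, hz, rfl⟩ := hcc b hb
      have h2 := hcen _ (hE1 z (hBE hz)) (x * y⁻¹)
      rw [← mul_assoc, h1 y' hy', mul_assoc y' (x * y⁻¹), ← h2, mul_assoc y']
  refine hqE.subset ?_
  intro a ha
  obtain ⟨x, rfl⟩ := QuotientGroup.mk'_surjective Z a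
  exact ⟨x, ha, rfl⟩

/-- the image of a subgroup centralising the kernel -/
theorem tq_image {X : Type u} [Group X] (hX : LP p (⊤ : Subgroup X)) (ht : Thin p X)
    (W : Subgroup X) [W.Normal] (C : Subgroup X) (A : Subgroup (X ⧸ W))
    (hA1 : ∀ x ∈ A, x ^ p = 1) (hA2 : ∀ x ∈ A, ∀ y ∈ A, x * y = y * x)
    (hCA : C ≤ A.comap (QuotientGroup.mk' W))
    (hc : ∀ x ∈ C, ∀ w ∈ W, w ∈ C → x * w = w * x) :
    ((QuotientGroup.mk' W) '' (C : Set X)).Finite := by
  have h1 : W.subgroupOf C ≤ Subgroup.center C := by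
    intro w hw
    rw [Subgroup.mem_center_iff]
    intro x
    apply Subtype.ext
    exact hc x x.2 w hw w.2
  have h2 := thin_quot_central (p := p) (X := C) (LP_top_iff.2 (hX.mono le_top)) (ht.sub C)
    (W.subgroupOf C) h1
  have h3 := h2 ⊤ (by
    intro x _
    obtain ⟨x, rfl⟩ := QuotientGroup.mk_surjective x
    rw [← QuotientGroup.mk_pow, QuotientGroup.eq_one_iff]
    change ((x ^ p : C) : X) ∈ W
    rw [← QuotientGroup.eq_one_iff (N := W)]
    exact hA1 _ (hCA x.2)) (by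
    intro x _ y _
    obtain ⟨x, rfl⟩ := QuotientGroup.mk_surjective x
    obtain ⟨y, rfl⟩ := QuotientGroup.mk_surjective y
    rw [← QuotientGroup.mk_mul, ← QuotientGroup.mk_mul, QuotientGroup.eq]
    change ((((x * y)⁻¹ * (y * x) : C)) : X) ∈ W
    rw [← QuotientGroup.eq_one_iff (N := W)]
    have h := hA2 _ (hCA x.2) _ (hCA y.2)
    change (QuotientGroup.mk' W) ((x : X) * y)⁻¹ * (QuotientGroup.mk' W) ((y : X) * x) = 1
    rw [map_inv, map_mul, map_mul, h, inv_mul_cancel])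
  refine (h3.image (QuotientGroup.map (W.subgroupOf C) W C.subtype (fun _ h => h))).subset ?_
  rintro _ ⟨x, hx, rfl⟩
  exact ⟨QuotientGroup.mk ⟨x, hx⟩, Set.mem_univ _, rfl⟩

theorem tq_fin {X : Type u} [Group X] (W : Subgroup X) [W.Normal] (A : Subgroup (X ⧸ W))
    (h : ((QuotientGroup.mk' W) '' ((A.comap (QuotientGroup.mk' W) : Subgroup X) : Set X)).Finite) :
    (A : Set (X ⧸ W)).Finite := by
  refine h.subset ?_
  intro a ha
  obtain ⟨x, rfl⟩ := QuotientGroup.mk'_surjective W a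
  exact ⟨x, ha, rfl⟩

/-- quotient by a finite normal subgroup -/
theorem thin_quot_finite {X : Type u} [Group X] (hX : LP p (⊤ : Subgroup X)) (ht : Thin p X)
    (W : Subgroup X) [hWn : W.Normal] (hW : (W : Set X).Finite) : Thin p (X ⧸ W) := by
  classical
  intro A hA1 hA2
  apply tq_fin
  set E : Subgroup X := A.comap (QuotientGroup.mk' W) with hE
  have hfin : Finite W := hW
  refine tq_fibres _ E (E ⊓ Subgroup.centralizer (W : Set X))
    (tq_image hX ht W (E ⊓ Subgroup.centralizer (W : Set X)) A hA1 hA2 inf_le_left ?_)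
    (fun x => fun w : W => x⁻¹ * (w : X) * x) ?_ ?_
  · intro x hx w hw _
    exact ((Subgroup.mem_centralizer_iff.1 hx.2) w hw).symm
  · have h1 : (Set.pi Set.univ fun _ : W => (W : Set X)).Finite := Set.Finite.pi fun _ => hW
    refine h1.subset ?_
    rintro _ ⟨x, hx, rfl⟩
    rw [Set.mem_univ_pi]
    intro w
    have := hWn.conj_mem w w.2 x⁻¹
    rwa [inv_inv] at this
  · intro x hx y hy hxy
    refine ⟨E.mul_mem hx (E.inv_mem hy), ?_⟩
    refine Subgroup.mem_centralizer_iff.2 ?_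
    intro w hw
    have h2 : x⁻¹ * w * x = y⁻¹ * w * y := congrFun hxy ⟨w, hw⟩
    calc w * (x * y⁻¹) = x * (x⁻¹ * w * x) * y⁻¹ := by group
      _ = x * (y⁻¹ * w * y) * y⁻¹ := by rw [h2]
      _ = x * y⁻¹ * w := by group

theorem tq_Nr {X : Type u} [Group X] (P : Subgroup X) [hP : P.Normal] (E : Subgroup X) :
    E ≤ Nr P := by
  intro x _
  rw [mem_Nr]
  intro h
  constructor
  · intro hh
    exact hP.conj_mem h hh x
  · intro hh
    have := hP.conj_mem _ hh x⁻¹
    have e : x⁻¹ * (x * h * x⁻¹) * x⁻¹⁻¹ = h := by group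
    rwa [e] at this

/-- quotient by a divisible normal subgroup -/
theorem thin_quot_dv {X : Type u} [Group X] (hX : LP p (⊤ : Subgroup X)) (ht : Thin p X)
    (P : Subgroup X) [P.Normal] (hP : Dv p P) : Thin p (X ⧸ P) := by
  classical
  intro A hA1 hA2
  apply tq_fin
  set E : Subgroup X := A.comap (QuotientGroup.mk' P) with hE
  set C : Subgroup X := Subgroup.centralizer (P : Set X) with hC
  have hidx : C.relIndex E ≠ 0 := Dv.centralizer_index ht hP (tq_Nr P E)
    (fun x _ => hX.2 x (Subgroup.mem_top x))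
  have hfi : (C.subgroupOf E).FiniteIndex := ⟨hidx⟩
  have hfin : Finite (E ⧸ C.subgroupOf E) := inferInstance
  refine tq_fibres _ E (E ⊓ C)
    (tq_image hX ht P (E ⊓ C) A hA1 hA2 inf_le_left ?_)
    (fun x => (QuotientGroup.mk x⁻¹ : X ⧸ C)) ?_ ?_
  · intro x hx w hw _
    exact ((Subgroup.mem_centralizer_iff.1 hx.2) w hw).symm
  · refine (Set.finite_range (fun k : E ⧸ C.subgroupOf E =>
      (QuotientGroup.mk ((Quotient.out k : E) : X) : X ⧸ C))).subset ?_
    rintro _ ⟨x, hx, rfl⟩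
    refine ⟨QuotientGroup.mk ⟨x⁻¹, E.inv_mem hx⟩, ?_⟩
    change (QuotientGroup.mk _ : X ⧸ C) = QuotientGroup.mk _
    rw [QuotientGroup.eq]
    have h1 : (QuotientGroup.mk (Quotient.out (QuotientGroup.mk ⟨x⁻¹, E.inv_mem hx⟩ :
        E ⧸ C.subgroupOf E)) : E ⧸ C.subgroupOf E) = QuotientGroup.mk ⟨x⁻¹, E.inv_mem hx⟩ :=
      QuotientGroup.out_eq' _
    rw [QuotientGroup.eq] at h1
    exact h1
  · intro x hx y hy hxy
    refine ⟨E.mul_mem hx (E.inv_mem hy), ?_⟩
    have h1 : (QuotientGroup.mk x⁻¹ : X ⧸ C) = QuotientGroup.mk y⁻¹ := hxy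
    rw [QuotientGroup.eq, inv_inv] at h1
    exact h1

/-- If `P` is a divisible normal subgroup and `D / P` is divisible then `D` is divisible. -/
theorem dv_of_quot {X : Type u} [Group X] (hX : LP p (⊤ : Subgroup X)) (ht : Thin p X)
    (P : Subgroup X) [P.Normal] (hP : Dv p P) (D : Subgroup (X ⧸ P)) (hD : Dv p D) :
    Dv p (D.comap (QuotientGroup.mk' P)) := by
  classical
  set q : X →* X ⧸ P := QuotientGroup.mk' P with hq
  set E : Subgroup X := D.comap q with hE
  set C : Subgroup X := Subgroup.centralizer (P : Set X) with hC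
  have hqP : ∀ x : X, q x = 1 ↔ x ∈ P := fun x => QuotientGroup.eq_one_iff x
  have hidx : C.relIndex E ≠ 0 := Dv.centralizer_index ht hP (tq_Nr P E)
    (fun x _ => hX.2 x (Subgroup.mem_top x))
  have hPE : P ≤ E := by
    intro x hx
    change q x ∈ D
    rw [(hqP x).2 hx]
    exact D.one_mem
  have hPC : P ≤ C := by
    intro x hx
    rw [Subgroup.mem_centralizer_iff]
    intro y hy
    exact hP.comm y hy x hx
  have h1 : (C.map q).relIndex D ≠ 0 := by
    let f : E →* D := (q.comp E.subtype).codRestrict D (fun x => x.2)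
    have hf : Function.Surjective f := by
      rintro ⟨d, hd⟩
      obtain ⟨x, rfl⟩ := QuotientGroup.mk'_surjective P d
      exact ⟨⟨x, hd⟩, rfl⟩
    have h2 : ((C.subgroupOf E).map f).index ≠ 0 := by
      intro h0
      have := Subgroup.index_map_dvd (C.subgroupOf E) hf
      rw [h0, zero_dvd_iff] at this
      exact hidx this
    have h3 : (C.subgroupOf E).map f ≤ (C.map q).subgroupOf D := by
      rintro _ ⟨x, hx, rfl⟩
      exact ⟨x, hx, rfl⟩
    intro h0
    have := Subgroup.index_dvd_of_le h3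
    change (C.map q).relIndex D ∣ _ at this
    rw [h0, zero_dvd_iff] at this
    exact h2 this
  have h2 : D ≤ C.map q := hD.le_of_relIndex h1
  have h3 : E ≤ C := by
    intro y hy
    obtain ⟨x, hx, hxy⟩ := h2 hy
    have h4 : x⁻¹ * y ∈ P := by
      rw [← hqP, map_mul, map_inv, hxy, inv_mul_cancel]
    have h5 : y = x * (x⁻¹ * y) := by group
    rw [h5]
    exact C.mul_mem hx (hPC h4)
  refine Dv.ext hP hPE ?_ ?_ ?_ (fun x _ => hX.2 x (Subgroup.mem_top x))
  · intro x hx y hy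
    exact (Subgroup.mem_centralizer_iff.1 (h3 hy)) x hx
  · intro x hx y hy
    rw [← hqP, map_mul, map_mul, map_mul, map_inv, map_inv, mul_assoc, hD.comm _ hx _ hy]
    group
  · intro x hx
    obtain ⟨d, hd, hdx⟩ := hD.div _ hx
    obtain ⟨y, rfl⟩ := QuotientGroup.mk'_surjective P d
    refine ⟨y, hd, (y ^ p)⁻¹ * x, ?_, by group⟩
    rw [← hqP, map_mul, map_inv, map_pow]
    change (q y ^ p)⁻¹ * q x = 1
    rw [← hdx]
    exact inv_mul_cancel _

end Pool.Agent.Helper59.EI
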