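import Pool.Agent.Helper59.EI.Cen
import Pool.Agent.Helper59.EI.ThinQ

/-!
# EI-7. Countable locally finite thin p-groups are finite extensions of divisible groups
-/

set_option autoImplicit false

namespace Pool.Agent.Helper59.EI

universe u

open scoped commutatorElement

variable {p : ℕ} [Fact p.Prime]

section aux

theorem Cher.thin_of_inj {G : Type*} {G' : Type*} [Group G] [Group G'] (h : Thin p G)
    (f : G' →* G) (hf : Function.Injective f) : Thin p G' := by
  intro A h1 h2
  have h3 := h (A.map f) (by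
    rintro _ ⟨x, hx, rfl⟩
    rw [← map_pow, h1 x hx, map_one]) (by
    rintro _ ⟨x, hx, rfl⟩ _ ⟨y, hy, rfl⟩
    rw [← map_mul, h2 x hx y hy, map_mul])
  have h4 : (f '' (A : Set G')).Finite := by
    rwa [Subgroup.coe_map] at h3
  exact h4.of_finite_image hf.injOn

theorem Cher.LP_quot {Y : Type u} [Group Y] (hY : LP p (⊤ : Subgroup Y)) (N : Subgroup Y)
    [N.Normal] : LP p (⊤ : Subgroup (Y ⧸ N)) := by
  have h := LP.map (QuotientGroup.mk' N) hY
  rwa [Subgroup.map_top_of_surjective _ (QuotientGroup.mk'_surjective N)] at h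

theorem Cher.thin_upper {Y : Type u} [Group Y] (hY : LP p (⊤ : Subgroup Y)) (ht : Thin p Y)
    (i : ℕ) : Thin p (Y ⧸ Subgroup.upperCentralSeries Y i) := by
  induction i with
  | zero =>
    exact Cher.thin_of_inj ht (QuotientGroup.quotientBot (G := Y)).toMonoidHom
      (QuotientGroup.quotientBot (G := Y)).injective
  | succ i ih =>
    have hle := Subgroup.upperCentralSeries_mono Y (Nat.le_succ i)
    have e := QuotientGroup.quotientQuotientEquivQuotient (Subgroup.upperCentralSeries Y i)
      (Subgroup.upperCentralSeries Y (i + 1)) hle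
    have hc : (Subgroup.upperCentralSeries Y (i + 1)).map
        (QuotientGroup.mk' (Subgroup.upperCentralSeries Y i)) ≤
        Subgroup.center (Y ⧸ Subgroup.upperCentralSeries Y i) := by
      rw [Subgroup.map_le_iff_le_comap]
      exact le_of_eq (Subgroup.upperCentralSeriesStep_eq_comap_center
        (Subgroup.upperCentralSeries Y i))
    have h1 := thin_quot_central (Cher.LP_quot hY _) ih _ hc
    exact Cher.thin_of_inj h1 e.symm.toMonoidHom e.symm.injective

/-- a finite index subgroup that is finite -/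
theorem Cher.finite_of_relIndex {Y : Type u} [Group Y] {H K : Subgroup Y}
    (h : H.relIndex K ≠ 0) (hf : ((H ⊓ K : Subgroup Y) : Set Y).Finite) :
    (K : Set Y).Finite := by
  have h1 : (⊥ : Subgroup Y).relIndex (H ⊓ K) ≠ 0 := by
    rw [Subgroup.relIndex_bot_left]
    have : Finite (H ⊓ K : Subgroup Y) := hf.to_subtype
    exact Nat.card_pos.ne'
  have h2 : (H ⊓ K).relIndex K ≠ 0 := by
    rwa [Subgroup.inf_relIndex_right]
  have h3 := Subgroup.relIndex_ne_zero_trans h1 h2
  rw [Subgroup.relIndex_bot_left] at h3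
  have : Finite K := (Nat.card_ne_zero.1 h3).2
  exact Set.toFinite _

theorem Cher.sup_comm {Y : Type u} [Group Y] {A : Subgroup Y} {c : Y}
    (hA : ∀ x ∈ A, ∀ y ∈ A, x * y = y * x) (hc : ∀ x ∈ A, x * c = c * x) :
    ∀ x ∈ Subgroup.closure ((A : Set Y) ∪ {c}), ∀ y ∈ Subgroup.closure ((A : Set Y) ∪ {c}),
      x * y = y * x := by
  have hS : ((A : Set Y) ∪ {c}) ⊆ Subgroup.centralizer ((A : Set Y) ∪ {c}) := by
    intro x hx
    rw [SetLike.mem_coe, Subgroup.mem_centralizer_iff]
    intro y hy
    rcases hx with hx | hx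
    · rcases hy with hy | hy
      · exact hA y hy x hx
      · rw [Set.mem_singleton_iff] at hy
        subst hy
        exact (hc x hx).symm
    · rw [Set.mem_singleton_iff] at hx
      subst hx
      rcases hy with hy | hy
      · exact hc y hy
      · rw [Set.mem_singleton_iff] at hy
        subst hy
        rfl
  intro x hx y hy
  have h1 : y ∈ Subgroup.centralizer ((A : Set Y) ∪ {c}) := (Subgroup.closure_le _).2 hS hy
  have h2 := Subgroup.closure_le_centralizer_centralizer ((A : Set Y) ∪ {c}) hx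
  rw [Subgroup.mem_centralizer_iff] at h2
  exact (h2 y h1).symm

theorem Cher.finite_of_no_dv {Y : Type u} [Group Y] [Countable Y]
    (hY : LP p (⊤ : Subgroup Y)) (ht : Thin p Y)
    (hno : ∀ D : Subgroup Y, D.Normal → Dv p D → D = ⊥) : Finite Y := by
  classical
  let Z : ℕ → Subgroup Y := fun i => Subgroup.upperCentralSeries Y i
  let W : Subgroup Y := ⨆ i, Z i
  have hZm : Monotone Z := Subgroup.upperCentralSeries_mono Y
  have hWmem : ∀ x, x ∈ W ↔ ∃ i, x ∈ Z i := fun x =>
    Subgroup.mem_iSup_of_directed hZm.directed_le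
  have hWn : W.Normal := by
    constructor
    intro x hx g
    obtain ⟨i, hi⟩ := (hWmem x).1 hx
    exact (hWmem _).2 ⟨i, (inferInstance : (Z i).Normal).conj_mem x hi g⟩
  -- a maximal abelian normal subgroup in `W`
  obtain ⟨A, -, hA⟩ := zorn_le_nonempty₀
    {A : Subgroup Y | A.Normal ∧ (∀ x ∈ A, ∀ y ∈ A, x * y = y * x) ∧ A ≤ W} (by
      intro F hF hch B hB
      have hd : DirectedOn (· ≤ ·) F := hch.directedOn
      have hne : F.Nonempty := ⟨B, hB⟩
      refine ⟨sSup F, ⟨⟨?_⟩, ?_, ?_⟩, fun H hH => le_sSup hH⟩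
      · intro x hx g
        obtain ⟨H, hH, hxH⟩ := (Subgroup.mem_sSup_of_directedOn hne hd).1 hx
        exact (Subgroup.mem_sSup_of_directedOn hne hd).2 ⟨H, hH, (hF hH).1.conj_mem x hxH g⟩
      · intro x hx y hy
        obtain ⟨H, hH, hxH⟩ := (Subgroup.mem_sSup_of_directedOn hne hd).1 hx
        obtain ⟨K, hK, hyK⟩ := (Subgroup.mem_sSup_of_directedOn hne hd).1 hy
        obtain ⟨L, hL, h1, h2⟩ := hd H hH K hK
        exact (hF hL).2.1 x (h1 hxH) y (h2 hyK)
      · exact sSup_le fun H hH => (hF hH).2.2) ⊥ ⟨inferInstance, by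
        intro x hx y hy
        rw [Subgroup.mem_bot] at hx hy
        rw [hx, hy], bot_le⟩
  obtain ⟨hAn, hAc, hAW⟩ := hA.prop
  -- it is finite
  have hAfin : (A : Set Y).Finite := by
    have h1 : AbF p A := AbF.of_thin ht hAc fun x hx => hY.2 x trivial
    obtain ⟨P, hP, hPA, -, hPi⟩ := h1.cher
    have hPn : P.Normal := by
      constructor
      intro x hx g
      have h2 : Dv p (P.map (MulAut.conj g).toMonoidHom) := Dv.map _ hP
      have h3 : P.map (MulAut.conj g).toMonoidHom ≤ A := by
        rintro _ ⟨y, hy, rfl⟩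
        exact hAn.conj_mem y (hPA hy) g
      have h4 : P.relIndex (P.map (MulAut.conj g).toMonoidHom) ≠ 0 := fun h =>
        hPi (Subgroup.relIndex_eq_zero_of_le_right h3 h)
      exact Dv.le_of_relIndex h2 h4 ⟨x, hx, rfl⟩
    rw [hno P hPn hP, Subgroup.relIndex_bot_left] at hPi
    have : Finite A := (Nat.card_ne_zero.1 hPi).2
    exact Set.toFinite _
  -- it contains its centraliser
  have hCA : Subgroup.centralizer (A : Set Y) ⊓ W ≤ A := by
    by_contra hcon
    have hex : ∃ i, ¬ (Subgroup.centralizer (A : Set Y) ⊓ Z i ≤ A) := by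
      by_contra h
      push Not at h
      apply hcon
      rintro x ⟨hx1, hx2⟩
      obtain ⟨i, hi⟩ := (hWmem x).1 hx2
      exact h i ⟨hx1, hi⟩
    have hspec := Nat.find_spec hex
    rcases hfi : Nat.find hex with _ | j
    · rw [hfi] at hspec
      apply hspec
      rintro x ⟨-, hx⟩
      have hx' : x ∈ (⊥ : Subgroup Y) := hx
      rw [Subgroup.mem_bot] at hx'
      rw [hx']
      exact A.one_mem
    · rw [hfi] at hspec
      have hj : Subgroup.centralizer (A : Set Y) ⊓ Z j ≤ A := by
        by_contra h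
        exact Nat.find_min hex (m := j) (by rw [hfi]; exact Nat.lt_succ_self j) h
      obtain ⟨c, hc, hcA⟩ := SetLike.not_le_iff_exists.1 hspec
      have hcomm : ∀ y, ⁅c, y⁆ ∈ A := by
        intro y
        refine hj ⟨?_, hc.2 y⟩
        have hCn : (Subgroup.centralizer (A : Set Y)).Normal := inferInstance
        rw [commutatorElement_def]
        have h1 : y * c⁻¹ * y⁻¹ ∈ Subgroup.centralizer (A : Set Y) :=
          hCn.conj_mem _ (Subgroup.inv_mem _ hc.1) y
        have h2 : c * y * c⁻¹ * y⁻¹ = c * (y * c⁻¹ * y⁻¹) := by group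
        rw [h2]
        exact Subgroup.mul_mem _ hc.1 h1
      have hcc : ∀ x ∈ A, x * c = c * x := fun x hx =>
        (Subgroup.mem_centralizer_iff.1 hc.1 x hx)
      let A' : Subgroup Y := Subgroup.closure ((A : Set Y) ∪ {c})
      have hAA' : A ≤ A' := fun x hx => Subgroup.subset_closure (Or.inl hx)
      have hcA' : c ∈ A' := Subgroup.subset_closure (Or.inr rfl)
      have hA' : A' ∈ {A : Subgroup Y | A.Normal ∧ (∀ x ∈ A, ∀ y ∈ A, x * y = y * x) ∧
          A ≤ W} := by
        refine ⟨?_, Cher.sup_comm hAc hcc, ?_⟩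
        · refine ⟨fun w hw g => ?_⟩
          have hle : A' ≤ A'.comap (MulAut.conj g).toMonoidHom := by
            rw [Subgroup.closure_le]
            rintro x (hx | hx)
            · exact hAA' (hAn.conj_mem x hx g)
            · rw [Set.mem_singleton_iff] at hx
              subst hx
              show g * x * g⁻¹ ∈ A'
              have h1 : g * x * g⁻¹ = ⁅x, g⁆⁻¹ * x := by
                rw [commutatorElement_def]
                group
              rw [h1]
              exact A'.mul_mem (A'.inv_mem (hAA' (hcomm g))) hcA'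
          exact hle hw
        · rw [Subgroup.closure_le]
          rintro x (hx | hx)
          · exact hAW hx
          · rw [Set.mem_singleton_iff] at hx
            subst hx
            exact (hWmem _).2 ⟨_, hc.2⟩
      exact hcA (hA.le_of_ge hA' hAA' hcA')
  -- so `W` is finite
  have hWfin : (W : Set Y).Finite := by
    have hfA : Finite A := hAfin.to_subtype
    let φ : Y →* MulAut A := MulAut.conjNormal
    have hfM : Finite (MulAut A) := Finite.of_injective (fun e : MulAut A => (e : A → A))
      (fun e e' h => MulEquiv.ext fun x => congrFun h x)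
    have h1 : φ.ker.index ≠ 0 := by
      rw [Subgroup.index_ker]
      exact Nat.card_pos.ne'
    have h2 : φ.ker ≤ Subgroup.centralizer (A : Set Y) := by
      intro g hg
      rw [Subgroup.mem_centralizer_iff]
      intro x hx
      have h3 : φ g ⟨x, hx⟩ = ⟨x, hx⟩ := by
        rw [MonoidHom.mem_ker.1 hg]
        rfl
      have h4 : g * x * g⁻¹ = x := by
        have := congrArg Subtype.val h3
        rwa [MulAut.conjNormal_apply] at this
      rw [← h4]
      have : g * x * g⁻¹ * g = g * (g * x * g⁻¹) := by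
        rw [h4]
        have h5 : g * x = x * g := by
          rw [← mul_inv_eq_iff_eq_mul]
          exact h4
        exact h5.symm
      exact this
    have h3 : φ.ker.relIndex W ≠ 0 := fun h => h1 (by
      rw [← Subgroup.relIndex_top_right]
      exact Subgroup.relIndex_eq_zero_of_le_right le_top h)
    have h4 : (Subgroup.centralizer (A : Set Y)).relIndex W ≠ 0 := fun h =>
      h3 (Subgroup.relIndex_eq_zero_of_le_left h2 h)
    exact Cher.finite_of_relIndex h4 (hAfin.subset hCA)
  -- `W` is a member of the series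
  obtain ⟨i, hi⟩ : ∃ i, W ≤ Z i := by
    choose f hf using fun x : Y => fun hx : x ∈ W => (hWmem x).1 hx
    obtain ⟨M, hM⟩ : ∃ M : ℕ, ∀ x (hx : x ∈ W), f x hx ≤ M := by
      have hfW : Finite W := hWfin.to_subtype
      obtain ⟨M, hM⟩ := (Set.finite_range fun x : W => f x.1 x.2).bddAbove
      exact ⟨M, fun x hx => hM ⟨⟨x, hx⟩, rfl⟩⟩
    exact ⟨M, fun x hx => hZm (hM x hx) (hf x hx)⟩
  have hcen : Subgroup.center (Y ⧸ Z i) = ⊥ := by
    have h1 : (Subgroup.center (Y ⧸ Z i)).comap (QuotientGroup.mk' (Z i)) ≤ Z i := by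
      have h2 : Z (i + 1) = (Subgroup.center (Y ⧸ Z i)).comap (QuotientGroup.mk' (Z i)) :=
        Subgroup.upperCentralSeriesStep_eq_comap_center (Z i)
      rw [← h2]
      exact (le_iSup Z (i + 1)).trans hi
    rw [eq_bot_iff]
    intro z hz
    obtain ⟨y, rfl⟩ := QuotientGroup.mk'_surjective (Z i) z
    have h2 : y ∈ Z i := h1 hz
    rw [Subgroup.mem_bot]
    exact (QuotientGroup.eq_one_iff y).2 h2
  have hsub : Subsingleton (Y ⧸ Z i) := by
    by_contra h
    have : Nontrivial (Y ⧸ Z i) := not_subsingleton_iff_nontrivial.1 h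
    have : Countable (Y ⧸ Z i) := (QuotientGroup.mk'_surjective (Z i)).countable
    exact center_ne_bot (Cher.LP_quot hY (Z i)) (Cher.thin_upper hY ht i) hcen
  have htop : ∀ y : Y, y ∈ W := by
    intro y
    have h1 : ((y : Y ⧸ Z i)) = 1 := Subsingleton.elim _ _
    exact (hWmem y).2 ⟨i, (QuotientGroup.eq_one_iff y).1 h1⟩
  exact Set.finite_univ_iff.1 (hWfin.subset fun y _ => htop y)

end aux

theorem cher {X : Type u} [Group X] [Countable X] (hX : LP p (⊤ : Subgroup X))
    (ht : Thin p X) : Cher p (⊤ : Subgroup X) := by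
  obtain ⟨P, -, hP⟩ := zorn_le_nonempty₀ {P : Subgroup X | P.Normal ∧ Dv p P} (by
      intro F hF hch B hB
      have hd : DirectedOn (· ≤ ·) F := hch.directedOn
      have hne : F.Nonempty := ⟨B, hB⟩
      refine ⟨sSup F, ⟨⟨?_⟩, Dv.sSupD hne hd fun H hH => (hF hH).2⟩, fun H hH => le_sSup hH⟩
      intro x hx g
      obtain ⟨H, hH, hxH⟩ := (Subgroup.mem_sSup_of_directedOn hne hd).1 hx
      exact (Subgroup.mem_sSup_of_directedOn hne hd).2 ⟨H, hH, (hF hH).1.conj_mem x hxH g⟩)
    ⊥ ⟨inferInstance, Dv_bot p⟩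
  obtain ⟨hPn, hPd⟩ := hP.prop
  have hcount : Countable (X ⧸ P) := (QuotientGroup.mk'_surjective P).countable
  have hfin : Finite (X ⧸ P) := by
    refine Cher.finite_of_no_dv (p := p) (Cher.LP_quot hX P) (thin_quot_dv hX ht P hPd) ?_
    intro D hDn hDd
    have h1 : Dv p (D.comap (QuotientGroup.mk' P)) := dv_of_quot hX ht P hPd D hDd
    have h2 : P ≤ D.comap (QuotientGroup.mk' P) := by
      intro x hx
      show (QuotientGroup.mk' P x) ∈ D
      have : QuotientGroup.mk' P x = 1 := (QuotientGroup.eq_one_iff x).2 hx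
      rw [this]
      exact D.one_mem
    have h3 : D.comap (QuotientGroup.mk' P) ≤ P := hP.le_of_ge ⟨inferInstance, h1⟩ h2
    rw [eq_bot_iff]
    intro z hz
    obtain ⟨y, rfl⟩ := QuotientGroup.mk'_surjective P z
    rw [Subgroup.mem_bot]
    exact (QuotientGroup.eq_one_iff y).2 (h3 hz)
  refine ⟨P, hPd, le_top, ?_, ?_⟩
  · rw [Nr, Subgroup.normalizer_eq_top_iff.2 hPn]
  · rw [Subgroup.relIndex_top_right]
    exact Subgroup.index_ne_zero_of_finite

end Pool.Agent.Helper59.EI
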