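import Pool.Agent.Helper59.EI.DvApi

/-!
# EI-26b. The cover lemma
-/

set_option autoImplicit false

open Pointwise

namespace Pool.Agent.Helper59.EI

universe u

variable {G : Type u} [Group G] {a : G}

/-- Cover lemma: `T` normal set of involutions, `R` divisible inverted by `a`. -/
theorem cover' {T : Set G} (h : IT T) {R : Subgroup G} (ha : a ∈ T) (hR : Dv 2 R)
    (hinv : ∀ r ∈ R, a * r * a = r⁻¹) {E : Set G} (hE : E.Finite)
    (hcov : ∀ r ∈ R, ∃ z ∈ E, z ≠ 1 ∧ a * r * z ∈ T ∧ z * (a * r) = a * r * z) :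
    ∃ z ∈ E, z ≠ 1 ∧ a * z ∈ T ∧ z * a = a * z ∧ ∀ r ∈ R, z * r = r * z := by
  classical
  let S : G → Set R := fun z => {r | z ≠ 1 ∧ a * (r : G) * z ∈ T ∧ z * (a * r) = a * r * z}
  let s : Finset G := hE.toFinset.filter (fun z => (S z).Nonempty)
  let g : G → R := fun z => if hz : (S z).Nonempty then hz.choose else 1
  have hg : ∀ z, (S z).Nonempty → g z ∈ S z := by
    intro z hz
    have : g z = hz.choose := dif_pos hz
    rw [this]
    exact hz.choose_spec
  let H : G → Subgroup R := fun z => (Subgroup.centralizer ({z} : Set G)).subgroupOf R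
  have hc : (⋃ i ∈ s, (g i) • ((H i : Subgroup R) : Set R)) = Set.univ := by
    rw [Set.eq_univ_iff_forall]
    intro r
    obtain ⟨z, hzE, hz1, hzT, hzc⟩ := hcov r r.2
    have hr : r ∈ S z := ⟨hz1, hzT, hzc⟩
    have hne : (S z).Nonempty := ⟨r, hr⟩
    have hgz := hg z hne
    have hzs : z ∈ s := by
      simp only [s, Finset.mem_filter, Set.Finite.mem_toFinset]
      exact ⟨hzE, hne⟩
    refine Set.mem_iUnion₂.2 ⟨z, hzs, ?_⟩
    rw [Set.mem_smul_set]
    refine ⟨(g z)⁻¹ * r, ?_, by simp [smul_eq_mul]⟩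
    show (g z)⁻¹ * r ∈ H z
    rw [Subgroup.mem_subgroupOf, Subgroup.mem_centralizer_singleton_iff]
    have h1 : z * (a * (g z : G)) = a * (g z : G) * z := hgz.2.2
    have h2 : z * (a * (r : G)) = a * (r : G) * z := hzc
    have h3 : Commute z (a * (g z : G)) := h1
    have h4 : Commute z (a * (r : G)) := h2
    have h5 : Commute z ((a * (g z : G))⁻¹ * (a * (r : G))) := h3.inv_right.mul_right h4
    have h6 : (a * (g z : G))⁻¹ * (a * (r : G)) = (((g z)⁻¹ * r : R) : G) := by
      push_cast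
      group
    rw [h6] at h5
    exact h5.symm.eq
  obtain ⟨z, hzs, hfi⟩ := Subgroup.exists_finiteIndex_of_leftCoset_cover hc
  have hzs' : z ∈ E ∧ (S z).Nonempty := by
    simpa [s, Finset.mem_filter, Set.Finite.mem_toFinset] using hzs
  have hri : (Subgroup.centralizer ({z} : Set G)).relIndex R ≠ 0 := hfi.index_ne_zero
  have hle := Dv.le_of_relIndex hR hri
  have hcen : ∀ r ∈ R, z * r = r * z := by
    intro r hr
    have := hle hr
    rw [Subgroup.mem_centralizer_singleton_iff] at this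
    exact this.symm
  obtain ⟨r, hr1, hrT, hrc⟩ := hzs'.2
  have hza : z * a = a * z := by
    have h1 : Commute z (a * (r : G)) := hrc
    have h2 : Commute z (r : G) := hcen r r.2
    have h3 : Commute z (a * (r : G) * (r : G)⁻¹) := h1.mul_right h2.inv_right
    rw [mul_inv_cancel_right] at h3
    exact h3
  refine ⟨z, hzs'.1, hr1, ?_, hza, hcen⟩
  obtain ⟨w, hwR, hw⟩ := hR.div (r : G)⁻¹ (R.inv_mem r.2)
  have haa : a * a = 1 := h.inv a ha
  have h1 : w⁻¹ * a = a * w := by
    rw [← hinv w hwR, mul_assoc, haa, mul_one]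
  have h2 := h.conj _ hrT w
  have h3 : w⁻¹ * (a * (r : G) * z) * w = a * z := by
    calc w⁻¹ * (a * (r : G) * z) * w = (w⁻¹ * a) * r * (z * w) := by group
      _ = (a * w) * r * (w * z) := by rw [h1, hcen w hwR]
      _ = a * (w * (r * w)) * z := by group
      _ = a * (w * (w * r)) * z := by rw [hR.comm _ r.2 _ hwR]
      _ = a * (w ^ 2 * r) * z := by rw [pow_two]; group
      _ = a * z := by rw [hw]; group
  rw [h3] at h2
  exact h2

end Pool.Agent.Helper59.EI
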