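import Mathlib

/-!
# Left Engel involutions in groups with finite elementary abelian 2-subgroups: definitions
-/

set_option autoImplicit false

namespace Pool.Agent.Helper59.EI

universe u

variable {G : Type u} [Group G]

/-- the normaliser of a subgroup -/
abbrev Nr (H : Subgroup G) : Subgroup G := Subgroup.normalizer (H : Set G)

/-- the subgroup `H` is locally finite -/
def LF (H : Subgroup G) : Prop :=
  ∀ s : Set G, s.Finite → s ⊆ H → ((Subgroup.closure s : Subgroup G) : Set G).Finite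

/-- `x` is a `p`-element -/
def PEl (p : ℕ) (x : G) : Prop := ∃ k : ℕ, x ^ p ^ k = 1

/-- `H` is a locally finite `p`-group -/
def LP (p : ℕ) (H : Subgroup G) : Prop := LF H ∧ ∀ x ∈ H, PEl p x

/-- every elementary abelian `p`-subgroup of `G` is finite -/
def Thin (p : ℕ) (G : Type u) [Group G] : Prop :=
  ∀ A : Subgroup G, (∀ x ∈ A, x ^ p = 1) → (∀ x ∈ A, ∀ y ∈ A, x * y = y * x) →
    (A : Set G).Finite

/-- `P` is a divisible abelian `p`-group -/
structure Dv (p : ℕ) (P : Subgroup G) : Prop where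
  comm : ∀ x ∈ P, ∀ y ∈ P, x * y = y * x
  pel : ∀ x ∈ P, PEl p x
  div : ∀ x ∈ P, ∃ y ∈ P, y ^ p = x

/-- `X` is an extension of a divisible abelian `p`-group by a finite group -/
def Cher (p : ℕ) (X : Subgroup G) : Prop :=
  ∃ P : Subgroup G, Dv p P ∧ P ≤ X ∧ X ≤ Nr P ∧ P.relIndex X ≠ 0

/-- the largest divisible abelian `p`-subgroup of `X` (if there is one) -/
def dv (p : ℕ) (X : Subgroup G) : Subgroup G := sSup {Q | Q ≤ X ∧ Dv p Q}

/-- the number of elements of order dividing `p` -/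
noncomputable def om (p : ℕ) (X : Subgroup G) : ℕ := Nat.card {x : G // x ∈ X ∧ x ^ p = 1}

/-- `T` is a normal set of involutions, the product of any two of which is a 2-element. -/
structure IT (T : Set G) : Prop where
  ne : ∀ t ∈ T, t ≠ 1
  inv : ∀ t ∈ T, t * t = 1
  conj : ∀ t ∈ T, ∀ g : G, g⁻¹ * t * g ∈ T
  two : ∀ a ∈ T, ∀ b ∈ T, PEl 2 (a * b)

/-- The situation of a (countable) counterexample. -/
structure Base (G : Type u) [Group G] (T : Set G) : Prop extends IT T where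
  cnt : Countable G
  thin : Thin 2 G
  gen : Subgroup.closure T = ⊤
  bad : ¬ LF (⊤ : Subgroup G)

/-- the elements of `T` normalising `Q` -/
def TN (T : Set G) (Q : Subgroup G) : Set G := {t | t ∈ T ∧ t ∈ Nr Q}

/-- the elements of `T` commuting with `a` -/
def TC (T : Set G) (a : G) : Set G := {t | t ∈ T ∧ t * a = a * t}

/-- the subgroup `K_a` generated by the elements of `T` commuting with `a` -/
def KK (T : Set G) (a : G) : Subgroup G := Subgroup.closure (TC T a)

/-- (G3) -/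
def G3 (T : Set G) : Prop :=
  ∀ Q : Subgroup G, Dv 2 Q → Q ≠ ⊥ → LF (Subgroup.closure (TN T Q))

/-- (G2) -/
def G2 (T : Set G) : Prop := ∀ a ∈ T, LF (KK T a)

/-- no nontrivial finite normal 2-subgroups -/
def NF (G : Type u) [Group G] : Prop :=
  ∀ N : Subgroup G, N.Normal → (N : Set G).Finite → (∀ x ∈ N, PEl 2 x) → N = ⊥

/-- The reduced counterexample. -/
structure Core (G : Type u) [Group G] (T : Set G) : Prop extends Base G T where
  g3 : G3 T
  g2 : G2 T
  nf : NF G

/-- the elements of `T` acting on `A` like `t` -/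
def Scl (T : Set G) (A : Subgroup G) (t : G) : Set G :=
  {s | s ∈ T ∧ ∀ a ∈ A, s * a * s = t * a * t}

/-- `(A, t)` is a pair -/
structure Pr (T : Set G) (A : Subgroup G) (t : G) : Prop where
  fin : (A : Set G).Finite
  two : ∀ x ∈ A, PEl 2 x
  mem : t ∈ T
  nr : t ∈ Nr A
  bad : ¬ LF (Subgroup.closure (Scl T A t))

/-- the pair `(A, t)` is final: no pair above it absorbs an element of `Scl T A t` -/
structure FPr (T : Set G) (A : Subgroup G) (t : G) : Prop extends Pr T A t where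
  final : ∀ A' t', Pr T A' t' → A ≤ A' → t' ∈ Scl T A t → ∀ s ∈ A', s ∈ Scl T A t → s ∈ A

/-- the involutions `a a'`, `a'` an element of `T` different from `a` and commuting with `a` -/
def ZZ (T : Set G) (a : G) : Set G := {z | ∃ b ∈ T, b ≠ a ∧ b * a = a * b ∧ z = a * b}

/-- `M` is generated by elements of `T` -/
def TG (T : Set G) (M : Subgroup G) : Prop := Subgroup.closure (T ∩ M) = M

/-- `M` is a maximal locally finite subgroup generated by elements of `T` -/
structure IsM (T : Set G) (M : Subgroup G) : Prop where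
  tg : TG T M
  lf : LF M
  max : ∀ M', TG T M' → LF M' → M ≤ M' → M' ≤ M

/-- the subgroup `[P, a]` -/
def Rr (P : Subgroup G) (a : G) : Subgroup G :=
  Subgroup.closure {x | ∃ y ∈ P, x = y⁻¹ * (a⁻¹ * y * a)}

/-! ## trivial facts -/

theorem mem_Nr {H : Subgroup G} {g : G} : g ∈ Nr H ↔ ∀ h, h ∈ H ↔ g * h * g⁻¹ ∈ H :=
  Subgroup.mem_normalizer_iff

theorem mem_Nr' {H : Subgroup G} {g : G} : g ∈ Nr H ↔ ∀ h, h ∈ H ↔ g⁻¹ * h * g ∈ H :=
  Subgroup.mem_normalizer_iff''

theorem le_Nr (H : Subgroup G) : H ≤ Nr H := Subgroup.le_normalizer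

theorem LF.mono {H K : Subgroup G} (h : LF H) (hK : K ≤ H) : LF K :=
  fun s hs hsK => h s hs (fun _ hx => hK (hsK hx))

theorem LP.mono {p : ℕ} {H K : Subgroup G} (h : LP p H) (hK : K ≤ H) : LP p K :=
  ⟨h.1.mono hK, fun x hx => h.2 x (hK hx)⟩

theorem LF_of_finite {H : Subgroup G} (h : (H : Set G).Finite) : LF H := by
  intro s _ hsH
  exact h.subset ((Subgroup.closure_le H).2 hsH)

theorem PEl_one (p : ℕ) : PEl p (1 : G) := ⟨0, by simp⟩

theorem PEl.conj {p : ℕ} {x : G} (h : PEl p x) (g : G) : PEl p (g⁻¹ * x * g) := by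
  obtain ⟨k, hk⟩ := h
  refine ⟨k, ?_⟩
  have h1 : (g⁻¹ * x * g) ^ p ^ k = g⁻¹ * x ^ p ^ k * g := by
    have := conj_pow (i := p ^ k) (a := g⁻¹) (b := x)
    rwa [inv_inv] at this
  rw [h1, hk]
  group

theorem PEl.inv {p : ℕ} {x : G} (h : PEl p x) : PEl p x⁻¹ := by
  obtain ⟨k, hk⟩ := h
  exact ⟨k, by rw [inv_pow, hk, inv_one]⟩

theorem PEl.map {p : ℕ} {G' : Type*} [Group G'] (f : G →* G') {x : G} (h : PEl p x) :
    PEl p (f x) := by
  obtain ⟨k, hk⟩ := h
  exact ⟨k, by rw [← map_pow, hk, map_one]⟩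

theorem PEl.pow {p : ℕ} {x : G} (h : PEl p x) (n : ℕ) : PEl p (x ^ n) := by
  obtain ⟨k, hk⟩ := h
  exact ⟨k, by rw [← pow_mul, mul_comm, pow_mul, hk, one_pow]⟩

theorem Dv_bot (p : ℕ) : Dv p (⊥ : Subgroup G) where
  comm := by
    intro x hx y hy
    rw [Subgroup.mem_bot] at hx hy
    rw [hx, hy]
  pel := by
    intro x hx
    rw [Subgroup.mem_bot] at hx
    rw [hx]
    exact PEl_one p
  div := by
    intro x hx
    rw [Subgroup.mem_bot] at hx
    exact ⟨1, Subgroup.one_mem _, by rw [hx, one_pow]⟩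

theorem Thin.sub {p : ℕ} (h : Thin p G) (H : Subgroup G) : Thin p H := by
  intro A h1 h2
  have h3 := h (A.map H.subtype) (by
    rintro _ ⟨x, hx, rfl⟩
    rw [← map_pow, h1 x hx, map_one]) (by
    rintro _ ⟨x, hx, rfl⟩ _ ⟨y, hy, rfl⟩
    rw [← map_mul, h2 x hx y hy, map_mul])
  have h4 : (H.subtype '' (A : Set H)).Finite := by
    rwa [Subgroup.coe_map] at h3
  exact h4.of_finite_image H.subtype_injective.injOn

theorem TG_closure {T S : Set G} (hS : S ⊆ T) : TG T (Subgroup.closure S) := by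
  apply le_antisymm
  · rw [Subgroup.closure_le]
    exact fun x hx => hx.2
  · rw [Subgroup.closure_le]
    intro x hx
    exact Subgroup.subset_closure ⟨hS hx, Subgroup.subset_closure hx⟩

theorem IT.inv_eq {T : Set G} (h : IT T) {t : G} (ht : t ∈ T) : t⁻¹ = t :=
  inv_eq_of_mul_eq_one_right (h.inv t ht)

theorem IT.conj' {T : Set G} (h : IT T) {t : G} (ht : t ∈ T) (g : G) : g * t * g⁻¹ ∈ T := by
  have := h.conj t ht g⁻¹
  rwa [inv_inv] at this

theorem IT.pel {T : Set G} (h : IT T) {t : G} (ht : t ∈ T) : PEl 2 t :=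
  ⟨1, by rw [pow_one, pow_two]; exact h.inv t ht⟩

end Pool.Agent.Helper59.EI
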