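import Pool.Agent.Helper59.EI.Defs

/-!
# EI-2. Dietzmann's lemma for involutions
-/

set_option autoImplicit false

namespace Pool.Agent.Helper59.EI

universe u

variable {G : Type u} [Group G]

private theorem dup_split {α : Type*} : ∀ l : List α, ¬ l.Nodup →
    ∃ (l1 : List α) (a : α) (l2 l3 : List α), l = l1 ++ a :: (l2 ++ a :: l3) := by
  intro l
  induction l with
  | nil => intro h; exact absurd List.nodup_nil h
  | cons b l ih =>
    intro h
    by_cases hb : b ∈ l
    · obtain ⟨s, t, hst⟩ := List.append_of_mem hb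
      exact ⟨[], b, s, t, by rw [hst]; rfl⟩
    · have h1 : ¬ l.Nodup := fun hn => h (List.nodup_cons.2 ⟨hb, hn⟩)
      obtain ⟨l1, a, l2, l3, h2⟩ := ih h1
      exact ⟨b :: l1, a, l2, l3, by rw [h2]; rfl⟩

private theorem map_conj_prod {a : G} (ha : a * a = 1) (l : List G) :
    (l.map fun w => a⁻¹ * w * a).prod = a * l.prod * a := by
  have hinv : a⁻¹ = a := inv_eq_of_mul_eq_one_right ha
  induction l with
  | nil => simp [ha]
  | cons w l ih =>
    rw [List.map_cons, List.prod_cons, List.prod_cons, ih, hinv]
    calc a * w * a * (a * l.prod * a) = a * w * (a * a) * l.prod * a := by group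
      _ = a * (w * l.prod) * a := by rw [ha]; group

private theorem reduce {U : Set G} (hc : ∀ u ∈ U, ∀ v ∈ U, v⁻¹ * u * v ∈ U)
    (ht : ∀ u ∈ U, u * u = 1) : ∀ n : ℕ, ∀ l : List G, l.length ≤ n → (∀ x ∈ l, x ∈ U) →
      ∃ l' : List G, (∀ x ∈ l', x ∈ U) ∧ l'.Nodup ∧ l'.prod = l.prod := by
  intro n
  induction n with
  | zero =>
    intro l hl hU
    have h1 : l = [] := List.length_eq_zero_iff.1 (by omega)
    subst h1
    exact ⟨[], hU, List.nodup_nil, rfl⟩
  | succ n ih =>
    intro l hl hU
    by_cases hn : l.Nodup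
    · exact ⟨l, hU, hn, rfl⟩
    · obtain ⟨l1, a, l2, l3, rfl⟩ := dup_split l hn
      have haU : a ∈ U := hU a (by simp)
      have h2 : ∀ w ∈ l2, w ∈ U := fun w hw => hU w (by simp [hw])
      have hlen : (l1 ++ ((l2.map fun w => a⁻¹ * w * a) ++ l3)).length ≤ n := by
        simp only [List.length_append, List.length_cons, List.length_map] at hl ⊢
        omega
      obtain ⟨l', h3, h4, h5⟩ := ih (l1 ++ ((l2.map fun w => a⁻¹ * w * a) ++ l3)) hlen (by
        intro x hx
        rw [List.mem_append, List.mem_append, List.mem_map] at hx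
        rcases hx with hx | ⟨w, hw, rfl⟩ | hx
        · exact hU x (by simp [hx])
        · exact hc w (h2 w hw) a haU
        · exact hU x (by simp [hx]))
      refine ⟨l', h3, h4, ?_⟩
      rw [h5, List.prod_append, List.prod_append, map_conj_prod (ht a haU), List.prod_append,
        List.prod_cons, List.prod_append, List.prod_cons]
      group

/-- A finite set of elements of order at most 2 which is closed under conjugation by its elements
generates a finite group. -/
theorem dietzmann {U : Set G} (hU : U.Finite) (hc : ∀ u ∈ U, ∀ v ∈ U, v⁻¹ * u * v ∈ U)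
    (ht : ∀ u ∈ U, u * u = 1) : ((Subgroup.closure U : Subgroup G) : Set G).Finite := by
  classical
  have : Fintype U := hU.fintype
  have hfin := (List.finite_length_le U (Fintype.card U)).image
    (fun l : List U => (l.map Subtype.val).prod)
  refine hfin.subset ?_
  intro x hx
  have hx' : x ∈ Submonoid.closure (U ∪ U⁻¹) := by
    rw [← Subgroup.closure_toSubmonoid]
    exact hx
  obtain ⟨l, hl, rfl⟩ := Submonoid.exists_list_of_mem_closure hx'
  have hl' : ∀ y ∈ l, y ∈ U := by
    intro y hy
    rcases hl y hy with h | h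
    · exact h
    · rw [Set.mem_inv] at h
      have h1 : y⁻¹ * y⁻¹ = 1 := ht _ h
      have h2 : y⁻¹ = y := by
        have := inv_eq_of_mul_eq_one_right h1
        rw [inv_inv] at this
        exact this.symm
      rw [← h2]
      exact h
  obtain ⟨l', h3, h4, h5⟩ := reduce hc ht l.length l le_rfl hl'
  refine ⟨l'.attach.map (fun y => ⟨y.1, h3 y.1 y.2⟩), ?_, ?_⟩
  · have h6 : (l'.attach.map (fun y => (⟨y.1, h3 y.1 y.2⟩ : U))).Nodup := by
      refine List.Nodup.map ?_ (List.nodup_attach.2 h4)
      intro y z hyz
      simp only [Subtype.mk.injEq] at hyz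
      exact Subtype.ext hyz
    exact h6.length_le_card
  · show ((l'.attach.map (fun y => (⟨y.1, h3 y.1 y.2⟩ : U))).map Subtype.val).prod = l.prod
    rw [List.map_map]
    rw [← h5]
    congr 1
    exact List.attach_map_subtype_val l'

end Pool.Agent.Helper59.EI
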