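import Pool.Agent.Helper59.EI.Defs

/-!
# EI-4b. Elements of `p`-power order acting on divisible abelian `p`-groups
-/

set_option autoImplicit false

namespace Pool.Agent.Helper59.EI

universe u

variable {G : Type u} [Group G] {p : ℕ} [Fact p.Prime]

/-- the case in which `g ^ p` centralises `P` -/
private theorem dv_act_step {P : Subgroup G} (hP : Dv p P) {g : G} (hn : g ∈ Nr P)
    (hgp : ∀ x ∈ P, g ^ p * x = x * g ^ p)
    (h : ∀ x ∈ P, x ^ p ^ 2 = 1 → g * x = x * g) : ∀ x ∈ P, g * x = x * g := by
  have key : ∀ n : ℕ, ∀ x ∈ P, x ^ p ^ n = 1 → g * x = x * g := by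
    intro n
    induction n with
    | zero =>
      intro x hx hx1
      rw [pow_zero, pow_one] at hx1
      rw [hx1, mul_one, one_mul]
    | succ n ih =>
      intro x hx hx1
      obtain ⟨y, hy, hyx⟩ := hP.div x hx
      -- `d = [g, y]`
      have hgy : g * y * g⁻¹ ∈ P := (mem_Nr.1 hn y).1 hy
      set d : G := g * y * g⁻¹ * y⁻¹ with hd
      have hdP : d ∈ P := P.mul_mem hgy (P.inv_mem hy)
      have hpw : ∀ m : ℕ, d ^ m = g * y ^ m * g⁻¹ * (y ^ m)⁻¹ := by
        intro m
        have hcm : Commute (g * y * g⁻¹) y⁻¹ := hP.comm _ hgy _ (P.inv_mem hy)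
        rw [hd, hcm.mul_pow, inv_pow]
        congr 1
        exact conj_pow
      have hxp : g * x ^ p = x ^ p * g := by
        apply ih (x ^ p) (P.pow_mem hx p)
        rw [← pow_mul, ← pow_succ']
        exact hx1
      have hd2 : d ^ p ^ 2 = 1 := by
        have e1 : y ^ p ^ 2 = x ^ p := by
          rw [pow_two, pow_mul, hyx]
        rw [hpw, e1, hxp]
        group
      have hdc : g * d = d * g := h d hdP hd2
      have hgy1 : g * y * g⁻¹ = d * y := by
        rw [hd]
        group
      have hgm : ∀ m : ℕ, g ^ m * y * (g ^ m)⁻¹ = d ^ m * y := by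
        intro m
        induction m with
        | zero => simp
        | succ m ihm =>
          have hcd : Commute g (d ^ m) := (Commute.pow_right hdc m)
          calc g ^ (m + 1) * y * (g ^ (m + 1))⁻¹
              = g * (g ^ m * y * (g ^ m)⁻¹) * g⁻¹ := by
                rw [pow_succ']
                group
            _ = g * (d ^ m * y) * g⁻¹ := by rw [ihm]
            _ = (g * d ^ m) * y * g⁻¹ := by group
            _ = (d ^ m * g) * y * g⁻¹ := by rw [hcd.eq]
            _ = d ^ m * (g * y * g⁻¹) := by group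
            _ = d ^ m * (d * y) := by rw [hgy1]
            _ = d ^ (m + 1) * y := by
                rw [pow_succ]
                group
      have hdp : d ^ p = 1 := by
        have e1 := hgm p
        rw [hgp y hy, mul_assoc, mul_inv_cancel, mul_one] at e1
        have e2 : 1 * y = d ^ p * y := by rw [one_mul]; exact e1
        exact (mul_right_cancel e2).symm
      have e3 := hpw p
      rw [hdp, hyx] at e3
      have e4 : g * x * g⁻¹ = x := by
        have := congrArg (fun w => w * x) e3
        simp only [one_mul, inv_mul_cancel_right] at this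
        exact this.symm
      calc g * x = g * x * g⁻¹ * g := by group
        _ = x * g := by rw [e4]
  intro x hx
  obtain ⟨k, hk⟩ := hP.pel x hx
  exact key k x hx hk

/-- an element of `p`-power order acting trivially on the elements of order dividing `p ^ 2` of a
divisible group acts trivially -/
theorem dv_act' {P : Subgroup G} (hP : Dv p P) {g : G} (hg : PEl p g) (hn : g ∈ Nr P)
    (h : ∀ x ∈ P, x ^ p ^ 2 = 1 → g * x = x * g) : ∀ x ∈ P, g * x = x * g := by
  obtain ⟨k, hk⟩ := hg
  induction k generalizing g with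
  | zero =>
    intro x _
    rw [pow_zero, pow_one] at hk
    rw [hk, mul_one, one_mul]
  | succ k ih =>
    apply dv_act_step hP hn _ h
    apply ih (g := g ^ p) (Subgroup.pow_mem _ hn p)
    · intro x hx hx2
      have hc : Commute g x := h x hx hx2
      exact (hc.pow_left p)
    · rw [← pow_mul, ← pow_succ']
      exact hk

/-- the elements of order dividing `p ^ 2` of a divisible group form a finite set -/
private theorem dv_omega_two (ht : Thin p G) {P : Subgroup G} (hP : Dv p P) :
    {x : G | x ∈ P ∧ x ^ p ^ 2 = 1}.Finite := by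
  -- the elements of order dividing `p`
  have h1 : {x : G | x ∈ P ∧ x ^ p = 1}.Finite := by
    let A : Subgroup G :=
      { carrier := {x : G | x ∈ P ∧ x ^ p = 1}
        mul_mem' := by
          rintro a b ⟨ha, ha1⟩ ⟨hb, hb1⟩
          refine ⟨P.mul_mem ha hb, ?_⟩
          have hc : Commute a b := hP.comm a ha b hb
          rw [hc.mul_pow, ha1, hb1, one_mul]
        one_mem' := ⟨P.one_mem, one_pow p⟩
        inv_mem' := by
          rintro a ⟨ha, ha1⟩
          refine ⟨P.inv_mem ha, ?_⟩
          rw [inv_pow, ha1, inv_one] }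
    exact ht A (fun x hx => hx.2) (fun x hx y hy => hP.comm x hx.1 y hy.1)
  -- roots
  have h2 : ∀ z ∈ {x : G | x ∈ P ∧ x ^ p = 1}, {x : G | x ∈ P ∧ x ^ p = z}.Finite := by
    intro z _
    by_cases hz : ∃ y : G, y ∈ P ∧ y ^ p = z
    · obtain ⟨y, hy, hyz⟩ := hz
      refine (h1.image (fun w => y * w)).subset ?_
      rintro x ⟨hx, hxz⟩
      refine ⟨y⁻¹ * x, ⟨P.mul_mem (P.inv_mem hy) hx, ?_⟩, by simp⟩
      have hc : Commute y⁻¹ x := hP.comm _ (P.inv_mem hy) x hx
      rw [hc.mul_pow, inv_pow, hyz, hxz, inv_mul_cancel]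
    · convert Set.finite_empty
      ext x
      simp only [Set.mem_ofPred_eq, Set.mem_empty_iff_false, iff_false]
      exact fun hx => hz ⟨x, hx⟩
  refine (h1.biUnion h2).subset ?_
  rintro x ⟨hx, hx2⟩
  simp only [Set.mem_iUnion]
  refine ⟨x ^ p, ⟨P.pow_mem hx p, ?_⟩, hx, rfl⟩
  rw [← pow_mul, ← pow_two]
  exact hx2

/-- The centraliser of `P` in a `p`-group has finite index. -/
theorem dv_centralizer_index' (ht : Thin p G) {P X : Subgroup G} (hP : Dv p P) (hX : X ≤ Nr P)
    (hp : ∀ x ∈ X, PEl p x) : (Subgroup.centralizer (P : Set G)).relIndex X ≠ 0 := by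
  have hfin := dv_omega_two ht hP
  let Ω : Type u := {x : G // x ∈ P ∧ x ^ p ^ 2 = 1}
  haveI : Finite Ω := hfin.to_subtype
  letI act : MulAction X Ω :=
    { smul := fun g s => ⟨g.1 * s.1 * g.1⁻¹, (mem_Nr.1 (hX g.2) s.1).1 s.2.1, by
        rw [conj_pow, s.2.2, mul_one, mul_inv_cancel]⟩
      one_smul := by
        intro s
        apply Subtype.ext
        change (1 : G) * s.1 * (1 : G)⁻¹ = s.1
        simp
      mul_smul := by
        intro g h s
        apply Subtype.ext
        change (g.1 * h.1) * s.1 * (g.1 * h.1)⁻¹ = g.1 * (h.1 * s.1 * h.1⁻¹) * g.1⁻¹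
        group }
  have hk : (MulAction.toPermHom X Ω).ker ≤ (Subgroup.centralizer (P : Set G)).subgroupOf X := by
    intro g hg
    rw [Subgroup.mem_subgroupOf, Subgroup.mem_centralizer_iff]
    have hgc : ∀ x ∈ P, x ^ p ^ 2 = 1 → g.1 * x = x * g.1 := by
      intro x hx hx2
      rw [MonoidHom.mem_ker] at hg
      have e1 := congrArg (fun f : Equiv.Perm Ω => (f ⟨x, hx, hx2⟩).1) hg
      have e2 : g.1 * x * g.1⁻¹ = x := e1
      calc g.1 * x = g.1 * x * g.1⁻¹ * g.1 := by group
        _ = x * g.1 := by rw [e2]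
    intro x hx
    exact (dv_act' hP (hp g.1 g.2) (hX g.2) hgc x hx).symm
  have hfi : (MulAction.toPermHom X Ω).ker.FiniteIndex := by
    infer_instance
  have := Subgroup.finiteIndex_of_le hk
  exact this.index_ne_zero

end Pool.Agent.Helper59.EI
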