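import Pool.Agent.Helper59.EI.Cher

/-!
# EI-8. The divisible part of a locally finite p-subgroup of a countable thin group
-/

set_option autoImplicit false

namespace Pool.Agent.Helper59.EI

universe u v

variable {G : Type u} [Group G] {p : ℕ} [Fact p.Prime]

theorem dv_le (p : ℕ) (X : Subgroup G) : dv p X ≤ X := by
  apply sSup_le
  rintro Q ⟨h, -⟩
  exact h

theorem le_dv {X Q : Subgroup G} (hQ : Dv p Q) (h : Q ≤ X) : Q ≤ dv p X :=
  le_sSup ⟨h, hQ⟩

theorem dv_mono {X Y : Subgroup G} (h : X ≤ Y) : dv p X ≤ dv p Y := by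
  apply sSup_le
  rintro Q ⟨h1, h2⟩
  exact le_sSup ⟨h1.trans h, h2⟩

private theorem dv_conj_aux (X : Subgroup G) (f : G ≃* G) :
    (dv p X).map f.toMonoidHom ≤ dv p (X.map f.toMonoidHom) := by
  rw [Subgroup.map_le_iff_le_comap]
  apply sSup_le
  rintro Q ⟨h1, h2⟩
  rw [← Subgroup.map_le_iff_le_comap]
  exact le_sSup ⟨Subgroup.map_mono h1, h2.map _⟩

theorem dv_conj (X : Subgroup G) (f : G ≃* G) :
    dv p (X.map f.toMonoidHom) = (dv p X).map f.toMonoidHom := by
  apply le_antisymm _ (dv_conj_aux X f)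
  have h1 := dv_conj_aux (p := p) (X.map f.toMonoidHom) f.symm
  have h2 : (X.map f.toMonoidHom).map f.symm.toMonoidHom = X := by
    rw [Subgroup.map_map]
    convert Subgroup.map_id X
    ext x
    simp
  rw [h2, Subgroup.map_le_iff_le_comap] at h1
  intro x hx
  have h3 := h1 hx
  rw [Subgroup.mem_comap] at h3
  exact ⟨_, h3, by simp⟩

omit [Fact p.Prime] in
private theorem nr_iff {X : Subgroup G} {g : G} :
    g ∈ Nr X ↔ X.map (MulAut.conj g).toMonoidHom = X := by
  constructor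
  · intro h
    rw [mem_Nr] at h
    ext x
    constructor
    · rintro ⟨y, hy, rfl⟩
      exact (h y).1 hy
    · intro hx
      refine ⟨g⁻¹ * x * g, ?_, ?_⟩
      · show g⁻¹ * x * g ∈ X
        rw [h]
        convert hx using 1
        group
      · show g * (g⁻¹ * x * g) * g⁻¹ = x
        group
  · intro h
    rw [mem_Nr]
    intro x
    constructor
    · intro hx
      rw [← h]
      exact ⟨x, hx, rfl⟩
    · intro hx
      rw [← h] at hx
      obtain ⟨y, hy, hyx⟩ := hx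
      have h1 : g * y * g⁻¹ = g * x * g⁻¹ := hyx
      have h2 : y = x := by simpa using h1
      rw [← h2]
      exact hy

theorem dv_nr {X : Subgroup G} {g : G} (hg : g ∈ Nr X) : g ∈ Nr (dv p X) := by
  rw [nr_iff] at hg ⊢
  rw [← dv_conj, hg]

theorem LP.cher [Countable G] (ht : Thin p G) {X : Subgroup G} (hX : LP p X) : Cher p X := by
  obtain ⟨P, hP, -, h2, h3⟩ := EI.cher (LP_top_iff.2 hX) (ht.sub X)
  refine ⟨P.map X.subtype, hP.map _, ?_, ?_, ?_⟩
  · rintro _ ⟨y, -, rfl⟩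
    exact y.2
  · intro g hg
    have h4 := h2 (Subgroup.mem_top (⟨g, hg⟩ : X))
    rw [mem_Nr] at h4
    rw [mem_Nr]
    intro h
    constructor
    · rintro ⟨y, hy, rfl⟩
      exact ⟨_, (h4 y).1 hy, rfl⟩
    · rintro ⟨y, hy, hyx⟩
      have h5 : h ∈ X := by
        have h6 : h = g⁻¹ * (g * h * g⁻¹) * g := by group
        rw [h6, ← hyx]
        exact X.mul_mem (X.mul_mem (X.inv_mem hg) y.2) hg
      refine ⟨⟨h, h5⟩, ?_, rfl⟩
      show (⟨h, h5⟩ : X) ∈ P
      rw [h4]
      have h7 : (⟨g, hg⟩ : X) * ⟨h, h5⟩ * (⟨g, hg⟩ : X)⁻¹ = y := Subtype.ext hyx.symm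
      rw [h7]
      exact hy
  · rw [Subgroup.relIndex, Subgroup.subgroupOf,
      Subgroup.comap_map_eq_self_of_injective X.subtype_injective]
    rwa [Subgroup.relIndex_top_right] at h3

theorem LP.dv_eq [Countable G] (ht : Thin p G) {X : Subgroup G} (hX : LP p X) :
    Dv p (dv p X) ∧ (dv p X).relIndex X ≠ 0 := by
  obtain ⟨P, hP, h1, -, h3⟩ := hX.cher ht
  have h4 : dv p X = P := by
    apply le_antisymm
    · apply sSup_le
      rintro Q ⟨hQX, hQ⟩
      apply hQ.le_of_relIndex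
      intro h5
      exact h3 (Subgroup.relIndex_eq_zero_of_le_right hQX h5)
    · exact le_dv hP h1
  rw [h4]
  exact ⟨hP, h3⟩

theorem LP.dv_Dv [Countable G] (ht : Thin p G) {X : Subgroup G} (hX : LP p X) :
    Dv p (dv p X) := (hX.dv_eq ht).1

theorem LP.dv_index [Countable G] (ht : Thin p G) {X : Subgroup G} (hX : LP p X) :
    (dv p X).relIndex X ≠ 0 := (hX.dv_eq ht).2

theorem LP.dv_ne_bot [Countable G] (ht : Thin p G) {X : Subgroup G} (hX : LP p X)
    (h : (X : Set G).Infinite) : dv p X ≠ ⊥ := by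
  intro h1
  have h2 := hX.dv_index ht
  rw [h1, Subgroup.relIndex_bot_left] at h2
  apply h
  exact Nat.finite_of_card_ne_zero h2

/-- if `Q` is divisible and normalises `M` then `M Q` is a locally finite `p`-group and `Q`
centralises the divisible part of `M`. -/
theorem LP.sup_dv [Countable G] (ht : Thin p G) {M Q : Subgroup G} (hM : LP p M) (hQ : Dv p Q)
    (h : Q ≤ Nr M) : LP p (M ⊔ Q) ∧ ∀ x ∈ Q, ∀ y ∈ dv p M, x * y = y * x := by
  have h1 : LP p (M ⊔ Q) := hM.sup hQ.toLP h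
  refine ⟨h1, ?_⟩
  intro x hx y hy
  have h2 := (h1.dv_Dv ht).comm
  exact h2 x (le_dv hQ le_sup_right hx) y (dv_mono le_sup_left hy)

/-- If a maximal divisible subgroup `P` normalises the locally finite `p`-group `M`, then `M`
normalises `P`. -/
theorem LP.nr_of_max [Countable G] (ht : Thin p G) {M P : Subgroup G} (hM : LP p M)
    (hP : Dv p P) (hmax : ∀ Q, Dv p Q → P ≤ Q → Q = P) (h : P ≤ Nr M) : M ≤ Nr P := by
  have h1 : LP p (M ⊔ P) := (hM.sup_dv ht hP h).1
  have h2 : dv p (M ⊔ P) = P := hmax _ (h1.dv_Dv ht) (le_dv hP le_sup_right)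
  intro g hg
  rw [← h2]
  apply dv_nr
  exact le_Nr _ ((le_sup_left : M ≤ M ⊔ P) hg)

/-- the involutions of `M` centralising the divisible part of `M` are finite in number -/
theorem LP.fin_omega [Countable G] (ht : Thin p G) {M : Subgroup G} (hM : LP p M) :
    {z : G | z ∈ M ∧ z ^ p = 1 ∧ ∀ y ∈ dv p M, z * y = y * z}.Finite := by
  set D := dv p M with hD
  have hDD : Dv p D := hM.dv_Dv ht
  have hDi : D.relIndex M ≠ 0 := hM.dv_index ht
  -- finitely many elements of order dividing p in D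
  have hom : {x : G | x ∈ D ∧ x ^ p = 1}.Finite := (AbF.of_thin ht hDD.comm hDD.pel).fin
  -- quotient map
  haveI : Finite (M ⧸ D.subgroupOf M) := by
    have : (D.subgroupOf M).index ≠ 0 := hDi
    haveI : (D.subgroupOf M).FiniteIndex := ⟨this⟩
    infer_instance
  have hpart : ∀ q : M ⧸ D.subgroupOf M,
      {z : G | (∃ hz : z ∈ M, (QuotientGroup.mk (⟨z, hz⟩ : M) : M ⧸ D.subgroupOf M) = q) ∧
        z ^ p = 1 ∧ ∀ y ∈ D, z * y = y * z}.Finite := by
    intro q
    rcases Set.eq_empty_or_nonempty {z : G | (∃ hz : z ∈ M,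
      (QuotientGroup.mk (⟨z, hz⟩ : M) : M ⧸ D.subgroupOf M) = q) ∧
        z ^ p = 1 ∧ ∀ y ∈ D, z * y = y * z} with he | ⟨z0, ⟨hz0, hq0⟩, hp0, hc0⟩
    · rw [he]
      exact Set.finite_empty
    · apply (hom.image (fun d => z0 * d)).subset
      rintro z ⟨⟨hz, hq⟩, hp, hc⟩
      refine ⟨z0⁻¹ * z, ⟨?_, ?_⟩, by simp⟩
      · have h1 : (QuotientGroup.mk (⟨z0, hz0⟩ : M) : M ⧸ D.subgroupOf M)
            = QuotientGroup.mk (⟨z, hz⟩ : M) := by rw [hq0, hq]
        rw [QuotientGroup.eq] at h1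
        exact h1
      · have h1 : (QuotientGroup.mk (⟨z0, hz0⟩ : M) : M ⧸ D.subgroupOf M)
            = QuotientGroup.mk (⟨z, hz⟩ : M) := by rw [hq0, hq]
        rw [QuotientGroup.eq] at h1
        have h2 : z0⁻¹ * z ∈ D := h1
        have h3 : Commute z0 (z0⁻¹ * z) := hc0 _ h2
        have h4 : (z0 * (z0⁻¹ * z)) ^ p = z0 ^ p * (z0⁻¹ * z) ^ p := h3.mul_pow p
        rw [hp0, one_mul, mul_inv_cancel_left, hp] at h4
        exact h4.symm
  apply (Set.finite_iUnion hpart).subset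
  rintro z ⟨hz, hp, hc⟩
  rw [Set.mem_iUnion]
  exact ⟨QuotientGroup.mk ⟨z, hz⟩, ⟨hz, rfl⟩, hp, hc⟩

end Pool.Agent.Helper59.EI
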