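import Pool.Agent.Helper59.EI.Ab
import Pool.Agent.Helper59.EI.DvAct

/-!
# EI-4. Divisible abelian p-groups
-/

set_option autoImplicit false

namespace Pool.Agent.Helper59.EI

universe u v

variable {G : Type u} [Group G] {p : ℕ} [Fact p.Prime]

theorem Dv.toLP {P : Subgroup G} (hP : Dv p P) : LP p P :=
  LP_of_comm hP.comm hP.pel

theorem Dv.exists_pow {P : Subgroup G} (hP : Dv p P) {x : G} (hx : x ∈ P) (k : ℕ) :
    ∃ y ∈ P, y ^ p ^ k = x := by
  induction k with
  | zero => exact ⟨x, hx, by simp⟩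
  | succ k ih =>
    obtain ⟨y, hy, hyx⟩ := ih
    obtain ⟨z, hz, hzy⟩ := hP.div y hy
    refine ⟨z, hz, ?_⟩
    rw [pow_succ', pow_mul, hzy, hyx]

theorem Dv.map {G' : Type v} [Group G'] (f : G →* G') {P : Subgroup G} (hP : Dv p P) :
    Dv p (P.map f) where
  comm := by
    rintro _ ⟨x, hx, rfl⟩ _ ⟨y, hy, rfl⟩
    rw [← map_mul, hP.comm x hx y hy, map_mul]
  pel := by
    rintro _ ⟨x, hx, rfl⟩
    exact (hP.pel x hx).map f
  div := by
    rintro _ ⟨x, hx, rfl⟩
    obtain ⟨y, hy, rfl⟩ := hP.div x hx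
    exact ⟨f y, ⟨y, hy, rfl⟩, (map_pow f y p).symm⟩

private theorem mem_of_pow {K : Subgroup G} {x : G} (hx : PEl p x) {m : ℕ} (hm : ¬ p ∣ m)
    (h : x ^ m ∈ K) : x ∈ K := by
  obtain ⟨j, hj⟩ := hx
  have hpr : p.Prime := Fact.out
  have h1 : Nat.Coprime m (orderOf x) :=
    Nat.Coprime.coprime_dvd_right (orderOf_dvd_of_pow_eq_one hj)
      (Nat.Coprime.pow_right j ((Nat.Prime.coprime_iff_not_dvd hpr).2 hm).symm)
  obtain ⟨a, ha⟩ := exists_pow_eq_self_of_coprime h1
  rw [← ha]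
  exact K.pow_mem h a

/-- a divisible group has no proper subgroup of finite index -/
theorem Dv.le_of_relIndex {P K : Subgroup G} (hP : Dv p P) (h : K.relIndex P ≠ 0) : P ≤ K := by
  have hpr : p.Prime := Fact.out
  have hn : (K.subgroupOf P).Normal := by
    refine ⟨fun n hn g => ?_⟩
    have h1 : g * n * g⁻¹ = n := by
      apply Subtype.ext
      have := hP.comm g g.2 n n.2
      push_cast
      rw [this]
      group
    rw [h1]
    exact hn
  have hpow : ∀ x ∈ P, x ^ K.relIndex P ∈ K := by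
    intro x hx
    have h1 := Subgroup.pow_index_mem (K.subgroupOf P) ⟨x, hx⟩
    rw [Subgroup.mem_subgroupOf] at h1
    exact h1
  obtain ⟨k, m, hm, hkm⟩ := Nat.exists_eq_pow_mul_and_not_dvd h p hpr.ne_one
  intro x hx
  obtain ⟨y, hy, hyx⟩ := hP.exists_pow hx k
  have h1 := hpow y hy
  rw [hkm, pow_mul, hyx] at h1
  exact mem_of_pow (hP.pel x hx) hm h1

theorem Dv.eq_bot_of_finite {P : Subgroup G} (hP : Dv p P) (h : (P : Set G).Finite) : P = ⊥ := by
  have : Finite P := h.to_subtype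
  have h1 : (⊥ : Subgroup G).relIndex P ≠ 0 := by
    rw [Subgroup.relIndex_bot_left]
    exact Nat.card_pos.ne'
  exact le_bot_iff.1 (hP.le_of_relIndex h1)

private theorem relIndex_ne_zero {α : Type*} {P K : Subgroup G} {S : Set α} (hS : S.Finite)
    (f : G → α) (hf : ∀ x ∈ P, f x ∈ S) (hK : ∀ x ∈ P, ∀ y ∈ P, f x = f y → x⁻¹ * y ∈ K) :
    K.relIndex P ≠ 0 := by
  have : Finite S := hS.to_subtype
  have h1 : Finite (P ⧸ K.subgroupOf P) := by
    refine Finite.of_injective
      (fun q : P ⧸ K.subgroupOf P => (⟨f (q.out : P), hf _ (q.out : P).2⟩ : S)) ?_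
    intro q q' hqq
    have h2 : f (q.out : P) = f (q'.out : P) := congrArg Subtype.val hqq
    have h3 := hK _ (q.out : P).2 _ (q'.out : P).2 h2
    rw [← QuotientGroup.out_eq' q, ← QuotientGroup.out_eq' q', QuotientGroup.eq,
      Subgroup.mem_subgroupOf]
    exact h3
  exact Subgroup.index_ne_zero_of_finite

/-- a divisible group acts trivially on a finite set which it normalises -/
theorem Dv.comm_of_finite {P : Subgroup G} (hP : Dv p P) {S : Set G} (hS : S.Finite)
    (hn : ∀ x ∈ P, ∀ s ∈ S, x * s * x⁻¹ ∈ S) : ∀ x ∈ P, ∀ s ∈ S, x * s = s * x := by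
  intro x hx s hs
  have h1 : (Subgroup.centralizer ({s} : Set G)).relIndex P ≠ 0 := by
    refine relIndex_ne_zero hS (fun x => x * s * x⁻¹) (fun x hx => hn x hx s hs) ?_
    intro a _ b _ hab
    rw [Subgroup.mem_centralizer_singleton_iff]
    have h2 : a * s * a⁻¹ = b * s * b⁻¹ := hab
    have h3 : s = a⁻¹ * (b * s * b⁻¹) * a := by rw [← h2]; group
    calc a⁻¹ * b * s = (a⁻¹ * (b * s * b⁻¹) * a) * (a⁻¹ * b) := by group
      _ = s * (a⁻¹ * b) := by rw [← h3]
  have h2 := hP.le_of_relIndex h1 hx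
  exact (Subgroup.mem_centralizer_singleton_iff.1 h2)

private theorem mem_sup_comm {P Q : Subgroup G} (hc : ∀ x ∈ P, ∀ y ∈ Q, x * y = y * x) {x : G}
    (hx : x ∈ P ⊔ Q) : ∃ a ∈ P, ∃ b ∈ Q, x = a * b := by
  let R : Subgroup G :=
    { carrier := {x | ∃ a ∈ P, ∃ b ∈ Q, x = a * b}
      one_mem' := ⟨1, P.one_mem, 1, Q.one_mem, by simp⟩
      mul_mem' := by
        rintro _ _ ⟨a, ha, b, hb, rfl⟩ ⟨a', ha', b', hb', rfl⟩
        refine ⟨a * a', P.mul_mem ha ha', b * b', Q.mul_mem hb hb', ?_⟩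
        calc a * b * (a' * b') = a * (b * a') * b' := by group
          _ = a * (a' * b) * b' := by rw [hc a' ha' b hb]
          _ = a * a' * (b * b') := by group
      inv_mem' := by
        rintro _ ⟨a, ha, b, hb, rfl⟩
        refine ⟨a⁻¹, P.inv_mem ha, b⁻¹, Q.inv_mem hb, ?_⟩
        rw [mul_inv_rev, hc a⁻¹ (P.inv_mem ha) b⁻¹ (Q.inv_mem hb)] }
  have h1 : P ⊔ Q ≤ R := sup_le (fun a ha => ⟨a, ha, 1, Q.one_mem, by simp⟩)
    (fun b hb => ⟨1, P.one_mem, b, hb, by simp⟩)
  exact h1 hx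

theorem Dv.sup {P Q : Subgroup G} (hP : Dv p P) (hQ : Dv p Q)
    (hc : ∀ x ∈ P, ∀ y ∈ Q, x * y = y * x) : Dv p (P ⊔ Q) where
  comm := by
    intro x hx y hy
    obtain ⟨a, ha, b, hb, rfl⟩ := mem_sup_comm hc hx
    obtain ⟨a', ha', b', hb', rfl⟩ := mem_sup_comm hc hy
    calc a * b * (a' * b') = a * (b * a') * b' := by group
      _ = a * (a' * b) * b' := by rw [hc a' ha' b hb]
      _ = (a * a') * (b * b') := by group
      _ = (a' * a) * (b' * b) := by rw [hP.comm a ha a' ha', hQ.comm b hb b' hb']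
      _ = a' * (a * b') * b := by group
      _ = a' * (b' * a) * b := by rw [hc a ha b' hb']
      _ = a' * b' * (a * b) := by group
  pel := by
    intro x hx
    obtain ⟨a, ha, b, hb, rfl⟩ := mem_sup_comm hc hx
    obtain ⟨i, hi⟩ := hP.pel a ha
    obtain ⟨j, hj⟩ := hQ.pel b hb
    refine ⟨i + j, ?_⟩
    have h1 : Commute a b := hc a ha b hb
    have h2 : a ^ p ^ (i + j) = 1 := by rw [pow_add, pow_mul, hi, one_pow]
    have h3 : b ^ p ^ (i + j) = 1 := by rw [add_comm, pow_add, pow_mul, hj, one_pow]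
    rw [h1.mul_pow, h2, h3, one_mul]
  div := by
    intro x hx
    obtain ⟨a, ha, b, hb, rfl⟩ := mem_sup_comm hc hx
    obtain ⟨a', ha', rfl⟩ := hP.div a ha
    obtain ⟨b', hb', rfl⟩ := hQ.div b hb
    have h1 : Commute a' b' := hc a' ha' b' hb'
    exact ⟨a' * b', Subgroup.mul_mem_sup ha' hb', h1.mul_pow p⟩

/-- union of a chain -/
theorem Dv.sSupD {F : Set (Subgroup G)} (hne : F.Nonempty) (hd : DirectedOn (· ≤ ·) F)
    (h : ∀ H ∈ F, Dv p H) : Dv p (sSup F) where
  comm := by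
    intro x hx y hy
    rw [Subgroup.mem_sSup_of_directedOn hne hd] at hx hy
    obtain ⟨H, hH, hxH⟩ := hx
    obtain ⟨K, hK, hyK⟩ := hy
    obtain ⟨L, hL, hHL, hKL⟩ := hd H hH K hK
    exact (h L hL).comm x (hHL hxH) y (hKL hyK)
  pel := by
    intro x hx
    rw [Subgroup.mem_sSup_of_directedOn hne hd] at hx
    obtain ⟨H, hH, hxH⟩ := hx
    exact (h H hH).pel x hxH
  div := by
    intro x hx
    rw [Subgroup.mem_sSup_of_directedOn hne hd] at hx
    obtain ⟨H, hH, hxH⟩ := hx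
    obtain ⟨y, hy, hyx⟩ := (h H hH).div x hxH
    exact ⟨y, (le_sSup hH) hy, hyx⟩

/-- In a thin group every nonempty chain of divisible subgroups has a largest element. -/
theorem Dv.acc (ht : Thin p G) {F : Set (Subgroup G)} (hne : F.Nonempty)
    (hd : DirectedOn (· ≤ ·) F) (h : ∀ H ∈ F, Dv p H) : sSup F ∈ F := by
  have hU : Dv p (sSup F) := Dv.sSupD hne hd h
  have hfin := (AbF.of_thin ht hU.comm hU.pel).fin
  have key : ∀ t : Set G, t.Finite → t ⊆ (sSup F : Subgroup G) → ∃ P ∈ F, t ⊆ (P : Set G) := by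
    intro t ht
    induction t, ht using Set.Finite.induction_on with
    | empty =>
      intro _
      obtain ⟨P, hP⟩ := hne
      exact ⟨P, hP, Set.empty_subset _⟩
    | @insert a s _ _ ih =>
      intro hs
      obtain ⟨P, hP, hsP⟩ := ih ((Set.subset_insert a s).trans hs)
      have ha := hs (Set.mem_insert a s)
      rw [SetLike.mem_coe, Subgroup.mem_sSup_of_directedOn hne hd] at ha
      obtain ⟨Q, hQ, haQ⟩ := ha
      obtain ⟨L, hL, hPL, hQL⟩ := hd P hP Q hQ
      exact ⟨L, hL, Set.insert_subset (hQL haQ) (hsP.trans hPL)⟩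
  obtain ⟨P, hP, hsub⟩ := key _ hfin (fun x hx => hx.1)
  have h1 : P = sSup F := Dv.eq_of_omega (h P hP) hU (le_sSup hP) fun x hx hxp => hsub ⟨hx, hxp⟩
  rw [← h1]
  exact hP

/-- maximal divisible subgroups above `P` -/
theorem Dv.exists_max {P : Subgroup G} (hP : Dv p P) :
    ∃ P' : Subgroup G, P ≤ P' ∧ Dv p P' ∧ ∀ Q, Dv p Q → P' ≤ Q → Q = P' := by
  obtain ⟨m, hPm, hm⟩ := zorn_le_nonempty₀ {Q : Subgroup G | Dv p Q} (by
    intro c hc hch y hy
    have hd : DirectedOn (· ≤ ·) c := hch.directedOn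
    exact ⟨sSup c, Dv.sSupD ⟨y, hy⟩ hd hc, fun z hz => le_sSup hz⟩) P hP
  exact ⟨m, hPm, hm.prop, fun Q hQ hmQ => le_antisymm (hm.le_of_ge hQ hmQ) hmQ⟩

/-- divisible by divisible, commuting: if `P` is divisible and central in `D` and every element of
`D` is a `p`-th power modulo `P` and some power of it lies in `P`, then `D` is divisible. -/
theorem Dv.ext {P D : Subgroup G} (hP : Dv p P) (hPD : P ≤ D)
    (hc : ∀ x ∈ P, ∀ y ∈ D, x * y = y * x) (hab : ∀ x ∈ D, ∀ y ∈ D, x⁻¹ * y⁻¹ * x * y ∈ P)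
    (hd : ∀ x ∈ D, ∃ y ∈ D, ∃ z ∈ P, x = y ^ p * z) (hp : ∀ x ∈ D, PEl p x) : Dv p D := by
  have hroot : ∀ k : ℕ, ∀ x ∈ D, ∃ y ∈ D, ∃ z ∈ P, x = y ^ p ^ k * z := by
    intro k
    induction k with
    | zero => exact fun x hx => ⟨x, hx, 1, P.one_mem, by simp⟩
    | succ k ih =>
      intro x hx
      obtain ⟨y, hy, z, hz, hx1⟩ := ih x hx
      obtain ⟨y', hy', z', hz', hy1⟩ := hd y hy
      have h1 : Commute (y' ^ p) z' := (Commute.pow_left (hc z' hz' y' hy').symm p)
      refine ⟨y', hy', z' ^ p ^ k * z, P.mul_mem (P.pow_mem hz' _) hz, ?_⟩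
      rw [hx1, hy1, h1.mul_pow, ← pow_mul, ← pow_succ', mul_assoc]
  refine ⟨?_, hp, ?_⟩
  · intro x hx y hy
    obtain ⟨k, hk⟩ := hp y hy
    obtain ⟨x', hx', z, hz, hx1⟩ := hroot k x hx
    let c : G := x'⁻¹ * y⁻¹ * x' * y
    have hcP : c ∈ P := hab x' hx' y hy
    have hcx : c * x' = x' * c := hc c hcP x' hx'
    have hcy : c * y = y * c := hc c hcP y hy
    have h0 : x' * y = y * x' * c := by simp only [c]; group
    have h1 : ∀ m : ℕ, x' ^ m * y = y * x' ^ m * c ^ m := by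
      intro m
      induction m with
      | zero => simp
      | succ m ih =>
        have hcm : Commute x' (c ^ m) := Commute.pow_right hcx.symm m
        calc x' ^ (m + 1) * y = x' * (x' ^ m * y) := by rw [pow_succ']; group
          _ = x' * (y * x' ^ m * c ^ m) := by rw [ih]
          _ = (x' * y) * x' ^ m * c ^ m := by group
          _ = (y * x' * c) * x' ^ m * c ^ m := by rw [h0]
          _ = y * x' * (c * x' ^ m) * c ^ m := by group
          _ = y * x' * (x' ^ m * c) * c ^ m := by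
            rw [(Commute.pow_right (show Commute c x' from hcx) m).eq]
          _ = y * x' ^ (m + 1) * c ^ (m + 1) := by rw [pow_succ', pow_succ']; group
    have h2 : ∀ m : ℕ, x' * y ^ m = y ^ m * x' * c ^ m := by
      intro m
      induction m with
      | zero => simp
      | succ m ih =>
        calc x' * y ^ (m + 1) = (x' * y ^ m) * y := by rw [pow_succ]; group
          _ = (y ^ m * x' * c ^ m) * y := by rw [ih]
          _ = y ^ m * x' * (c ^ m * y) := by group
          _ = y ^ m * x' * (y * c ^ m) := by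
            rw [(Commute.pow_left (show Commute c y from hcy) m).eq]
          _ = y ^ m * (x' * y) * c ^ m := by group
          _ = y ^ m * (y * x' * c) * c ^ m := by rw [h0]
          _ = y ^ (m + 1) * x' * c ^ (m + 1) := by rw [pow_succ, pow_succ']; group
    have h3 : c ^ p ^ k = 1 := by
      have h4 := h2 (p ^ k)
      rw [hk, mul_one, one_mul] at h4
      exact mul_left_cancel (h4.symm.trans (mul_one x').symm)
    have h5 : x' ^ p ^ k * y = y * x' ^ p ^ k := by
      rw [h1, h3, mul_one]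
    rw [hx1]
    calc x' ^ p ^ k * z * y = x' ^ p ^ k * (z * y) := by group
      _ = x' ^ p ^ k * (y * z) := by rw [hc z hz y hy]
      _ = (x' ^ p ^ k * y) * z := by group
      _ = (y * x' ^ p ^ k) * z := by rw [h5]
      _ = y * (x' ^ p ^ k * z) := by group
  · intro x hx
    obtain ⟨y, hy, z, hz, rfl⟩ := hd x hx
    obtain ⟨w, hw, rfl⟩ := hP.div z hz
    have h1 : Commute y w := (hc w hw y hy).symm
    exact ⟨y * w, D.mul_mem hy (hPD hw), h1.mul_pow p⟩

/-- an element of `p`-power order acting trivially on the elements of order dividing `p ^ 2` of a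
divisible group acts trivially -/
theorem Dv.act {P : Subgroup G} (hP : Dv p P) {g : G} (hg : PEl p g) (hn : g ∈ Nr P)
    (h : ∀ x ∈ P, x ^ p ^ 2 = 1 → g * x = x * g) : ∀ x ∈ P, g * x = x * g :=
  dv_act' hP hg hn h

/-- The centraliser of `P` in a `p`-group has finite index. -/
theorem Dv.centralizer_index (ht : Thin p G) {P X : Subgroup G} (hP : Dv p P) (hX : X ≤ Nr P)
    (hp : ∀ x ∈ X, PEl p x) : (Subgroup.centralizer (P : Set G)).relIndex X ≠ 0 :=
  dv_centralizer_index' ht hP hX hp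

end Pool.Agent.Helper59.EI
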