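import Pool.Agent.Helper59.EI.Defs
import Pool.Agent.Helper98.Engel.Defs

/-!
# EI-30. Left Engel involutions
-/

set_option autoImplicit false

namespace Pool.Agent.Helper59.EI

universe u

open Pool.Agent.Helper98.Engel

variable {G : Type u} [Group G]

private theorem eng_inv {a z : G} (h : a⁻¹ * z * a = z⁻¹) (k : ℕ) :
    eng a k z = z ^ ((-2 : ℤ) ^ k) := by
  induction k with
  | zero => simp [eng_zero]
  | succ k ih =>
    have h1 : a⁻¹ * z ^ ((-2 : ℤ) ^ k) * a = (z⁻¹) ^ ((-2 : ℤ) ^ k) := by
      have h2 := conj_zpow (i := (-2 : ℤ) ^ k) (a := a⁻¹) (b := z)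
      rw [inv_inv, h] at h2
      exact h2.symm
    rw [eng_succ, ih, mul_assoc, mul_assoc, ← mul_assoc a⁻¹, h1, pow_succ, zpow_mul, inv_zpow,
      zpow_neg, ← mul_inv_rev]
    norm_cast
    rw [pow_two]

/-- The left Engel elements of order 2 form a normal set of involutions, the product of any two of
which is a 2-element. -/
theorem engel_IT : IT {x : G | x ≠ 1 ∧ x * x = 1 ∧ IsLeftEngel x} where
  ne := fun t ht => ht.1
  inv := fun t ht => ht.2.1
  conj := by
    rintro t ⟨h1, h2, h3⟩ g
    refine ⟨?_, ?_, h3.conj g⟩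
    · intro h
      apply h1
      have : t = g * (g⁻¹ * t * g) * g⁻¹ := by group
      rw [this, h]
      group
    · have : g⁻¹ * t * g * (g⁻¹ * t * g) = g⁻¹ * (t * t) * g := by group
      rw [this, h2]
      group
  two := by
    rintro a ⟨_, ha, hE⟩ b ⟨_, hb, _⟩
    have ha' : a⁻¹ = a := inv_eq_of_mul_eq_one_right ha
    have hb' : b⁻¹ = b := inv_eq_of_mul_eq_one_right hb
    obtain ⟨n, hn⟩ := hE (b * a)
    rw [eng_inv (by rw [mul_inv_rev, ha', hb', mul_assoc, mul_assoc, ha, mul_one])] at hn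
    refine ⟨n, ?_⟩
    have h1 : a * b = (b * a)⁻¹ := by rw [mul_inv_rev, ha', hb']
    rw [h1, inv_pow, inv_eq_one]
    rcases Nat.even_or_odd n with he | ho
    · rw [he.neg_pow] at hn
      exact_mod_cast hn
    · rw [ho.neg_pow, zpow_neg, inv_eq_one] at hn
      exact_mod_cast hn

/-- a locally finite `p`-group is locally nilpotent -/
theorem LP.locNil {p : ℕ} [Fact p.Prime] {H : Subgroup G} (h : LP p H) : LocallyNilpotent H := by
  intro K hK hKf
  obtain ⟨s, hs, hsf⟩ := (Subgroup.fg_iff K).1 hKf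
  have h1 : ((Subgroup.closure s : Subgroup G) : Set G).Finite := by
    refine h.1 s hsf ?_
    intro x hx
    exact hK (hs ▸ Subgroup.subset_closure hx)
  rw [hs] at h1
  have : Finite K := h1.to_subtype
  have hp : IsPGroup p K := by
    rintro ⟨x, hx⟩
    obtain ⟨k, hk⟩ := h.2 x (hK hx)
    exact ⟨k, Subtype.ext (by simpa using hk)⟩
  exact hp.isNilpotent

/-- An abelian group of finite rank has finite elementary abelian subgroups. -/
theorem thin_of_finRank (hrk : ∀ A : Subgroup G, (∀ a ∈ A, ∀ b ∈ A, a * b = b * a) → FinRank A)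
    (p : ℕ) (hp : p.Prime) : Thin p G := by
  intro A h1 h2
  obtain ⟨r, hr⟩ := hrk A h2
  by_contra hinf
  obtain ⟨s, hsA, hcard⟩ := (Set.not_finite.1 hinf).exists_subset_card_eq (p ^ r + 1)
  have hsub : Subgroup.closure (s : Set G) ≤ A := (Subgroup.closure_le A).2 hsA
  obtain ⟨T, hT, hcl⟩ := hr (Subgroup.closure (s : Set G)) hsub ⟨s, rfl⟩
  set H := Subgroup.closure (s : Set G) with hH
  let _ : CommGroup H := { (inferInstance : Group H) with
    mul_comm := fun x y => Subtype.ext (h2 _ (hsub x.2) _ (hsub y.2)) }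
  have hfg : Group.FG H := (Group.fg_iff_subgroup_fg H).2 ⟨s, rfl⟩
  have hd := card_dvd_exponent_pow_rank' (G := H) (n := p) (by
    intro g
    exact Subtype.ext (by simpa using h1 _ (hsub g.2)))
  have hrank : Group.rank H ≤ r := by
    refine le_trans ?_ hT
    have h3 : Group.FG (Subgroup.closure (T : Set G)) := by rw [hcl]; exact hfg
    have h4 := Subgroup.rank_closure_finset_le_card T
    have h5 := Subgroup.rank_congr hcl
    exact h5.symm.le.trans h4
  have hcH : Nat.card H ≤ p ^ r := by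
    refine (Nat.le_of_dvd (pow_pos hp.pos _) hd).trans (Nat.pow_le_pow_right hp.pos hrank)
  have hne : Nat.card H ≠ 0 := by
    intro h0
    rw [h0, zero_dvd_iff] at hd
    exact absurd hd (pow_pos hp.pos _).ne'
  have hfin : Finite H := Nat.finite_of_card_ne_zero hne
  have hs' : s.card ≤ Nat.card H := by
    have h3 : (s : Set G) ⊆ (H : Set G) := Subgroup.subset_closure
    have h4 := Set.ncard_le_ncard h3 (Set.toFinite _)
    rw [Set.ncard_coe_finset] at h4
    exact h4
  omega

end Pool.Agent.Helper59.EI
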