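import Pool.Agent.Helper59.EI.Defs

/-!
# EI-24. The computation for Lemma F
-/

set_option autoImplicit false

namespace Pool.Agent.Helper59.EI

universe u

variable {G : Type u} [Group G]

theorem F_alg {a c p q : G} (ha : a * a = 1) (hc : c * c = 1) (hap : a * p = p * a)
    (hcq : c * q = q * c) (hcp : c * p * c = p⁻¹) (haq : a * q * a = q⁻¹)
    (h1 : (q * q)⁻¹ * p * (q * q) = p⁻¹) (h2 : (p * p)⁻¹ * q * (p * p) = q⁻¹)
    (hp : p * p ≠ 1) (h3 : PEl 2 (c * p * (a * q))) : False := by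
  obtain ⟨f, hf⟩ : ∃ f, f = q * q := ⟨_, rfl⟩
  obtain ⟨s, hs⟩ : ∃ s, s = p * p := ⟨_, rfl⟩
  rw [← hf] at h1
  rw [← hs] at h2 hp
  have e1 : s⁻¹ * f * s = f⁻¹ := by
    calc s⁻¹ * f * s = (s⁻¹ * q * s) * (s⁻¹ * q * s) := by rw [hf]; group
      _ = q⁻¹ * q⁻¹ := by rw [h2]
      _ = f⁻¹ := by rw [hf]; group
  have e2 : f⁻¹ * s * f = s⁻¹ := by
    calc f⁻¹ * s * f = (f⁻¹ * p * f) * (f⁻¹ * p * f) := by rw [hs]; group
      _ = p⁻¹ * p⁻¹ := by rw [h1]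
      _ = s⁻¹ := by rw [hs]; group
  -- f⁻² = s²
  have e3 : f⁻¹ * f⁻¹ = s * s := by
    calc f⁻¹ * f⁻¹ = f⁻¹ * (s⁻¹ * f * s) := by rw [e1]
      _ = (f⁻¹ * s * f)⁻¹ * s := by group
      _ = s * s := by rw [e2, inv_inv]
  have e4 : s * s = s⁻¹ * s⁻¹ := by
    calc s * s = f⁻¹ * (f⁻¹ * f⁻¹) * f := by rw [e3.symm]; group
      _ = f⁻¹ * (s * s) * f := by rw [e3]
      _ = (f⁻¹ * s * f) * (f⁻¹ * s * f) := by group
      _ = s⁻¹ * s⁻¹ := by rw [e2]
  have e5 : p⁻¹ * f * p = f * s := by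
    have : f * p⁻¹ = p * f := by
      rw [← h1]; group
    calc p⁻¹ * f * p = p⁻¹ * (f * p⁻¹) * (p * p) := by group
      _ = p⁻¹ * (p * f) * (p * p) := by rw [this]
      _ = f * s := by rw [hs]; group
  have e6 : q⁻¹ * s * q = s * f := by
    have : s * q⁻¹ = q * s := by
      rw [← h2]; group
    calc q⁻¹ * s * q = q⁻¹ * (s * q⁻¹) * (q * q) := by group
      _ = q⁻¹ * (q * s) * (q * q) := by rw [this]
      _ = s * f := by rw [hf]; group
  have hci : c⁻¹ = c := inv_eq_of_mul_eq_one_right hc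
  have hai : a⁻¹ = a := inv_eq_of_mul_eq_one_right ha
  have e7 : c * f * c = f := by
    calc c * f * c = (c * q) * q * c := by rw [hf]; group
      _ = q * c * q * c := by rw [hcq]
      _ = q * (c * q) * c := by group
      _ = q * q * (c * c) := by rw [hcq]; group
      _ = f := by rw [hc, hf, mul_one]
  have e8 : c * s * c = s⁻¹ := by
    calc c * s * c = (c * p * c) * (c⁻¹ * c⁻¹) * (c * p * c) := by rw [hs]; group
      _ = (c * p * c) * (c * p * c) := by rw [hci, hc, mul_one]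
      _ = s⁻¹ := by rw [hcp, hs]; group
  have e9 : a * f * a = f⁻¹ := by
    calc a * f * a = (a * q * a) * (a⁻¹ * a⁻¹) * (a * q * a) := by rw [hf]; group
      _ = (a * q * a) * (a * q * a) := by rw [hai, ha, mul_one]
      _ = f⁻¹ := by rw [haq, hf]; group
  have e10 : a * s * a = s := by
    calc a * s * a = (a * p) * p * a := by rw [hs]; group
      _ = p * a * p * a := by rw [hap]
      _ = p * (a * p) * a := by group
      _ = p * p * (a * a) := by rw [hap]; group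
      _ = s := by rw [ha, hs, mul_one]
  obtain ⟨u, hu⟩ : ∃ u, u = c * p * (a * q) := ⟨_, rfl⟩
  rw [← hu] at h3
  have u1 : u⁻¹ * f * u = s⁻¹ := by
    calc u⁻¹ * f * u = q⁻¹ * a⁻¹ * (p⁻¹ * (c⁻¹ * f * c) * p) * a * q := by rw [hu]; group
      _ = q⁻¹ * (a * (f * s) * a) * q := by rw [hci, hai, e7, e5]; group
      _ = q⁻¹ * ((a * f * a) * (a⁻¹ * a⁻¹) * (a * s * a)) * q := by group
      _ = q⁻¹ * (f⁻¹ * s) * q := by rw [hai, ha, mul_one, e9, e10]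
      _ = (q⁻¹ * f * q)⁻¹ * (q⁻¹ * s * q) := by group
      _ = (q⁻¹ * (q * q) * q)⁻¹ * (q⁻¹ * s * q) := by rw [hf]
      _ = (q * q)⁻¹ * (q⁻¹ * s * q) := by group
      _ = f⁻¹ * (s * f) := by rw [e6, hf]
      _ = s⁻¹ := by rw [← mul_assoc, e2]
  have u2 : u⁻¹ * s * u = f⁻¹ * s⁻¹ := by
    calc u⁻¹ * s * u = q⁻¹ * a⁻¹ * (p⁻¹ * (c⁻¹ * s * c) * p) * a * q := by rw [hu]; group
      _ = q⁻¹ * (a * (p⁻¹ * s⁻¹ * p) * a) * q := by rw [hci, hai, e8]; group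
      _ = q⁻¹ * (a * s⁻¹ * a) * q := by
          have : p⁻¹ * s⁻¹ * p = s⁻¹ := by rw [hs]; group
          rw [this]
      _ = q⁻¹ * (a⁻¹ * s * a⁻¹)⁻¹ * q := by group
      _ = q⁻¹ * s⁻¹ * q := by rw [hai, e10]
      _ = (q⁻¹ * s * q)⁻¹ := by group
      _ = f⁻¹ * s⁻¹ := by rw [e6]; group
  -- u³ commutes with f
  have v1 : (u * u)⁻¹ * f * (u * u) = s * f := by
    calc (u * u)⁻¹ * f * (u * u) = u⁻¹ * (u⁻¹ * f * u) * u := by group
      _ = (u⁻¹ * s * u)⁻¹ := by rw [u1]; group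
      _ = (f⁻¹ * s⁻¹)⁻¹ := by rw [u2]
      _ = s * f := by group
  have v2 : (u * u * u)⁻¹ * f * (u * u * u) = f := by
    calc (u * u * u)⁻¹ * f * (u * u * u) = u⁻¹ * ((u * u)⁻¹ * f * (u * u)) * u := by group
      _ = (u⁻¹ * s * u) * (u⁻¹ * f * u) := by rw [v1]; group
      _ = f⁻¹ * (s⁻¹ * s⁻¹) := by rw [u1, u2]; group
      _ = f⁻¹ * (s * s)⁻¹ := by group
      _ = f⁻¹ * (f⁻¹ * f⁻¹)⁻¹ := by rw [e3]
      _ = f := by group
  have v3 : (u * u * u)⁻¹ * s * (u * u * u) = s := by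
    have w1 : (u * u)⁻¹ * s * (u * u) = s * (s * f) := by
      calc (u * u)⁻¹ * s * (u * u) = u⁻¹ * (u⁻¹ * s * u) * u := by group
        _ = u⁻¹ * (f⁻¹ * s⁻¹) * u := by rw [u2]
        _ = (u⁻¹ * f * u)⁻¹ * (u⁻¹ * s * u)⁻¹ := by group
        _ = s⁻¹⁻¹ * (f⁻¹ * s⁻¹)⁻¹ := by rw [u1, u2]
        _ = s * (s * f) := by group
    calc (u * u * u)⁻¹ * s * (u * u * u) = u⁻¹ * ((u * u)⁻¹ * s * (u * u)) * u := by group
      _ = (u⁻¹ * s * u) * (u⁻¹ * s * u) * (u⁻¹ * f * u) := by rw [w1]; group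
      _ = f⁻¹ * s⁻¹ * (f⁻¹ * (s⁻¹ * s⁻¹)) := by rw [u1, u2]; group
      _ = f⁻¹ * s⁻¹ * (f⁻¹ * (s * s)⁻¹) := by group
      _ = f⁻¹ * s⁻¹ * (f⁻¹ * (f⁻¹ * f⁻¹)⁻¹) := by rw [e3]
      _ = (f⁻¹ * s * f)⁻¹ := by group
      _ = s := by rw [e2, inv_inv]
  have key : ∀ x : G, (u * u * u)⁻¹ * x * (u * u * u) = x → u⁻¹ * x * u = x := by
    intro x hx
    have c1 : Commute (u ^ 3) x := by
      show u ^ 3 * x = x * u ^ 3
      have : u ^ 3 = u * u * u := pow_three' u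
      rw [this]
      calc u * u * u * x = u * u * u * ((u * u * u)⁻¹ * x * (u * u * u)) := by rw [hx]
        _ = x * (u * u * u) := by group
    obtain ⟨k, hk⟩ := h3
    have c2 : Commute (u ^ 2 ^ k) x := by
      rw [hk]; exact Commute.one_left x
    have hcop : IsCoprime (3 : ℤ) ((2 ^ k : ℕ) : ℤ) := by
      have : Nat.Coprime 3 (2 ^ k) := Nat.Coprime.pow_right k (by norm_num)
      exact_mod_cast Nat.isCoprime_iff_coprime.2 this
    obtain ⟨m, n, hmn⟩ := hcop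
    have c3 : Commute u x := by
      have h4 : u = (u ^ 3) ^ m * (u ^ 2 ^ k) ^ n := by
        have : u = u ^ (m * 3 + n * ((2 ^ k : ℕ) : ℤ)) := by rw [hmn, zpow_one]
        conv_lhs => rw [this]
        rw [zpow_add, mul_comm m, mul_comm n, zpow_mul, zpow_mul, zpow_natCast]
        norm_cast
      rw [h4]
      exact (c1.zpow_left m).mul_left (c2.zpow_left n)
    have h5 : u * x = x * u := c3
    calc u⁻¹ * x * u = u⁻¹ * (x * u) := by group
      _ = u⁻¹ * (u * x) := by rw [h5]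
      _ = x := by group
  have w1 := key f v2
  have w2 := key s v3
  rw [u1] at w1
  rw [u2, ← w1] at w2
  apply hp
  rw [← w2]
  group

end Pool.Agent.Helper59.EI
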