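import Pool.Agent.Helper59.EI.L1
import Pool.Agent.Helper59.EI.Chain

/-!
# EI-15. Existence of a final pair
-/

set_option autoImplicit false

namespace Pool.Agent.Helper59.EI

universe u

theorem exists_final {G : Type u} [Group G] {T : Set G} (h : Base G T) :
    ∃ (A : Subgroup G) (t : G), FPr T A t := by
  by_contra hcon
  push Not at hcon
  -- every pair has an absorbing successor
  have hstep : ∀ p : {p : Subgroup G × G // Pr T p.1 p.2},
      ∃ (q : {p : Subgroup G × G // Pr T p.1 p.2}) (s : G), p.1.1 ≤ q.1.1 ∧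
        q.1.2 ∈ Scl T p.1.1 p.1.2 ∧ s ∈ q.1.1 ∧ s ∈ Scl T p.1.1 p.1.2 ∧ s ∉ p.1.1 := by
    rintro ⟨⟨A, t⟩, hp⟩
    by_contra hno
    push Not at hno
    refine hcon A t ⟨hp, ?_⟩
    intro A' t' hp' hA ht' s hs hs'
    exact hno ⟨(A', t'), hp'⟩ s hA ht' hs hs'
  choose nx sx hx1 hx2 hx3 hx4 hx5 using hstep
  -- the first pair
  obtain ⟨t₀, ht₀⟩ : T.Nonempty := by
    rw [Set.nonempty_iff_ne_empty]
    rintro rfl
    have h1 := h.gen
    rw [Subgroup.closure_empty] at h1
    apply h.bad
    rw [← h1]
    exact LF_of_finite (by rw [Subgroup.coe_bot]; exact Set.finite_singleton _)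
  have hp₀ : Pr T (⊥ : Subgroup G) t₀ := by
    refine ⟨by rw [Subgroup.coe_bot]; exact Set.finite_singleton _, ?_, ht₀, ?_, ?_⟩
    · intro x hx
      rw [Subgroup.mem_bot] at hx
      rw [hx]
      exact PEl_one 2
    · rw [mem_Nr]
      intro x
      rw [Subgroup.mem_bot, Subgroup.mem_bot]
      constructor
      · rintro rfl
        group
      · intro hx
        have : x = t₀⁻¹ * (t₀ * x * t₀⁻¹) * t₀ := by group
        rw [this, hx]
        group
    · have h1 : Scl T (⊥ : Subgroup G) t₀ = T := by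
        ext s
        constructor
        · exact fun hs => hs.1
        · intro hs
          refine ⟨hs, ?_⟩
          intro a ha
          rw [Subgroup.mem_bot] at ha
          rw [ha, mul_one, mul_one, h.inv s hs, h.inv t₀ ht₀]
      rw [h1, h.gen]
      exact h.bad
  let P : ℕ → {p : Subgroup G × G // Pr T p.1 p.2} := fun n => nx^[n] ⟨(⊥, t₀), hp₀⟩
  have hP : ∀ n, P (n + 1) = nx (P n) := fun n => Function.iterate_succ_apply' nx n _
  have hmono : Monotone fun n => (P n).1.1 := by
    refine monotone_nat_of_le_succ fun n => ?_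
    change (P n).1.1 ≤ (P (n + 1)).1.1
    rw [hP]
    exact hx1 (P n)
  refine chain_absurd h.thin (fun n => (P n).1.1) hmono (fun n => (P n).2.two) (fun n => sx (P n))
    (fun n => h.inv _ (hx4 (P n)).1) ?_ (fun n => hx5 (P n)) ?_
  · intro n
    change sx (P n) ∈ (P (n + 1)).1.1
    rw [hP]
    exact hx3 (P n)
  · intro n x hx
    have a1 := (hx4 (P (2 * n))).2 x hx
    have a2 := (hx4 (P (2 * n + 1))).2 x (hmono (Nat.le_succ (2 * n)) hx)
    have a3 : (P (2 * n + 1)).1.2 * x * (P (2 * n + 1)).1.2 =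
        (P (2 * n)).1.2 * x * (P (2 * n)).1.2 := by
      have := (hx2 (P (2 * n))).2 x hx
      rw [← hP] at this
      exact this
    have i1 := h.inv _ (hx4 (P (2 * n))).1
    have i2 := h.inv _ (hx4 (P (2 * n + 1))).1
    set s := sx (P (2 * n))
    set s' := sx (P (2 * n + 1))
    have a4 : s' * x * s' = s * x * s := by rw [a2, a3, a1]
    calc s * s' * x = s * (s' * x * s') * s' := by
          rw [show s * (s' * x * s') * s' = s * s' * x * (s' * s') by group, i2, mul_one]
      _ = s * (s * x * s) * s' := by rw [a4]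
      _ = x * (s * s') := by
          rw [show s * (s * x * s) * s' = (s * s) * (x * (s * s')) by group, i1, one_mul]

end Pool.Agent.Helper59.EI
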