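import Pool.Agent.Helper59.EI.Thm1
import Pool.Agent.Helper59.EI.EngInv
import Pool.Agent.Helper59.EI.B2
import Pool.Agent.Helper59.EI.B4

/-!
# EI-35. The final statements
-/

set_option autoImplicit false

namespace Pool.Agent.Helper59.EI

universe u

open Pool.Agent.Helper98.Engel

variable {G : Type u} [Group G]

theorem IT_closure_normal {T : Set G} (hT : ∀ t ∈ T, ∀ g : G, g⁻¹ * t * g ∈ T) :
    (Subgroup.closure T).Normal := by
  constructor
  intro x hx g
  have h1 : Subgroup.closure T ≤ (Subgroup.closure T).comap (MulAut.conj g).toMonoidHom := by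
    rw [Subgroup.closure_le]
    intro t ht
    have h2 := hT t ht g⁻¹
    rw [inv_inv] at h2
    exact Subgroup.subset_closure h2
  exact h1 hx

theorem part1 (ht : Thin 2 G) :
    ∃ N : Subgroup G, N.Normal ∧ LocallyNilpotent N ∧
      ∀ x : G, IsLeftEngel x → x * x = 1 → x ∈ N := by
  have h := engel_IT (G := G)
  have h1 := thm1 ht h
  have : Fact (Nat.Prime 2) := ⟨Nat.prime_two⟩
  refine ⟨_, IT_closure_normal h.conj, h1.locNil, ?_⟩
  intro x hx h2
  by_cases hx1 : x = 1
  · rw [hx1]
    exact Subgroup.one_mem _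
  · exact Subgroup.subset_closure ⟨hx1, h2, hx⟩

theorem part2 (n m : ℕ) (hm : 0 < m) (ht : ∀ p : ℕ, p.Prime → p ∣ m → Thin p G) :
    ∃ N : Subgroup G, N = Subgroup.closure {x : G | x ^ m = 1 ∧ ∀ y : G, eng x n y = 1} ∧
      N.Normal ∧ (N : Set G).Finite ∧ Group.IsNilpotent N := by
  set T : Set G := {x | x ^ m = 1 ∧ ∀ y : G, eng x n y = 1} with hTdef
  have hT : ∀ t ∈ T, ∀ g : G, g⁻¹ * t * g ∈ T := by
    rintro t ⟨h1, h2⟩ g
    constructor
    · have h3 : (g⁻¹ * t * g) ^ m = g⁻¹ * t ^ m * g := by
        have := conj_pow (i := m) (a := g⁻¹) (b := t)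
        rwa [inv_inv] at this
      rw [h3, h1]
      group
    · intro y
      have h3 := conj_eng g t (g * y * g⁻¹) n
      rw [h2] at h3
      have h4 : g⁻¹ * (g * y * g⁻¹) * g = y := by group
      rw [h4] at h3
      rw [← h3]
      group
  have hb := baer_finite hT (fun t ht y => ⟨n, ht.2 y⟩) (by
    intro M hM hMn
    -- apply `bounded_locNil` to `M`
    have hfin : Finite M := by
      refine bounded_locNil (X := M) (m := m) (n := n) (S := {x : M | (x : G) ∈ T}) ?_ hm
        (fun p hp hpm => (ht p hp hpm).sub M) ?_ ?_ ?_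
      · intro H _ hH
        have h1 : (H.map M.subtype).FG := by
          rw [Subgroup.fg_iff] at hH ⊢
          obtain ⟨s, hs, hsf⟩ := hH
          refine ⟨M.subtype '' s, ?_, hsf.image _⟩
          rw [← hs, MonoidHom.map_closure]
        have h2 := hMn (H.map M.subtype) (by
          rintro _ ⟨x, _, rfl⟩
          exact x.2) h1
        exact (Group.isNilpotent_congr
          (H.equivMapOfInjective M.subtype M.subtype_injective)).2 h2
      · apply Subgroup.map_injective M.subtype_injective
        rw [MonoidHom.map_closure, ← MonoidHom.range_eq_map, Subgroup.range_subtype]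
        have h1 : (M.subtype '' {x : M | (x : G) ∈ T}) = T ∩ M := by
          ext g
          constructor
          · rintro ⟨x, hx, rfl⟩
            exact ⟨hx, x.2⟩
          · rintro ⟨hg, hgM⟩
            exact ⟨⟨g, hgM⟩, hg, rfl⟩
        rw [h1]
        exact hM
      · intro s hs
        apply Subtype.ext
        simpa using hs.1
      · intro s hs y
        apply M.subtype_injective
        rw [map_eng, map_one]
        exact hs.2 _
    exact Set.toFinite _)
  exact ⟨_, rfl, IT_closure_normal hT, hb.1, hb.2⟩

end Pool.Agent.Helper59.EI
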