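import Mathlib

/-!
# EI-18a. Hitting sets
-/

set_option autoImplicit false

namespace Pool.Agent.Helper59.EI

universe u

/-- A family of finite sets has finitely many hitting sets of minimal size. -/
theorem hitting_finite' {α : Type u} {F : Set (Set α)} (hfin : ∀ A ∈ F, A.Finite) (k : ℕ)
    (hmin : ∀ H : Finset α, (∀ A ∈ F, ((H : Set α) ∩ A).Nonempty) → k ≤ H.card) :
    {H : Finset α | H.card = k ∧ ∀ A ∈ F, ((H : Set α) ∩ A).Nonempty}.Finite := by
  classical
  have key : ∀ j : ℕ, j ≤ k → ∃ C : Set (Finset α), C.Finite ∧ (∀ D ∈ C, D.card = j) ∧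
      ∀ H : Finset α, (∀ A ∈ F, ((H : Set α) ∩ A).Nonempty) → ∃ D ∈ C, D ⊆ H := by
    intro j
    induction j with
    | zero =>
      intro _
      exact ⟨{∅}, Set.finite_singleton _, fun D hD => by rw [Set.mem_singleton_iff.1 hD]; rfl,
        fun H _ => ⟨∅, rfl, Finset.empty_subset H⟩⟩
    | succ j ih =>
      intro hj
      obtain ⟨C, hC1, hC2, hC3⟩ := ih (by omega)
      have h1 : ∀ D ∈ C, ∃ A ∈ F, ∀ x ∈ A, x ∉ D := by
        intro D hD
        by_contra hcon
        push Not at hcon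
        have h2 := hmin D fun A hA => by
          obtain ⟨x, hx1, hx2⟩ := hcon A hA
          exact ⟨x, hx2, hx1⟩
        rw [hC2 D hD] at h2
        omega
      choose! A hA1 hA2 using h1
      refine ⟨⋃ D ∈ C, (fun x => insert x D) '' (A D),
        hC1.biUnion fun D hD => (hfin _ (hA1 D hD)).image _, ?_, ?_⟩
      · intro E hE
        obtain ⟨D, hD, x, hx, rfl⟩ := Set.mem_iUnion₂.1 hE
        change (insert x D).card = j + 1
        rw [Finset.card_insert_of_notMem (hA2 D hD x hx), hC2 D hD]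
      · intro H hH
        obtain ⟨D, hD, hDH⟩ := hC3 H hH
        obtain ⟨x, hx1, hx2⟩ := hH (A D) (hA1 D hD)
        exact ⟨insert x D, Set.mem_iUnion₂.2 ⟨D, hD, x, hx2, rfl⟩,
          Finset.insert_subset hx1 hDH⟩
  obtain ⟨C, hC1, hC2, hC3⟩ := key k le_rfl
  refine hC1.subset ?_
  rintro H ⟨hH1, hH2⟩
  obtain ⟨D, hD, hDH⟩ := hC3 H hH2
  rw [← Finset.eq_of_subset_of_card_le hDH (by rw [hH1, hC2 D hD])]
  exact hD

end Pool.Agent.Helper59.EI
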