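import Pool.Agent.Helper59.EI.Bs
import Pool.Agent.Helper59.EI.Dietz
import Pool.Agent.Helper59.EI.HitA

/-!
# EI-18. Hitting sets
-/

set_option autoImplicit false

namespace Pool.Agent.Helper59.EI

open scoped Pointwise

universe u

/-- A family of finite sets has finitely many hitting sets of minimal size. -/
theorem hitting_finite {α : Type u} {F : Set (Set α)} (hfin : ∀ A ∈ F, A.Finite) (k : ℕ)
    (hmin : ∀ H : Finset α, (∀ A ∈ F, ((H : Set α) ∩ A).Nonempty) → k ≤ H.card) :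
    {H : Finset α | H.card = k ∧ ∀ A ∈ F, ((H : Set α) ∩ A).Nonempty}.Finite :=
  hitting_finite' hfin k hmin

variable {G : Type u} [Group G]

/-- no finite normal subgroup contains a nontrivial 2-subgroup normalised by it -/
private theorem Core.no_two {T : Set G} (h : Core G T) {N : Subgroup G} (hN : N.Normal)
    (hf : (N : Set G).Finite) {Q : Subgroup G} (hQN : Q ≤ N) (hNQ : N ≤ Nr Q) (hQ : LP 2 Q) :
    Q = ⊥ := by
  set F : Set (Subgroup G) := {Q' | Q' ≤ N ∧ N ≤ Nr Q' ∧ LP 2 Q'} with hF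
  have hQF : Q ∈ F := ⟨hQN, hNQ, hQ⟩
  have hne : F.Nonempty := ⟨Q, hQF⟩
  have hd : DirectedOn (· ≤ ·) F := by
    rintro A ⟨hA1, hA2, hA3⟩ B ⟨hB1, hB2, hB3⟩
    refine ⟨A ⊔ B, ⟨sup_le hA1 hB1, ?_, LP.sup hA3 hB3 (hB1.trans hA2)⟩, le_sup_left, le_sup_right⟩
    intro n hn
    have h1 := hA2 hn
    have h2 := hB2 hn
    have key : ∀ m ∈ N, ∀ x ∈ A ⊔ B, m * x * m⁻¹ ∈ A ⊔ B := by
      intro m hm x hx
      have hmA := mem_Nr.1 (hA2 hm)
      have hmB := mem_Nr.1 (hB2 hm)
      have hle : A ⊔ B ≤ (A ⊔ B).comap (MulAut.conj m).toMonoidHom := by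
        refine sup_le (fun y hy => ?_) (fun y hy => ?_)
        · exact (le_sup_left : A ≤ A ⊔ B) ((hmA y).1 hy)
        · exact (le_sup_right : B ≤ A ⊔ B) ((hmB y).1 hy)
      exact hle hx
    rw [mem_Nr]
    intro x
    refine ⟨key n hn x, fun hx => ?_⟩
    have h3 := key n⁻¹ (N.inv_mem hn) _ hx
    have h4 : n⁻¹ * (n * x * n⁻¹) * n⁻¹⁻¹ = x := by group
    rwa [h4] at h3
  have hL : LP 2 (sSup F) := LP.sSupD hne hd fun H hH => hH.2.2
  have hle : sSup F ≤ N := sSup_le fun H hH => hH.1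
  have hfin : ((sSup F : Subgroup G) : Set G).Finite := hf.subset hle
  have hnorm : (sSup F).Normal := by
    refine ⟨fun x hx g => ?_⟩
    rw [Subgroup.mem_sSup_of_directedOn hne hd] at hx
    obtain ⟨Q', hQ', hx⟩ := hx
    obtain ⟨h1, h2, h3⟩ := hQ'
    have hmem : Q'.map (MulAut.conj g).toMonoidHom ∈ F := by
      refine ⟨?_, ?_, LP.map _ h3⟩
      · rintro _ ⟨y, hy, rfl⟩
        exact hN.conj_mem y (h1 hy) g
      · have key : ∀ m ∈ N, ∀ y ∈ Q'.map (MulAut.conj g).toMonoidHom,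
            m * y * m⁻¹ ∈ Q'.map (MulAut.conj g).toMonoidHom := by
          rintro m hm _ ⟨y, hy, rfl⟩
          have h4 : g⁻¹ * m * g ∈ N := by
            have := hN.conj_mem m hm g⁻¹
            rwa [inv_inv] at this
          refine ⟨(g⁻¹ * m * g) * y * (g⁻¹ * m * g)⁻¹, (mem_Nr.1 (h2 h4) y).1 hy, ?_⟩
          simp only [MulEquiv.coe_toMonoidHom, MulAut.conj_apply]
          group
        intro n hn
        rw [mem_Nr]
        intro y
        refine ⟨key n hn y, fun hy => ?_⟩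
        have h5 := key n⁻¹ (N.inv_mem hn) _ hy
        have h6 : n⁻¹ * (n * y * n⁻¹) * n⁻¹⁻¹ = y := by group
        rwa [h6] at h5
    exact (le_sSup hmem) ⟨x, hx, rfl⟩
  have hbot := h.nf (sSup F) hnorm hfin hL.2
  exact le_bot_iff.1 (hbot ▸ le_sSup hQF)

/-- no finite normal subgroup contains an involution -/
theorem Core.no_inv {T : Set G} (h : Core G T) {N : Subgroup G} (hN : N.Normal)
    (hf : (N : Set G).Finite) {x : G} (hx : x ∈ N) (h2 : x * x = 1) : x = 1 := by
  have hcomm : ∀ a ∈ T, ∀ n ∈ N, n * a = a * n := by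
    intro a ha n hn
    have ha2 := h.inv a ha
    set W : Subgroup G := N ⊔ Subgroup.zpowers a with hW
    set R : Subgroup G := Subgroup.closure (T ∩ W) with hR
    have hRW : R ≤ W := by
      rw [hR, Subgroup.closure_le]
      exact fun y hy => hy.2
    have hWf : (W : Set G).Finite := by
      have h1 : (W : Set G) = (N : Set G) * (Subgroup.zpowers a : Set G) := by
        rw [hW]
        exact Subgroup.normal_mul N (Subgroup.zpowers a)
      rw [h1]
      refine hf.mul ?_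
      have : IsOfFinOrder a := by
        rw [isOfFinOrder_iff_pow_eq_one]
        exact ⟨2, by norm_num, by rw [pow_two]; exact ha2⟩
      exact this.finite_zpowers
    have hRL : LP 2 R := h.toIT.lp (fun y hy => hy.1) (LF_of_finite (hWf.subset hRW))
    -- N normalises R
    have key : ∀ m ∈ N, ∀ y ∈ R, m * y * m⁻¹ ∈ R := by
      intro m hm y hy
      have hle : R ≤ R.comap (MulAut.conj m).toMonoidHom := by
        conv_lhs => rw [hR]
        rw [Subgroup.closure_le]
        intro z hz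
        show m * z * m⁻¹ ∈ R
        refine Subgroup.subset_closure ⟨h.toIT.conj' hz.1 m, ?_⟩
        exact W.mul_mem (W.mul_mem ((le_sup_left : N ≤ W) hm) hz.2)
          (W.inv_mem ((le_sup_left : N ≤ W) hm))
      exact hle hy
    have hNR : N ≤ Nr R := by
      intro m hm
      rw [mem_Nr]
      intro y
      refine ⟨key m hm y, fun hy => ?_⟩
      have h5 := key m⁻¹ (N.inv_mem hm) _ hy
      have h6 : m⁻¹ * (m * y * m⁻¹) * m⁻¹⁻¹ = y := by group
      rwa [h6] at h5
    have hQ : N ⊓ R = ⊥ := by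
      refine Core.no_two h hN hf inf_le_left ?_ (hRL.mono inf_le_right)
      intro m hm
      rw [mem_Nr]
      intro y
      rw [Subgroup.mem_inf, Subgroup.mem_inf]
      exact and_congr (mem_Nr.1 (le_Nr N hm) y) (mem_Nr.1 (hNR hm) y)
    have haW : a ∈ W := (le_sup_right : Subgroup.zpowers a ≤ W) (Subgroup.mem_zpowers a)
    have haR : a ∈ R := Subgroup.subset_closure ⟨ha, haW⟩
    have h1 : n * a * n⁻¹ * a ∈ N ⊓ R := by
      refine ⟨?_, R.mul_mem (key n hn a haR) haR⟩
      have h3 : a * n⁻¹ * a⁻¹ ∈ N := hN.conj_mem _ (N.inv_mem hn) a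
      have h4 : n * a * n⁻¹ * a = n * (a * n⁻¹ * a⁻¹) := by
        rw [h.toIT.inv_eq ha]
        group
      show n * a * n⁻¹ * a ∈ N
      rw [h4]
      exact N.mul_mem hn h3
    rw [hQ, Subgroup.mem_bot] at h1
    have h7 : n * a * n⁻¹ = a := by
      have := mul_eq_one_iff_eq_inv.1 h1
      rwa [h.toIT.inv_eq ha] at this
    exact mul_inv_eq_iff_eq_mul.1 h7
  have hcent : ∀ g : G, g * x * g⁻¹ = x := by
    intro g
    have hg : g ∈ Subgroup.centralizer {x} := by
      have h1 : Subgroup.closure T ≤ Subgroup.centralizer {x} := by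
        rw [Subgroup.closure_le]
        intro a ha
        rw [SetLike.mem_coe, Subgroup.mem_centralizer_iff]
        intro y hy
        rw [Set.mem_singleton_iff.1 hy]
        exact hcomm a ha x hx
      rw [h.gen] at h1
      exact h1 (Subgroup.mem_top g)
    rw [Subgroup.mem_centralizer_iff] at hg
    have := hg x rfl
    rw [← this, mul_inv_cancel_right]
  have hb := h.nf (Subgroup.zpowers x) ?_ ?_ ?_
  · have := Subgroup.mem_zpowers x
    rw [hb, Subgroup.mem_bot] at this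
    exact this
  · refine ⟨fun y hy g => ?_⟩
    obtain ⟨i, rfl⟩ := Subgroup.mem_zpowers_iff.1 hy
    rw [← conj_zpow, hcent]
    exact hy
  · have : IsOfFinOrder x := by
      rw [isOfFinOrder_iff_pow_eq_one]
      exact ⟨2, by norm_num, by rw [pow_two]; exact h2⟩
    exact this.finite_zpowers
  · intro y hy
    obtain ⟨i, rfl⟩ := Subgroup.mem_zpowers_iff.1 hy
    refine ⟨1, ?_⟩
    rw [pow_one, ← zpow_natCast, zpow_comm]
    rw [show x ^ ((2 : ℕ) : ℤ) = 1 by rw [zpow_natCast, pow_two]; exact h2, one_zpow]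

/-- the hitting lemma -/
theorem Core.hit {T : Set G} (h : Core G T) (F : Set (Set G)) (hne : F.Nonempty)
    (hfin : ∀ A ∈ F, A.Finite) (hint : ∀ A ∈ F, ∀ B ∈ F, (A ∩ B).Nonempty)
    (hconj : ∀ A ∈ F, ∀ g : G, {x | g * x * g⁻¹ ∈ A} ∈ F)
    (hinv : ∀ A ∈ F, ∀ x ∈ A, x ≠ 1 ∧ x * x = 1) : False := by
  classical
  obtain ⟨A0, hA0⟩ := hne
  have hex : ∃ k : ℕ, ∃ H : Finset G, H.card = k ∧ ∀ A ∈ F, ((H : Set G) ∩ A).Nonempty :=
    ⟨(hfin A0 hA0).toFinset.card, (hfin A0 hA0).toFinset, rfl, fun A hA => by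
      rw [Set.Finite.coe_toFinset]
      exact hint A0 hA0 A hA⟩
  set k := Nat.find hex with hk
  obtain ⟨H0, hH0, hH0'⟩ := Nat.find_spec hex
  have hmin : ∀ H : Finset G, (∀ A ∈ F, ((H : Set G) ∩ A).Nonempty) → k ≤ H.card :=
    fun H hH => Nat.find_min' hex ⟨H, rfl, hH⟩
  set S : Set (Finset G) := {H : Finset G | H.card = k ∧ ∀ A ∈ F, ((H : Set G) ∩ A).Nonempty}
    with hS
  have hSf : S.Finite := hitting_finite hfin k hmin
  -- the elements of the minimal hitting sets are involutions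
  have hSF : ∀ H ∈ S, ∀ x ∈ H, ∃ A ∈ F, x ∈ A := by
    intro H hH x hx
    by_contra hcon
    push Not at hcon
    have h1 : ∀ A ∈ F, (((H.erase x : Finset G) : Set G) ∩ A).Nonempty := by
      intro A hA
      obtain ⟨y, hy1, hy2⟩ := hH.2 A hA
      refine ⟨y, ?_, hy2⟩
      rw [Finset.mem_coe, Finset.mem_erase]
      exact ⟨fun hyx => hcon A hA (hyx ▸ hy2), hy1⟩
    have h2 := hmin _ h1
    have h3 := Finset.card_erase_lt_of_mem hx
    have h4 := hH.1
    omega
  set U : Set G := {x | ∃ H ∈ S, x ∈ H} with hU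
  have hUf : U.Finite := by
    have h1 : U = ⋃ H ∈ S, (H : Set G) := by
      ext x
      simp [hU]
    rw [h1]
    exact hSf.biUnion fun H _ => H.finite_toSet
  have hUinv : ∀ x ∈ U, x ≠ 1 ∧ x * x = 1 := by
    rintro x ⟨H, hH, hx⟩
    obtain ⟨A, hA, hxA⟩ := hSF H hH x hx
    exact hinv A hA x hxA
  have hUc : ∀ g : G, ∀ x ∈ U, g * x * g⁻¹ ∈ U := by
    rintro g x ⟨H, hH, hx⟩
    refine ⟨H.image fun y => g * y * g⁻¹, ⟨?_, fun A hA => ?_⟩, Finset.mem_image_of_mem _ hx⟩
    · rw [Finset.card_image_of_injective _ (fun y z hyz => by simpa using hyz)]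
      exact hH.1
    · obtain ⟨y, hy1, hy2⟩ := hH.2 _ (hconj A hA g)
      exact ⟨g * y * g⁻¹, by
        rw [Finset.mem_coe]
        exact Finset.mem_image_of_mem _ hy1, hy2⟩
  have hfinU : ((Subgroup.closure U : Subgroup G) : Set G).Finite :=
    dietzmann hUf (fun u hu v _ => by
      have := hUc v⁻¹ u hu
      rwa [inv_inv] at this) (fun u hu => (hUinv u hu).2)
  have hnU : (Subgroup.closure U).Normal := by
    refine ⟨fun x hx g => ?_⟩
    have hle : Subgroup.closure U ≤ (Subgroup.closure U).comap (MulAut.conj g).toMonoidHom := by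
      rw [Subgroup.closure_le]
      intro y hy
      exact Subgroup.subset_closure (hUc g y hy)
    exact hle hx
  obtain ⟨x, hx, -⟩ := hH0' A0 hA0
  have hxU : x ∈ U := ⟨H0, ⟨hH0, hH0'⟩, hx⟩
  exact (hUinv x hxU).1 (Core.no_inv h hnU hfinU (Subgroup.subset_closure hxU) (hUinv x hxU).2)

end Pool.Agent.Helper59.EI
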