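import Pool.Agent.Helper59.EI.Bs
import Pool.Agent.Helper59.EI.Dietz

/-!
# EI-14. Lemma L1
-/

set_option autoImplicit false

namespace Pool.Agent.Helper59.EI

universe u

variable {G : Type u} [Group G]

private theorem L1_conj_mem {A : Subgroup G} {t a : G} (ht : t * t = 1) (hn : t ∈ Nr A)
    (ha : a ∈ A) : t * a * t ∈ A := by
  have h1 := (mem_Nr.1 hn a).1 ha
  rwa [inv_eq_of_mul_eq_one_right ht] at h1

/-- `Scl T A t` is closed under conjugation by its elements. -/
theorem Scl_conj {T : Set G} (h : IT T) {A : Subgroup G} {t : G} (ht : t ∈ T) (hn : t ∈ Nr A)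
    {s s' : G} (hs : s ∈ Scl T A t) (hs' : s' ∈ Scl T A t) : s' * s * s' ∈ Scl T A t := by
  refine ⟨?_, fun a ha => ?_⟩
  · have h1 := h.conj s hs.1 s'
    rwa [h.inv_eq hs'.1] at h1
  · have htt := h.inv t ht
    have h1 : t * a * t ∈ A := L1_conj_mem htt hn ha
    calc s' * s * s' * a * (s' * s * s') = s' * (s * (s' * a * s') * s) * s' := by
          simp only [mul_assoc]
      _ = s' * (s * (t * a * t) * s) * s' := by rw [hs'.2 a ha]
      _ = s' * (t * (t * a * t) * t) * s' := by rw [hs.2 _ h1]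
      _ = s' * ((t * t) * a * (t * t)) * s' := by simp only [mul_assoc]
      _ = s' * a * s' := by rw [htt, one_mul, mul_one]
      _ = t * a * t := hs'.2 a ha

theorem Scl_nr {T : Set G} (h : IT T) {A : Subgroup G} {t : G} (ht : t ∈ T) (hn : t ∈ Nr A)
    {s : G} (hs : s ∈ Scl T A t) : s ∈ Nr A := by
  have htt := h.inv t ht
  have hss := h.inv s hs.1
  have key : ∀ a ∈ A, s * a * s ∈ A := fun a ha => by
    rw [hs.2 a ha]
    exact L1_conj_mem htt hn ha
  rw [mem_Nr]
  intro a
  rw [h.inv_eq hs.1]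
  refine ⟨key a, fun ha => ?_⟩
  have h1 := key _ ha
  have h2 : s * (s * a * s) * s = a := by
    calc s * (s * a * s) * s = (s * s) * a * (s * s) := by simp only [mul_assoc]
      _ = a := by rw [hss, one_mul, mul_one]
  rwa [h2] at h1

/-- the subgroup `K_t` -/
private def L1K (T : Set G) (B : Subgroup G) (t : G) : Subgroup G :=
  Subgroup.closure {x | ∃ s ∈ Scl T B t, x = s * t}

private theorem L1_self {T : Set G} {B : Subgroup G} {t : G} (ht : t ∈ T) : t ∈ Scl T B t :=
  ⟨ht, fun _ _ => rfl⟩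

private theorem L1K_le {T : Set G} {B : Subgroup G} {t : G} (ht : t ∈ T) :
    L1K T B t ≤ Subgroup.closure (Scl T B t) := by
  unfold L1K
  rw [Subgroup.closure_le]
  rintro _ ⟨s, hs, rfl⟩
  exact Subgroup.mul_mem _ (Subgroup.subset_closure hs) (Subgroup.subset_closure (L1_self ht))

private theorem L1K_cen {T : Set G} (h : IT T) {B : Subgroup G} {t : G} (ht : t ∈ T) :
    L1K T B t ≤ Subgroup.centralizer (B : Set G) := by
  unfold L1K
  rw [Subgroup.closure_le]
  rintro _ ⟨s, hs, rfl⟩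
  rw [SetLike.mem_coe, Subgroup.mem_centralizer_iff]
  intro b hb
  have htt := h.inv t ht
  have hss := h.inv s hs.1
  have h1 := hs.2 b hb
  -- s b s = t b t, so b s t = s t b
  have h2 : b = s * (t * b * t) * s := by
    rw [← h1]
    calc b = (s * s) * b * (s * s) := by rw [hss, one_mul, mul_one]
      _ = s * (s * b * s) * s := by simp only [mul_assoc]
  calc b * (s * t) = s * (t * b * t) * s * (s * t) := by rw [← h2]
    _ = s * t * b * (t * ((s * s) * t)) := by simp only [mul_assoc]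
    _ = s * t * b := by rw [hss, one_mul, htt, mul_one]

/-- conjugating a class -/
private theorem L1_cls {T : Set G} (h : IT T) {B : Subgroup G} {t s u : G} (hu : u ∈ Scl T B t)
    (hs : s ∈ T) (hn : s ∈ Nr B) : s * u * s ∈ Scl T B (s * t * s) := by
  have hss := h.inv s hs
  refine ⟨?_, fun b hb => ?_⟩
  · have h1 := h.conj u hu.1 s
    rwa [h.inv_eq hs] at h1
  · have h1 : s * b * s ∈ B := L1_conj_mem hss hn hb
    calc s * u * s * b * (s * u * s) = s * (u * (s * b * s) * u) * s := by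
          simp only [mul_assoc]
      _ = s * (t * (s * b * s) * t) * s := by rw [hu.2 _ h1]
      _ = s * t * s * b * (s * t * s) := by simp only [mul_assoc]

private theorem L1_cls_cen {T : Set G} (h : IT T) {B : Subgroup G} {t c u : G}
    (ht : t ∈ T) (hn : t ∈ Nr B) (hu : u ∈ Scl T B t)
    (hc : c ∈ Subgroup.centralizer (B : Set G)) : c⁻¹ * u * c ∈ Scl T B t := by
  refine ⟨h.conj u hu.1 c, fun b hb => ?_⟩
  rw [Subgroup.mem_centralizer_iff] at hc
  have h1 : t * b * t ∈ B := L1_conj_mem (h.inv t ht) hn hb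
  have h2 := hc b hb
  have h3 := hc _ h1
  have h4 : c * b * c⁻¹ = b := by rw [← h2]; group
  have h5 : c⁻¹ * (t * b * t) * c = t * b * t := by
    rw [mul_assoc, h3]; group
  calc c⁻¹ * u * c * b * (c⁻¹ * u * c) = c⁻¹ * (u * (c * b * c⁻¹) * u) * c := by
        simp only [mul_assoc]
    _ = c⁻¹ * (t * b * t) * c := by rw [h4, hu.2 b hb]
    _ = t * b * t := h5

private theorem L1_nr_of {K : Subgroup G} {g : G} (h1 : ∀ x ∈ K, g * x * g⁻¹ ∈ K)
    (h2 : ∀ x ∈ K, g⁻¹ * x * g ∈ K) : g ∈ Nr K := by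
  rw [mem_Nr]
  intro x
  refine ⟨h1 x, fun hx => ?_⟩
  have h3 := h2 _ hx
  have h4 : g⁻¹ * (g * x * g⁻¹) * g = x := by group
  rwa [h4] at h3

private theorem L1_closure_conj {S : Set G} {K : Subgroup G} {g : G}
    (h1 : ∀ x ∈ S, g * x * g⁻¹ ∈ K) : ∀ x ∈ Subgroup.closure S, g * x * g⁻¹ ∈ K := by
  have h2 : Subgroup.closure S ≤ K.comap (MulAut.conj g).toMonoidHom := by
    rw [Subgroup.closure_le]
    intro x hx
    exact h1 x hx
  intro x hx
  exact h2 hx

private theorem L1K_conj_cen {T : Set G} (h : IT T) {B : Subgroup G} {t c : G}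
    (ht : t ∈ T) (hn : t ∈ Nr B) (hc : c ∈ Subgroup.centralizer (B : Set G)) :
    ∀ x ∈ L1K T B t, c * x * c⁻¹ ∈ L1K T B t := by
  apply L1_closure_conj
  rintro _ ⟨s, hs, rfl⟩
  have hc' : c⁻¹ ∈ Subgroup.centralizer (B : Set G) := Subgroup.inv_mem _ hc
  have h1 := L1_cls_cen h ht hn hs hc'
  have h2 := L1_cls_cen h ht hn (L1_self ht) hc'
  rw [inv_inv] at h1 h2
  have h3 : c * s * c⁻¹ * t ∈ L1K T B t := Subgroup.subset_closure ⟨_, h1, rfl⟩
  have h4 : c * t * c⁻¹ * t ∈ L1K T B t := Subgroup.subset_closure ⟨_, h2, rfl⟩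
  have h5 := Subgroup.mul_mem _ h3 (Subgroup.inv_mem _ h4)
  have h6 : c * s * c⁻¹ * t * (c * t * c⁻¹ * t)⁻¹ = c * (s * t) * c⁻¹ := by
    have e : (c * t * c⁻¹ * t)⁻¹ = t * (c * t * c⁻¹) := by
      rw [mul_inv_rev, h.inv_eq ht, mul_inv_rev, mul_inv_rev, inv_inv, h.inv_eq ht]
      simp only [mul_assoc]
    rw [e]
    calc c * s * c⁻¹ * t * (t * (c * t * c⁻¹)) = c * s * c⁻¹ * ((t * t) * (c * t * c⁻¹)) := by
          simp only [mul_assoc]
      _ = c * (s * t) * c⁻¹ := by rw [h.inv t ht, one_mul]; group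
  rwa [h6] at h5

private theorem L1K_nr {T : Set G} (h : IT T) {B : Subgroup G} {t : G}
    (ht : t ∈ T) (hn : t ∈ Nr B) : Subgroup.centralizer (B : Set G) ≤ Nr (L1K T B t) := by
  intro c hc
  refine L1_nr_of (L1K_conj_cen h ht hn hc) ?_
  have h1 := L1K_conj_cen h ht hn (Subgroup.inv_mem _ hc)
  simpa only [inv_inv] using h1

/-- finite suprema -/
private theorem L1_sup {C : Subgroup G} {ι : Type*} (s : Finset ι) (K : ι → Subgroup G)
    (h1 : ∀ i ∈ s, LF (K i)) (h2 : ∀ i ∈ s, K i ≤ C) (h3 : ∀ i ∈ s, C ≤ Nr (K i)) :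
    LF (s.sup K) ∧ s.sup K ≤ C ∧ C ≤ Nr (s.sup K) := by
  classical
  induction s using Finset.induction_on with
  | empty =>
    refine ⟨?_, ?_, ?_⟩
    · rw [Finset.sup_empty]
      apply LF_of_finite
      rw [Subgroup.coe_bot]
      exact Set.finite_singleton 1
    · rw [Finset.sup_empty]; exact bot_le
    · rw [Finset.sup_empty]
      intro c _
      rw [mem_Nr]
      intro x
      rw [Subgroup.mem_bot, Subgroup.mem_bot]
      constructor
      · rintro rfl; group
      · intro hx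
        have : x = c⁻¹ * (c * x * c⁻¹) * c := by group
        rw [this, hx]; group
  | insert i s hi ih =>
    obtain ⟨h4, h5, h6⟩ := ih (fun j hj => h1 j (Finset.mem_insert_of_mem hj))
      (fun j hj => h2 j (Finset.mem_insert_of_mem hj))
      (fun j hj => h3 j (Finset.mem_insert_of_mem hj))
    have i1 := h1 i (Finset.mem_insert_self i s)
    have i2 := h2 i (Finset.mem_insert_self i s)
    have i3 := h3 i (Finset.mem_insert_self i s)
    rw [Finset.sup_insert]
    refine ⟨LF.sup i1 h4 (h5.trans i3), sup_le i2 h5, fun c hc => ?_⟩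
    have key : ∀ c ∈ C, ∀ x ∈ K i ⊔ s.sup K, c * x * c⁻¹ ∈ K i ⊔ s.sup K := by
      intro c hc
      have h7 : K i ⊔ s.sup K ≤ (K i ⊔ s.sup K).comap (MulAut.conj c).toMonoidHom := by
        rw [sup_le_iff]
        constructor
        · intro x hx
          exact (le_sup_left : K i ≤ _) ((mem_Nr.1 (i3 hc) x).1 hx)
        · intro x hx
          exact (le_sup_right : s.sup K ≤ _) ((mem_Nr.1 (h6 hc) x).1 hx)
      intro x hx
      exact h7 hx
    refine L1_nr_of (key c hc) ?_
    have h8 := key _ (Subgroup.inv_mem _ hc)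
    simpa only [inv_inv] using h8

/-- the subgroup `K` -/
private def L1KK (T : Set G) (A B : Subgroup G) (t : G) : Subgroup G :=
  Subgroup.closure {x | ∃ t', (t' ∈ Scl T A t ∧ t' ∈ Nr B) ∧ ∃ s ∈ Scl T B t', x = s * t'}

/-- equal action gives equal classes -/
private theorem L1_cls_eq {T : Set G} {B : Subgroup G} {t t' : G}
    (h : ∀ b ∈ B, t * b * t = t' * b * t') : Scl T B t = Scl T B t' := by
  ext s
  constructor
  · rintro ⟨h1, h2⟩
    exact ⟨h1, fun b hb => (h2 b hb).trans (h b hb)⟩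
  · rintro ⟨h1, h2⟩
    exact ⟨h1, fun b hb => (h2 b hb).trans (h b hb).symm⟩

/-- finitely many representatives -/
private theorem L1_reps {T : Set G} {B : Subgroup G} (h : IT T) (hB : (B : Set G).Finite)
    (S : Set G) (hS : ∀ s ∈ S, s ∈ T ∧ s ∈ Nr B) :
    ∃ R : Finset G, (∀ r ∈ R, r ∈ S) ∧ ∀ s ∈ S, ∃ r ∈ R, s ∈ Scl T B r := by
  classical
  haveI : Finite B := hB
  let act : S → (B → B) := fun s b =>
    ⟨s.1 * b.1 * s.1, L1_conj_mem (h.inv _ (hS s.1 s.2).1) (hS s.1 s.2).2 b.2⟩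
  haveI : Finite (Set.range act) := Finite.of_injective (fun x => x.1) Subtype.val_injective
  have hch : ∀ f : Set.range act, ∃ s : S, act s = f.1 := fun f => f.2
  choose g hg using hch
  haveI := Fintype.ofFinite (Set.range act)
  refine ⟨Finset.univ.image (fun f => (g f).1), ?_, ?_⟩
  · intro r hr
    rw [Finset.mem_image] at hr
    obtain ⟨f, _, rfl⟩ := hr
    exact (g f).2
  · intro s hs
    let f : Set.range act := ⟨act ⟨s, hs⟩, ⟨_, rfl⟩⟩
    refine ⟨(g f).1, Finset.mem_image_of_mem _ (Finset.mem_univ f), (hS s hs).1, ?_⟩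
    intro b hb
    have h1 : act (g f) = act ⟨s, hs⟩ := hg f
    have h2 := congrFun h1 ⟨b, hb⟩
    have h3 := congrArg Subtype.val h2
    exact h3.symm

theorem L1 {T : Set G} (h : IT T) {A B : Subgroup G} {t : G} (ht : t ∈ T) (hn : t ∈ Nr A)
    (hAB : A ≤ B) (hB : (B : Set G).Finite)
    (hl : ∀ t' ∈ Scl T A t, t' ∈ Nr B → LF (Subgroup.closure (Scl T B t'))) :
    LF (Subgroup.closure {s | s ∈ Scl T A t ∧ s ∈ Nr B}) := by
  classical
  set S : Set G := {s | s ∈ Scl T A t ∧ s ∈ Nr B} with hSdef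
  have hST : ∀ s ∈ S, s ∈ T ∧ s ∈ Nr B := fun s hs => ⟨hs.1.1, hs.2⟩
  obtain ⟨R, hR, hR'⟩ := L1_reps h hB S hST
  set K : Subgroup G := R.sup (L1K T B) with hK
  obtain ⟨hKLF, _, _⟩ := L1_sup (C := Subgroup.centralizer (B : Set G)) R (L1K T B)
    (fun r hr => (hl r (hR r hr).1 (hR r hr).2).mono (L1K_le (hST r (hR r hr)).1))
    (fun r hr => L1K_cen h (hST r (hR r hr)).1)
    (fun r hr => L1K_nr h (hST r (hR r hr)).1 (hST r (hR r hr)).2)
  rw [← hK] at hKLF
  have hKle : ∀ r ∈ R, L1K T B r ≤ K := fun r hr => Finset.le_sup (f := L1K T B) hr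
  -- products of two elements of the same class are in K
  have hprod : ∀ s ∈ S, ∀ s' ∈ S, s ∈ Scl T B s' → s * s' ∈ K := by
    intro s hs s' hs' hss'
    obtain ⟨r, hr, hr'⟩ := hR' s' hs'
    have h1 : s' * r ∈ K := hKle r hr (Subgroup.subset_closure ⟨s', hr', rfl⟩)
    have h2 : s ∈ Scl T B r := ⟨hss'.1, fun b hb => (hss'.2 b hb).trans (hr'.2 b hb)⟩
    have h3 : s * r ∈ K := hKle r hr (Subgroup.subset_closure ⟨s, h2, rfl⟩)
    have h4 := Subgroup.mul_mem _ h3 (Subgroup.inv_mem _ h1)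
    have h5 : s * r * (s' * r)⁻¹ = s * s' := by
      rw [mul_inv_rev, h.inv_eq (hST s' hs').1, h.inv_eq (hST r (hR r hr)).1]
      calc s * r * (r * s') = s * ((r * r) * s') := by simp only [mul_assoc]
        _ = s * s' := by rw [h.inv r (hST r (hR r hr)).1, one_mul]
    rwa [h5] at h4
  -- the class of an element of S consists of elements of S
  have hcls : ∀ s ∈ S, ∀ u ∈ Scl T B s, u ∈ S := by
    intro s hs u hu
    refine ⟨⟨hu.1, fun a ha => ?_⟩, Scl_nr h (hST s hs).1 hs.2 hu⟩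
    exact (hu.2 a (hAB ha)).trans (hs.1.2 a ha)
  -- S is closed under conjugation
  have hSc : ∀ s ∈ S, ∀ u ∈ S, s * u * s ∈ S := by
    intro s hs u hu
    refine ⟨Scl_conj h ht hn hu.1 hs.1, ?_⟩
    have h1 := Subgroup.mul_mem _ (Subgroup.mul_mem _ hs.2 hu.2) hs.2
    exact h1
  -- K is normalised by S
  have hKn1 : ∀ s ∈ S, ∀ x ∈ K, s * x * s⁻¹ ∈ K := by
    intro s hs
    have h1 : K ≤ K.comap (MulAut.conj s).toMonoidHom := by
      rw [hK]
      rw [Finset.sup_le_iff]
      intro r hr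
      rw [← hK]
      unfold L1K
      rw [Subgroup.closure_le]
      rintro _ ⟨u, hu, rfl⟩
      change s * (u * r) * s⁻¹ ∈ K
      have hrS := hR r hr
      have huS := hcls r hrS u hu
      have h2 := hprod _ (hSc s hs u huS) _ (hSc s hs r hrS) (L1_cls h hu (hST s hs).1 hs.2)
      have h3 : s * u * s * (s * r * s) = s * (u * r) * s⁻¹ := by
        rw [h.inv_eq (hST s hs).1]
        calc s * u * s * (s * r * s) = s * u * ((s * s) * (r * s)) := by simp only [mul_assoc]
          _ = s * (u * r) * s := by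
            rw [h.inv s (hST s hs).1, one_mul]; simp only [mul_assoc]
      rwa [h3] at h2
    intro x hx
    exact h1 hx
  have hKn : ∀ s ∈ S, s ∈ Nr K := by
    intro s hs
    refine L1_nr_of (hKn1 s hs) ?_
    have h1 := hKn1 s hs
    rw [h.inv_eq (hST s hs).1] at h1 ⊢
    exact h1
  -- the quotient
  set N : Subgroup G := Nr K with hN
  haveI hnorm : (K.subgroupOf N).Normal := Subgroup.normal_in_normalizer
  let f : N →* N ⧸ K.subgroupOf N := QuotientGroup.mk' (K.subgroupOf N)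
  let S' : Set N := {x | x.1 ∈ S}
  have hS' : N.subtype '' S' = S := by
    ext x
    constructor
    · rintro ⟨y, hy, rfl⟩
      exact hy
    · intro hx
      exact ⟨⟨x, hKn x hx⟩, hx, rfl⟩
  have hcl : Subgroup.closure S = (Subgroup.closure S').map N.subtype := by
    rw [MonoidHom.map_closure, hS']
  rw [hcl]
  apply LF.map
  have hfin : (f '' S').Finite := by
    have h1 : f '' S' ⊆ (fun x : G => if hx : x ∈ N then f ⟨x, hx⟩ else 1) '' (R : Set G) := by
      rintro _ ⟨x, hx, rfl⟩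
      obtain ⟨r, hr, hr'⟩ := hR' x.1 hx
      refine ⟨r, hr, ?_⟩
      have hrN : r ∈ N := hKn r (hR r hr)
      simp only [hrN, dif_pos]
      rw [QuotientGroup.mk'_apply, QuotientGroup.mk'_apply, QuotientGroup.eq]
      rw [Subgroup.mem_subgroupOf]
      have h2 := hprod x.1 hx r (hR r hr) hr'
      have h3 := Subgroup.inv_mem _ h2
      have h4 : ((⟨r, hrN⟩ : N)⁻¹ * x : N).1 = (x.1 * r)⁻¹ := by
        rw [mul_inv_rev, h.inv_eq (hST x.1 hx).1]
        rfl
      rw [h4]
      exact h3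
    exact (R.finite_toSet.image _).subset h1
  have hd : ((Subgroup.closure (f '' S') : Subgroup (N ⧸ K.subgroupOf N)) :
      Set (N ⧸ K.subgroupOf N)).Finite := by
    apply dietzmann hfin
    · rintro _ ⟨u, hu, rfl⟩ _ ⟨v, hv, rfl⟩
      refine ⟨v⁻¹ * u * v, ?_, by rw [map_mul, map_mul, map_inv]⟩
      change (v.1⁻¹ * u.1 * v.1) ∈ S
      rw [h.inv_eq (hST v.1 hv).1]
      exact hSc _ hv _ hu
    · rintro _ ⟨u, hu, rfl⟩
      rw [← map_mul]
      have h1 : u * u = 1 := Subtype.ext (h.inv u.1 (hST u.1 hu).1)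
      rw [h1, map_one]
  apply LF.of_map f
  · rw [MonoidHom.map_closure]
    exact LF_of_finite hd
  · have h1 : Subgroup.closure S' ⊓ f.ker ≤ K.subgroupOf N := by
      rw [QuotientGroup.ker_mk']
      exact inf_le_right
    refine LF.mono ?_ h1
    have h2 : LF ((K.subgroupOf N).map N.subtype) :=
      hKLF.mono (by
        rw [Subgroup.subgroupOf_map_subtype]
        exact inf_le_left)
    -- pull back along the injection
    intro s hs hsK
    have h3 : (N.subtype '' (Subgroup.closure s : Subgroup N)).Finite := by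
      have h4 := h2 (N.subtype '' s) (hs.image _) (by
        rintro _ ⟨x, hx, rfl⟩
        exact ⟨x, hsK hx, rfl⟩)
      rw [← MonoidHom.map_closure, Subgroup.coe_map] at h4
      exact h4
    exact h3.of_finite_image N.subtype_injective.injOn

end Pool.Agent.Helper59.EI
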