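import Pool.Agent.Helper59.EI.Defs

/-!
# EI-1. Locally finite subgroups
-/

set_option autoImplicit false

namespace Pool.Agent.Helper59.EI

universe u v

variable {G : Type u} [Group G] {p : ℕ}

/-- extension lemma, coset version -/
theorem LF_of_cosets {A H : Subgroup G} (hA : LF A)
    (hc : ∀ s : Set G, s.Finite → s ⊆ H → ∃ c : Set G, c.Finite ∧
      ∀ x ∈ Subgroup.closure s, ∃ y ∈ c, y⁻¹ * x ∈ A) : LF H := by
  intro s hs hsH
  obtain ⟨c, hcf, hc⟩ := hc s hs hsH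
  set F := Subgroup.closure s with hF
  have hfin : Finite (F ⧸ A.subgroupOf F) := by
    have : Finite c := hcf
    choose y hy hy2 using hc
    refine Finite.of_injective
      (fun q : F ⧸ A.subgroupOf F => (⟨y q.out q.out.2, hy _ _⟩ : c)) ?_
    intro q1 q2 h12
    have h1 := hy2 q1.out q1.out.2
    have h2 := hy2 q2.out q2.out.2
    have h3 : y q1.out q1.out.2 = y q2.out q2.out.2 := congrArg Subtype.val h12
    rw [← QuotientGroup.out_eq' q1, ← QuotientGroup.out_eq' q2, QuotientGroup.eq,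
      Subgroup.mem_subgroupOf]
    have h4 := mul_mem (inv_mem h1) h2
    rw [h3] at h4
    convert h4 using 1
    simp only [Subgroup.coe_mul, Subgroup.coe_inv]
    group
  have : (A.subgroupOf F).FiniteIndex := Subgroup.finiteIndex_of_finite_quotient
  have hFG : Group.FG F := by
    rw [Group.fg_iff_subgroup_fg]
    exact ⟨hs.toFinset, by simp [hF]⟩
  have hAFG : Group.FG (A.subgroupOf F) := Subgroup.fg_of_index_ne_zero _
  have hKfin : Finite (A.subgroupOf F) := by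
    rw [Group.fg_iff_subgroup_fg] at hAFG
    obtain ⟨t, ht⟩ := hAFG
    have h1 : Subgroup.closure (F.subtype '' (t : Set F)) = (A.subgroupOf F).map F.subtype := by
      rw [← MonoidHom.map_closure, ht]
    have h2 : (F.subtype '' (t : Set F)) ⊆ A := by
      rintro _ ⟨z, hz, rfl⟩
      have : z ∈ A.subgroupOf F := ht ▸ Subgroup.subset_closure hz
      exact this
    have h3 := hA _ (t.finite_toSet.image _) h2
    rw [h1, Subgroup.coe_map] at h3
    exact (h3.of_finite_image (Subtype.val_injective.injOn))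
  have hcard : Nat.card F ≠ 0 := by
    rw [← Subgroup.card_mul_index (A.subgroupOf F)]
    exact mul_ne_zero Nat.card_pos.ne' Subgroup.FiniteIndex.index_ne_zero
  have : Finite F := Nat.finite_of_card_ne_zero hcard
  exact Set.toFinite _

theorem lfaux_mono {A B : Subgroup G} (h : LF B) (hAB : A ≤ B) : LF A :=
  fun s hs hsA => h s hs (hsA.trans hAB)

theorem lfaux_bot : LF (⊥ : Subgroup G) := by
  intro s _ hs
  have h1 : Subgroup.closure s ≤ ⊥ := (Subgroup.closure_le _).2 hs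
  refine Set.Finite.subset (Set.finite_singleton (1 : G)) fun x hx => ?_
  exact Subgroup.mem_bot.1 (h1 hx)

theorem LF.map {G' : Type v} [Group G'] (f : G →* G') {H : Subgroup G} (h : LF H) :
    LF (H.map f) := by
  intro s hs hsH
  obtain ⟨t, htH, htf, hts⟩ := (Set.exists_subset_image_finite_and (f := f) (s := (H : Set G))
    (p := fun z => z = s)).1 ⟨s, hsH, hs, rfl⟩
  have h1 := (h t htf htH).image f
  rw [← hts, ← MonoidHom.map_closure]
  exact h1

theorem LF.of_map {G' : Type v} [Group G'] (f : G →* G') {H : Subgroup G} (h1 : LF (H.map f))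
    (h2 : LF (H ⊓ f.ker)) : LF H := by
  refine LF_of_cosets h2 fun s hs hsH => ?_
  have hcl : Subgroup.closure s ≤ H := (Subgroup.closure_le _).2 hsH
  have h3 := h1 (f '' s) (hs.image f) (Set.image_mono hsH)
  rw [← MonoidHom.map_closure, Subgroup.coe_map] at h3
  obtain ⟨c, hc1, hc2, hc3⟩ := (Set.exists_subset_image_finite_and (f := f)
    (s := (Subgroup.closure s : Set G))
    (p := fun z => z = f '' (Subgroup.closure s : Set G))).1 ⟨_, subset_rfl, h3, rfl⟩
  refine ⟨c, hc2, fun x hx => ?_⟩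
  have h4 : f x ∈ f '' c := hc3 ▸ ⟨x, hx, rfl⟩
  obtain ⟨y, hy, hyx⟩ := h4
  have h5 : y ∈ H := hcl (hc1 hy)
  refine ⟨y, hy, Subgroup.mem_inf.2 ⟨mul_mem (inv_mem h5) (hcl hx), MonoidHom.mem_ker.2 ?_⟩⟩
  rw [map_mul, map_inv, hyx, inv_mul_cancel]

theorem lfaux_mul {A B : Subgroup G} (h : B ≤ Nr A) {x : G} (hx : x ∈ A ⊔ B) :
    ∃ a ∈ A, ∃ b ∈ B, a * b = x := by
  have h1 : x ∈ ((A ⊔ B : Subgroup G) : Set G) := hx
  rw [Subgroup.coe_mul_of_right_le_normalizer_left A B h] at h1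
  obtain ⟨a, ha, b, hb, rfl⟩ := h1
  exact ⟨a, ha, b, hb, rfl⟩

theorem lfaux_conj {A : Subgroup G} {a b : G} (ha : a ∈ A) (hb : b ∈ Nr A) :
    b * a * b⁻¹ ∈ A := (Subgroup.mem_normalizer_iff.1 hb a).1 ha

theorem LF.sup {A B : Subgroup G} (hA : LF A) (hB : LF B) (h : B ≤ Nr A) : LF (A ⊔ B) := by
  refine LF_of_cosets hA fun s hs hsH => ?_
  have h1 : ∀ x : s, ∃ b ∈ B, ∃ a ∈ A, a * b = x := fun x => by
    obtain ⟨a, ha, b, hb, hab⟩ := lfaux_mul h (hsH x.2)
    exact ⟨b, hb, a, ha, hab⟩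
  choose b hb a ha hab using h1
  have hsf : Finite s := hs
  have h2 : Set.range b ⊆ B := by rintro _ ⟨x, rfl⟩; exact hb x
  have h3 := hB _ (Set.finite_range b) h2
  refine ⟨_, h3, fun x hx => ?_⟩
  have h4 : Subgroup.closure (Set.range b) ≤ B := (Subgroup.closure_le _).2 h2
  have h5 : Subgroup.closure s ≤ A ⊔ Subgroup.closure (Set.range b) := by
    rw [Subgroup.closure_le]
    intro z hz
    have := hab ⟨z, hz⟩
    rw [SetLike.mem_coe, show z = a ⟨z, hz⟩ * b ⟨z, hz⟩ from this.symm]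
    exact mul_mem (Subgroup.mem_sup_left (ha _))
      (Subgroup.mem_sup_right (Subgroup.subset_closure ⟨_, rfl⟩))
  obtain ⟨a', ha', b', hb', rfl⟩ := lfaux_mul (h4.trans h) (h5 hx)
  refine ⟨b', hb', ?_⟩
  have := lfaux_conj ha' (inv_mem (h (h4 hb')))
  rw [inv_inv, mul_assoc] at this
  exact this

theorem LF.of_relIndex {A H : Subgroup G} (hA : LF A) (h : A.relIndex H ≠ 0) : LF H := by
  refine LF_of_cosets hA fun s hs hsH => ?_
  have hcl : Subgroup.closure s ≤ H := (Subgroup.closure_le _).2 hsH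
  have : (A.subgroupOf H).FiniteIndex := ⟨h⟩
  have : Finite (H ⧸ A.subgroupOf H) := Subgroup.finite_quotient_of_finiteIndex
  refine ⟨Set.range fun q : H ⧸ A.subgroupOf H => (q.out : G), Set.finite_range _,
    fun x hx => ?_⟩
  refine ⟨_, ⟨((⟨x, hcl hx⟩ : H) : H ⧸ A.subgroupOf H), rfl⟩, ?_⟩
  have h1 : ((((⟨x, hcl hx⟩ : H) : H ⧸ A.subgroupOf H).out : H) : H ⧸ A.subgroupOf H) =
      ((⟨x, hcl hx⟩ : H) : H ⧸ A.subgroupOf H) := QuotientGroup.out_eq' _
  rw [QuotientGroup.eq, Subgroup.mem_subgroupOf] at h1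
  exact h1

theorem lfaux_sSup {F : Set (Subgroup G)} (hne : F.Nonempty)
    (hd : DirectedOn (· ≤ ·) F) {s : Set G} (hs : s.Finite) (hsF : s ⊆ (sSup F : Subgroup G)) :
    ∃ H ∈ F, s ⊆ H := by
  induction s, hs using Set.Finite.induction_on with
  | empty =>
    obtain ⟨H, hH⟩ := hne
    exact ⟨H, hH, Set.empty_subset _⟩
  | @insert a s ha hs ih =>
    obtain ⟨H, hH, h1⟩ := ih ((Set.subset_insert _ _).trans hsF)
    obtain ⟨K, hK, h2⟩ := (Subgroup.mem_sSup_of_directedOn hne hd).1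
      (hsF (Set.mem_insert _ _))
    obtain ⟨L, hL, h3, h4⟩ := hd H hH K hK
    refine ⟨L, hL, Set.insert_subset (h4 h2) (h1.trans h3)⟩

theorem LF.sSupD {F : Set (Subgroup G)} (hne : F.Nonempty) (hd : DirectedOn (· ≤ ·) F)
    (h : ∀ H ∈ F, LF H) : LF (sSup F) := by
  intro s hs hsF
  obtain ⟨H, hH, h1⟩ := lfaux_sSup hne hd hs hsF
  exact h H hH s hs h1

/-- subgroup viewed as a group -/
theorem LF_top_iff {H : Subgroup G} : LF (⊤ : Subgroup H) ↔ LF H := by
  have h1 : (⊤ : Subgroup H).map H.subtype = H := by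
    rw [← MonoidHom.range_eq_map, Subgroup.range_subtype]
  constructor
  · intro h
    have := h.map H.subtype
    rwa [h1] at this
  · intro h
    refine LF.of_map H.subtype (h1.symm ▸ h) ?_
    rw [Subgroup.ker_subtype, inf_bot_eq]
    exact lfaux_bot

theorem lfaux_pelmap {G' : Type v} [Group G'] (f : G →* G') {x : G} (h : PEl p x) : PEl p (f x) := by
  obtain ⟨k, hk⟩ := h
  exact ⟨k, by rw [← map_pow, hk, map_one]⟩

theorem lfaux_pow {x : G} {k : ℕ} (h : PEl p (x ^ p ^ k)) : PEl p x := by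
  obtain ⟨l, hl⟩ := h
  exact ⟨k + l, by rw [pow_add, pow_mul, hl]⟩

theorem LP.map {G' : Type v} [Group G'] (f : G →* G') {H : Subgroup G} (h : LP p H) :
    LP p (H.map f) := by
  refine ⟨h.1.map f, ?_⟩
  rintro _ ⟨x, hx, rfl⟩
  exact lfaux_pelmap f (h.2 x hx)

theorem LP.of_map {G' : Type v} [Group G'] (f : G →* G') {H : Subgroup G} (h1 : LP p (H.map f))
    (h2 : LP p (H ⊓ f.ker)) : LP p H := by
  refine ⟨h1.1.of_map f h2.1, fun x hx => ?_⟩
  obtain ⟨k, hk⟩ := h1.2 (f x) ⟨x, hx, rfl⟩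
  refine lfaux_pow (k := k) (h2.2 _ (Subgroup.mem_inf.2 ⟨pow_mem hx _,
    MonoidHom.mem_ker.2 ?_⟩))
  rw [map_pow, hk]

theorem LP.sup {A B : Subgroup G} (hA : LP p A) (hB : LP p B) (h : B ≤ Nr A) :
    LP p (A ⊔ B) := by
  refine ⟨hA.1.sup hB.1 h, fun x hx => ?_⟩
  obtain ⟨a, ha, b, hb, rfl⟩ := lfaux_mul h hx
  have h1 : ∀ n : ℕ, ∃ a' ∈ A, (a * b) ^ n = a' * b ^ n := by
    intro n
    induction n with
    | zero => exact ⟨1, one_mem _, by simp⟩
    | succ n ih =>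
      obtain ⟨a', ha', he⟩ := ih
      refine ⟨a' * (b ^ n * a * (b ^ n)⁻¹),
        mul_mem ha' (lfaux_conj ha (pow_mem (h hb) n)), ?_⟩
      rw [pow_succ, he, pow_succ]
      group
  obtain ⟨k, hk⟩ := hB.2 b hb
  obtain ⟨a', ha', he⟩ := h1 (p ^ k)
  rw [hk, mul_one] at he
  exact lfaux_pow (k := k) (he ▸ hA.2 a' ha')

theorem LP.sSupD {F : Set (Subgroup G)} (hne : F.Nonempty) (hd : DirectedOn (· ≤ ·) F)
    (h : ∀ H ∈ F, LP p H) : LP p (sSup F) := by
  refine ⟨LF.sSupD hne hd fun H hH => (h H hH).1, fun x hx => ?_⟩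
  obtain ⟨H, hH, h1⟩ := (Subgroup.mem_sSup_of_directedOn hne hd).1 hx
  exact (h H hH).2 x h1

theorem LP_top_iff {H : Subgroup G} : LP p (⊤ : Subgroup H) ↔ LP p H := by
  unfold LP
  rw [LF_top_iff]
  refine and_congr_right fun _ => ⟨fun h x hx => ?_, fun h x _ => ?_⟩
  · exact lfaux_pelmap H.subtype (h ⟨x, hx⟩ (Subgroup.mem_top _))
  · obtain ⟨k, hk⟩ := h x x.2
    exact ⟨k, Subtype.ext hk⟩

end Pool.Agent.Helper59.EI
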