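import Pool.Agent.Helper59.EI.MaxM

/-!
# EI-22. Lemma C and the subgroups `MM T a`
-/

set_option autoImplicit false

namespace Pool.Agent.Helper59.EI

universe u

variable {G : Type u} [Group G]

/-- one half of Lemma C -/
private theorem lemC_aux {T : Set G} (h : Core G T) {M M' : Subgroup G} (hM : IsM T M)
    (hM' : IsM T M') (hinf : ((Subgroup.closure (T ∩ ((M ⊓ M' : Subgroup G) : Set G)) :
      Subgroup G) : Set G).Infinite) :
    Subgroup.closure (T ∩ ((M ⊓ M' : Subgroup G) : Set G)) = M := by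
  have := h.cnt
  set R0 : Subgroup G := Subgroup.closure (T ∩ ((M ⊓ M' : Subgroup G) : Set G)) with hR0
  have hR0M : R0 ≤ M := by
    rw [hR0, Subgroup.closure_le]
    exact fun x hx => hx.2.1
  have hR0M' : R0 ≤ M' := by
    rw [hR0, Subgroup.closure_le]
    exact fun x hx => hx.2.2
  have hTG : TG T R0 := TG_closure Set.inter_subset_left
  have hlpM := h.lp hM
  have hlpM' := h.lp hM'
  have hlpR : LP 2 R0 := hlpM.mono hR0M
  have hinfM : (M : Set G).Infinite := hinf.mono hR0M
  have hinfM' : (M' : Set G).Infinite := hinf.mono hR0M'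
  have hQ : Dv 2 (dv 2 R0) := hlpR.dv_Dv h.thin
  have hQne : dv 2 R0 ≠ ⊥ := hlpR.dv_ne_bot h.thin hinf
  have hQM : dv 2 R0 ≤ dv 2 M := dv_mono hR0M
  have hQM' : dv 2 R0 ≤ dv 2 M' := dv_mono hR0M'
  have hkey : ∀ t ∈ T, t ∈ Nr (dv 2 R0) → t ∈ R0 := by
    intro t ht hn
    have h1 : t ∈ M := h.lemB hM hinfM hQ hQne
      (fun x hx y hy => (hlpM.dv_Dv h.thin).comm x hx y (hQM hy)) ht hn
    have h2 : t ∈ M' := h.lemB hM' hinfM' hQ hQne
      (fun x hx y hy => (hlpM'.dv_Dv h.thin).comm x hx y (hQM' hy)) ht hn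
    exact Subgroup.subset_closure ⟨ht, h1, h2⟩
  by_contra hne
  obtain ⟨t, ht, -, htn, htR⟩ := Cher.tnc hlpM (hlpM.cher h.thin) (T := T)
    (fun t ht g _ => h.conj t ht g) hM.tg hTG hR0M hne
  exact htR (hkey t ht (dv_nr htn))

/-- Lemma C -/
theorem Core.lemC {T : Set G} (h : Core G T) {M M' R : Subgroup G} (hM : IsM T M)
    (hM' : IsM T M') (hR : TG T R) (hinf : (R : Set G).Infinite) (h1 : R ≤ M) (h2 : R ≤ M') :
    M = M' := by
  have hle : ∀ N N' : Subgroup G, R ≤ N → R ≤ N' →
      R ≤ Subgroup.closure (T ∩ ((N ⊓ N' : Subgroup G) : Set G)) := by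
    intro N N' hN hN'
    have h3 : Subgroup.closure (T ∩ (R : Set G)) = R := hR
    conv_lhs => rw [← h3]
    apply Subgroup.closure_mono
    rintro x ⟨hx1, hx2⟩
    exact ⟨hx1, hN hx2, hN' hx2⟩
  have e1 := lemC_aux h hM hM' (hinf.mono (hle M M' h1 h2))
  have e2 := lemC_aux h hM' hM (hinf.mono (hle M' M h2 h1))
  rw [inf_comm] at e2
  exact e1.symm.trans e2

open Classical in
/-- the maximal locally finite `T`-subgroup containing `KK T a` -/
noncomputable def MM (T : Set G) (a : G) : Subgroup G :=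
  if h : ∃ M, IsM T M ∧ KK T a ≤ M then h.choose else ⊥

private theorem TC_sub (T : Set G) (a : G) : TC T a ⊆ T := fun _ hx => hx.1

private theorem MM_spec {T : Set G} (h : Core G T) {a : G} (ha : a ∈ T) :
    IsM T (MM T a) ∧ KK T a ≤ MM T a := by
  classical
  have hex : ∃ M, IsM T M ∧ KK T a ≤ M :=
    exists_IsM (R := KK T a) (TG_closure (TC_sub T a)) (h.g2 a ha)
  unfold MM
  rw [dif_pos hex]
  exact hex.choose_spec

theorem Core.MM_isM {T : Set G} (h : Core G T) {a : G} (ha : a ∈ T) : IsM T (MM T a) :=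
  (MM_spec h ha).1

theorem Core.KK_le {T : Set G} (h : Core G T) {a : G} (ha : a ∈ T) : KK T a ≤ MM T a :=
  (MM_spec h ha).2

theorem Core.MM_inf {T : Set G} (h : Core G T) {a : G} (ha : a ∈ T) :
    (MM T a : Set G).Infinite :=
  (h.KK_inf ha).mono (h.KK_le ha)

theorem Core.mem_MM {T : Set G} (h : Core G T) {a : G} (ha : a ∈ T) : a ∈ MM T a :=
  h.KK_le ha (Subgroup.subset_closure ⟨ha, rfl⟩)

theorem Core.MM_unique {T : Set G} (h : Core G T) {a : G} (ha : a ∈ T) {M : Subgroup G}
    (hM : IsM T M) (hK : KK T a ≤ M) : M = MM T a :=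
  h.lemC hM (h.MM_isM ha) (R := KK T a) (TG_closure (TC_sub T a)) (h.KK_inf ha) hK (h.KK_le ha)

private theorem TG_comap {T : Set G} (e : G ≃* G) (hT : ∀ t, e t ∈ T ↔ t ∈ T) {M : Subgroup G}
    (hM : TG T M) : TG T (M.comap e.toMonoidHom) := by
  unfold TG at hM ⊢
  apply le_antisymm
  · rw [Subgroup.closure_le]
    exact fun x hx => hx.2
  · intro x hx
    have h1 : e x ∈ Subgroup.closure (T ∩ (M : Set G)) := by
      rw [hM]
      exact hx
    have h2 : Subgroup.closure (T ∩ (M : Set G)) ≤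
        (Subgroup.closure (T ∩ ((M.comap e.toMonoidHom : Subgroup G) : Set G))).comap
          e.symm.toMonoidHom := by
      rw [Subgroup.closure_le]
      rintro y ⟨hy1, hy2⟩
      apply Subgroup.subset_closure
      refine ⟨?_, ?_⟩
      · show e.symm y ∈ T
        rw [← hT, e.apply_symm_apply]
        exact hy1
      · show e (e.symm y) ∈ M
        rw [e.apply_symm_apply]
        exact hy2
    have h3 := h2 h1
    have h4 : e.symm (e x) ∈ Subgroup.closure (T ∩ ((M.comap e.toMonoidHom : Subgroup G) : Set G)) :=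
      h3
    rwa [e.symm_apply_apply] at h4

private theorem LF_comap (e : G ≃* G) {M : Subgroup G} (hM : LF M) :
    LF (M.comap e.toMonoidHom) := by
  intro s hs hsM
  have h1 := hM (e '' s) (hs.image _) (by
    rintro _ ⟨x, hx, rfl⟩
    exact hsM hx)
  have h2 : (Subgroup.closure s).map e.toMonoidHom = Subgroup.closure (e '' s) :=
    MonoidHom.map_closure e.toMonoidHom s
  rw [← h2, Subgroup.coe_map] at h1
  exact h1.of_finite_image e.injective.injOn

private theorem IsM_comap {T : Set G} (e : G ≃* G) (hT : ∀ t, e t ∈ T ↔ t ∈ T) {M : Subgroup G}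
    (hM : IsM T M) : IsM T (M.comap e.toMonoidHom) where
  tg := TG_comap e hT hM.tg
  lf := LF_comap e hM.lf
  max := by
    intro M' h1 h2 h3
    have hT' : ∀ t, e.symm t ∈ T ↔ t ∈ T := by
      intro t
      rw [← hT, e.apply_symm_apply]
    have h4 := hM.max (M'.comap e.symm.toMonoidHom) (TG_comap e.symm hT' h1) (LF_comap e.symm h2)
      (by
        intro x hx
        apply h3
        show e (e.symm x) ∈ M
        rw [e.apply_symm_apply]
        exact hx)
    intro x hx
    show e x ∈ M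
    apply h4
    show e.symm (e x) ∈ M'
    rw [e.symm_apply_apply]
    exact hx

theorem Core.MM_conj {T : Set G} (h : Core G T) {a : G} (ha : a ∈ T) (g x : G) :
    x ∈ MM T (g⁻¹ * a * g) ↔ g * x * g⁻¹ ∈ MM T a := by
  have hT : ∀ t, MulAut.conj g t ∈ T ↔ t ∈ T := by
    intro t
    rw [MulAut.conj_apply]
    constructor
    · intro ht
      have h1 := h.conj _ ht g
      have h2 : g⁻¹ * (g * t * g⁻¹) * g = t := by group
      rwa [h2] at h1
    · intro ht
      exact h.toIT.conj' ht g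
  have h1 := IsM_comap (MulAut.conj g) hT (h.MM_isM ha)
  have h2 : KK T (g⁻¹ * a * g) ≤ (MM T a).comap (MulAut.conj g).toMonoidHom := by
    unfold KK
    rw [Subgroup.closure_le]
    rintro t ⟨ht1, ht2⟩
    show MulAut.conj g t ∈ MM T a
    apply h.KK_le ha
    apply Subgroup.subset_closure
    refine ⟨(hT t).2 ht1, ?_⟩
    rw [MulAut.conj_apply]
    calc g * t * g⁻¹ * a = g * (t * (g⁻¹ * a * g)) * g⁻¹ := by group
      _ = g * (g⁻¹ * a * g * t) * g⁻¹ := by rw [ht2]
      _ = a * (g * t * g⁻¹) := by group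
  have h3 := h.MM_unique (h.conj a ha g) h1 h2
  rw [← h3]
  rfl

/-- not all `MM T a` are equal -/
theorem Core.exists_ne {T : Set G} (h : Core G T) {a : G} (ha : a ∈ T) :
    ∃ b ∈ T, MM T b ≠ MM T a := by
  by_contra hcon
  push Not at hcon
  apply h.bad
  have h1 : (⊤ : Subgroup G) ≤ MM T a := by
    rw [← h.gen, Subgroup.closure_le]
    intro b hb
    have h2 := h.mem_MM hb
    rw [hcon b hb] at h2
    exact h2
  exact (h.MM_isM ha).lf.mono h1

end Pool.Agent.Helper59.EI
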