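import Pool.Agent.Helper59.EI.LemC

/-!
# EI-23. Lemmas D and E
-/

set_option autoImplicit false

namespace Pool.Agent.Helper59.EI

universe u

variable {G : Type u} [Group G]

theorem lemDE_nr {Q : Subgroup G} {g : G} (h : ∀ x ∈ Q, g * x = x * g) : g ∈ Nr Q := by
  rw [mem_Nr]
  intro x
  constructor
  · intro hx
    rw [h x hx]
    simpa using hx
  · intro hx
    have h1 := h _ hx
    have h2 : g * x * g⁻¹ = x := by
      have h3 : g * (g * x * g⁻¹) = g * x := by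
        rw [h1]
        group
      exact mul_left_cancel h3
    rwa [h2] at hx

theorem lemDE_comm {T : Set G} (hT : IT T) {P Q : Subgroup G} (hP : Dv 2 P)
    (hc : ∀ x ∈ P, ∀ y ∈ Q, x * y = y * x) (hfin : (TN T Q).Finite) :
    ∀ x ∈ P, ∀ t ∈ TN T Q, x * t = t * x := by
  refine hP.comm_of_finite hfin fun x hx t ht => ⟨hT.conj' ht.1 x, ?_⟩
  have hxN : x ∈ Nr Q := lemDE_nr (hc x hx)
  exact mul_mem (mul_mem hxN ht.2) (inv_mem hxN)

theorem lemDE_TN {T : Set G} (Q : Subgroup G) : TN T Q ⊆ T := fun _ h => h.1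

/-- Lemma D -/
theorem Core.lemD {T : Set G} (h : Core G T) {M : Subgroup G} {s : G} (hM : IsM T M)
    (hinf : (M : Set G).Infinite) (hs : s ∈ T) (hsM : s ∈ M)
    (hni : ∃ y ∈ dv 2 M, s * y * s ≠ y⁻¹) : MM T s = M := by
  have := h.cnt
  have hIT : IT T := h.toIT
  have hss : s * s = 1 := hIT.inv s hs
  have hsi : s⁻¹ = s := hIT.inv_eq hs
  have hLP : LP 2 M := h.lp hM
  have hP : Dv 2 (dv 2 M) := hLP.dv_Dv h.thin
  have hsP : ∀ y ∈ dv 2 M, s * y * s ∈ dv 2 M := by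
    intro y hy
    have h1 := (mem_Nr.1 (dv_nr (p := 2) (le_Nr M hsM)) y).1 hy
    rwa [hsi] at h1
  have hcan : ∀ a b : G, s * a * s * (s * b * s) = s * (a * b) * s := by
    intro a b
    calc s * a * s * (s * b * s) = s * a * (s * s) * b * s := by group
      _ = s * (a * b) * s := by rw [hss]; group
  let Q : Subgroup G :=
    { carrier := {x | ∃ y ∈ dv 2 M, x = y * (s * y * s)}
      one_mem' := ⟨1, one_mem _, by rw [mul_one, hss, mul_one]⟩
      mul_mem' := by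
        rintro _ _ ⟨y, hy, rfl⟩ ⟨z, hz, rfl⟩
        refine ⟨y * z, mul_mem hy hz, ?_⟩
        rw [← hcan, mul_assoc, ← mul_assoc (s * y * s) z, hP.comm _ (hsP y hy) z hz]
        simp only [mul_assoc]
      inv_mem' := by
        rintro _ ⟨y, hy, rfl⟩
        refine ⟨y⁻¹, inv_mem hy, ?_⟩
        rw [hP.comm y hy _ (hsP y hy), mul_inv_rev, mul_inv_rev, mul_inv_rev, hsi]
        simp only [mul_assoc] }
  have hQmem : ∀ x, x ∈ Q ↔ ∃ y ∈ dv 2 M, x = y * (s * y * s) := fun x => Iff.rfl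
  have hQP : Q ≤ dv 2 M := by
    rintro _ ⟨y, hy, rfl⟩
    exact mul_mem hy (hsP y hy)
  have hQ : Dv 2 Q := by
    refine ⟨fun x hx y hy => hP.comm x (hQP hx) y (hQP hy), fun x hx => hP.pel x (hQP hx), ?_⟩
    rintro _ ⟨y, hy, rfl⟩
    obtain ⟨z, hz, rfl⟩ := hP.div y hy
    refine ⟨z * (s * z * s), ⟨z, hz, rfl⟩, ?_⟩
    rw [pow_two, pow_two, ← hcan, mul_assoc, ← mul_assoc (s * z * s) z,
      hP.comm _ (hsP z hz) z hz]
    simp only [mul_assoc]
  have hQne : Q ≠ ⊥ := by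
    obtain ⟨y, hy, hyn⟩ := hni
    intro hbot
    have h1 : y * (s * y * s) ∈ Q := ⟨y, hy, rfl⟩
    rw [hbot, Subgroup.mem_bot] at h1
    exact hyn (eq_inv_of_mul_eq_one_right h1)
  have hsQ : ∀ x ∈ Q, s * x = x * s := by
    rintro _ ⟨y, hy, rfl⟩
    have h1 : s * (y * (s * y * s)) = s * y * s * y * s := by group
    rw [h1, hP.comm _ (hsP y hy) y hy]
  have hPQ : ∀ x ∈ dv 2 M, ∀ y ∈ Q, x * y = y * x := fun x hx y hy => hP.comm x hx y (hQP hy)
  have hMMis : IsM T (MM T s) := h.MM_isM hs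
  have hQN : Q ≤ Nr (MM T s) := by
    intro q hq
    rw [mem_Nr]
    intro x
    have h1 := h.MM_conj hs q x
    have h2 : q⁻¹ * s * q = s := by
      rw [mul_assoc, hsQ q hq, ← mul_assoc, inv_mul_cancel, one_mul]
    rwa [h2] at h1
  have hMLP : LP 2 (MM T s) := h.lp hMMis
  have hQc := (hMLP.sup_dv h.thin hQ hQN).2
  have hRM : Subgroup.closure (TN T Q) ≤ M := by
    rw [Subgroup.closure_le]
    exact fun t ht => h.lemB hM hinf hQ hQne hPQ ht.1 ht.2
  have hRMM : Subgroup.closure (TN T Q) ≤ MM T s := by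
    rw [Subgroup.closure_le]
    exact fun t ht => h.lemB hMMis (h.MM_inf hs) hQ hQne (fun x hx y hy => (hQc y hy x hx).symm)
      ht.1 ht.2
  have hsTN : s ∈ TN T Q := ⟨hs, lemDE_nr hsQ⟩
  by_cases hR : (Subgroup.closure (TN T Q) : Set G).Infinite
  · exact (h.lemC hM hMMis (TG_closure (lemDE_TN Q)) hR hRM hRMM).symm
  · rw [Set.not_infinite] at hR
    exfalso
    have hfin : (TN T Q).Finite := hR.subset Subgroup.subset_closure
    have hcomm := lemDE_comm hIT hP hPQ hfin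
    have hPle : dv 2 M ≤ Q := by
      intro x hx
      obtain ⟨y, hy, rfl⟩ := hP.div x hx
      refine ⟨y, hy, ?_⟩
      rw [← hcomm y hy s hsTN, mul_assoc, hss, mul_one, pow_two]
    have hQeq : Q = dv 2 M := le_antisymm hQP hPle
    apply hinf
    refine hR.subset ?_
    have h1 : M ≤ Subgroup.closure (TN T Q) := by
      have h2 : Subgroup.closure (T ∩ M) = M := hM.tg
      rw [← h2]
      refine Subgroup.closure_mono fun t ht => ⟨ht.1, ?_⟩
      rw [hQeq]
      exact dv_nr (le_Nr M ht.2)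
    exact h1

/-- Lemma E -/
theorem Core.lemE {T : Set G} (h : Core G T) {M : Subgroup G} {b : G} (hM : IsM T M)
    (hinf : (M : Set G).Infinite) (hb : b ∈ T) (hne : MM T b ≠ M) :
    {x : G | x ∈ KK T b ∧ x ∈ M}.Finite := by
  have := h.cnt
  have hIT : IT T := h.toIT
  have hbb : b * b = 1 := hIT.inv b hb
  have hLP : LP 2 M := h.lp hM
  have hP : Dv 2 (dv 2 M) := hLP.dv_Dv h.thin
  by_contra hcon
  have hXinf : ((KK T b ⊓ M : Subgroup G) : Set G).Infinite := hcon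
  have hXLP : LP 2 (KK T b ⊓ M) := hLP.mono inf_le_right
  set Q := dv 2 (KK T b ⊓ M) with hQdef
  have hQ : Dv 2 Q := hXLP.dv_Dv h.thin
  have hQne : Q ≠ ⊥ := hXLP.dv_ne_bot h.thin hXinf
  have hQP : Q ≤ dv 2 M := dv_mono inf_le_right
  have hMMis : IsM T (MM T b) := h.MM_isM hb
  have hMLP : LP 2 (MM T b) := h.lp hMMis
  have hP' : Dv 2 (dv 2 (MM T b)) := hMLP.dv_Dv h.thin
  have hQP' : Q ≤ dv 2 (MM T b) := dv_mono (le_trans inf_le_left (h.KK_le hb))
  have hbQ : ∀ x ∈ Q, b * x = x * b := by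
    intro x hx
    have h1 : x ∈ KK T b := (dv_le 2 _ hx).1
    have h2 : KK T b ≤ Subgroup.centralizer {b} := by
      rw [KK, Subgroup.closure_le]
      intro t ht
      rw [SetLike.mem_coe, Subgroup.mem_centralizer_singleton_iff]
      exact ht.2
    exact (Subgroup.mem_centralizer_singleton_iff.1 (h2 h1)).symm
  have hPQ : ∀ x ∈ dv 2 M, ∀ y ∈ Q, x * y = y * x := fun x hx y hy => hP.comm x hx y (hQP hy)
  have hRM : Subgroup.closure (TN T Q) ≤ M := by
    rw [Subgroup.closure_le]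
    exact fun t ht => h.lemB hM hinf hQ hQne hPQ ht.1 ht.2
  have hRMM : Subgroup.closure (TN T Q) ≤ MM T b := by
    rw [Subgroup.closure_le]
    exact fun t ht => h.lemB hMMis (h.MM_inf hb) hQ hQne
      (fun x hx y hy => hP'.comm x hx y (hQP' hy)) ht.1 ht.2
  have hbTN : b ∈ TN T Q := ⟨hb, lemDE_nr hbQ⟩
  by_cases hR : (Subgroup.closure (TN T Q) : Set G).Infinite
  · exact hne (h.lemC hM hMMis (TG_closure (lemDE_TN Q)) hR hRM hRMM).symm
  · rw [Set.not_infinite] at hR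
    have hfin : (TN T Q).Finite := hR.subset Subgroup.subset_closure
    have hcomm := lemDE_comm hIT hP hPQ hfin
    have hPne : dv 2 M ≠ ⊥ := hLP.dv_ne_bot h.thin hinf
    obtain ⟨⟨x, hx⟩, hx0⟩ := Subgroup.ne_bot_iff_exists_ne_one.1 hPne
    have hx1 : x ≠ 1 := fun hh => hx0 (Subtype.ext hh)
    obtain ⟨y, hy, hyx⟩ := hP.div x hx
    refine hne (h.lemD hM hinf hb (hRM (Subgroup.subset_closure hbTN)) ⟨y, hy, fun hh => hx1 ?_⟩)
    rw [← hcomm y hy b hbTN, mul_assoc, hbb, mul_one] at hh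
    rw [← hyx, pow_two]
    nth_rewrite 1 [hh]
    exact inv_mul_cancel y

end Pool.Agent.Helper59.EI
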