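import Pool.Agent.Helper59.EI.LemDE
import Pool.Agent.Helper59.EI.FAlg

/-!
# EI-25. Lemma F
-/

set_option autoImplicit false

namespace Pool.Agent.Helper59.EI

universe u

variable {G : Type u} [Group G]

private theorem lemF_KK_comm {T : Set G} {a x : G} (hx : x ∈ KK T a) : a * x = x * a := by
  have h1 : KK T a ≤ Subgroup.centralizer {a} := by
    unfold KK
    rw [Subgroup.closure_le]
    intro t ht
    rw [SetLike.mem_coe, Subgroup.mem_centralizer_iff]
    intro b hb
    rw [Set.mem_singleton_iff] at hb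
    rw [hb]
    exact ht.2.symm
  have h2 := h1 hx
  rw [Subgroup.mem_centralizer_iff] at h2
  exact h2 a (Set.mem_singleton a)

/-- `s` in `M` inverts the divisible part if `MM T s` is not `M` -/
private theorem lemF_invert {T : Set G} (h : Core G T) {M : Subgroup G} {s : G} (hM : IsM T M)
    (hinf : (M : Set G).Infinite) (hs : s ∈ T) (hsM : s ∈ M) (hne : MM T s ≠ M) :
    ∀ y ∈ dv 2 M, s * y * s = y⁻¹ := by
  intro y hy
  by_contra hc
  exact hne (h.lemD hM hinf hs hsM ⟨y, hy, hc⟩)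

private theorem lemF_memKK {T : Set G} {a c : G} (hc : c ∈ T) (hac : a * c = c * a) :
    c ∈ KK T a :=
  Subgroup.subset_closure ⟨hc, hac.symm⟩

/-- The element `p` of the proof of Lemma F. -/
theorem Core.lemF_aux {T : Set G} (h : Core G T) {a c : G} (ha : a ∈ T) (hc : c ∈ T)
    (hac : a * c = c * a) (hne : MM T a ≠ MM T c) :
    ∃ p ∈ dv 2 (MM T a), a * p = p * a ∧ c * p * c = p⁻¹ ∧ p ∉ Nr (MM T c) ∧
      p * p ∈ Nr (MM T c) := by
  have : Countable G := h.cnt
  have hM := h.MM_isM ha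
  have hM' := h.MM_isM hc
  have hMi := h.MM_inf ha
  have hMi' := h.MM_inf hc
  have hlp := h.lp hM
  have hlp' := h.lp hM'
  have hcK : c ∈ KK T a := lemF_memKK hc hac
  have hcM : c ∈ MM T a := h.KK_le ha hcK
  have hcinv := lemF_invert h hM hMi hc hcM hne.symm
  have hKlp : LP 2 (KK T a) := hlp.mono (h.KK_le ha)
  have hQne : dv 2 (KK T a) ≠ ⊥ := hKlp.dv_ne_bot h.thin (h.KK_inf ha)
  have hQdv : Dv 2 (dv 2 (KK T a)) := hKlp.dv_Dv h.thin
  have hQP : dv 2 (KK T a) ≤ dv 2 (MM T a) := dv_mono (h.KK_le ha)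
  have hPdv : Dv 2 (dv 2 (MM T a)) := hlp.dv_Dv h.thin
  have hPne : dv 2 (MM T a) ≠ ⊥ := hlp.dv_ne_bot h.thin hMi
  have hcc : c * c = 1 := h.inv c hc
  -- the intersection with the normaliser is finite
  have hfin : ((dv 2 (KK T a) ⊓ Nr (MM T c) : Subgroup G) : Set G).Finite := by
    by_contra hinf
    have hNlp : LP 2 (dv 2 (KK T a) ⊓ Nr (MM T c)) :=
      hKlp.mono (inf_le_left.trans (dv_le 2 _))
    have hq := hNlp.dv_ne_bot h.thin hinf
    have hqd := hNlp.dv_Dv h.thin
    set Q := dv 2 (dv 2 (KK T a) ⊓ Nr (MM T c)) with hQdef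
    have hQle : Q ≤ dv 2 (KK T a) ⊓ Nr (MM T c) := dv_le 2 _
    have hQleP : Q ≤ dv 2 (MM T a) := (hQle.trans inf_le_left).trans hQP
    have hQN : Q ≤ Nr (MM T c) := hQle.trans inf_le_right
    have hsup := (hlp'.sup_dv h.thin hqd hQN).2
    have hcM1 : ∀ x ∈ dv 2 (MM T a), ∀ y ∈ Q, x * y = y * x :=
      fun x hx y hy => hPdv.comm x hx y (hQleP hy)
    have hcM2 : ∀ x ∈ dv 2 (MM T c), ∀ y ∈ Q, x * y = y * x :=
      fun x hx y hy => (hsup y hy x hx).symm
    have hT1 : TN T Q ⊆ MM T a := fun t ht => h.lemB hM hMi hqd hq hcM1 ht.1 ht.2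
    have hT2 : TN T Q ⊆ MM T c := fun t ht => h.lemB hM' hMi' hqd hq hcM2 ht.1 ht.2
    have hR1 : Subgroup.closure (TN T Q) ≤ MM T a := (Subgroup.closure_le _).2 hT1
    have hR2 : Subgroup.closure (TN T Q) ≤ MM T c := (Subgroup.closure_le _).2 hT2
    have hTG : TG T (Subgroup.closure (TN T Q)) := TG_closure (fun t ht => ht.1)
    by_cases hRf : ((Subgroup.closure (TN T Q) : Subgroup G) : Set G).Finite
    · -- `c` normalises `Q`
      have hcQ : c ∈ Nr Q := by
        rw [mem_Nr]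
        have hcinv' : c⁻¹ = c := h.toIT.inv_eq hc
        intro x
        rw [hcinv']
        constructor
        · intro hx
          rw [hcinv x (hQleP hx)]
          exact Q.inv_mem hx
        · intro hx
          have h1 := hcinv _ (hQleP hx)
          have h2 : c * (c * x * c) * c = x := by
            calc c * (c * x * c) * c = (c * c) * x * (c * c) := by group
              _ = x := by rw [hcc]; group
          rw [h2] at h1
          rw [h1]
          exact Q.inv_mem hx
      have hcR : c ∈ Subgroup.closure (TN T Q) := Subgroup.subset_closure ⟨hc, hcQ⟩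
      -- `P` normalises `R`
      have hPN : ∀ x ∈ dv 2 (MM T a), x ∈ Nr Q := by
        intro x hx
        rw [mem_Nr]
        intro y
        constructor
        · intro hy
          have : x * y * x⁻¹ = y := by rw [hcM1 x hx y hy]; group
          rwa [this]
        · intro hy
          have h1 := hcM1 x hx _ hy
          have h2 : y = x * y * x⁻¹ := by
            have h3 : x * (x * y * x⁻¹) = x * y := by rw [h1]; group
            exact (mul_left_cancel h3).symm
          rwa [h2]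
      have hPS : ∀ x ∈ dv 2 (MM T a), ∀ s ∈ ((Subgroup.closure (TN T Q) : Subgroup G) : Set G),
          x * s * x⁻¹ ∈ ((Subgroup.closure (TN T Q) : Subgroup G) : Set G) := by
        intro x hx s hs
        have h1 : Subgroup.closure (TN T Q) ≤
            (Subgroup.closure (TN T Q)).comap (MulAut.conj x).toMonoidHom := by
          rw [Subgroup.closure_le]
          intro t ht
          rw [SetLike.mem_coe, Subgroup.mem_comap]
          apply Subgroup.subset_closure
          refine ⟨h.toIT.conj' ht.1 x, ?_⟩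
          exact (Nr Q).mul_mem ((Nr Q).mul_mem (hPN x hx) ht.2) ((Nr Q).inv_mem (hPN x hx))
        exact h1 hs
      have hcomm := hPdv.comm_of_finite hRf hPS
      apply hPne
      rw [eq_bot_iff]
      intro x hx
      obtain ⟨y, hy, hyx⟩ := hPdv.div x hx
      have h1 := hcomm y hy c hcR
      have h2 := hcinv y hy
      rw [Subgroup.mem_bot, ← hyx, pow_two]
      have h3 : y = y⁻¹ := by
        rw [← h2, ← h1, mul_assoc, hcc, mul_one]
      calc y * y = y * y⁻¹ := by rw [← h3]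
        _ = 1 := mul_inv_cancel y
    · exact hne (h.lemC hM hM' hTG hRf hR1 hR2)
  -- an element outside the normaliser
  have hex : ∃ x ∈ dv 2 (KK T a), x ∉ Nr (MM T c) := by
    by_contra hcon
    push Not at hcon
    apply hQne
    apply hQdv.eq_bot_of_finite
    refine hfin.subset ?_
    intro x hx
    exact ⟨hx, hcon x hx⟩
  obtain ⟨x, hx, hxn⟩ := hex
  have hk : ∃ k : ℕ, x ^ 2 ^ k ∈ Nr (MM T c) := by
    obtain ⟨k, hk⟩ := hQdv.pel x hx
    exact ⟨k, by rw [hk]; exact (Nr (MM T c)).one_mem⟩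
  classical
  have hmin := Nat.find_spec hk
  have hpos : Nat.find hk ≠ 0 := by
    intro h0
    rw [h0, pow_zero, pow_one] at hmin
    exact hxn hmin
  obtain ⟨j, hj⟩ := Nat.exists_eq_succ_of_ne_zero hpos
  have hlt : ¬ x ^ 2 ^ j ∈ Nr (MM T c) := Nat.find_min hk (by omega)
  refine ⟨x ^ 2 ^ j, hQP (Subgroup.pow_mem _ hx _), ?_, ?_, hlt, ?_⟩
  · exact lemF_KK_comm (Subgroup.pow_mem _ (dv_le 2 _ hx) _)
  · exact hcinv _ (hQP (Subgroup.pow_mem _ hx _))
  · rw [← pow_two, ← pow_mul, ← pow_succ]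
    rw [hj] at hmin
    exact hmin

private theorem lemF_mem_Nr_of_MM {T : Set G} (h : Core G T) {a q : G} (ha : a ∈ T)
    (he : MM T (q⁻¹ * a * q) = MM T a) : q ∈ Nr (MM T a) := by
  rw [mem_Nr]
  intro x
  rw [← h.MM_conj ha q x, he]

private theorem lemF_h1 {T : Set G} (h : Core G T) {a p q : G} (ha : a ∈ T)
    (haq : a * q * a = q⁻¹) (hqn : q ∉ Nr (MM T a)) (hqq : q * q ∈ Nr (MM T a))
    (hp : p ∈ dv 2 (MM T a)) (hap : a * p = p * a) : (q * q)⁻¹ * p * (q * q) = p⁻¹ := by
  have hM := h.MM_isM ha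
  have hMi := h.MM_inf ha
  have haa : a * a = 1 := h.inv a ha
  have h1 : a * q = q⁻¹ * a := by
    rw [← haq, mul_assoc (a * q), haa, mul_one]
  have ht : a * (q * q) = q⁻¹ * a * q := by
    rw [← mul_assoc, h1]
  have htT : a * (q * q) ∈ T := by
    rw [ht]
    exact h.conj a ha q
  have htN : a * (q * q) ∈ Nr (MM T a) :=
    (Nr (MM T a)).mul_mem (le_Nr _ (h.mem_MM ha)) hqq
  have htM : a * (q * q) ∈ MM T a := hM.nt h.toIT htT htN
  have hne : MM T (a * (q * q)) ≠ MM T a := by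
    intro he
    rw [ht] at he
    exact hqn (lemF_mem_Nr_of_MM h ha he)
  have hinv := lemF_invert h hM hMi htT htM hne p hp
  have hti : (a * (q * q))⁻¹ = a * (q * q) := h.toIT.inv_eq htT
  have hai : a⁻¹ = a := h.toIT.inv_eq ha
  have h2 : a * (q * q) = (q * q)⁻¹ * a := by
    rw [← hti, mul_inv_rev, hai]
  calc (q * q)⁻¹ * p * (q * q) = (q * q)⁻¹ * (a * a) * p * (q * q) := by rw [haa, mul_one]
    _ = ((q * q)⁻¹ * a) * (a * p) * (q * q) := by group
    _ = ((q * q)⁻¹ * a) * p * (a * (q * q)) := by rw [hap]; group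
    _ = (a * (q * q)) * p * (a * (q * q)) := by rw [← h2]
    _ = p⁻¹ := hinv

private theorem lemF_T {T : Set G} (h : Core G T) {a c p : G} (ha : a ∈ T) (hc : c ∈ T)
    (hac : a * c = c * a) (hne : MM T a ≠ MM T c) (hp : p ∈ dv 2 (MM T a)) : c * p ∈ T := by
  have : Countable G := h.cnt
  have hM := h.MM_isM ha
  have hMi := h.MM_inf ha
  have hlp := h.lp hM
  have hPdv : Dv 2 (dv 2 (MM T a)) := hlp.dv_Dv h.thin
  have hcM : c ∈ MM T a := h.KK_le ha (lemF_memKK hc hac)
  have hcinv := lemF_invert h hM hMi hc hcM hne.symm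
  have hcc : c * c = 1 := h.inv c hc
  obtain ⟨r, hr, hrp⟩ := hPdv.div p hp
  have h1 := hcinv r hr
  have h2 : c * r = r⁻¹ * c := by
    rw [← h1, mul_assoc (c * r), hcc, mul_one]
  have h3 : c * p = r⁻¹ * c * r := by
    rw [← hrp, pow_two, ← mul_assoc, h2]
  rw [h3]
  exact h.conj c hc r

/-- Lemma F -/
theorem Core.lemF {T : Set G} (h : Core G T) {a c : G} (ha : a ∈ T) (hc : c ∈ T)
    (hac : a * c = c * a) : MM T a = MM T c := by
  by_contra hne
  obtain ⟨p, hp, hap, hcp, hpn, hpp⟩ := h.lemF_aux ha hc hac hne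
  obtain ⟨q, hq, hcq, haq, hqn, hqq⟩ := h.lemF_aux hc ha hac.symm (Ne.symm hne)
  have haa : a * a = 1 := h.inv a ha
  have hcc : c * c = 1 := h.inv c hc
  have h1 := lemF_h1 h ha haq hqn hqq hp hap
  have h2 := lemF_h1 h hc hcp hpn hpp hq hcq
  have hp1 : p * p ≠ 1 := by
    intro hp1
    apply hpn
    apply lemF_mem_Nr_of_MM h hc
    have h3 : c * p = p⁻¹ * c := by
      rw [← hcp, mul_assoc (c * p), hcc, mul_one]
    rw [← h3, mul_assoc, hp1, mul_one]
  have hT1 : c * p ∈ T := lemF_T h ha hc hac hne hp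
  have hT2 : a * q ∈ T := lemF_T h hc ha hac.symm (Ne.symm hne) hq
  exact F_alg haa hcc hap hcq hcp haq h1 h2 hp1 (h.two _ hT1 _ hT2)

end Pool.Agent.Helper59.EI
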