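import Pool.Agent.Helper59.EI.Zone

/-!
# EI-28. Lemmas X and Y and the contradiction
-/

set_option autoImplicit false

namespace Pool.Agent.Helper59.EI

universe u

variable {G : Type u} [Group G]

private theorem XY_shift {T : Set G} (h : Core G T) {a r : G} (ha : a ∈ T) (hr : r ∈ RA T a) :
    a * r ∈ T ∧ MM T (a * r) = MM T a := by
  haveI := h.cnt
  haveI : Fact (Nat.Prime 2) := ⟨Nat.prime_two⟩
  have hP : Dv 2 (dv 2 (MM T a)) := LP.dv_Dv h.thin (h.lp (h.MM_isM ha))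
  have haN : a ∈ Nr (dv 2 (MM T a)) := dv_nr (le_Nr _ (h.mem_MM ha))
  have hRD : Dv 2 (RA T a) := Rr_Dv hP haN
  obtain ⟨y, hy, hyr⟩ := hRD.div r hr
  have hinv : a * y * a = y⁻¹ := Rr_inv hP haN (h.inv a ha) hy
  have hay : a * y = y⁻¹ * a := by
    have h1 : a * y * a * a = y⁻¹ * a := by rw [hinv]
    rwa [mul_assoc (a * y), h.inv a ha, mul_one] at h1
  have e1 : a * r = y⁻¹ * a * y := by
    rw [← hyr, pow_two, ← mul_assoc, hay]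
  have hyM : y ∈ MM T a := dv_le 2 _ (Rr_le haN hy)
  refine ⟨by rw [e1]; exact h.conj a ha y, ?_⟩
  rw [e1]
  ext x
  rw [h.MM_conj ha]
  constructor
  · intro hx
    have h2 := Subgroup.mul_mem _ (Subgroup.mul_mem _ (Subgroup.inv_mem _ hyM) hx) hyM
    have e2 : y⁻¹ * (y * x * y⁻¹) * y = x := by group
    rwa [e2] at h2
  · intro hx
    exact Subgroup.mul_mem _ (Subgroup.mul_mem _ hyM hx) (Subgroup.inv_mem _ hyM)

private theorem XY_facts {T : Set G} (h : Core G T) {a : G} (ha : a ∈ T) :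
    Dv 2 (RA T a) ∧ ∀ r ∈ RA T a, a * r * a = r⁻¹ := by
  haveI := h.cnt
  haveI : Fact (Nat.Prime 2) := ⟨Nat.prime_two⟩
  have hP : Dv 2 (dv 2 (MM T a)) := LP.dv_Dv h.thin (h.lp (h.MM_isM ha))
  have haN : a ∈ Nr (dv 2 (MM T a)) := dv_nr (le_Nr _ (h.mem_MM ha))
  exact ⟨Rr_Dv hP haN, fun r hr => Rr_inv hP haN (h.inv a ha) hr⟩

/-- Lemma X -/
theorem Core.lemX {T : Set G} (h : Core G T) {a b : G} (ha : Sh T a) (hb : b ∈ T)
    (hne : MM T b ≠ MM T a) : (ZZ T b ∩ Z1 T a).Nonempty := by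
  have hT : IT T := h.toIT
  obtain ⟨hRD, hinv⟩ := XY_facts h ha.1
  have hE : {z : G | z ∈ ZZ T b ∧ z ∈ MM T a}.Finite :=
    (h.lemE (h.MM_isM ha.1) (h.MM_inf ha.1) hb hne).subset
      (fun z hz => ⟨ZZ_mem_KK hb hz.1, hz.2⟩)
  obtain ⟨z, hz, hz1, hz2, hz3, hz4⟩ := cover hT ha.1 hRD hinv hE (by
    intro r hr
    obtain ⟨har, hMr⟩ := XY_shift h ha.1 hr
    have hne2 : a * r ≠ b := by
      intro h1
      rw [h1] at hMr
      exact hne hMr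
    obtain ⟨z, hz1, hz2⟩ := zab hT har hb hne2
    obtain ⟨h1, h2, h3⟩ := (ZZ_iff hT har).1 hz1
    refine ⟨z, ⟨hz2, ?_⟩, h1, h2, h3⟩
    have h4 := h.KK_le har (ZZ_mem_KK har hz1)
    rwa [hMr] at h4)
  exact ⟨z, hz.1, (ZZ_iff hT ha.1).2 ⟨hz1, hz2, hz3⟩, hz4⟩

/-- Lemma Y -/
theorem Core.lemY {T : Set G} (h : Core G T) {a b : G} (ha : Sh T a) (hb : Sh T b)
    (hne : MM T b ≠ MM T a) : (Z1 T b ∩ Z1 T a).Nonempty := by
  have hT : IT T := h.toIT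
  obtain ⟨hRD, hinv⟩ := XY_facts h hb.1
  obtain ⟨z, hz, hz1, hz2, hz3, hz4⟩ := cover hT hb.1 hRD hinv (h.Z1_fin ha) (by
    intro r hr
    obtain ⟨hbr, hMr⟩ := XY_shift h hb.1 hr
    obtain ⟨z, hzb, hza⟩ := h.lemX ha hbr (by rw [hMr]; exact hne)
    obtain ⟨h1, h2, h3⟩ := (ZZ_iff hT hbr).1 hzb
    exact ⟨z, hza, h1, h2, h3⟩)
  exact ⟨z, ⟨(ZZ_iff hT hb.1).2 ⟨hz1, hz2, hz3⟩, hz4⟩, hz⟩

theorem no_core {T : Set G} (h : Core G T) : False := by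
  have hT : IT T := h.toIT
  have hne : T.Nonempty := by
    rw [Set.nonempty_iff_ne_empty]
    intro h0
    apply h.bad
    rw [← h.gen, h0, Subgroup.closure_empty]
    apply LF_of_finite
    rw [Subgroup.coe_bot]
    exact Set.finite_singleton 1
  have key : ∀ a ∈ T, ∀ b ∈ T, MM T a ≠ MM T b → (FF T a ∩ FF T b).Nonempty := by
    intro a ha b hb hab
    obtain ⟨a', ha', ha2⟩ := h.exists_Sh ha
    obtain ⟨b', hb', hb2⟩ := h.exists_Sh hb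
    obtain ⟨z, hz1, hz2⟩ := h.lemY (a := b') (b := a') hb' ha' (by rw [ha2, hb2]; exact hab)
    exact ⟨z, ⟨a', ha', ha2, hz1⟩, ⟨b', hb', hb2, hz2⟩⟩
  refine h.hit {A | ∃ a ∈ T, A = FF T a} ?_ ?_ ?_ ?_ ?_
  · obtain ⟨a, ha⟩ := hne
    exact ⟨FF T a, a, ha, rfl⟩
  · rintro _ ⟨a, ha, rfl⟩
    exact h.FF_fin ha
  · rintro _ ⟨a, ha, rfl⟩ _ ⟨b, hb, rfl⟩
    by_cases hab : MM T a = MM T b
    · have e1 : FF T b = FF T a := by
        unfold FF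
        rw [hab]
      rw [e1, Set.inter_self]
      obtain ⟨c, hc, hc2⟩ := h.exists_ne ha
      obtain ⟨z, hz, _⟩ := key a ha c hc (fun h0 => hc2 h0.symm)
      exact ⟨z, hz⟩
    · exact key a ha b hb hab
  · rintro _ ⟨a, ha, rfl⟩ g
    refine ⟨g⁻¹ * a * g, h.conj a ha g, ?_⟩
    ext x
    rw [h.FF_conj ha]
    rfl
  · rintro _ ⟨a, ha, rfl⟩ x ⟨b, hb, _, hx⟩
    exact ⟨ZZ_ne hT hb.1 hx.1, ZZ_sq hT hb.1 hx.1⟩

end Pool.Agent.Helper59.EI
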