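import Pool.Agent.Helper59.EI.MaxMA

/-!
# EI-20, EI-21. Maximal locally finite subgroups generated by elements of T: Lemmas A and B
-/

set_option autoImplicit false

namespace Pool.Agent.Helper59.EI

universe u

variable {G : Type u} [Group G]

theorem exists_IsM {T : Set G} {R : Subgroup G} (hR : TG T R) (hf : LF R) :
    ∃ M, IsM T M ∧ R ≤ M :=
  exists_IsM' hR hf

/-- `N_T(M) = T ∩ M` -/
theorem IsM.nt {T : Set G} (h : IT T) {M : Subgroup G} (hM : IsM T M) {t : G} (ht : t ∈ T)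
    (hn : t ∈ Nr M) : t ∈ M :=
  IsM.nt' h hM ht hn

theorem Core.lp {T : Set G} (h : Core G T) {M : Subgroup G} (hM : IsM T M) : LP 2 M :=
  Core.lp' h hM

/-- conjugation by `g` preserves `TN T Q` if `g` normalises `Q` -/
private theorem TN_conj_ab {T : Set G} (h : IT T) {Q : Subgroup G} {g s : G} (hg : g ∈ Nr Q)
    (hs : s ∈ TN T Q) : g * s * g⁻¹ ∈ TN T Q :=
  ⟨h.conj' hs.1 g, mul_mem (mul_mem hg hs.2) (inv_mem hg)⟩

/-- an element normalising `Q` normalises the subgroup generated by `TN T Q` -/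
private theorem mem_Nr_TN_ab {T : Set G} (h : IT T) {Q : Subgroup G} {g : G} (hg : g ∈ Nr Q) :
    g ∈ Nr (Subgroup.closure (TN T Q)) := by
  have key : ∀ g : G, g ∈ Nr Q → ∀ x ∈ Subgroup.closure (TN T Q),
      g * x * g⁻¹ ∈ Subgroup.closure (TN T Q) := by
    intro g hg x hx
    refine Subgroup.closure_induction (p := fun x _ => g * x * g⁻¹ ∈ Subgroup.closure (TN T Q))
      ?_ ?_ ?_ ?_ hx
    · intro x hx
      exact Subgroup.subset_closure (TN_conj_ab h hg hx)
    · simp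
    · intro x y _ _ hx hy
      have := mul_mem hx hy
      convert this using 1
      group
    · intro x _ hx
      have := inv_mem hx
      convert this using 1
      group
  rw [mem_Nr]
  intro x
  refine ⟨key g hg x, fun hx => ?_⟩
  have := key g⁻¹ (inv_mem hg) _ hx
  convert this using 1
  group

/-- elements commuting with `Q` normalise `Q` -/
private theorem mem_Nr_of_comm_ab {Q : Subgroup G} {g : G} (hg : ∀ x ∈ Q, g * x = x * g) :
    g ∈ Nr Q := by
  rw [mem_Nr]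
  intro x
  constructor
  · intro hx
    rw [hg x hx, mul_inv_cancel_right]
    exact hx
  · intro hx
    have h1 := hg _ hx
    have h2 : g * (g * x * g⁻¹) = g * x := by rw [h1]; group
    have h3 : g * x * g⁻¹ = x := mul_left_cancel h2
    rwa [h3] at hx

/-- Lemma A -/
theorem Core.lemA {T : Set G} (h : Core G T) {M P : Subgroup G} (hM : IsM T M)
    (hinf : (M : Set G).Infinite) (hP : Dv 2 P) (hle : dv 2 M ≤ P)
    (hmax : ∀ Q, Dv 2 Q → P ≤ Q → Q = P) {t : G} (ht : t ∈ T) : t ∈ Nr P ↔ t ∈ M := by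
  have := h.cnt
  have hIT : IT T := h.toIT
  have hlp : LP 2 M := h.lp hM
  have hD : Dv 2 (dv 2 M) := hlp.dv_Dv h.thin
  have hDne : dv 2 M ≠ ⊥ := hlp.dv_ne_bot h.thin hinf
  have hPne : P ≠ ⊥ := fun h0 => hDne (le_bot_iff.1 (h0 ▸ hle))
  -- the subgroup generated by `TN T Q` is `M` if `M` normalises `Q`
  have key : ∀ Q : Subgroup G, Dv 2 Q → Q ≠ ⊥ → M ≤ Nr Q → Subgroup.closure (TN T Q) = M := by
    intro Q hQ hne hMQ
    have h1 : LF (Subgroup.closure (TN T Q)) := h.g3 Q hQ hne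
    have h2 : TG T (Subgroup.closure (TN T Q)) := TG_closure (fun x hx => hx.1)
    have h3 : M ≤ Subgroup.closure (TN T Q) := by
      conv_lhs => rw [← hM.tg]
      exact Subgroup.closure_mono fun x hx => ⟨hx.1, hMQ hx.2⟩
    exact le_antisymm (hM.max _ h2 h1 h3) h3
  have hMD : M ≤ Nr (dv 2 M) := fun x hx => dv_nr (le_Nr M hx)
  have e1 := key _ hD hDne hMD
  have hPM : P ≤ Nr M := by
    intro x hx
    rw [← e1]
    apply mem_Nr_TN_ab hIT
    exact mem_Nr_of_comm_ab fun y hy => hP.comm x hx y (hle hy)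
  have hMP : M ≤ Nr P := hlp.nr_of_max h.thin hP hmax hPM
  refine ⟨fun hn => ?_, fun hm => hMP hm⟩
  rw [← key P hP hPne hMP]
  exact Subgroup.subset_closure ⟨ht, hn⟩

/-- Lemma B -/
theorem Core.lemB {T : Set G} (h : Core G T) {M Q : Subgroup G} (hM : IsM T M)
    (hinf : (M : Set G).Infinite) (hQ : Dv 2 Q) (hne : Q ≠ ⊥)
    (hc : ∀ x ∈ dv 2 M, ∀ y ∈ Q, x * y = y * x) {t : G} (ht : t ∈ T) (hn : t ∈ Nr Q) :
    t ∈ M := by
  have := h.cnt
  have hIT : IT T := h.toIT
  have hD : Dv 2 (dv 2 M) := (h.lp hM).dv_Dv h.thin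
  obtain ⟨P, hle, hP, hmax⟩ := (hD.sup hQ hc).exists_max
  have hR : LP 2 (Subgroup.closure (TN T Q)) :=
    hIT.lp (fun x hx => hx.1) (h.g3 Q hQ hne)
  have hPR : P ≤ Nr (Subgroup.closure (TN T Q)) := by
    intro x hx
    apply mem_Nr_TN_ab hIT
    exact mem_Nr_of_comm_ab fun y hy => hP.comm x hx y (hle (Subgroup.mem_sup_right hy))
  have hRP := hR.nr_of_max h.thin hP hmax hPR
  refine (h.lemA hM hinf hP (le_sup_left.trans hle) hmax ht).1 (hRP ?_)
  exact Subgroup.subset_closure ⟨ht, hn⟩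

end Pool.Agent.Helper59.EI
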