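import Pool.Agent.Helper59.EI.S5

/-!
# EI-20. Maximal locally finite subgroups generated by elements of T
-/

set_option autoImplicit false

namespace Pool.Agent.Helper59.EI

universe u

variable {G : Type u} [Group G]

theorem exists_IsM' {T : Set G} {R : Subgroup G} (hR : TG T R) (hf : LF R) :
    ∃ M, IsM T M ∧ R ≤ M := by
  obtain ⟨M, hRM, hM⟩ := zorn_le_nonempty₀ {M : Subgroup G | TG T M ∧ LF M} (by
    intro c hcS hc y hy
    refine ⟨sSup c, ⟨?_, ?_⟩, fun z hz => le_sSup hz⟩
    · apply le_antisymm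
      · rw [Subgroup.closure_le]
        exact fun x hx => hx.2
      · apply sSup_le
        intro N hN
        have h1 : Subgroup.closure (T ∩ N) = N := (hcS hN).1
        rw [← h1]
        apply Subgroup.closure_mono
        intro x hx
        exact ⟨hx.1, (le_sSup hN : N ≤ sSup c) hx.2⟩
    · exact LF.sSupD ⟨y, hy⟩ hc.directedOn (fun N hN => (hcS hN).2)) R ⟨hR, hf⟩
  refine ⟨M, ⟨hM.prop.1, hM.prop.2, ?_⟩, hRM⟩
  intro M' h1 h2 h3
  exact hM.le_of_ge ⟨h1, h2⟩ h3

/-- `N_T(M) = T ∩ M` -/
theorem IsM.nt' {T : Set G} (h : IT T) {M : Subgroup G} (hM : IsM T M) {t : G} (ht : t ∈ T)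
    (hn : t ∈ Nr M) : t ∈ M := by
  have h1 : M ⊔ Subgroup.closure {t} = Subgroup.closure ((T ∩ M) ∪ {t}) := by
    rw [Subgroup.closure_union]
    congr 1
    exact hM.tg.symm
  have hfin : LF (Subgroup.closure {t} : Subgroup G) := by
    apply LF_of_finite
    rw [← Subgroup.zpowers_eq_closure]
    rw [finite_zpowers, isOfFinOrder_iff_pow_eq_one]
    exact ⟨2, by norm_num, by rw [pow_two]; exact h.inv t ht⟩
  have hle : Subgroup.closure {t} ≤ Nr M := by
    rw [Subgroup.closure_le]
    intro x hx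
    rw [Set.mem_singleton_iff] at hx
    rw [hx]
    exact hn
  have h2 : M ⊔ Subgroup.closure {t} ≤ M := by
    apply hM.max _ _ (LF.sup hM.lf hfin hle) le_sup_left
    rw [h1]
    apply TG_closure
    intro x hx
    rcases hx with hx | hx
    · exact hx.1
    · rw [Set.mem_singleton_iff] at hx
      rw [hx]
      exact ht
  exact h2 ((le_sup_right : Subgroup.closure {t} ≤ M ⊔ Subgroup.closure {t})
    (Subgroup.subset_closure (Set.mem_singleton t)))

theorem Core.lp' {T : Set G} (h : Core G T) {M : Subgroup G} (hM : IsM T M) : LP 2 M :=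
  IT.tg_lp h.toBase.toIT hM.tg hM.lf

end Pool.Agent.Helper59.EI
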