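import Pool.Agent.Helper59.EI.DvApi

/-!
# EI-9. The normaliser condition
-/

set_option autoImplicit false

namespace Pool.Agent.Helper59.EI

universe u

variable {G : Type u} [Group G] {p : ℕ} [Fact p.Prime]

/-- a periodic element conjugating `N` into itself normalises `N` -/
private theorem nr_of_conj {N : Subgroup G} {g : G} (hg : PEl p g)
    (h : ∀ n ∈ N, g⁻¹ * n * g ∈ N) : g ∈ Nr N := by
  rw [mem_Nr']
  intro n
  refine ⟨h n, fun hn => ?_⟩
  obtain ⟨k, hk⟩ := hg
  have hpos : 0 < p ^ k := pow_pos (Fact.out : p.Prime).pos _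
  have h1 : ∀ m : ℕ, ∀ y ∈ N, (g ^ m)⁻¹ * y * g ^ m ∈ N := by
    intro m
    induction m with
    | zero => intro y hy; simpa using hy
    | succ m ih =>
      intro y hy
      have h2 := h _ (ih y hy)
      have h3 : (g ^ (m + 1))⁻¹ * y * g ^ (m + 1) = g⁻¹ * ((g ^ m)⁻¹ * y * g ^ m) * g := by
        rw [pow_succ]; group
      rw [h3]; exact h2
  have h4 := h1 (p ^ k - 1) _ hn
  have h5 : g ^ (p ^ k - 1) = g⁻¹ := by
    have : g ^ (p ^ k - 1) * g = 1 := by
      rw [← pow_succ, Nat.sub_add_cancel hpos, hk]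
    exact eq_inv_of_mul_eq_one_left this
  rw [h5] at h4
  have h6 : (g⁻¹)⁻¹ * (g⁻¹ * n * g) * g⁻¹ = n := by group
  rwa [h6] at h4

/-- the normaliser condition for subgroups of finite index -/
private theorem nc_fin {Y N : Subgroup G} (hY : ∀ x ∈ Y, PEl p x) (hN : N ≤ Y) (hne : N ≠ Y)
    (hi : N.relIndex Y ≠ 0) : ∃ g ∈ Y, g ∈ Nr N ∧ g ∉ N := by
  set N' : Subgroup Y := N.subgroupOf Y with hN'
  have : N'.FiniteIndex := ⟨hi⟩
  set K : Subgroup Y := N'.normalCore with hK
  have hKi : K.FiniteIndex := inferInstance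
  have hfin : Finite (Y ⧸ K) := inferInstance
  have hp : IsPGroup p (Y ⧸ K) := by
    intro q
    induction q using QuotientGroup.induction_on with
    | H z =>
      obtain ⟨k, hk⟩ := hY z.1 z.2
      refine ⟨k, ?_⟩
      rw [← QuotientGroup.mk_pow]
      have : z ^ p ^ k = 1 := Subtype.ext (by simpa using hk)
      rw [this]; rfl
  have hnil : Group.IsNilpotent (Y ⧸ K) := hp.isNilpotent
  have hnc := Group.normalizerCondition_of_isNilpotent (G := Y ⧸ K)
  have hKN : K ≤ N' := Subgroup.normalCore_le _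
  set M : Subgroup (Y ⧸ K) := N'.map (QuotientGroup.mk' K) with hM
  have hcm : M.comap (QuotientGroup.mk' K) = N' := by
    rw [hM, Subgroup.comap_map_eq, QuotientGroup.ker_mk', sup_eq_left]
    exact hKN
  have hMt : M < ⊤ := by
    rw [lt_top_iff_ne_top]
    intro h
    apply hne
    apply le_antisymm hN
    have h1 : N' = ⊤ := by rw [← hcm, h, Subgroup.comap_top]
    rw [hN', Subgroup.subgroupOf_eq_top] at h1
    exact h1
  have hlt := hnc M hMt
  obtain ⟨q, hq, hqM⟩ := SetLike.exists_of_lt hlt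
  obtain ⟨z, rfl⟩ := QuotientGroup.mk'_surjective K q
  have hzN : z ∉ N' := fun h => hqM (Subgroup.mem_map_of_mem _ h)
  refine ⟨z.1, z.2, ?_, fun h => hzN h⟩
  apply nr_of_conj (hY z.1 z.2)
  intro n hn
  rw [Subgroup.mem_normalizer_iff''] at hq
  have h1 : (QuotientGroup.mk' K) ⟨n, hN hn⟩ ∈ M :=
    Subgroup.mem_map_of_mem _ (show (⟨n, hN hn⟩ : Y) ∈ N' from hn)
  have h2 := (hq _).1 h1
  have h3 : z⁻¹ * ⟨n, hN hn⟩ * z ∈ M.comap (QuotientGroup.mk' K) := by
    rw [Subgroup.mem_comap, map_mul, map_mul, map_inv]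
    exact h2
  rw [hcm] at h3
  exact h3

/-- normaliser condition for extensions of divisible groups by finite `p`-groups -/
theorem Cher.nc {X : Subgroup G} (hX : LP p X) (hc : Cher p X) {N : Subgroup G} (hN : N ≤ X)
    (hne : N ≠ X) : ∃ g ∈ X, g ∈ Nr N ∧ g ∉ N := by
  obtain ⟨P, hP, hPX, hXP, hi⟩ := hc
  by_cases hPN : P ≤ N
  · apply nc_fin (p := p) hX.2 hN hne
    exact fun h => hi (Nat.eq_zero_of_zero_dvd (h ▸ Subgroup.relIndex_dvd_of_le_left X hPN))
  · obtain ⟨x, hxP, hxN⟩ := SetLike.not_le_iff_exists.1 hPN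
    -- the orbit of `x` under `N`
    set S : Set G := {y | ∃ n ∈ N, y = n⁻¹ * x * n} with hS
    have hPi : (P.subgroupOf X).FiniteIndex := ⟨hi⟩
    have hSfin : S.Finite := by
      have hfin : Finite (X ⧸ P.subgroupOf X) := inferInstance
      have h1 : S ⊆ Set.range (fun q : X ⧸ P.subgroupOf X => (q.out.1)  * x * (q.out.1)⁻¹) := by
        rintro y ⟨n, hn, rfl⟩
        refine ⟨QuotientGroup.mk (⟨n⁻¹, inv_mem (hN hn)⟩ : X), ?_⟩
        obtain ⟨w, hw⟩ := QuotientGroup.mk_out_eq_mul (P.subgroupOf X)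
          (⟨n⁻¹, inv_mem (hN hn)⟩ : X)
        have hw' : (w : X).1 ∈ P := w.2
        simp only [hw]
        have h2 := hP.comm _ hw' x hxP
        have h3 : (w : X).1 * x * ((w : X).1)⁻¹ = x := by rw [h2]; group
        calc ((⟨n⁻¹, inv_mem (hN hn)⟩ : X) * (w : X)).1 * x *
              (((⟨n⁻¹, inv_mem (hN hn)⟩ : X) * (w : X)).1)⁻¹
            = n⁻¹ * ((w : X).1 * x * ((w : X).1)⁻¹) * n := by
              simp only [Subgroup.coe_mul]; group
          _ = n⁻¹ * x * n := by rw [h3]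
      exact (Set.finite_range _).subset h1
    have hxS : x ∈ S := ⟨1, one_mem _, by group⟩
    have hSP : S ⊆ P := by
      rintro y ⟨n, hn, rfl⟩
      exact (mem_Nr'.1 (hXP (hN hn)) x).1 hxP
    set F : Subgroup G := Subgroup.closure S with hF
    have hFP : F ≤ P := (Subgroup.closure_le _).2 hSP
    have hFfin : (F : Set G).Finite := hX.1 S hSfin (hSP.trans hPX)
    have hNF : N ≤ Nr F := by
      intro n hn
      have key : ∀ m ∈ N, ∀ f ∈ F, m⁻¹ * f * m ∈ F := by
        intro m hm f hf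
        induction hf using Subgroup.closure_induction with
        | mem y hy =>
          obtain ⟨k, hk, rfl⟩ := hy
          apply Subgroup.subset_closure
          exact ⟨k * m, mul_mem hk hm, by group⟩
        | one => simp
        | mul a b _ _ ha hb =>
          have : m⁻¹ * (a * b) * m = (m⁻¹ * a * m) * (m⁻¹ * b * m) := by group
          rw [this]; exact mul_mem ha hb
        | inv a _ ha =>
          have : m⁻¹ * a⁻¹ * m = (m⁻¹ * a * m)⁻¹ := by group
          rw [this]; exact inv_mem ha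
      rw [mem_Nr']
      intro f
      refine ⟨key n hn f, fun hf => ?_⟩
      have h1 := key n⁻¹ (inv_mem hn) _ hf
      have h2 : (n⁻¹)⁻¹ * (n⁻¹ * f * n) * n⁻¹ = f := by group
      rwa [h2] at h1
    set Y : Subgroup G := F ⊔ N with hYdef
    have hYX : Y ≤ X := sup_le (hFP.trans hPX) hN
    have hNY : N ≤ Y := le_sup_right
    have hNne : N ≠ Y := by
      intro h
      exact hxN (h ▸ (le_sup_left : F ≤ F ⊔ N) (Subgroup.subset_closure hxS))
    have hidx : N.relIndex Y ≠ 0 := by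
      have hFf : Finite F := hFfin
      have hsurj : Function.Surjective (fun f : F =>
          (QuotientGroup.mk (⟨f.1, (le_sup_left : F ≤ F ⊔ N) f.2⟩ : Y) : Y ⧸ N.subgroupOf Y)) := by
        intro q
        induction q using QuotientGroup.induction_on with
        | H z =>
          obtain ⟨a, ha, b, hb, hab⟩ := lfaux_mul hNF z.2
          refine ⟨⟨a, ha⟩, ?_⟩
          rw [QuotientGroup.eq]
          change a⁻¹ * z.1 ∈ N
          rw [← hab]
          have : a⁻¹ * (a * b) = b := by group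
          rwa [this]
      have : Finite (Y ⧸ N.subgroupOf Y) := Finite.of_surjective _ hsurj
      exact Nat.card_pos.ne'
    obtain ⟨g, hgY, hg1, hg2⟩ := nc_fin (p := p) (fun x hx => hX.2 x (hYX hx)) hNY hNne hidx
    exact ⟨g, hYX hgY, hg1, hg2⟩

/-- the version for subgroups generated by subsets of a normal set -/
theorem Cher.tnc {X : Subgroup G} (hX : LP p X) (hc : Cher p X) {T : Set G}
    (hT : ∀ t ∈ T, ∀ g ∈ X, g⁻¹ * t * g ∈ T) (hTX : TG T X) {R : Subgroup G} (hR : TG T R)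
    (hRX : R ≤ X) (hne : R ≠ X) : ∃ t ∈ T, t ∈ X ∧ t ∈ Nr R ∧ t ∉ R := by
  by_contra hcon
  push Not at hcon
  set A : Set (Subgroup G) := {N | N ≤ X ∧ ∀ t ∈ T, t ∈ N → t ∈ R} with hA
  obtain ⟨N, hRN, hNmax⟩ := zorn_le_nonempty₀ A (by
    intro c hcA hch y hyc
    refine ⟨sSup c, ⟨sSup_le fun z hz => (hcA hz).1, ?_⟩, fun z hz => le_sSup hz⟩
    intro t ht htc
    rw [Subgroup.mem_sSup_of_directedOn ⟨y, hyc⟩ hch.directedOn] at htc
    obtain ⟨z, hz, htz⟩ := htc
    exact (hcA hz).2 t ht htz) R ⟨hRX, fun t _ ht => ht⟩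
  have hNA : N ∈ A := hNmax.prop
  have hNX : N ≠ X := by
    intro h
    apply hne
    apply le_antisymm hRX
    rw [← (show Subgroup.closure (T ∩ X) = X from hTX), Subgroup.closure_le]
    rintro t ⟨ht, htX⟩
    exact hNA.2 t ht (h ▸ htX)
  obtain ⟨g, hgX, hgN, hgn⟩ := Cher.nc hX hc hNA.1 hNX
  set N' : Subgroup G := N ⊔ Subgroup.closure {g} with hN'
  have hgN' : g ∈ N' := (le_sup_right : _ ≤ N ⊔ Subgroup.closure {g})
    (Subgroup.subset_closure rfl)
  have hN'X : N' ≤ X := sup_le hNA.1 ((Subgroup.closure_le _).2 (by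
    rintro _ rfl; exact hgX))
  have hN'N : N' ≤ Nr N := sup_le (le_Nr N) ((Subgroup.closure_le _).2 (by
    rintro _ rfl; exact hgN))
  have hN'A : N' ∈ A := by
    refine ⟨hN'X, ?_⟩
    intro t ht htN'
    apply hcon t ht (hN'X htN')
    apply nr_of_conj (hX.2 t (hN'X htN'))
    intro r hr
    have hr' : r ∈ Subgroup.closure (T ∩ R) := by
      rw [show Subgroup.closure (T ∩ R) = R from hR]; exact hr
    induction hr' using Subgroup.closure_induction with
    | mem s hs =>
      apply hNA.2 _ (hT s hs.1 t (hN'X htN'))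
      exact (mem_Nr'.1 (hN'N htN') s).1 (hRN hs.2)
    | one => simp
    | mul a b ha hb iha ihb =>
      rw [show Subgroup.closure (T ∩ R) = R from hR] at ha hb
      have : t⁻¹ * (a * b) * t = (t⁻¹ * a * t) * (t⁻¹ * b * t) := by group
      rw [this]; exact mul_mem (iha ha) (ihb hb)
    | inv a ha iha =>
      rw [show Subgroup.closure (T ∩ R) = R from hR] at ha
      have : t⁻¹ * a⁻¹ * t = (t⁻¹ * a * t)⁻¹ := by group
      rw [this]; exact inv_mem (iha ha)
  exact hgn (hNmax.le_of_ge hN'A le_sup_left hgN')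

end Pool.Agent.Helper59.EI
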