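import Pool.Agent.Helper59.EI.Final

/-!
# Elementary abelian subgroups of finite rank are finite
-/

set_option autoImplicit false

namespace Pool.Agent.Helper59.EI

universe u

open Pool.Agent.Helper98.Engel

variable {G : Type u} [Group G]

theorem finite_of_finRank {A : Subgroup G} {p : ℕ} (hp : p.Prime) (h1 : ∀ x ∈ A, x ^ p = 1)
    (h2 : ∀ x ∈ A, ∀ y ∈ A, x * y = y * x) (hr : FinRank A) : (A : Set G).Finite := by
  obtain ⟨r, hr⟩ := hr
  by_contra hinf
  obtain ⟨s, hsA, hcard⟩ := (Set.not_finite.1 hinf).exists_subset_card_eq (p ^ r + 1)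
  have hsub : Subgroup.closure (s : Set G) ≤ A := (Subgroup.closure_le A).2 hsA
  obtain ⟨T, hT, hcl⟩ := hr (Subgroup.closure (s : Set G)) hsub ⟨s, rfl⟩
  set H := Subgroup.closure (s : Set G) with hH
  let _ : CommGroup H := { (inferInstance : Group H) with
    mul_comm := fun x y => Subtype.ext (h2 _ (hsub x.2) _ (hsub y.2)) }
  have hfg : Group.FG H := (Group.fg_iff_subgroup_fg H).2 ⟨s, rfl⟩
  have hd := card_dvd_exponent_pow_rank' (G := H) (n := p) (by
    intro g
    exact Subtype.ext (by simpa using h1 _ (hsub g.2)))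
  have hrank : Group.rank H ≤ r := by
    refine le_trans ?_ hT
    have h3 : Group.FG (Subgroup.closure (T : Set G)) := by rw [hcl]; exact hfg
    have h4 := Subgroup.rank_closure_finset_le_card T
    have h5 := Subgroup.rank_congr hcl
    exact h5.symm.le.trans h4
  have hcH : Nat.card H ≤ p ^ r := by
    refine (Nat.le_of_dvd (pow_pos hp.pos _) hd).trans (Nat.pow_le_pow_right hp.pos hrank)
  have hne : Nat.card H ≠ 0 := by
    intro h0
    rw [h0, zero_dvd_iff] at hd
    exact absurd hd (pow_pos hp.pos _).ne'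
  have hfin : Finite H := Nat.finite_of_card_ne_zero hne
  have hs' : s.card ≤ Nat.card H := by
    have h3 : (s : Set G) ⊆ (H : Set G) := Subgroup.subset_closure
    have h4 := Set.ncard_le_ncard h3 (Set.toFinite _)
    rw [Set.ncard_coe_finset] at h4
    exact h4
  omega

/-- elements of a locally nilpotent normal subgroup are left Engel -/
theorem engel_of_locNil {N : Subgroup G} (hN : N.Normal) (hl : LocallyNilpotent N) {g : G}
    (hg : g ∈ N) : IsLeftEngel g := by
  classical
  intro x
  have h1 : x⁻¹ * g⁻¹ * x * g ∈ N := by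
    have h2 := hN.conj_mem g⁻¹ (N.inv_mem hg) x⁻¹
    rw [inv_inv] at h2
    exact N.mul_mem h2 hg
  set y := x⁻¹ * g⁻¹ * x * g with hy
  have h2 := hl (Subgroup.closure (({g, y} : Finset G) : Set G)) (by
    rw [Subgroup.closure_le]
    intro z hz
    simp only [Finset.coe_insert, Finset.coe_singleton, Set.mem_insert_iff,
      Set.mem_singleton_iff] at hz
    rcases hz with rfl | rfl
    · exact hg
    · exact h1) ⟨_, rfl⟩
  obtain ⟨n, hn⟩ := eng_of_nilpotent h2 (g := g) (x := y) (Subgroup.subset_closure (by simp))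
    (Subgroup.subset_closure (by simp))
  exact ⟨n + 1, by rw [eng_succ']; exact hn⟩

theorem closure_or_one {p : G → Prop} :
    Subgroup.closure {x : G | x ≠ 1 ∧ p x} = Subgroup.closure {x : G | p x} := by
  apply le_antisymm
  · exact Subgroup.closure_mono (fun x hx => hx.2)
  · rw [Subgroup.closure_le]
    intro x hx
    by_cases h : x = 1
    · rw [h]
      exact Subgroup.one_mem _
    · exact Subgroup.subset_closure ⟨h, hx⟩

end Pool.Agent.Helper59.EI
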