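import Pool.Agent.Helper59.EI.Defs

/-!
# EI-26a. The subgroup `[P, a]` (all but the cover lemma)
-/

set_option autoImplicit false

namespace Pool.Agent.Helper59.EI

universe u

variable {G : Type u} [Group G] {P : Subgroup G} {a : G}

private theorem conj_mem (ha : a ∈ Nr P) {y : G} (hy : y ∈ P) : a⁻¹ * y * a ∈ P :=
  ((mem_Nr').1 ha y).1 hy

theorem mem_Rr' (hP : Dv 2 P) (ha : a ∈ Nr P) {x : G} :
    x ∈ Rr P a ↔ ∃ y ∈ P, x = y⁻¹ * (a⁻¹ * y * a) := by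
  constructor
  · intro hx
    induction hx using Subgroup.closure_induction with
    | mem x hx => exact hx
    | one => exact ⟨1, P.one_mem, by group⟩
    | mul x y _ _ hx hy =>
      obtain ⟨u, hu, rfl⟩ := hx
      obtain ⟨v, hv, rfl⟩ := hy
      refine ⟨u * v, P.mul_mem hu hv, ?_⟩
      have hu' := conj_mem ha hu
      have h1 := hP.comm (a⁻¹ * u * a) hu' v⁻¹ (P.inv_mem hv)
      have h2 := hP.comm u⁻¹ (P.inv_mem hu) v⁻¹ (P.inv_mem hv)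
      calc u⁻¹ * (a⁻¹ * u * a) * (v⁻¹ * (a⁻¹ * v * a))
          = u⁻¹ * ((a⁻¹ * u * a) * v⁻¹) * (a⁻¹ * v * a) := by group
        _ = (u⁻¹ * v⁻¹) * (a⁻¹ * u * a) * (a⁻¹ * v * a) := by rw [h1]; group
        _ = (v⁻¹ * u⁻¹) * (a⁻¹ * u * a) * (a⁻¹ * v * a) := by rw [h2]
        _ = (u * v)⁻¹ * (a⁻¹ * (u * v) * a) := by group
    | inv x _ hx =>
      obtain ⟨u, hu, rfl⟩ := hx
      refine ⟨u⁻¹, P.inv_mem hu, ?_⟩
      have h1 := hP.comm u hu (a⁻¹ * u⁻¹ * a) (conj_mem ha (P.inv_mem hu))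
      calc (u⁻¹ * (a⁻¹ * u * a))⁻¹ = (a⁻¹ * u⁻¹ * a) * u := by group
        _ = u * (a⁻¹ * u⁻¹ * a) := h1.symm
        _ = u⁻¹⁻¹ * (a⁻¹ * u⁻¹ * a) := by rw [inv_inv]
  · rintro ⟨y, hy, rfl⟩
    exact Subgroup.subset_closure ⟨y, hy, rfl⟩

theorem Rr_le' (ha : a ∈ Nr P) : Rr P a ≤ P := by
  rw [Rr, Subgroup.closure_le]
  rintro x ⟨y, hy, rfl⟩
  exact P.mul_mem (P.inv_mem hy) (conj_mem ha hy)

theorem Rr_Dv' (hP : Dv 2 P) (ha : a ∈ Nr P) : Dv 2 (Rr P a) where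
  comm := fun x hx y hy => hP.comm x (Rr_le' ha hx) y (Rr_le' ha hy)
  pel := fun x hx => hP.pel x (Rr_le' ha hx)
  div := by
    intro x hx
    obtain ⟨y, hy, rfl⟩ := (mem_Rr' hP ha).1 hx
    obtain ⟨w, hw, rfl⟩ := hP.div y hy
    refine ⟨w⁻¹ * (a⁻¹ * w * a), (mem_Rr' hP ha).2 ⟨w, hw, rfl⟩, ?_⟩
    have h1 := hP.comm (a⁻¹ * w * a) (conj_mem ha hw) w⁻¹ (P.inv_mem hw)
    calc (w⁻¹ * (a⁻¹ * w * a)) ^ 2 = w⁻¹ * ((a⁻¹ * w * a) * w⁻¹) * (a⁻¹ * w * a) := by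
          rw [pow_two]; group
      _ = w⁻¹ * (w⁻¹ * (a⁻¹ * w * a)) * (a⁻¹ * w * a) := by rw [h1]
      _ = (w ^ 2)⁻¹ * (a⁻¹ * w ^ 2 * a) := by rw [pow_two]; group

theorem Rr_inv' (hP : Dv 2 P) (ha : a ∈ Nr P) (h2 : a * a = 1) {x : G} (hx : x ∈ Rr P a) :
    a * x * a = x⁻¹ := by
  obtain ⟨y, _, rfl⟩ := (mem_Rr' hP ha).1 hx
  have hinv : a⁻¹ = a := inv_eq_of_mul_eq_one_right h2
  calc a * (y⁻¹ * (a⁻¹ * y * a)) * a = a * y⁻¹ * a⁻¹ * y * (a * a) := by group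
    _ = a⁻¹ * y⁻¹ * a * y := by rw [h2, mul_one, hinv]
    _ = (y⁻¹ * (a⁻¹ * y * a))⁻¹ := by group

theorem Rr_conj' (P : Subgroup G) (a : G) (f : G ≃* G) :
    Rr (P.map f.toMonoidHom) (f a) = (Rr P a).map f.toMonoidHom := by
  rw [Rr, Rr, MonoidHom.map_closure]
  congr 1
  ext x
  constructor
  · rintro ⟨y, ⟨z, hz, rfl⟩, rfl⟩
    refine ⟨z⁻¹ * (a⁻¹ * z * a), ⟨z, hz, rfl⟩, ?_⟩
    simp [map_mul, map_inv]
  · rintro ⟨_, ⟨z, hz, rfl⟩, rfl⟩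
    refine ⟨f z, ⟨z, hz, rfl⟩, ?_⟩
    simp [map_mul, map_inv]

end Pool.Agent.Helper59.EI
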