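import Pool.Agent.Helper59.EI.RrA
import Pool.Agent.Helper59.EI.Cover

/-!
# EI-26. The subgroup `[P, a]`
-/

set_option autoImplicit false

namespace Pool.Agent.Helper59.EI

universe u

variable {G : Type u} [Group G] {P : Subgroup G} {a : G}

theorem mem_Rr (hP : Dv 2 P) (ha : a ∈ Nr P) {x : G} :
    x ∈ Rr P a ↔ ∃ y ∈ P, x = y⁻¹ * (a⁻¹ * y * a) :=
  mem_Rr' hP ha

theorem Rr_le (ha : a ∈ Nr P) : Rr P a ≤ P :=
  Rr_le' ha

theorem Rr_Dv (hP : Dv 2 P) (ha : a ∈ Nr P) : Dv 2 (Rr P a) :=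
  Rr_Dv' hP ha

theorem Rr_inv (hP : Dv 2 P) (ha : a ∈ Nr P) (h2 : a * a = 1) {x : G} (hx : x ∈ Rr P a) :
    a * x * a = x⁻¹ :=
  Rr_inv' hP ha h2 hx

theorem Rr_conj (P : Subgroup G) (a : G) (f : G ≃* G) :
    Rr (P.map f.toMonoidHom) (f a) = (Rr P a).map f.toMonoidHom :=
  Rr_conj' P a f

/-- Cover lemma: `T` normal set of involutions, `R` divisible inverted by `a`. -/
theorem cover {T : Set G} (h : IT T) {R : Subgroup G} (ha : a ∈ T) (hR : Dv 2 R)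
    (hinv : ∀ r ∈ R, a * r * a = r⁻¹) {E : Set G} (hE : E.Finite)
    (hcov : ∀ r ∈ R, ∃ z ∈ E, z ≠ 1 ∧ a * r * z ∈ T ∧ z * (a * r) = a * r * z) :
    ∃ z ∈ E, z ≠ 1 ∧ a * z ∈ T ∧ z * a = a * z ∧ ∀ r ∈ R, z * r = r * z :=
  cover' h ha hR hinv hE hcov

end Pool.Agent.Helper59.EI
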