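import Pool.Agent.Helper59.EI.Sec

/-!
# EI-12. Reduction to (G3)
-/

set_option autoImplicit false

namespace Pool.Agent.Helper59.EI

universe u

theorem s2 {G : Type u} [Group G] {T : Set G} (h : Base G T) :
    ∃ (K : Type u) (_ : Group K) (T' : Set K), Base K T' ∧ G3 T' := by
  haveI := h.cnt
  set F : Set (Subgroup G) := {P | Dv 2 P ∧ ¬ LF (Subgroup.closure (TN T P))} with hF
  have hbot : (⊥ : Subgroup G) ∈ F := by
    refine ⟨Dv_bot 2, ?_⟩
    intro hLF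
    apply h.bad
    rw [← h.gen]
    refine hLF.mono ?_
    rw [Subgroup.closure_le]
    intro t ht
    refine Subgroup.subset_closure ⟨ht, ?_⟩
    rw [mem_Nr]
    intro x
    rw [Subgroup.mem_bot, Subgroup.mem_bot]
    constructor
    · rintro rfl
      group
    · intro h1
      have h2 : x = t⁻¹ * (t * x * t⁻¹) * t := by group
      rw [h2, h1]
      group
  obtain ⟨P, _, hP, hmax⟩ : ∃ P, ⊥ ≤ P ∧ P ∈ F ∧ ∀ Q ∈ F, P ≤ Q → Q ≤ P := by
    obtain ⟨P, hP1, hP2⟩ := zorn_le_nonempty₀ F (by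
      intro c hcF hc y hy
      have h1 : sSup c ∈ c := Dv.acc h.thin ⟨y, hy⟩ hc.directedOn (fun H hH => (hcF hH).1)
      exact ⟨sSup c, hcF h1, fun z hz => le_sSup hz⟩) ⊥ hbot
    exact ⟨P, bot_le, hP2.1, fun Q hQ hPQ => hP2.2 hQ hPQ⟩
  have hST : TN T P ⊆ T := fun t ht => ht.1
  have hSA : ∀ s ∈ TN T P, s ∈ Nr P := fun s hs => hs.2
  have hSS : ∀ s ∈ TN T P, ∀ s' ∈ TN T P, s' * s * s' ∈ TN T P := by
    intro s hs s' hs'
    refine ⟨?_, (Nr P).mul_mem ((Nr P).mul_mem hs'.2 hs.2) hs'.2⟩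
    have h1 := h.conj s hs.1 s'
    rwa [h.toIT.inv_eq hs'.1] at h1
  have hWP : Subgroup.closure (TN T P) ⊔ P ≤ Nr P := by
    refine sup_le ?_ (le_Nr P)
    rw [Subgroup.closure_le]
    exact hSA
  haveI : (P.subgroupOf (Subgroup.closure (TN T P) ⊔ P)).Normal :=
    Subgroup.normal_subgroupOf_iff_le_normalizer le_sup_right |>.2 hWP
  let f := QuotientGroup.mk' (P.subgroupOf (Subgroup.closure (TN T P) ⊔ P))
  have hf : Function.Surjective f := QuotientGroup.mk'_surjective _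
  have hk : ∀ x, f x = 1 ↔ (x : G) ∈ P := by
    intro x
    change ((x : _) : _ ⧸ (P.subgroupOf (Subgroup.closure (TN T P) ⊔ P))) = 1 ↔ _
    rw [QuotientGroup.eq_one_iff, Subgroup.mem_subgroupOf]
  refine ⟨_, inferInstance, img f (TN T P), ?_, ?_⟩
  · exact base_quot h.thin h.toIT hP.1.toLP hST hSA hSS hP.2 f hf hk
  · refine g3_quot h.thin h.toIT hP.1.toLP hST hSA ?_ f hf hk
    intro Q hQ hD hQP
    have hPQ : P ≤ Q := hD P hP.1 le_rfl
    by_contra hbad
    apply hQP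
    refine hmax Q ⟨hQ, ?_⟩ hPQ
    intro hLF
    apply hbad
    refine hLF.mono ?_
    rw [Subgroup.closure_le]
    rintro s ⟨hs1, hs2⟩
    exact Subgroup.subset_closure ⟨hs1.1, hs2⟩

end Pool.Agent.Helper59.EI
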