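import Pool.Agent.Helper59.EI.Bs
import Pool.Agent.Helper59.EI.DvApi

/-!
# EI-11b. Sections: (G3) for the quotient
-/

set_option autoImplicit false

namespace Pool.Agent.Helper59.EI.SecB

open Pool.Agent.Helper59.EI

universe u

variable {G : Type u} [Group G]

/-- the image of `S`, without `1` (the same as `img` of Sec.lean) -/
def img {H : Subgroup G} {K : Type u} [Group K] (f : H →* K) (S : Set G) : Set K :=
  {x | x ≠ 1 ∧ ∃ s : H, (s : G) ∈ S ∧ f s = x}

theorem lf_sub {W : Subgroup G} {H : Subgroup W} (h : LF (H.map W.subtype)) : LF H := by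
  refine LF.of_map W.subtype h ?_
  apply LF_of_finite
  have h1 : H ⊓ W.subtype.ker = ⊥ := by
    rw [Subgroup.ker_subtype, inf_bot_eq]
  rw [h1]
  exact Set.finite_singleton 1

theorem lp_sub {p : ℕ} {W : Subgroup G} {H : Subgroup W} (h : LP p (H.map W.subtype)) :
    LP p H := by
  refine ⟨lf_sub h.1, ?_⟩
  intro x hx
  obtain ⟨k, hk⟩ := h.2 (W.subtype x) ⟨x, hx, rfl⟩
  refine ⟨k, W.subtype_injective ?_⟩
  rw [map_pow, hk, map_one]

/-- (G3) for the quotient, general form -/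
theorem g3_gen [Countable G] (ht : Thin 2 G) {T : Set G} (h : IT T) {A : Subgroup G}
    (hA : LP 2 A) {S : Set G} (hST : S ⊆ T) (hSA : ∀ s ∈ S, s ∈ Nr A)
    (h3 : ∀ Q : Subgroup G, Dv 2 Q → (∀ D : Subgroup G, Dv 2 D → D ≤ A → D ≤ Q) → ¬ Q ≤ A →
      LF (Subgroup.closure {s | s ∈ S ∧ s ∈ Nr Q}))
    {K : Type u} [Group K] {W : Subgroup G} (hAW : A ≤ W) (f : W →* K)
    (hf : Function.Surjective f) (hk : ∀ x, f x = 1 ↔ (x : G) ∈ A) : G3 (img f S) := by
  intro Q' hQ' hne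
  set Q : Subgroup G := (Q'.comap f).map W.subtype with hQdef
  have hmapQ : (Q'.comap f).map f = Q' := Subgroup.map_comap_eq_self_of_surjective hf Q'
  have hmemQ : ∀ x : W, (x : G) ∈ Q ↔ f x ∈ Q' := by
    intro x
    constructor
    · rintro ⟨y, hy, hyx⟩
      have : y = x := W.subtype_injective hyx
      rw [← this]
      exact hy
    · intro hx
      exact ⟨x, hx, rfl⟩
  have hQW : Q ≤ W := by
    rintro _ ⟨y, _, rfl⟩
    exact y.2
  have hAQ : A ≤ Q := by
    intro a ha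
    have h1 : f ⟨a, hAW ha⟩ = 1 := (hk _).2 ha
    exact (hmemQ ⟨a, hAW ha⟩).2 (by rw [h1]; exact one_mem _)
  -- `Q` is a locally finite 2-group
  have hker : LP 2 ((Q'.comap f) ⊓ f.ker) := by
    apply lp_sub
    refine hA.mono ?_
    rintro _ ⟨y, hy, rfl⟩
    exact (hk y).1 hy.2
  have hLP1 : LP 2 (Q'.comap f) := by
    refine LP.of_map f ?_ hker
    rw [hmapQ]
    exact hQ'.toLP
  have hLP : LP 2 Q := LP.map W.subtype hLP1
  -- the divisible part
  have hD := hLP.dv_Dv ht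
  have hDi := hLP.dv_index ht
  have hDA : ¬ dv 2 Q ≤ A := by
    intro hle
    have h1 : A.relIndex Q ≠ 0 := by
      intro h0
      have h2 := Subgroup.relIndex_dvd_of_le_left Q hle
      rw [h0] at h2
      exact hDi (Nat.eq_zero_of_zero_dvd h2)
    have hkerA : f.ker = A.comap W.subtype := by
      ext x
      rw [MonoidHom.mem_ker, hk]
      rfl
    have h2 : (⊥ : Subgroup K).relIndex Q' = A.relIndex Q := by
      have h3 : (⊥ : Subgroup K).relIndex ((Q'.comap f).map f) =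
          ((⊥ : Subgroup K).comap f).relIndex (Q'.comap f) := (Subgroup.relIndex_comap _ _ _).symm
      have h4 : (A.comap W.subtype).relIndex (Q'.comap f) = A.relIndex Q :=
        Subgroup.relIndex_comap _ _ _
      rw [hmapQ] at h3
      rw [h3, MonoidHom.comap_bot, hkerA, h4]
    have h3 : Q' ≤ ⊥ := hQ'.le_of_relIndex (by rw [h2]; exact h1)
    exact hne (le_bot_iff.1 h3)
  have hLF := h3 (dv 2 Q) hD (fun D hD1 hDA1 => le_dv hD1 (hDA1.trans hAQ)) hDA
  -- the generators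
  set R : Subgroup W := Subgroup.closure {x : W | (x : G) ∈ S ∧ (x : G) ∈ Nr (dv 2 Q)} with hR
  have hRLF : LF R := by
    apply lf_sub
    refine hLF.mono ?_
    rw [hR, MonoidHom.map_closure, Subgroup.closure_le]
    rintro _ ⟨x, hx, rfl⟩
    exact Subgroup.subset_closure hx
  refine (LF.map f hRLF).mono ?_
  rw [Subgroup.closure_le]
  rintro t' ⟨⟨_, s, hsS, rfl⟩, hnr⟩
  refine ⟨s, Subgroup.subset_closure ⟨hsS, ?_⟩, rfl⟩
  apply dv_nr
  rw [mem_Nr]
  intro x
  rw [mem_Nr] at hnr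
  by_cases hx : x ∈ W
  · have h1 := hmemQ ⟨x, hx⟩
    have h2 := hmemQ (s * ⟨x, hx⟩ * s⁻¹)
    rw [map_mul, map_mul, map_inv] at h2
    have h3 := hnr (f ⟨x, hx⟩)
    rw [show x = ((⟨x, hx⟩ : W) : G) from rfl]
    refine h1.trans (h3.trans ?_)
    rw [← h2]
    simp
  · constructor
    · intro h1
      exact absurd (hQW h1) hx
    · intro h1
      exfalso
      apply hx
      have h2 := hQW h1
      have h4 : ((s : G))⁻¹ * ((s : G) * x * (s : G)⁻¹) * (s : G) ∈ W :=
        W.mul_mem (W.mul_mem (W.inv_mem s.2) h2) s.2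
      have h5 : ((s : G))⁻¹ * ((s : G) * x * (s : G)⁻¹) * (s : G) = x := by group
      rwa [h5] at h4

/-- (G3) for the quotient -/
theorem g3_quot [Countable G] (ht : Thin 2 G) {T : Set G} (h : IT T) {A : Subgroup G}
    (hA : LP 2 A) {S : Set G} (hST : S ⊆ T) (hSA : ∀ s ∈ S, s ∈ Nr A)
    (h3 : ∀ Q : Subgroup G, Dv 2 Q → (∀ D : Subgroup G, Dv 2 D → D ≤ A → D ≤ Q) → ¬ Q ≤ A →
      LF (Subgroup.closure {s | s ∈ S ∧ s ∈ Nr Q}))
    {K : Type u} [Group K] (f : ↥(Subgroup.closure S ⊔ A) →* K) (hf : Function.Surjective f)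
    (hk : ∀ x, f x = 1 ↔ (x : G) ∈ A) : G3 (img f S) :=
  g3_gen ht h hA hST hSA h3 le_sup_right f hf hk

end Pool.Agent.Helper59.EI.SecB
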