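import Pool.Agent.Helper59.EI.Bs
import Pool.Agent.Helper59.EI.DvApi
import Pool.Agent.Helper59.EI.SecB

/-!
# EI-11. Sections
-/

set_option autoImplicit false

namespace Pool.Agent.Helper59.EI

universe u

variable {G : Type u} [Group G]

/-- the image of `S`, without `1` -/
def img {H : Subgroup G} {K : Type u} [Group K] (f : H →* K) (S : Set G) : Set K :=
  {x | x ≠ 1 ∧ ∃ s : H, (s : G) ∈ S ∧ f s = x}

namespace SecA

/-- the elements acting on `S` modulo `A` -/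
private def PP (A : Subgroup G) (S : Set G) (h : G) : Prop :=
  ∀ s ∈ S, ∃ s' ∈ S, s'⁻¹ * (h⁻¹ * s * h) ∈ A

private theorem PP.mul {A : Subgroup G} {S : Set G} {g h : G} (hh : h ∈ Nr A) (h1 : PP A S g)
    (h2 : PP A S h) : PP A S (g * h) := by
  intro s hs
  obtain ⟨s1, hs1, ha1⟩ := h1 s hs
  obtain ⟨s2, hs2, ha2⟩ := h2 s1 hs1
  refine ⟨s2, hs2, ?_⟩
  have h3 : h⁻¹ * (s1⁻¹ * (g⁻¹ * s * g)) * h ∈ A := (mem_Nr'.1 hh _).1 ha1
  have h4 := A.mul_mem ha2 h3
  have h5 : s2⁻¹ * (h⁻¹ * s1 * h) * (h⁻¹ * (s1⁻¹ * (g⁻¹ * s * g)) * h) =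
      s2⁻¹ * ((g * h)⁻¹ * s * (g * h)) := by group
  rwa [h5] at h4

private def MM (A : Subgroup G) (S : Set G) : Subgroup G where
  carrier := {h | h ∈ Nr A ∧ PP A S h ∧ PP A S h⁻¹}
  mul_mem' := by
    rintro a b ⟨ha1, ha2, ha3⟩ ⟨hb1, hb2, hb3⟩
    refine ⟨(Nr A).mul_mem ha1 hb1, ha2.mul hb1 hb2, ?_⟩
    rw [mul_inv_rev]
    exact hb3.mul ((Nr A).inv_mem ha1) ha3
  one_mem' := by
    have h1 : PP A S 1 := by
      intro s hs
      refine ⟨s, hs, ?_⟩
      have : s⁻¹ * (1⁻¹ * s * 1) = 1 := by group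
      rw [this]
      exact A.one_mem
    refine ⟨(Nr A).one_mem, h1, ?_⟩
    rw [inv_one]
    exact h1
  inv_mem' := by
    rintro a ⟨ha1, ha2, ha3⟩
    refine ⟨(Nr A).inv_mem ha1, ha3, ?_⟩
    rwa [inv_inv]

private theorem le_MM {T : Set G} (h : IT T) {A : Subgroup G} {S : Set G} (hST : S ⊆ T)
    (hSA : ∀ s ∈ S, s ∈ Nr A) (hSS : ∀ s ∈ S, ∀ s' ∈ S, s' * s * s' ∈ S) :
    Subgroup.closure S ⊔ A ≤ MM A S := by
  refine sup_le ((Subgroup.closure_le _).2 ?_) ?_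
  · intro t ht
    have hti : t⁻¹ = t := h.inv_eq (hST ht)
    have h1 : PP A S t := by
      intro s hs
      refine ⟨t * s * t, hSS s hs t ht, ?_⟩
      rw [hti, inv_mul_cancel]
      exact A.one_mem
    refine ⟨hSA t ht, h1, ?_⟩
    rw [hti]
    exact h1
  · have key : ∀ a ∈ A, PP A S a := by
      intro a ha s hs
      refine ⟨s, hs, ?_⟩
      have h1 : s⁻¹ * a⁻¹ * s ∈ A := (mem_Nr'.1 (hSA s hs) _).1 (A.inv_mem ha)
      have h2 := A.mul_mem h1 ha
      have h3 : s⁻¹ * a⁻¹ * s * a = s⁻¹ * (a⁻¹ * s * a) := by group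
      rwa [h3] at h2
    intro a ha
    exact ⟨le_Nr A ha, key a ha, key a⁻¹ (A.inv_mem ha)⟩

private theorem thin_quot [Countable G] (ht : Thin 2 G) {A : Subgroup G} (hA : LP 2 A)
    {K : Type u} [Group K] {W : Subgroup G} (f : W →* K)
    (hf : Function.Surjective f) (hk : ∀ x, f x = 1 ↔ (x : G) ∈ A) : Thin 2 K := by
  intro Q' hQ1 hQ2
  set Q : Subgroup G := (Q'.comap f).map W.subtype with hQdef
  have hmapQ : (Q'.comap f).map f = Q' := Subgroup.map_comap_eq_self_of_surjective hf Q'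
  have hker : LP 2 ((Q'.comap f) ⊓ f.ker) := by
    apply SecB.lp_sub
    refine hA.mono ?_
    rintro _ ⟨y, hy, rfl⟩
    exact (hk y).1 hy.2
  have hQLP : LP 2 Q' := LP_of_comm hQ2 fun x hx => ⟨1, by rw [pow_one]; exact hQ1 x hx⟩
  have hLP1 : LP 2 (Q'.comap f) := by
    refine LP.of_map f ?_ hker
    rw [hmapQ]
    exact hQLP
  have hLP : LP 2 Q := LP.map W.subtype hLP1
  have hD := hLP.dv_Dv ht
  have hDi := hLP.dv_index ht
  have hDA : dv 2 Q ≤ A := by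
    intro x hx
    obtain ⟨y, hy, rfl⟩ := hD.div x hx
    obtain ⟨w, hw, rfl⟩ := dv_le 2 Q hy
    have h1 : f (w ^ 2) = 1 := by
      rw [map_pow]
      exact hQ1 _ hw
    exact (hk (w ^ 2)).1 h1
  have h1 : A.relIndex Q ≠ 0 := by
    intro h0
    have h2 := Subgroup.relIndex_dvd_of_le_left Q hDA
    rw [h0] at h2
    exact hDi (Nat.eq_zero_of_zero_dvd h2)
  have hkerA : f.ker = A.comap W.subtype := by
    ext x
    rw [MonoidHom.mem_ker, hk]
    rfl
  have h2 : (⊥ : Subgroup K).relIndex Q' = A.relIndex Q := by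
    have h3 : (⊥ : Subgroup K).relIndex ((Q'.comap f).map f) =
        ((⊥ : Subgroup K).comap f).relIndex (Q'.comap f) := (Subgroup.relIndex_comap _ _ _).symm
    have h4 : (A.comap W.subtype).relIndex (Q'.comap f) = A.relIndex Q :=
      Subgroup.relIndex_comap _ _ _
    rw [hmapQ] at h3
    rw [h3, MonoidHom.comap_bot, hkerA, h4]
  rw [Subgroup.relIndex_bot_left] at h2
  have h3 : Nat.card Q' ≠ 0 := by rw [h2]; exact h1
  have h4 : Finite Q' := (Nat.card_ne_zero.1 h3).2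
  exact Set.toFinite _

end SecA

open SecA in
/-- Section lemma: the quotient of `⟨S⟩ A` by `A` is again a countable counterexample. -/
theorem base_quot [Countable G] (ht : Thin 2 G) {T : Set G} (h : IT T) {A : Subgroup G}
    (hA : LP 2 A) {S : Set G} (hST : S ⊆ T) (hSA : ∀ s ∈ S, s ∈ Nr A)
    (hSS : ∀ s ∈ S, ∀ s' ∈ S, s' * s * s' ∈ S) (hbad : ¬ LF (Subgroup.closure S))
    {K : Type u} [Group K] (f : ↥(Subgroup.closure S ⊔ A) →* K) (hf : Function.Surjective f)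
    (hk : ∀ x, f x = 1 ↔ (x : G) ∈ A) : Base K (img f S) := by
  have hSW : ∀ s ∈ S, s ∈ Subgroup.closure S ⊔ A := fun s hs =>
    (le_sup_left : Subgroup.closure S ≤ _) (Subgroup.subset_closure hs)
  have hAW : ∀ a ∈ A, a ∈ Subgroup.closure S ⊔ A := fun a ha =>
    (le_sup_right : A ≤ Subgroup.closure S ⊔ A) ha
  refine { ne := ?_, inv := ?_, conj := ?_, two := ?_, cnt := ?_, thin := ?_, gen := ?_,
           bad := ?_ }
  · intro t ht
    exact ht.1
  · rintro _ ⟨_, s, hs, rfl⟩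
    rw [← map_mul]
    have : s * s = 1 := Subtype.ext (h.inv s (hST hs))
    rw [this, map_one]
  · rintro _ ⟨hne, s, hs, rfl⟩ g
    obtain ⟨w, rfl⟩ := hf g
    refine ⟨?_, ?_⟩
    · intro h1
      apply hne
      have h2 : f s = f w * ((f w)⁻¹ * f s * f w) * (f w)⁻¹ := by group
      rw [h2, h1]
      group
    · have h1 := (le_MM h hST hSA hSS w.2).2.1
      obtain ⟨s', hs', ha⟩ := h1 s hs
      refine ⟨⟨s', hSW s' hs'⟩, hs', ?_⟩
      have h2 : f ((⟨s', hSW s' hs'⟩ : ↥(Subgroup.closure S ⊔ A))⁻¹ * (w⁻¹ * s * w)) = 1 :=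
        (hk _).2 ha
      rw [map_mul, map_inv, inv_mul_eq_one] at h2
      rw [h2, map_mul, map_mul, map_inv]
  · rintro _ ⟨_, s, hs, rfl⟩ _ ⟨_, s', hs', rfl⟩
    rw [← map_mul]
    apply PEl.map
    obtain ⟨k, hk'⟩ := h.two s (hST hs) s' (hST hs')
    exact ⟨k, Subtype.ext hk'⟩
  · exact hf.countable
  · exact thin_quot ht hA f hf hk
  · rw [eq_top_iff]
    intro g _
    obtain ⟨w, rfl⟩ := hf g
    have h1 : Subgroup.closure S ⊔ A ≤
        ((Subgroup.closure (img f S)).comap f).map (Subgroup.closure S ⊔ A).subtype := by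
      refine sup_le ((Subgroup.closure_le _).2 ?_) ?_
      · intro s hs
        refine ⟨⟨s, hSW s hs⟩, ?_, rfl⟩
        change f ⟨s, hSW s hs⟩ ∈ Subgroup.closure (img f S)
        by_cases h2 : f ⟨s, hSW s hs⟩ = 1
        · rw [h2]
          exact Subgroup.one_mem _
        · exact Subgroup.subset_closure ⟨h2, ⟨s, hSW s hs⟩, hs, rfl⟩
      · intro a ha
        refine ⟨⟨a, hAW a ha⟩, ?_, rfl⟩
        change f ⟨a, hAW a ha⟩ ∈ Subgroup.closure (img f S)
        rw [(hk ⟨a, hAW a ha⟩).2 ha]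
        exact Subgroup.one_mem _
    obtain ⟨x, hx, hxw⟩ := h1 w.2
    have h2 : x = w := Subtype.ext hxw
    rw [← h2]
    exact hx
  · intro hLF
    apply hbad
    have h1 : LF (⊤ : Subgroup ↥(Subgroup.closure S ⊔ A)) := by
      refine LF.of_map f (hLF.mono le_top) ?_
      apply SecB.lf_sub
      refine hA.1.mono ?_
      rintro _ ⟨y, hy, rfl⟩
      exact (hk y).1 hy.2
    exact (LF_top_iff.1 h1).mono le_sup_left

/-- (G3) for the quotient -/
theorem g3_quot [Countable G] (ht : Thin 2 G) {T : Set G} (h : IT T) {A : Subgroup G}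
    (hA : LP 2 A) {S : Set G} (hST : S ⊆ T) (hSA : ∀ s ∈ S, s ∈ Nr A)
    (h3 : ∀ Q : Subgroup G, Dv 2 Q → (∀ D : Subgroup G, Dv 2 D → D ≤ A → D ≤ Q) → ¬ Q ≤ A →
      LF (Subgroup.closure {s | s ∈ S ∧ s ∈ Nr Q}))
    {K : Type u} [Group K] (f : ↥(Subgroup.closure S ⊔ A) →* K) (hf : Function.Surjective f)
    (hk : ∀ x, f x = 1 ↔ (x : G) ∈ A) : G3 (img f S) :=
  SecB.g3_quot ht h hA hST hSA h3 f hf hk

end Pool.Agent.Helper59.EI
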