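import Pool.Agent.Helper59.EI.Fin
import Pool.Agent.Helper59.EI.Sec

/-!
# EI-16, EI-17. Reduction to the core situation
-/

set_option autoImplicit false

namespace Pool.Agent.Helper59.EI

universe u

private theorem s4_map_conj {G : Type u} [Group G] {N : Subgroup G} {g : G} (hg : g ∈ Nr N) :
    N.map (MulAut.conj g).toMonoidHom = N := by
  ext x
  constructor
  · rintro ⟨y, hy, rfl⟩
    exact (mem_Nr.1 hg y).1 hy
  · intro hx
    refine ⟨g⁻¹ * x * g, (mem_Nr'.1 hg x).1 hx, ?_⟩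
    simp [mul_assoc]

private theorem s4_of_map_conj {G : Type u} [Group G] {N : Subgroup G} {g : G}
    (hg : N.map (MulAut.conj g).toMonoidHom = N) : g ∈ Nr N := by
  rw [mem_Nr]
  intro x
  constructor
  · intro hx
    have : (MulAut.conj g).toMonoidHom x ∈ N.map (MulAut.conj g).toMonoidHom :=
      Subgroup.mem_map_of_mem _ hx
    rw [hg] at this
    simpa using this
  · intro hx
    rw [← hg] at hx
    obtain ⟨y, hy, hyx⟩ := hx
    have h2 : g * y * g⁻¹ = g * x * g⁻¹ := by simpa using hyx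
    have h3 : y = x := by
      have := congrArg (fun z => g⁻¹ * z * g) h2
      simpa [mul_assoc] using this
    rw [← h3]; exact hy

private theorem s4_nr_sup {G : Type u} [Group G] {N M : Subgroup G} {g : G} (h1 : g ∈ Nr N)
    (h2 : g ∈ Nr M) : g ∈ Nr (N ⊔ M) := by
  apply s4_of_map_conj
  rw [Subgroup.map_sup, s4_map_conj h1, s4_map_conj h2]

private theorem s4_nr_sSup {G : Type u} [Group G] {F : Set (Subgroup G)} {g : G}
    (h1 : ∀ N ∈ F, g ∈ Nr N) : g ∈ Nr (sSup F) := by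
  apply s4_of_map_conj
  rw [sSup_eq_iSup, Subgroup.map_iSup]
  refine iSup_congr (fun N => ?_)
  rw [Subgroup.map_iSup]
  exact iSup_congr (fun hN => s4_map_conj (h1 N hN))

/-- EI-16: the largest finite normal 2-subgroup above `A` of `⟨S⟩ A` -/
theorem exists_L {G : Type u} [Group G] {T : Set G} (h : Base G T) (h3 : G3 T)
    {A : Subgroup G} {t : G} (hA : Pr T A t) :
    ∃ L : Subgroup G, A ≤ L ∧ L ≤ Subgroup.closure (Scl T A t) ⊔ A ∧ (L : Set G).Finite ∧
      (∀ x ∈ L, PEl 2 x) ∧ Subgroup.closure (Scl T A t) ⊔ A ≤ Nr L ∧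
      ∀ N : Subgroup G, L ≤ N → N ≤ Subgroup.closure (Scl T A t) ⊔ A → (N : Set G).Finite →
        (∀ x ∈ N, PEl 2 x) → Subgroup.closure (Scl T A t) ⊔ A ≤ Nr N → N ≤ L := by
  haveI : Countable G := h.cnt
  haveI : Fact (Nat.Prime 2) := ⟨Nat.prime_two⟩
  set W : Subgroup G := Subgroup.closure (Scl T A t) ⊔ A with hW
  have hWA : W ≤ Nr A := by
    rw [hW]
    refine sup_le ?_ (le_Nr A)
    rw [Subgroup.closure_le]
    intro s hs
    exact Scl_nr h.toIT hA.mem hA.nr hs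
  set F : Set (Subgroup G) := {N | A ≤ N ∧ N ≤ W ∧ (N : Set G).Finite ∧ (∀ x ∈ N, PEl 2 x) ∧
    W ≤ Nr N} with hF
  have hAF : A ∈ F := ⟨le_rfl, le_sup_right, hA.fin, hA.two, hWA⟩
  have hLPF : ∀ N ∈ F, LP 2 N := fun N hN => ⟨LF_of_finite hN.2.2.1, hN.2.2.2.1⟩
  have hsup : ∀ N ∈ F, ∀ M ∈ F, N ⊔ M ∈ F := by
    intro N hN M hM
    have hlp : LP 2 (N ⊔ M) := (hLPF N hN).sup (hLPF M hM) (hM.2.1.trans hN.2.2.2.2)
    refine ⟨hN.1.trans le_sup_left, sup_le hN.2.1 hM.2.1, ?_, hlp.2, ?_⟩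
    · have h1 := hlp.1 ((N : Set G) ∪ M) (hN.2.2.1.union hM.2.2.1) (by
        intro x hx
        rcases hx with hx | hx
        · exact (le_sup_left : N ≤ N ⊔ M) hx
        · exact (le_sup_right : M ≤ N ⊔ M) hx)
      rw [Subgroup.closure_union, Subgroup.closure_eq, Subgroup.closure_eq] at h1
      exact h1
    · intro g hg
      exact s4_nr_sup (hN.2.2.2.2 hg) (hM.2.2.2.2 hg)
  have hdir : DirectedOn (· ≤ ·) F := by
    intro N hN M hM
    exact ⟨N ⊔ M, hsup N hN M hM, le_sup_left, le_sup_right⟩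
  set L : Subgroup G := sSup F with hL
  have hLlp : LP 2 L := LP.sSupD ⟨A, hAF⟩ hdir hLPF
  have hLW : L ≤ W := sSup_le (fun N hN => hN.2.1)
  have hAL : A ≤ L := le_sSup hAF
  have hNr : W ≤ Nr L := fun g hg => s4_nr_sSup (fun N hN => hN.2.2.2.2 hg)
  have hfin : (L : Set G).Finite := by
    by_contra hinf
    have hne : dv 2 L ≠ ⊥ := LP.dv_ne_bot h.thin hLlp hinf
    have hlf := h3 (dv 2 L) (LP.dv_Dv h.thin hLlp) hne
    apply hA.bad
    apply hlf.mono
    rw [Subgroup.closure_le]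
    intro s hs
    apply Subgroup.subset_closure
    refine ⟨hs.1, ?_⟩
    apply dv_nr
    apply hNr
    exact (le_sup_left : Subgroup.closure (Scl T A t) ≤ W) (Subgroup.subset_closure hs)
  refine ⟨L, hAL, hLW, hfin, hLlp.2, hNr, ?_⟩
  intro N hLN hNW hNf hN2 hNN
  exact le_sSup (show N ∈ F from ⟨hAL.trans hLN, hNW, hNf, hN2, hNN⟩)

end Pool.Agent.Helper59.EI
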