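import Pool.Agent.Helper59.EI.S4

/-!
# EI-17. Reduction to the core situation
-/

set_option autoImplicit false

namespace Pool.Agent.Helper59.EI

universe u

private theorem s4b_pel_of_pow {G : Type u} [Group G] {x : G} {k : ℕ} (h : PEl 2 (x ^ 2 ^ k)) :
    PEl 2 x := by
  obtain ⟨j, hj⟩ := h
  exact ⟨k + j, by rw [pow_add, pow_mul]; exact hj⟩

/-- `L ⟨a⟩` is a finite 2-group -/
private theorem s4b_B {G : Type u} [Group G] {L : Subgroup G} (hf : (L : Set G).Finite)
    (hp : ∀ x ∈ L, PEl 2 x) {a : G} (ha : a * a = 1) (hn : a ∈ Nr L) :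
    ((L ⊔ Subgroup.zpowers a : Subgroup G) : Set G).Finite ∧
      ∀ x ∈ L ⊔ Subgroup.zpowers a, PEl 2 x := by
  have hzz : ∀ x ∈ Subgroup.zpowers a, x = 1 ∨ x = a := by
    intro x hx
    obtain ⟨n, rfl⟩ := Subgroup.mem_zpowers_iff.1 hx
    rcases Int.even_or_odd' n with ⟨m, rfl | rfl⟩
    · left
      rw [zpow_mul]
      have : a ^ (2 : ℤ) = 1 := by
        rw [zpow_ofNat, pow_two]; exact ha
      rw [this, one_zpow]
    · right
      rw [zpow_add, zpow_mul]
      have : a ^ (2 : ℤ) = 1 := by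
        rw [zpow_ofNat, pow_two]; exact ha
      rw [this, one_zpow, one_mul, zpow_one]
  have hz : ((Subgroup.zpowers a : Subgroup G) : Set G).Finite :=
    (Set.toFinite {1, a}).subset (fun x hx => by
      rcases hzz x hx with h | h
      · simp [h]
      · simp [h])
  have hLP : LP 2 L := ⟨LF_of_finite hf, hp⟩
  have hZP : LP 2 (Subgroup.zpowers a) := by
    refine ⟨LF_of_finite hz, ?_⟩
    intro x hx
    rcases hzz x hx with h | h
    · rw [h]; exact PEl_one 2
    · rw [h]; exact ⟨1, by rw [pow_one, pow_two]; exact ha⟩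
  have hB : LP 2 (L ⊔ Subgroup.zpowers a) :=
    hLP.sup hZP (by rw [Subgroup.zpowers_le]; exact hn)
  refine ⟨?_, hB.2⟩
  have h1 := hB.1 ((L : Set G) ∪ ((Subgroup.zpowers a : Subgroup G) : Set G)) (hf.union hz)
    (by
      rintro x (hx | hx)
      · exact (le_sup_left : L ≤ _) hx
      · exact (le_sup_right : Subgroup.zpowers a ≤ _) hx)
  rwa [Subgroup.closure_union, Subgroup.closure_eq, Subgroup.closure_eq] at h1

theorem s4 {G : Type u} [Group G] {T : Set G} (h : Base G T) (h3 : G3 T) :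
    ∃ (K : Type u) (_ : Group K) (T' : Set K), Core K T' := by
  obtain ⟨A, t, hF⟩ := exists_final h
  obtain ⟨L, hAL, hLW, hLfin, hLp, hWL, hmax⟩ := exists_L h h3 hF.toPr
  have := h.cnt
  set S : Set G := Scl T A t with hS
  have hIT : IT T := h.toIT
  have hWW : Subgroup.closure S ⊔ L = Subgroup.closure S ⊔ A :=
    le_antisymm (sup_le le_sup_left hLW) (sup_le_sup_left hAL _)
  have hLP : LP 2 L := ⟨LF_of_finite hLfin, hLp⟩
  have hST : S ⊆ T := fun s hs => hs.1
  have hScl : Subgroup.closure S ≤ Subgroup.closure S ⊔ A := le_sup_left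
  have hSA : ∀ s ∈ S, s ∈ Nr L := fun s hs => hWL (hScl (Subgroup.subset_closure hs))
  have hSS : ∀ s ∈ S, ∀ s' ∈ S, s' * s * s' ∈ S := fun s hs s' hs' =>
    Scl_conj hIT hF.mem hF.nr hs hs'
  have hbad : ¬ LF (Subgroup.closure S) := hF.bad
  have hWnr : Subgroup.closure S ⊔ L ≤ Nr L := hWW ▸ hWL
  have hnor : (L.subgroupOf (Subgroup.closure S ⊔ L)).Normal := by
    constructor
    rintro ⟨n, hnW⟩ hn ⟨g, hgW⟩
    rw [Subgroup.mem_subgroupOf] at hn ⊢
    exact (mem_Nr.1 (hWnr hgW) n).1 hn
  let K : Type u := ↥(Subgroup.closure S ⊔ L) ⧸ (L.subgroupOf (Subgroup.closure S ⊔ L))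
  let f : ↥(Subgroup.closure S ⊔ L) →* K :=
    QuotientGroup.mk' (L.subgroupOf (Subgroup.closure S ⊔ L))
  have hfs : Function.Surjective f := QuotientGroup.mk'_surjective _
  have hk : ∀ x, f x = 1 ↔ (x : G) ∈ L := by
    intro x
    change ((x : ↥(Subgroup.closure S ⊔ L) ⧸ (L.subgroupOf (Subgroup.closure S ⊔ L)))) = 1 ↔ _
    rw [QuotientGroup.eq_one_iff, Subgroup.mem_subgroupOf]
  have hbase : Base K (img f S) := base_quot h.thin hIT hLP hST hSA hSS hbad f hfs hk
  refine ⟨K, inferInstance, img f S, ?_⟩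
  refine { hbase with g3 := ?_, g2 := ?_, nf := ?_ }
  · -- (G3)
    refine g3_quot h.thin hIT hLP hST hSA ?_ f hfs hk
    intro Q hQ _ hQL
    have hne : Q ≠ ⊥ := by
      rintro rfl
      exact hQL bot_le
    refine (h3 Q hQ hne).mono (Subgroup.closure_mono ?_)
    intro s hs
    exact ⟨hST hs.1, hs.2⟩
  · -- (G2)
    rintro a' ⟨ha1, s, hsS, rfl⟩
    have haL : (s : G) ∉ L := fun hc => ha1 ((hk s).2 hc)
    have haa : (s : G) * (s : G) = 1 := hIT.inv _ (hST hsS)
    obtain ⟨hBf, hBp⟩ := s4b_B hLfin hLp haa (hSA _ hsS)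
    set B : Subgroup G := L ⊔ Subgroup.zpowers (s : G) with hBdef
    have hLB : L ≤ B := le_sup_left
    have haB : (s : G) ∈ B := (le_sup_right : Subgroup.zpowers (s : G) ≤ B)
      (Subgroup.mem_zpowers _)
    have hAB : A ≤ B := hAL.trans hLB
    have hY : LF (Subgroup.closure {x | x ∈ Scl T A t ∧ x ∈ Nr B}) := by
      refine L1 hIT hF.mem hF.nr hAB hBf ?_
      intro t' ht' htB
      by_contra hc
      have hPr : Pr T B t' := ⟨hBf, hBp, ht'.1, htB, hc⟩
      exact haL (hAL (hF.final B t' hPr hAB ht' _ haB hsS))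
    set Y : Subgroup G := Subgroup.closure {x | x ∈ Scl T A t ∧ x ∈ Nr B} with hYdef
    have hY' : LF (Y.subgroupOf (Subgroup.closure S ⊔ L)) := by
      refine LF.of_map (Subgroup.subtype _) ?_ ?_
      · refine hY.mono ?_
        rintro _ ⟨y, hy, rfl⟩
        exact hy
      · rw [Subgroup.ker_subtype, inf_bot_eq]
        exact LF_of_finite (by simp)
    refine (hY'.map f).mono ?_
    unfold KK
    rw [Subgroup.closure_le]
    rintro _ ⟨⟨_, s', hs'S, rfl⟩, hcomm⟩
    refine ⟨s', ?_, rfl⟩
    change (s' : G) ∈ Y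
    apply Subgroup.subset_closure
    refine ⟨hs'S, ?_⟩
    have hs's' : (s' : G) * (s' : G) = 1 := hIT.inv _ (hST hs'S)
    have hinv : (s' : G)⁻¹ = (s' : G) := inv_eq_of_mul_eq_one_right hs's'
    have hcom : (s' : G) * (s : G) * (s' : G)⁻¹ * (s : G)⁻¹ ∈ L := by
      have : f (s' * s * s'⁻¹ * s⁻¹) = 1 := by
        rw [map_mul, map_mul, map_mul, map_inv, map_inv, hcomm]
        group
      exact (hk _).1 this
    have hconj : ∀ x ∈ B, (s' : G) * x * (s' : G)⁻¹ ∈ B := by
      have hle : L ⊔ Subgroup.zpowers (s : G) ≤ B.comap (MulAut.conj (s' : G)).toMonoidHom := by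
        refine sup_le ?_ ?_
        · intro x hx
          have h1 : (s' : G) * x * (s' : G)⁻¹ ∈ B := hLB ((mem_Nr.1 (hSA _ hs'S) x).1 hx)
          exact h1
        · rw [Subgroup.zpowers_le]
          have h1 : (s' : G) * (s : G) * (s' : G)⁻¹ ∈ B := by
            have : (s' : G) * (s : G) * (s' : G)⁻¹ =
                ((s' : G) * (s : G) * (s' : G)⁻¹ * (s : G)⁻¹) * (s : G) := by group
            rw [this]
            exact Subgroup.mul_mem _ (hLB hcom) haB
          exact h1
      intro x hx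
      exact hle hx
    rw [mem_Nr]
    intro x
    constructor
    · exact hconj x
    · intro hx
      have := hconj _ hx
      have he : (s' : G) * ((s' : G) * x * (s' : G)⁻¹) * (s' : G)⁻¹ = x := by
        rw [hinv]
        calc (s' : G) * ((s' : G) * x * (s' : G)) * (s' : G)
            = ((s' : G) * (s' : G)) * x * ((s' : G) * (s' : G)) := by group
          _ = x := by rw [hs's']; group
      rwa [he] at this
  · -- (NF)
    intro N hN hNf hNp
    have hkerfin : {x : ↥(Subgroup.closure S ⊔ L) | (x : G) ∈ L}.Finite :=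
      hLfin.preimage Subtype.val_injective.injOn
    have hcf : ((N.comap f : Subgroup _) : Set ↥(Subgroup.closure S ⊔ L)).Finite := by
      change (f ⁻¹' (N : Set K)).Finite
      refine Set.Finite.preimage' hNf ?_
      intro b _
      obtain ⟨y, rfl⟩ := hfs b
      refine (hkerfin.image (fun x => y * x)).subset ?_
      intro x hx
      refine ⟨y⁻¹ * x, ?_, by simp⟩
      have hx' : f x = f y := hx
      refine (hk _).1 ?_
      rw [map_mul, map_inv, hx', inv_mul_cancel]
    set N' : Subgroup G := (N.comap f).map (Subgroup.subtype _) with hN'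
    have hmem : ∀ w : ↥(Subgroup.closure S ⊔ L), (w : G) ∈ N' ↔ f w ∈ N := by
      intro w
      constructor
      · rintro ⟨w', hw', he⟩
        have : w' = w := Subtype.ext he
        rw [← this]
        exact hw'
      · intro hw
        exact ⟨w, hw, rfl⟩
    have hLW' : L ≤ Subgroup.closure S ⊔ L := le_sup_right
    have hN'L : N' ≤ L := by
      apply hmax N'
      · intro x hx
        have := (hmem ⟨x, hLW' hx⟩).2 (by
          rw [(hk _).2 hx]
          exact N.one_mem)
        exact this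
      · rw [← hWW]
        rintro _ ⟨w, _, rfl⟩
        exact w.2
      · rw [hN', Subgroup.coe_map]
        exact hcf.image _
      · rintro _ ⟨w, hw, rfl⟩
        obtain ⟨k, hk'⟩ := hNp _ hw
        have h1 : (w : G) ^ 2 ^ k ∈ L := by
          have : f (w ^ 2 ^ k) = 1 := by rw [map_pow]; exact hk'
          exact (hk _).1 this
        exact s4b_pel_of_pow (hLp _ h1)
      · rw [← hWW]
        intro g hg
        rw [mem_Nr]
        intro x
        constructor
        · rintro ⟨w, hw, rfl⟩
          refine (hmem (⟨g, hg⟩ * w * ⟨g, hg⟩⁻¹)).2 ?_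
          rw [map_mul, map_mul, map_inv]
          exact hN.conj_mem _ hw _
        · rintro ⟨w, hw, he⟩
          have hx : x = (((⟨g, hg⟩ : ↥(Subgroup.closure S ⊔ L))⁻¹ * w * ⟨g, hg⟩ :
              ↥(Subgroup.closure S ⊔ L)) : G) := by
            have he' : (w : G) = g * x * g⁻¹ := he
            push_cast
            rw [he']
            group
          rw [hx]
          refine (hmem _).2 ?_
          rw [map_mul, map_mul, map_inv]
          have := hN.conj_mem _ hw (f ⟨g, hg⟩)⁻¹
          rwa [inv_inv] at this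
    rw [eq_bot_iff]
    intro x hx
    obtain ⟨w, rfl⟩ := hfs x
    rw [Subgroup.mem_bot]
    exact (hk _).2 (hN'L ((hmem w).2 hx))

end Pool.Agent.Helper59.EI
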