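import Pool.Agent.Helper59.EI.Hit

/-!
# EI-19. The sets `ZZ T a`
-/

set_option autoImplicit false

namespace Pool.Agent.Helper59.EI

universe u

variable {G : Type u} [Group G]

theorem ZZ_ne {T : Set G} (h : IT T) {a z : G} (ha : a ∈ T) (hz : z ∈ ZZ T a) : z ≠ 1 := by
  obtain ⟨b, hb, hne, hc, rfl⟩ := hz
  intro h1
  apply hne
  have h2 := h.inv a ha
  exact (mul_left_cancel (h1.trans h2.symm))

theorem ZZ_sq {T : Set G} (h : IT T) {a z : G} (ha : a ∈ T) (hz : z ∈ ZZ T a) : z * z = 1 := by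
  obtain ⟨b, hb, hne, hc, rfl⟩ := hz
  have h1 : a * b * (a * b) = a * (b * a) * b := by group
  rw [h1, hc, ← mul_assoc, h.inv a ha, one_mul, h.inv b hb]

theorem ZZ_comm {T : Set G} (h : IT T) {a z : G} (ha : a ∈ T) (hz : z ∈ ZZ T a) :
    z * a = a * z := by
  obtain ⟨b, hb, hne, hc, rfl⟩ := hz
  rw [mul_assoc, hc]

theorem ZZ_iff {T : Set G} (h : IT T) {a z : G} (ha : a ∈ T) :
    z ∈ ZZ T a ↔ z ≠ 1 ∧ a * z ∈ T ∧ z * a = a * z := by
  constructor
  · intro hz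
    refine ⟨ZZ_ne h ha hz, ?_, ZZ_comm h ha hz⟩
    obtain ⟨b, hb, hne, hc, rfl⟩ := hz
    rw [← mul_assoc, h.inv a ha, one_mul]
    exact hb
  · rintro ⟨h1, h2, h3⟩
    refine ⟨a * z, h2, ?_, ?_, ?_⟩
    · intro h4
      apply h1
      have h5 : a * z = a * 1 := by rw [h4, mul_one]
      exact mul_left_cancel h5
    · rw [mul_assoc, h3]
    · rw [← mul_assoc, h.inv a ha, one_mul]

theorem ZZ_mem_KK {T : Set G} {a z : G} (ha : a ∈ T) (hz : z ∈ ZZ T a) : z ∈ KK T a := by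
  obtain ⟨b, hb, hne, hc, rfl⟩ := hz
  exact (KK T a).mul_mem (Subgroup.subset_closure ⟨ha, rfl⟩) (Subgroup.subset_closure ⟨hb, hc⟩)

theorem ZZ_conj {T : Set G} (h : IT T) {a : G} (g z : G) :
    z ∈ ZZ T (g⁻¹ * a * g) ↔ g * z * g⁻¹ ∈ ZZ T a := by
  constructor
  · rintro ⟨b, hb, hne, hc, rfl⟩
    refine ⟨g * b * g⁻¹, h.conj' hb g, ?_, ?_, ?_⟩
    · intro h1
      apply hne
      rw [← h1]
      group
    · have h2 : g * (b * (g⁻¹ * a * g)) * g⁻¹ = g * (g⁻¹ * a * g * b) * g⁻¹ := by rw [hc]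
      have h3 : g * b * g⁻¹ * a = g * (b * (g⁻¹ * a * g)) * g⁻¹ := by group
      rw [h3, h2]
      group
    · group
  · rintro ⟨b, hb, hne, hc, e⟩
    refine ⟨g⁻¹ * b * g, h.conj b hb g, ?_, ?_, ?_⟩
    · intro h1
      apply hne
      have h2 : g * (g⁻¹ * b * g) * g⁻¹ = g * (g⁻¹ * a * g) * g⁻¹ := by rw [h1]
      have h3 : g * (g⁻¹ * b * g) * g⁻¹ = b := by group
      have h4 : g * (g⁻¹ * a * g) * g⁻¹ = a := by group
      rwa [h3, h4] at h2
    · have h1 : g⁻¹ * b * g * (g⁻¹ * a * g) = g⁻¹ * (b * a) * g := by group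
      rw [h1, hc]
      group
    · have h1 : z = g⁻¹ * (g * z * g⁻¹) * g := by group
      rw [h1, e]
      group

/-- an involution inverting `w` and its powers -/
private theorem inv_pow_aux {a w : G} (h : a * w = w⁻¹ * a) (n : ℕ) :
    a * w ^ n = (w ^ n)⁻¹ * a := by
  induction n with
  | zero => simp
  | succ k ih =>
    rw [pow_succ, ← mul_assoc, ih, mul_assoc, h, ← mul_assoc, ← mul_inv_rev, ← pow_succ,
      ← pow_succ']

private theorem zab_aux {T : Set G} (h : IT T) {a w : G} (ha : a ∈ T)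
    (hw : a * w = w⁻¹ * a) {k : ℕ} (h1 : w ^ 2 ^ (k + 1) = 1) (h2 : w ^ 2 ^ k ≠ 1)
    (hk : k = 0 → a * w ∈ T) : w ^ 2 ^ k ∈ ZZ T a := by
  have hsq : w ^ 2 ^ k * w ^ 2 ^ k = 1 := by
    rw [← pow_add, ← two_mul, ← pow_succ']
    exact h1
  have hinv : (w ^ 2 ^ k)⁻¹ = w ^ 2 ^ k := inv_eq_of_mul_eq_one_right hsq
  refine (ZZ_iff h ha).2 ⟨h2, ?_, ?_⟩
  · rcases Nat.eq_zero_or_pos k with h0 | h0
    · subst h0
      have := hk rfl
      simpa using this
    · obtain ⟨j, rfl⟩ : ∃ j, k = j + 1 := ⟨k - 1, by omega⟩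
      have h3 : w ^ 2 ^ (j + 1) = w ^ 2 ^ j * w ^ 2 ^ j := by
        rw [← pow_add, ← two_mul, ← pow_succ']
      rw [h3, ← mul_assoc, inv_pow_aux hw]
      exact h.conj a ha _
  · rw [inv_pow_aux hw, hinv]

theorem zab {T : Set G} (h : IT T) {a b : G} (ha : a ∈ T) (hb : b ∈ T) (hab : a ≠ b) :
    (ZZ T a ∩ ZZ T b).Nonempty := by
  classical
  have hP : ∃ k : ℕ, (a * b) ^ 2 ^ k = 1 := h.two a ha b hb
  have hk := Nat.find_spec hP
  have hmin := @Nat.find_min _ _ hP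
  obtain ⟨k, hkk⟩ : ∃ k, Nat.find hP = k := ⟨_, rfl⟩
  rw [hkk] at hk
  have hk0 : k ≠ 0 := by
    intro h0
    subst h0
    apply hab
    rw [pow_zero, pow_one] at hk
    have h2 := h.inv b hb
    exact mul_right_cancel (hk.trans h2.symm)
  obtain ⟨j, rfl⟩ : ∃ j, k = j + 1 := ⟨k - 1, by omega⟩
  have hj : (a * b) ^ 2 ^ j ≠ 1 := hmin (by omega)
  have e1 : (a * b)⁻¹ = b * a := by rw [mul_inv_rev, h.inv_eq ha, h.inv_eq hb]
  have haw : a * (a * b) = (a * b)⁻¹ * a := by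
    rw [e1, ← mul_assoc, h.inv a ha, one_mul, mul_assoc, h.inv a ha, mul_one]
  have hbw : b * (a * b) = (a * b)⁻¹ * b := by
    rw [e1, mul_assoc]
  refine ⟨(a * b) ^ 2 ^ j, zab_aux h ha haw hk hj ?_, zab_aux h hb hbw hk hj ?_⟩
  · intro _
    rw [← mul_assoc, h.inv a ha, one_mul]
    exact hb
  · intro _
    have := h.conj a ha b
    rwa [h.inv_eq hb, mul_assoc] at this

theorem Core.inf {T : Set G} (h : Core G T) {a : G} (ha : a ∈ T) : (TC T a).Infinite := by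
  intro hfin
  have hIT : IT T := h.toBase.toIT
  refine h.hit {A | ∃ b ∈ T, (TC T b).Finite ∧ A = ZZ T b} ⟨ZZ T a, a, ha, hfin, rfl⟩
    ?_ ?_ ?_ ?_
  · rintro A ⟨b, hb, hf, rfl⟩
    refine (hf.image (fun c => b * c)).subset ?_
    rintro z ⟨c, hc, -, hcc, rfl⟩
    exact ⟨c, ⟨hc, hcc⟩, rfl⟩
  · rintro A ⟨b, hb, -, rfl⟩ B ⟨c, hc, -, rfl⟩
    by_cases hbc : b = c
    · subst hbc
      by_cases hex : ∃ d ∈ T, b ≠ d
      · obtain ⟨d, hd, hbd⟩ := hex
        obtain ⟨z, hz, -⟩ := zab hIT hb hd hbd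
        exact ⟨z, hz, hz⟩
      · exfalso
        push Not at hex
        apply h.bad
        apply LF_of_finite
        rw [← h.gen]
        have h1 : Subgroup.closure T ≤ Subgroup.zpowers b := by
          rw [Subgroup.closure_le]
          intro x hx
          rw [← hex x hx]
          exact Subgroup.mem_zpowers b
        have h2 : ((Subgroup.zpowers b : Subgroup G) : Set G).Finite := by
          rw [finite_zpowers, isOfFinOrder_iff_pow_eq_one]
          exact ⟨2, by norm_num, by rw [pow_two]; exact hIT.inv b hb⟩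
        exact h2.subset h1
    · exact zab hIT hb hc hbc
  · rintro A ⟨b, hb, hf, rfl⟩ g
    refine ⟨g⁻¹ * b * g, hIT.conj b hb g, ?_, ?_⟩
    · refine (hf.image (fun c => g⁻¹ * c * g)).subset ?_
      rintro c ⟨hc, hcc⟩
      refine ⟨g * c * g⁻¹, ⟨hIT.conj' hc g, ?_⟩, by group⟩
      have h1 : g * c * g⁻¹ * b = g * (c * (g⁻¹ * b * g)) * g⁻¹ := by group
      rw [h1, hcc]
      group
    · ext z
      exact (ZZ_conj hIT g z).symm
  · rintro A ⟨b, hb, -, rfl⟩ x hx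
    exact ⟨ZZ_ne hIT hb hx, ZZ_sq hIT hb hx⟩

theorem Core.KK_inf {T : Set G} (h : Core G T) {a : G} (ha : a ∈ T) :
    (KK T a : Set G).Infinite :=
  (h.inf ha).mono Subgroup.subset_closure

end Pool.Agent.Helper59.EI
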