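import Pool.Agent.Helper59.EI.Rank

/-!
# Quotients of thin groups by locally finite normal p-subgroups, the 2-radical
-/

set_option autoImplicit false

namespace Pool.Agent.Helper59.EI

universe u

open Pool.Agent.Helper98.Engel

variable {G : Type u} [Group G] {p : ℕ} [Fact p.Prime]

/-- Thinness passes to quotients by locally finite normal `p`-subgroups. -/
theorem thin_quot_LP (ht : Thin p G) (O : Subgroup G) [O.Normal] (hO : LP p O) :
    Thin p (G ⧸ O) := by
  intro A h1 h2
  by_contra hinf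
  -- a sequence of pairwise different elements of `A`
  have hinf' : (A : Set (G ⧸ O)).Infinite := hinf
  obtain ⟨f, hf⟩ : ∃ f : ℕ → G ⧸ O, Function.Injective f ∧ ∀ n, f n ∈ A := by
    have : Infinite A := hinf'.to_subtype
    refine ⟨fun n => ((Infinite.natEmbedding A n : A) : G ⧸ O), ?_, fun n => SetLike.coe_mem _⟩
    intro a b hab
    exact (Infinite.natEmbedding A).injective (Subtype.ext hab)
  obtain ⟨hfi, hfA⟩ := hf
  choose g hg using fun n => QuotientGroup.mk'_surjective O (f n)
  set E := Subgroup.closure (Set.range g) with hE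
  have hcount : Countable E := by
    have h3 : Countable (Set.range g) := Set.countable_range g
    rw [hE, FreeGroup.closure_eq_range]
    exact (FreeGroup.lift ((↑) : Set.range g → G)).rangeRestrict_surjective.countable
  have hEA : E ≤ A.comap (QuotientGroup.mk' O) := by
    rw [hE, Subgroup.closure_le]
    rintro _ ⟨n, rfl⟩
    rw [SetLike.mem_coe, Subgroup.mem_comap, hg]
    exact hfA n
  -- `E` is a locally finite `p`-group
  have hELP : LP p E := by
    apply LP.of_map (QuotientGroup.mk' O)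
    · apply LP_of_comm
      · rintro _ ⟨x, hx, rfl⟩ _ ⟨y, hy, rfl⟩
        exact h2 _ (hEA hx) _ (hEA hy)
      · rintro _ ⟨x, hx, rfl⟩
        exact ⟨1, by rw [pow_one]; exact h1 _ (hEA hx)⟩
    · apply hO.mono
      rw [QuotientGroup.ker_mk']
      exact inf_le_right
  obtain ⟨P, hP, -, -, hPi⟩ := cher (X := E) (LP_top_iff.2 hELP) (ht.sub E)
  -- the image of `P` is trivial
  have hPO : P ≤ (O.subgroupOf E) := by
    intro x hx
    obtain ⟨y, hy, rfl⟩ := hP.div x hx
    rw [Subgroup.mem_subgroupOf]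
    have h3 : QuotientGroup.mk' O ((y ^ p : E) : G) = 1 := by
      rw [Subgroup.coe_pow, map_pow]
      exact h1 _ (hEA y.2)
    exact (QuotientGroup.eq_one_iff _).1 h3
  have hindex : (O.subgroupOf E).relIndex ⊤ ≠ 0 :=
    fun h => hPi (by
      have := Subgroup.relIndex_eq_zero_of_le_left hPO h
      exact this)
  rw [Subgroup.relIndex_top_right] at hindex
  -- so the image of `E` is finite
  have hFI : (O.subgroupOf E).FiniteIndex := ⟨hindex⟩
  have hfin : Finite (E ⧸ (O.subgroupOf E)) := Subgroup.finite_quotient_of_finiteIndex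
  have hinj : Function.Injective
      (fun n : ℕ => (QuotientGroup.mk (⟨g n, Subgroup.subset_closure ⟨n, rfl⟩⟩ : E) :
        E ⧸ (O.subgroupOf E))) := by
    intro a b hab
    apply hfi
    rw [← hg a, ← hg b]
    have h3 := QuotientGroup.eq.1 hab
    rw [Subgroup.mem_subgroupOf] at h3
    exact QuotientGroup.eq.2 (by simpa using h3)
  exact not_injective_infinite_finite _ hinj

/-- The largest locally finite normal `p`-subgroup. -/
theorem exists_Op (G : Type u) [Group G] (p : ℕ) [Fact p.Prime] :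
    ∃ O : Subgroup G, O.Normal ∧ LP p O ∧ ∀ N : Subgroup G, N.Normal → LP p N → N ≤ O := by
  set F : Set (Subgroup G) := {N | N.Normal ∧ LP p N} with hF
  have hne : F.Nonempty := ⟨⊥, inferInstance, (Dv_bot p).toLP⟩
  have hd : DirectedOn (· ≤ ·) F := by
    rintro A ⟨hA1, hA2⟩ B ⟨hB1, hB2⟩
    refine ⟨A ⊔ B, ⟨Subgroup.sup_normal A B, hA2.sup hB2 ?_⟩, le_sup_left, le_sup_right⟩
    intro g _
    rw [mem_Nr]
    intro x
    constructor
    · exact fun hx => hA1.conj_mem x hx g
    · intro hx
      have := hA1.conj_mem _ hx g⁻¹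
      have h3 : g⁻¹ * (g * x * g⁻¹) * g⁻¹⁻¹ = x := by group
      rwa [h3] at this
  refine ⟨sSup F, ?_, LP.sSupD hne hd (fun H hH => hH.2), fun N h1 h2 => le_sSup ⟨h1, h2⟩⟩
  constructor
  intro x hx g
  rw [Subgroup.mem_sSup_of_directedOn hne hd] at hx ⊢
  obtain ⟨N, hN, hxN⟩ := hx
  exact ⟨N, hN, hN.1.conj_mem x hxN g⟩

theorem leftEngel_map {G' : Type u} [Group G'] (f : G →* G') (hf : Function.Surjective f)
    {x : G} (hx : IsLeftEngel x) : IsLeftEngel (f x) := by
  intro y
  obtain ⟨z, rfl⟩ := hf y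
  obtain ⟨n, hn⟩ := hx z
  exact ⟨n, by rw [← map_eng, hn, map_one]⟩

/-- The 2-elements of the Hirsch-Plotkin radical are the 2-elements all of whose powers are left
Engel. -/
theorem two_elements (ht : Thin 2 G) :
    ∃ O : Subgroup G, O.Normal ∧ LP 2 O ∧ (∀ N : Subgroup G, N.Normal → LP 2 N → N ≤ O) ∧
      ∀ x : G, x ∈ O ↔ PEl 2 x ∧ ∀ i : ℕ, IsLeftEngel (x ^ 2 ^ i) := by
  have : Fact (Nat.Prime 2) := ⟨Nat.prime_two⟩
  obtain ⟨O, hO, hO2, hmax⟩ := exists_Op G 2
  refine ⟨O, hO, hO2, hmax, ?_⟩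
  intro x
  constructor
  · intro hx
    exact ⟨hO2.2 x hx, fun i => engel_of_locNil hO hO2.locNil (O.pow_mem hx _)⟩
  · rintro ⟨⟨k, hk⟩, hx⟩
    by_contra hxO
    -- the last power outside `O`
    have hex : ∃ i, x ^ 2 ^ i ∈ O := ⟨k, by rw [hk]; exact O.one_mem⟩
    classical
    obtain ⟨j, hj⟩ : ∃ j, Nat.find hex = j + 1 := by
      apply Nat.exists_eq_succ_of_ne_zero
      intro h0
      have := Nat.find_spec hex
      rw [h0, pow_zero, pow_one] at this
      exact hxO this
    have h1 : x ^ 2 ^ j ∉ O := Nat.find_min hex (by omega)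
    have h2 : x ^ 2 ^ (j + 1) ∈ O := by
      have := Nat.find_spec hex
      rwa [hj] at this
    have hth : Thin 2 (G ⧸ O) := thin_quot_LP ht O hO2
    have hIT := engel_IT (G := G ⧸ O)
    have hLP := thm1 hth hIT
    have hmem : QuotientGroup.mk' O (x ^ 2 ^ j) ∈
        Subgroup.closure {x : G ⧸ O | x ≠ 1 ∧ x * x = 1 ∧ IsLeftEngel x} := by
      apply Subgroup.subset_closure
      refine ⟨?_, ?_, leftEngel_map _ (QuotientGroup.mk'_surjective O) (hx j)⟩
      · intro h
        exact h1 ((QuotientGroup.eq_one_iff _).1 h)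
      · rw [← map_mul, ← pow_add, ← two_mul, ← pow_succ']
        exact (QuotientGroup.eq_one_iff _).2 h2
    have hN := IT_closure_normal hIT.conj
    have hN' : (Subgroup.closure {x : G ⧸ O | x ≠ 1 ∧ x * x = 1 ∧ IsLeftEngel x}).comap
        (QuotientGroup.mk' O) ≤ O := by
      apply hmax _ (hN.comap _)
      apply LP.of_map (QuotientGroup.mk' O)
      · rw [Subgroup.map_comap_eq_self_of_surjective (QuotientGroup.mk'_surjective O)]
        exact hLP
      · apply hO2.mono
        rw [QuotientGroup.ker_mk']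
        exact inf_le_right
    exact h1 (hN' hmem)

end Pool.Agent.Helper59.EI
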