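import Pool.Agent.Helper59.EI.S2
import Pool.Agent.Helper59.EI.S4b
import Pool.Agent.Helper59.EI.LemXY

/-!
# EI-29. Theorem 1
-/

set_option autoImplicit false

namespace Pool.Agent.Helper59.EI

universe u

theorem no_base {G : Type u} [Group G] {T : Set G} (h : Base G T) : False := by
  obtain ⟨K, _, T', hb, h3⟩ := s2 h
  obtain ⟨K', _, T'', hc⟩ := s4 hb h3
  exact no_core hc

/-- If all elementary abelian 2-subgroups of `G` are finite and `T` is a normal set of involutions
the product of any two of which is a 2-element, then `T` generates a locally finite 2-group. -/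
theorem thm1 {G : Type u} [Group G] (ht : Thin 2 G) {T : Set G} (h : IT T) :
    LP 2 (Subgroup.closure T) := by
  have key : ∀ s' : Set G, s'.Finite → s' ⊆ T → LF (Subgroup.closure s') := by
    intro s' hs' hsT
    by_contra hbad
    have hcount : Countable (Subgroup.closure s') := by
      have h1 : Countable s' := hs'.countable
      rw [FreeGroup.closure_eq_range]
      exact (FreeGroup.lift ((↑) : s' → G)).rangeRestrict_surjective.countable
    have hgen : Subgroup.closure {x : Subgroup.closure s' | (x : G) ∈ T} = ⊤ := by
      apply Subgroup.map_injective (Subgroup.closure s').subtype_injective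
      rw [MonoidHom.map_closure, ← MonoidHom.range_eq_map, Subgroup.range_subtype]
      apply le_antisymm
      · rw [Subgroup.closure_le]
        rintro _ ⟨x, _, rfl⟩
        exact x.2
      · rw [Subgroup.closure_le]
        intro x hx
        exact Subgroup.subset_closure ⟨⟨x, Subgroup.subset_closure hx⟩, hsT hx, rfl⟩
    have hIT : IT {x : Subgroup.closure s' | (x : G) ∈ T} := by
      refine ⟨?_, ?_, ?_, ?_⟩
      · rintro t ht rfl
        exact h.ne _ ht rfl
      · intro t ht
        exact Subtype.ext (h.inv _ ht)
      · intro t ht g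
        exact h.conj _ ht g
      · intro a ha b hb
        obtain ⟨k, hk⟩ := h.two _ ha _ hb
        exact ⟨k, Subtype.ext (by simpa using hk)⟩
    exact no_base (G := Subgroup.closure s') (T := {x | (x : G) ∈ T})
      { toIT := hIT
        cnt := hcount
        thin := ht.sub _
        gen := hgen
        bad := fun hh => hbad (LF_top_iff.1 hh) }
  have key2 : ∀ x ∈ Subgroup.closure T, ∃ s' : Set G, s'.Finite ∧ s' ⊆ T ∧
      x ∈ Subgroup.closure s' := by
    intro x hx
    induction hx using Subgroup.closure_induction with
    | mem x hx => exact ⟨{x}, Set.finite_singleton x, by simpa using hx,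
        Subgroup.subset_closure rfl⟩
    | one => exact ⟨∅, Set.finite_empty, Set.empty_subset _, Subgroup.one_mem _⟩
    | mul x y _ _ hx hy =>
      obtain ⟨s, h1, h2, h3⟩ := hx
      obtain ⟨s', h1', h2', h3'⟩ := hy
      exact ⟨s ∪ s', h1.union h1', Set.union_subset h2 h2',
        Subgroup.mul_mem _ (Subgroup.closure_mono Set.subset_union_left h3)
          (Subgroup.closure_mono Set.subset_union_right h3')⟩
    | inv x _ hx =>
      obtain ⟨s, h1, h2, h3⟩ := hx
      exact ⟨s, h1, h2, Subgroup.inv_mem _ h3⟩
  apply h.lp (S := T) subset_rfl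
  intro s hs hsT
  choose! F hF using key2
  have h1 : (⋃ x ∈ s, F x).Finite := hs.biUnion (fun x hx => (hF x (hsT hx)).1)
  have h2 : (⋃ x ∈ s, F x) ⊆ T := Set.iUnion₂_subset (fun x hx => (hF x (hsT hx)).2.1)
  refine key _ h1 h2 s hs ?_
  intro x hx
  exact Subgroup.closure_mono (Set.subset_biUnion_of_mem hx) (hF x (hsT hx)).2.2

end Pool.Agent.Helper59.EI
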