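import Pool.Agent.Helper59.EI.LemF
import Pool.Agent.Helper59.EI.RrL

/-!
# EI-27. The sets `Z1 T a` and `FF T a`
-/

set_option autoImplicit false

namespace Pool.Agent.Helper59.EI

universe u

variable {G : Type u} [Group G]

/-- `[P, a]`, `P` the divisible part of `MM T a` -/
noncomputable def RA (T : Set G) (a : G) : Subgroup G := Rr (dv 2 (MM T a)) a

/-- `a` has maximal `[P, a]` -/
def Sh (T : Set G) (a : G) : Prop :=
  a ∈ T ∧ ∀ b ∈ T, MM T b = MM T a → om 2 (RA T b) ≤ om 2 (RA T a)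

/-- the elements of `ZZ T a` centralising `[P, a]` -/
def Z1 (T : Set G) (a : G) : Set G := {z | z ∈ ZZ T a ∧ ∀ r ∈ RA T a, z * r = r * z}

/-- the union of the `Z1 T b`, `b` with `MM T b = MM T a` and `[P, b]` maximal -/
def FF (T : Set G) (a : G) : Set G := {z | ∃ b, Sh T b ∧ MM T b = MM T a ∧ z ∈ Z1 T b}

theorem Core.Z1_comm {T : Set G} (h : Core G T) {a z : G} (ha : Sh T a) (hz : z ∈ Z1 T a) :
    ∀ y ∈ dv 2 (MM T a), z * y = y * z := by
  have : Countable G := h.cnt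
  have : Fact (Nat.Prime 2) := ⟨Nat.prime_two⟩
  obtain ⟨⟨b, hb, hba, hcomm, rfl⟩, hzR⟩ := hz
  have haT : a ∈ T := ha.1
  have hMM : MM T b = MM T a := h.lemF hb haT hcomm
  have haa : a * a = 1 := h.inv a haT
  have hbb : b * b = 1 := h.inv b hb
  have hai : a⁻¹ = a := h.toIT.inv_eq haT
  have hbi : b⁻¹ = b := h.toIT.inv_eq hb
  set P : Subgroup G := dv 2 (MM T a) with hP
  have hDv : Dv 2 P := LP.dv_Dv h.thin (h.lp (h.MM_isM haT))
  have haP : a ∈ Nr P := dv_nr (le_Nr _ (h.mem_MM haT))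
  have hbM : b ∈ MM T a := by
    have := h.mem_MM hb
    rwa [hMM] at this
  have hbP : b ∈ Nr P := dv_nr (le_Nr _ hbM)
  have hRa : RA T a = Rr P a := rfl
  have hRb : RA T b = Rr P b := by
    unfold RA
    rw [hMM]
  have hDRa : Dv 2 (Rr P a) := Rr_Dv hDv haP
  have hDRb : Dv 2 (Rr P b) := Rr_Dv hDv hbP
  rw [hRa] at hzR
  -- `b` inverts `Rr P a`
  have hbinv : ∀ x ∈ Rr P a, b * x * b = x⁻¹ := by
    intro x hx
    have h1 : a * x * a = x⁻¹ := Rr_inv hDv haP haa hx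
    have h2 : a * b * x = x * (a * b) := hzR x hx
    have h3 : b * x * b = a * (a * b * x) * b := by
      have : a * (a * b * x) * b = (a * a) * (b * x * b) := by simp only [mul_assoc]
      rw [this, haa, one_mul]
    rw [h3, h2]
    have h4 : a * (x * (a * b)) * b = (a * x * a) * (b * b) := by simp only [mul_assoc]
    rw [h4, hbb, mul_one, h1]
  have hle : Rr P a ≤ Rr P b := by
    intro x hx
    obtain ⟨r, hr, hrx⟩ := hDRa.div x hx
    rw [mem_Rr hDv hbP]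
    refine ⟨r⁻¹, (Subgroup.inv_mem _ (Rr_le haP hr)), ?_⟩
    rw [hbi, inv_inv]
    have h1 : b * r⁻¹ * b = r := by
      have := hbinv r⁻¹ (Subgroup.inv_mem _ hr)
      rwa [inv_inv] at this
    rw [h1, ← hrx, pow_two]
  have hom : om 2 (Rr P b) ≤ om 2 (Rr P a) := by
    have := ha.2 b hb hMM
    rwa [hRa, hRb] at this
  have heq : Rr P a = Rr P b := Dv.eq_of_om h.thin hDRa hDRb hle hom
  have hzz : (a * b) * (a * b) = 1 := by
    have h1 : (a * b) * (a * b) = a * (b * a) * b := by simp only [mul_assoc]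
    rw [h1, hcomm]
    have h2 : a * (a * b) * b = (a * a) * (b * b) := by simp only [mul_assoc]
    rw [h2, haa, hbb, mul_one]
  have hzi : (a * b)⁻¹ = a * b := inv_eq_of_mul_eq_one_right hzz
  -- the map `e`
  have hconjP : ∀ y ∈ P, (a * b) * y * (a * b) ∈ P := by
    intro y hy
    have h1 : a * b ∈ Nr P := Subgroup.mul_mem _ haP hbP
    have h2 := (mem_Nr.1 h1 y).1 hy
    rwa [hzi] at h2
  have he : ∀ y ∈ P, y⁻¹ * ((a * b) * y * (a * b)) ∈ Rr P a := by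
    intro y hy
    have h1 : y⁻¹ * (b * y * b) ∈ Rr P a := by
      rw [heq, mem_Rr hDv hbP]
      exact ⟨y, hy, by rw [hbi]⟩
    have h2 : y⁻¹ * (a * y * a) ∈ Rr P a := by
      rw [mem_Rr hDv haP]
      exact ⟨y, hy, by rw [hai]⟩
    have h3 : a * (y⁻¹ * (b * y * b)) * a = (y⁻¹ * (b * y * b))⁻¹ := Rr_inv hDv haP haa h1
    have h4 : y⁻¹ * ((a * b) * y * (a * b)) =
        (y⁻¹ * (a * y * a)) * (a * (y⁻¹ * (b * y * b)) * a) := by
      have e1 : (y⁻¹ * (a * y * a)) * (a * (y⁻¹ * (b * y * b)) * a) =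
          y⁻¹ * (a * y * (a * a) * y⁻¹ * (b * y * b) * a) := by simp only [mul_assoc]
      rw [e1, haa]
      have e2 : y⁻¹ * (a * y * 1 * y⁻¹ * (b * y * b) * a) = y⁻¹ * (a * b * y * (b * a)) := by
        group
      rw [e2, hcomm]
    rw [h4, h3]
    exact Subgroup.mul_mem _ h2 (Subgroup.inv_mem _ h1)
  have he2 : ∀ y ∈ P, (y⁻¹ * ((a * b) * y * (a * b))) * (y⁻¹ * ((a * b) * y * (a * b))) = 1 := by
    intro y hy
    have h1 := hzR _ (he y hy)
    -- z e = e z, so z * e * z = e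
    set z := a * b with hz
    clear_value z
    have h2 : z * (y⁻¹ * (z * y * z)) * z = y⁻¹ * (z * y * z) := by
      rw [h1, mul_assoc, hzz, mul_one]
    have h3 : z * (y⁻¹ * (z * y * z)) * z = (z * y⁻¹ * z) * y := by
      have e1 : z * (y⁻¹ * (z * y * z)) * z = (z * y⁻¹ * z) * y * (z * z) := by
        simp only [mul_assoc]
      rw [e1, hzz, mul_one]
    have h4 : z * y⁻¹ * z = (z * y * z)⁻¹ := by
      rw [mul_inv_rev, mul_inv_rev, hzi]
      simp only [mul_assoc]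
    rw [h3, h4] at h2
    -- (z y z)⁻¹ y = y⁻¹ (z y z)
    have h5 : (y⁻¹ * (z * y * z)) * (y⁻¹ * (z * y * z)) =
        y⁻¹ * (z * y * z) * ((z * y * z)⁻¹ * y) := by rw [h2]
    rw [h5]
    group
  intro y hy
  obtain ⟨w, hw, hwy⟩ := hDv.div y hy
  set z := a * b with hz
  clear_value z
  have hc1 : (w⁻¹ * (z * w * z)) * w⁻¹ = w⁻¹ * (w⁻¹ * (z * w * z)) :=
    hDv.comm _ (Rr_le haP (he w hw)) _ (Subgroup.inv_mem _ hw)
  have h1 : y⁻¹ * (z * y * z) = (w⁻¹ * (z * w * z)) * (w⁻¹ * (z * w * z)) := by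
    rw [← mul_assoc (w⁻¹ * (z * w * z)) w⁻¹ (z * w * z), hc1, ← hwy, pow_two]
    have e1 : z * (w * w) * z = (z * w * z) * (z * w * z) := by
      have : (z * w * z) * (z * w * z) = z * w * (z * z) * w * z := by simp only [mul_assoc]
      rw [this, hzz, mul_one]
      simp only [mul_assoc]
    rw [e1, mul_inv_rev]
    simp only [mul_assoc]
  rw [he2 w hw] at h1
  have h2 : z * y * z = y := by
    have := congrArg (fun t => y * t) h1
    simpa using this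
  calc z * y = (z * y * z) * z := by rw [mul_assoc (z * y) z z, hzz, mul_one]
    _ = y * z := by rw [h2]

theorem Core.FF_fin {T : Set G} (h : Core G T) {a : G} (ha : a ∈ T) : (FF T a).Finite := by
  have : Countable G := h.cnt
  have : Fact (Nat.Prime 2) := ⟨Nat.prime_two⟩
  refine (LP.fin_omega h.thin (h.lp (h.MM_isM ha))).subset ?_
  rintro z ⟨b, hSb, hMM, hz⟩
  have hcomm := h.Z1_comm hSb hz
  rw [hMM] at hcomm
  obtain ⟨⟨b', hb', hne, hcc, rfl⟩, -⟩ := hz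
  refine ⟨?_, ?_, hcomm⟩
  · rw [← hMM]
    refine Subgroup.mul_mem _ (h.mem_MM hSb.1) (h.KK_le hSb.1 ?_)
    exact Subgroup.subset_closure ⟨hb', hcc⟩
  · have h1 : b * b = 1 := h.inv b hSb.1
    have h2 : b' * b' = 1 := h.inv b' hb'
    have h3 : (b * b') ^ 2 = b * (b' * b) * b' := by rw [pow_two]; simp only [mul_assoc]
    rw [h3, hcc]
    have h4 : b * (b * b') * b' = (b * b) * (b' * b') := by simp only [mul_assoc]
    rw [h4, h1, h2, mul_one]

theorem Core.Z1_fin {T : Set G} (h : Core G T) {a : G} (ha : Sh T a) : (Z1 T a).Finite :=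
  (h.FF_fin ha.1).subset (fun _ hz => ⟨a, ha, rfl, hz⟩)


/-! ## auxiliary facts for `exists_Sh` and the conjugation lemmas -/

theorem eq_map_conj {X Y : Subgroup G} {g : G} (h : ∀ x, x ∈ Y ↔ g * x * g⁻¹ ∈ X) :
    Y = X.map (MulAut.conj g⁻¹).toMonoidHom := by
  ext x
  rw [h x, Subgroup.mem_map]
  constructor
  · intro hx
    refine ⟨g * x * g⁻¹, hx, ?_⟩
    show g⁻¹ * (g * x * g⁻¹) * g⁻¹⁻¹ = x
    group
  · rintro ⟨y, hy, rfl⟩
    have : g * ((MulAut.conj g⁻¹).toMonoidHom y) * g⁻¹ = y := by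
      show g * (g⁻¹ * y * g⁻¹⁻¹) * g⁻¹ = y
      group
    rwa [this]

theorem mem_map_conj {X : Subgroup G} {g x : G} :
    x ∈ X.map (MulAut.conj g⁻¹).toMonoidHom ↔ g * x * g⁻¹ ∈ X := by
  rw [Subgroup.mem_map]
  constructor
  · rintro ⟨y, hy, rfl⟩
    have : g * ((MulAut.conj g⁻¹).toMonoidHom y) * g⁻¹ = y := by
      show g * (g⁻¹ * y * g⁻¹⁻¹) * g⁻¹ = y
      group
    rwa [this]
  · intro hx
    refine ⟨g * x * g⁻¹, hx, ?_⟩
    show g⁻¹ * (g * x * g⁻¹) * g⁻¹⁻¹ = x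
    group

theorem om_conj {X Y : Subgroup G} {g : G} (h : ∀ x, x ∈ Y ↔ g * x * g⁻¹ ∈ X) :
    om 2 Y = om 2 X := by
  unfold om
  refine Nat.card_congr ?_
  refine (MulAut.conj g).toEquiv.subtypeEquiv ?_
  intro x
  show (x ∈ Y ∧ x ^ 2 = 1) ↔ (g * x * g⁻¹ ∈ X ∧ (g * x * g⁻¹) ^ 2 = 1)
  rw [h x, conj_pow]
  refine and_congr_right fun _ => ?_
  constructor
  · intro hx
    rw [hx, mul_one, mul_inv_cancel]
  · intro hx
    have h1 : x ^ 2 = g⁻¹ * (g * x ^ 2 * g⁻¹) * g := by group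
    rw [h1, hx]
    group

theorem om_mono_of_thin (ht : Thin 2 G) {X P : Subgroup G} (hP : Dv 2 P) (hX : X ≤ P) :
    om 2 X ≤ om 2 P := by
  let A : Subgroup G :=
    { carrier := {x | x ∈ P ∧ x ^ 2 = 1}
      mul_mem' := by
        rintro x y ⟨hx, hx2⟩ ⟨hy, hy2⟩
        refine ⟨P.mul_mem hx hy, ?_⟩
        rw [(show Commute x y from hP.comm x hx y hy).mul_pow, hx2, hy2, mul_one]
      one_mem' := ⟨P.one_mem, one_pow 2⟩
      inv_mem' := by
        rintro x ⟨hx, hx2⟩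
        exact ⟨P.inv_mem hx, by rw [inv_pow, hx2, inv_one]⟩ }
  have hA : (A : Set G).Finite :=
    ht A (fun x hx => hx.2) (fun x hx y hy => hP.comm x hx.1 y hy.1)
  have : Finite {x : G // x ∈ P ∧ x ^ 2 = 1} := hA
  unfold om
  exact Nat.card_le_card_of_injective
    (fun x : {x : G // x ∈ X ∧ x ^ 2 = 1} =>
      (⟨x.1, hX x.2.1, x.2.2⟩ : {x : G // x ∈ P ∧ x ^ 2 = 1}))
    (fun x y hxy => Subtype.ext (congrArg (fun z => z.1) hxy))

theorem MM_eq_conj {T : Set G} (h : Core G T) {a b : G} (ha : a ∈ T) (hb : b ∈ T) {g : G}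
    (hab : MM T (g⁻¹ * b * g) = MM T (g⁻¹ * a * g)) : MM T b = MM T a := by
  ext x
  have h1 := h.MM_conj ha g (g⁻¹ * x * g)
  have h2 := h.MM_conj hb g (g⁻¹ * x * g)
  have e : g * (g⁻¹ * x * g) * g⁻¹ = x := by group
  rw [e] at h1 h2
  rw [← h2, ← h1, hab]

theorem MM_eq_conj' {T : Set G} (h : Core G T) {a b : G} (ha : a ∈ T) (hb : b ∈ T) (g : G)
    (hab : MM T b = MM T a) : MM T (g⁻¹ * b * g) = MM T (g⁻¹ * a * g) := by
  ext x
  rw [h.MM_conj ha g x, h.MM_conj hb g x, hab]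

theorem Core.exists_Sh {T : Set G} (h : Core G T) {a : G} (ha : a ∈ T) :
    ∃ b, Sh T b ∧ MM T b = MM T a := by
  have : Countable G := h.cnt
  have hD : Dv 2 (dv 2 (MM T a)) := (h.lp (h.MM_isM ha)).dv_Dv h.thin
  let S : Set ℕ := {n | ∃ b ∈ T, MM T b = MM T a ∧ om 2 (RA T b) = n}
  have hne : S.Nonempty := ⟨_, a, ha, rfl, rfl⟩
  have hbd : ∀ b ∈ T, MM T b = MM T a → om 2 (RA T b) ≤ om 2 (dv 2 (MM T a)) := by
    intro b hb hba
    refine om_mono_of_thin h.thin hD ?_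
    have h1 : b ∈ Nr (dv 2 (MM T b)) := dv_nr (le_Nr _ (h.mem_MM hb))
    have h2 : RA T b ≤ dv 2 (MM T b) := Rr_le h1
    rwa [hba] at h2
  have hba : BddAbove S := ⟨om 2 (dv 2 (MM T a)), by
    rintro n ⟨b, hb, hba, rfl⟩
    exact hbd b hb hba⟩
  obtain ⟨b, hb, hMb, hbn⟩ := Nat.sSup_mem hne hba
  refine ⟨b, ⟨hb, fun c hc hcb => ?_⟩, hMb⟩
  rw [hbn]
  exact le_csSup hba ⟨c, hc, hcb.trans hMb, rfl⟩

theorem Core.RA_conj {T : Set G} (h : Core G T) {a : G} (ha : a ∈ T) (g x : G) :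
    x ∈ RA T (g⁻¹ * a * g) ↔ g * x * g⁻¹ ∈ RA T a := by
  have e1 : MM T (g⁻¹ * a * g) = (MM T a).map (MulAut.conj g⁻¹).toMonoidHom :=
    eq_map_conj (h.MM_conj ha g)
  have e2 : g⁻¹ * a * g = (MulAut.conj g⁻¹) a := by
    show g⁻¹ * a * g = g⁻¹ * a * g⁻¹⁻¹
    rw [inv_inv]
  have e3 : RA T (g⁻¹ * a * g) = (RA T a).map (MulAut.conj g⁻¹).toMonoidHom := by
    unfold RA
    rw [e1, dv_conj]
    conv_lhs => rw [e2]
    rw [Rr_conj]
  rw [e3, mem_map_conj]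

theorem Core.Sh_conj {T : Set G} (h : Core G T) {a : G} (ha : Sh T a) (g : G) :
    Sh T (g⁻¹ * a * g) := by
  refine ⟨h.conj a ha.1 g, fun b hb hba => ?_⟩
  have hb' : g * b * g⁻¹ ∈ T := h.toIT.conj' hb g
  have e : g⁻¹ * (g * b * g⁻¹) * g = b := by group
  have h1 : MM T (g * b * g⁻¹) = MM T a := by
    refine MM_eq_conj h ha.1 hb' (g := g) ?_
    rw [e, hba]
  have h2 := ha.2 _ hb' h1
  have h3 : om 2 (RA T b) = om 2 (RA T (g * b * g⁻¹)) := by
    refine om_conj (g := g) fun x => ?_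
    have := h.RA_conj hb' g x
    rwa [e] at this
  have h4 : om 2 (RA T (g⁻¹ * a * g)) = om 2 (RA T a) :=
    om_conj (g := g) fun x => h.RA_conj ha.1 g x
  rw [h3, h4]
  exact h2

theorem Core.Z1_conj {T : Set G} (h : Core G T) {a : G} (ha : a ∈ T) (g x : G) :
    x ∈ Z1 T (g⁻¹ * a * g) ↔ g * x * g⁻¹ ∈ Z1 T a := by
  refine and_congr (ZZ_conj h.toIT g x) ?_
  constructor
  · intro hx r hr
    have e : g * (g⁻¹ * r * g) * g⁻¹ = r := by group
    have h1 := hx (g⁻¹ * r * g) ((h.RA_conj ha g _).2 (by rwa [e]))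
    have h2 := congrArg (fun y => g * y * g⁻¹) h1
    have e1 : g * (x * (g⁻¹ * r * g)) * g⁻¹ = g * x * g⁻¹ * r := by group
    have e2 : g * (g⁻¹ * r * g * x) * g⁻¹ = r * (g * x * g⁻¹) := by group
    rwa [e1, e2] at h2
  · intro hx r hr
    have h1 := hx (g * r * g⁻¹) ((h.RA_conj ha g r).1 hr)
    have h2 := congrArg (fun y => g⁻¹ * y * g) h1
    have e1 : g⁻¹ * (g * x * g⁻¹ * (g * r * g⁻¹)) * g = x * r := by group
    have e2 : g⁻¹ * (g * r * g⁻¹ * (g * x * g⁻¹)) * g = r * x := by group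
    rwa [e1, e2] at h2

theorem Core.FF_conj {T : Set G} (h : Core G T) {a : G} (ha : a ∈ T) (g x : G) :
    x ∈ FF T (g⁻¹ * a * g) ↔ g * x * g⁻¹ ∈ FF T a := by
  constructor
  · rintro ⟨b, hb, hba, hx⟩
    have hb' : g * b * g⁻¹ ∈ T := h.toIT.conj' hb.1 g
    have e : g⁻¹ * (g * b * g⁻¹) * g = b := by group
    refine ⟨g * b * g⁻¹, ?_, ?_, ?_⟩
    · have := h.Sh_conj hb g⁻¹
      rwa [inv_inv] at this
    · refine MM_eq_conj h ha hb' (g := g) ?_
      rw [e, hba]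
    · rw [← h.Z1_conj hb' g x, e]
      exact hx
  · rintro ⟨b, hb, hba, hx⟩
    exact ⟨g⁻¹ * b * g, h.Sh_conj hb g, MM_eq_conj' h ha hb.1 g hba,
      (h.Z1_conj hb.1 g x).2 hx⟩

end Pool.Agent.Helper59.EI
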